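import Mathlib

/-! Row R13 of P16 (MP_fc7ad9_lc): the arithmetic of the ladder. -/

set_option autoImplicit false

namespace WJ

theorem ja_exp (C1 e0 : ℕ) : ∀ r : ℕ,
    C1 * (100 * (r + 1) ^ 3 + 1) ^ C1 + e0 * (r + 1) ≤
      (C1 * 101 ^ C1 + e0) * (r + 1) ^ (3 * C1 + 1) := by
  intro r
  have h0 : 1 ≤ (r + 1) ^ 3 := Nat.one_le_pow _ _ (Nat.succ_pos r)
  have h1 : 100 * (r + 1) ^ 3 + 1 ≤ 101 * (r + 1) ^ 3 := by omega
  have h2 : (100 * (r + 1) ^ 3 + 1) ^ C1 ≤ 101 ^ C1 * (r + 1) ^ (3 * C1) := by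
    calc (100 * (r + 1) ^ 3 + 1) ^ C1 ≤ (101 * (r + 1) ^ 3) ^ C1 :=
          Nat.pow_le_pow_left h1 C1
      _ = 101 ^ C1 * (r + 1) ^ (3 * C1) := by rw [mul_pow, ← pow_mul]
  have h4 : (r + 1) ^ (3 * C1) ≤ (r + 1) ^ (3 * C1 + 1) :=
    Nat.pow_le_pow_right (Nat.succ_pos r) (Nat.le_succ _)
  have h5 : r + 1 ≤ (r + 1) ^ (3 * C1 + 1) := by
    calc r + 1 = (r + 1) ^ 1 := (pow_one _).symm
      _ ≤ (r + 1) ^ (3 * C1 + 1) := Nat.pow_le_pow_right (Nat.succ_pos r) (by omega)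
  calc C1 * (100 * (r + 1) ^ 3 + 1) ^ C1 + e0 * (r + 1)
      ≤ C1 * (101 ^ C1 * (r + 1) ^ (3 * C1 + 1)) + e0 * (r + 1) ^ (3 * C1 + 1) :=
        Nat.add_le_add (Nat.mul_le_mul_left _ (h2.trans (Nat.mul_le_mul_left _ h4)))
          (Nat.mul_le_mul_left _ h5)
    _ = (C1 * 101 ^ C1 + e0) * (r + 1) ^ (3 * C1 + 1) := by ring

theorem ja_add_pow (a b : ℕ) : a + 2 ^ b ≤ 2 ^ (b + a) := by
  have h1 : a + 1 ≤ 2 ^ a := Nat.lt_two_pow_self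
  have h2 : 1 ≤ 2 ^ b := Nat.one_le_two_pow
  calc a + 2 ^ b ≤ a * 2 ^ b + 2 ^ b := by nlinarith
    _ = 2 ^ b * (a + 1) := by ring
    _ ≤ 2 ^ b * 2 ^ a := Nat.mul_le_mul_left _ h1
    _ = 2 ^ (b + a) := (pow_add 2 b a).symm

/-- the arithmetic of the ladder with jokers -/
theorem joker_arith (C0 C1 a0 e0 : ℕ) : ∃ C : ℕ, ∀ k v r d0 : ℕ,
    k * ((2 * (a0 * ((v + 2) ^ (C0 * (k + 1)) + v + 6) ^ 3 * (r + 1) ^ e0 *
      2 ^ (2 ^ (C1 * (100 * (r + 1) ^ 3 + 1) ^ C1)))) ^ k * (2 * d0)) ≤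
    d0 * ((v + 2) ^ (C * (k + 1) ^ 2) * 2 ^ ((k + 1) * 2 ^ (C * (r + 1) ^ C))) := by
  refine ⟨(C1 * 101 ^ C1 + e0) + (3 * C1 + 1) + (a0 + 3 * C0 + 16), fun k v r d0 => ?_⟩
  set C := (C1 * 101 ^ C1 + e0) + (3 * C1 + 1) + (a0 + 3 * C0 + 16) with hC
  set P := v + 2 with hP
  have hP2 : 2 ≤ P := by omega
  set N := P ^ (C0 * (k + 1)) with hN
  set E := C1 * (100 * (r + 1) ^ 3 + 1) ^ C1 with hE
  set E' := E + e0 * (r + 1) with hE'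
  -- the number part
  have h1 : N + v + 6 ≤ P ^ (C0 * (k + 1) + 4) := by
    have e1 : v + 6 ≤ P ^ 3 := by
      have : P ^ 3 = (v + 2) ^ 3 := by rw [hP]
      rw [this]
      nlinarith [Nat.zero_le (v ^ 3), Nat.zero_le (v ^ 2)]
    have e2 : N ≤ P ^ (C0 * (k + 1) + 3) := Nat.pow_le_pow_right (by omega) (by omega)
    have e3 : P ^ 3 ≤ P ^ (C0 * (k + 1) + 3) := Nat.pow_le_pow_right (by omega) (by omega)
    calc N + v + 6 = N + (v + 6) := by ring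
      _ ≤ P ^ (C0 * (k + 1) + 3) + P ^ (C0 * (k + 1) + 3) :=
          Nat.add_le_add e2 (e1.trans e3)
      _ = 2 * P ^ (C0 * (k + 1) + 3) := by ring
      _ ≤ P * P ^ (C0 * (k + 1) + 3) := Nat.mul_le_mul_right _ hP2
      _ = P ^ (C0 * (k + 1) + 4) := by rw [← pow_succ']
  have h2 : 2 * a0 ≤ P ^ (a0 + 1) := by
    calc 2 * a0 ≤ 2 * 2 ^ a0 := Nat.mul_le_mul_left _ Nat.lt_two_pow_self.le
      _ = 2 ^ (a0 + 1) := by rw [pow_succ']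
      _ ≤ P ^ (a0 + 1) := Nat.pow_le_pow_left hP2 _
  have h3 : (r + 1) ^ e0 * 2 ^ (2 ^ E) ≤ 2 ^ (2 ^ E') := by
    calc (r + 1) ^ e0 * 2 ^ (2 ^ E) ≤ (2 ^ (r + 1)) ^ e0 * 2 ^ (2 ^ E) :=
          Nat.mul_le_mul_right _ (Nat.pow_le_pow_left Nat.lt_two_pow_self.le _)
      _ = 2 ^ (e0 * (r + 1) + 2 ^ E) := by rw [← pow_mul, ← pow_add, mul_comm (r + 1) e0]
      _ ≤ 2 ^ (2 ^ E') := Nat.pow_le_pow_right (by norm_num) (ja_add_pow _ _)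
  have h4 : 2 * (a0 * (N + v + 6) ^ 3 * (r + 1) ^ e0 * 2 ^ (2 ^ E)) ≤
      P ^ (a0 + 3 * C0 * (k + 1) + 13) * 2 ^ (2 ^ E') := by
    calc 2 * (a0 * (N + v + 6) ^ 3 * (r + 1) ^ e0 * 2 ^ (2 ^ E))
        = (2 * a0) * (N + v + 6) ^ 3 * ((r + 1) ^ e0 * 2 ^ (2 ^ E)) := by ring
      _ ≤ P ^ (a0 + 1) * (P ^ (C0 * (k + 1) + 4)) ^ 3 * 2 ^ (2 ^ E') :=
          Nat.mul_le_mul (Nat.mul_le_mul h2 (Nat.pow_le_pow_left h1 3)) h3
      _ = P ^ (a0 + 3 * C0 * (k + 1) + 13) * 2 ^ (2 ^ E') := by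
          rw [← pow_mul, ← pow_add]
          congr 2
          ring
  have h5 : k * (2 * d0) ≤ P ^ (k + 1) * d0 := by
    calc k * (2 * d0) ≤ 2 ^ k * (2 * d0) :=
          Nat.mul_le_mul_right _ Nat.lt_two_pow_self.le
      _ = 2 ^ (k + 1) * d0 := by ring
      _ ≤ P ^ (k + 1) * d0 := Nat.mul_le_mul_right _ (Nat.pow_le_pow_left hP2 _)
  have h6 : E' ≤ C * (r + 1) ^ C := by
    refine (ja_exp C1 e0 r).trans ?_
    exact Nat.mul_le_mul (by omega) (Nat.pow_le_pow_right (Nat.succ_pos r) (by omega))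
  have h7 : (2 ^ (2 ^ E')) ^ k ≤ 2 ^ ((k + 1) * 2 ^ (C * (r + 1) ^ C)) := by
    rw [← pow_mul]
    refine Nat.pow_le_pow_right (by norm_num) ?_
    calc 2 ^ E' * k ≤ 2 ^ (C * (r + 1) ^ C) * (k + 1) :=
          Nat.mul_le_mul (Nat.pow_le_pow_right (by norm_num) h6) (by omega)
      _ = (k + 1) * 2 ^ (C * (r + 1) ^ C) := mul_comm _ _
  calc k * ((2 * (a0 * (N + v + 6) ^ 3 * (r + 1) ^ e0 * 2 ^ (2 ^ E))) ^ k * (2 * d0))
      = (2 * (a0 * (N + v + 6) ^ 3 * (r + 1) ^ e0 * 2 ^ (2 ^ E))) ^ k * (k * (2 * d0)) := by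
        ring
    _ ≤ (P ^ (a0 + 3 * C0 * (k + 1) + 13) * 2 ^ (2 ^ E')) ^ k * (P ^ (k + 1) * d0) :=
        Nat.mul_le_mul (Nat.pow_le_pow_left h4 k) h5
    _ = d0 * (P ^ ((a0 + 3 * C0 * (k + 1) + 13) * k + (k + 1)) * (2 ^ (2 ^ E')) ^ k) := by
        rw [mul_pow, ← pow_mul, pow_add]
        ring
    _ ≤ d0 * (P ^ (C * (k + 1) ^ 2) * 2 ^ ((k + 1) * 2 ^ (C * (r + 1) ^ C))) := by
        refine Nat.mul_le_mul_left _ (Nat.mul_le_mul (Nat.pow_le_pow_right (by omega) ?_) h7)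
        have e1 : (a0 + 3 * C0 * (k + 1) + 13) * k + (k + 1) ≤
            (a0 + 3 * C0 + 16) * (k + 1) ^ 2 := by
          nlinarith [Nat.zero_le (a0 * k), Nat.zero_le (C0 * k), Nat.zero_le (a0 * k * k),
            Nat.zero_le (k * k)]
        exact e1.trans (Nat.mul_le_mul_right _ (by omega))

/-- arithmetic of one rung -/
theorem rung_arith {N v r t W S d0 d M0 M Gl m w F : ℕ} (hW : 1 ≤ W) (ht : 1 ≤ t)
    (hd : d = (v + 1) * (S + d0)) (hd0 : 1 ≤ d0) (hG : Gl ≤ (v + 2) * d)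
    (hM0 : M0 = ((N + 3) * d + Gl + 1) * W) (hM : M = 2 * (t * M0 + d) + Gl)
    (hm : m = 2 * r) (hw : w = 8 * (2 * m + 3) * M + 2 + d) (hF : F = 64 * (N + 3) * w) :
    F ≤ (12800 * (N + v + 6) ^ 3 * (r + 1) * t * W) * (S + d0) := by
  have hd1 : 1 ≤ d := by
    rw [hd]
    exact Nat.mul_pos (Nat.succ_pos _) (by omega)
  have h1 : M0 ≤ (N + v + 6) * d * W := by
    rw [hM0]
    refine Nat.mul_le_mul_right _ ?_
    calc (N + 3) * d + Gl + 1 ≤ (N + 3) * d + (v + 2) * d + d := by omega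
      _ = (N + v + 6) * d := by ring
  have hT : d ≤ t * ((N + v + 6) * d * W) := by
    calc d = 1 * (1 * d * 1) := by ring
      _ ≤ t * ((N + v + 6) * d * W) :=
        Nat.mul_le_mul ht (Nat.mul_le_mul (Nat.mul_le_mul_right _ (by omega)) hW)
  have hT2 : (v + 2) * d ≤ t * ((N + v + 6) * d * W) := by
    calc (v + 2) * d = 1 * ((v + 2) * d * 1) := by ring
      _ ≤ t * ((N + v + 6) * d * W) :=
        Nat.mul_le_mul ht (Nat.mul_le_mul (Nat.mul_le_mul_right _ (by omega)) hW)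
  obtain ⟨X, hX⟩ : ∃ X, X = t * ((N + v + 6) * d * W) := ⟨_, rfl⟩
  rw [← hX] at hT hT2
  have h2 : M ≤ 5 * X := by
    rw [hM]
    have : t * M0 ≤ X := by
      rw [hX]
      exact Nat.mul_le_mul_left _ h1
    omega
  have h3 : w ≤ 199 * (r + 1) * X := by
    rw [hw, hm]
    have e1 : 8 * (2 * (2 * r) + 3) * M ≤ 8 * (4 * (r + 1)) * (5 * X) :=
      Nat.mul_le_mul (by omega) h2
    have e2 : X ≤ (r + 1) * X := Nat.le_mul_of_pos_left _ (Nat.succ_pos r)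
    have e3 : 8 * (4 * (r + 1)) * (5 * X) = 160 * ((r + 1) * X) := by ring
    have e4 : 199 * (r + 1) * X = 199 * ((r + 1) * X) := by ring
    rw [e4]
    omega
  rw [hF]
  calc 64 * (N + 3) * w ≤ 64 * (N + v + 6) * (199 * (r + 1) * X) :=
        Nat.mul_le_mul (by omega) h3
    _ = 12736 * (N + v + 6) ^ 2 * (r + 1) * t * W * ((v + 1) * (S + d0)) := by
        rw [hX, hd]
        ring
    _ ≤ 12800 * (N + v + 6) ^ 2 * (r + 1) * t * W * ((N + v + 6) * (S + d0)) := by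
        refine Nat.mul_le_mul ?_ (Nat.mul_le_mul_right _ (by omega))
        gcongr
        omega
    _ = (12800 * (N + v + 6) ^ 3 * (r + 1) * t * W) * (S + d0) := by ring

end WJ
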