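import Pool.Agent.WJ.Defs23

/-! Word equations with boundedly many repeated variables (MP_fc7ad9_lc). Helper module:
the type of all atoms and the list of all words of atoms that are used. -/

set_option autoImplicit false

namespace WJ

universe u w

/-- all factors of a list -/
def infs23 {B : Type*} (l : List B) : List (List B) := l.tails.flatMap List.inits

theorem mem_infs23 {B : Type*} {l b : List B} : b ∈ infs23 l ↔ b <:+: l := by
  rw [List.infix_iff_prefix_suffix]
  simp only [infs23, List.mem_flatMap, List.mem_tails, List.mem_inits]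
  constructor
  · rintro ⟨t, h1, h2⟩
    exact ⟨t, h2, h1⟩
  · rintro ⟨t, h1, h2⟩
    exact ⟨t, h2, h1⟩

theorem length_infs23 {B : Type*} (l : List B) :
    (infs23 l).length ≤ (l.length + 1) * (l.length + 1) := by
  rw [infs23, List.length_flatMap]
  have h : ∀ x ∈ l.tails.map (fun t => t.inits.length), x ≤ l.length + 1 := by
    intro x hx
    obtain ⟨t, ht, rfl⟩ := List.mem_map.1 hx
    rw [List.length_inits]
    exact Nat.succ_le_succ ((List.mem_tails _ _).1 ht).length_le
  have h2 := List.sum_le_card_nsmul _ _ h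
  rw [List.length_map, List.length_tails, smul_eq_mul] at h2
  exact h2

/-- a family of short lists of words is the image of lists over one finite type -/
theorem exists_atoms {A : Type u} {X : Type w} [Fintype X] (rl : X → Prop) (r : ℕ)
    (hr : Nat.card {x // rl x} ≤ r) (as bs : X → List (List A))
    (has : ∀ x, rl x → (as x).length ≤ 3 * (2 * r) + 2)
    (hbs : ∀ x, rl x → (bs x).length ≤ 3 * (2 * r) + 2) :
    ∃ (Y : Type w) (_ : Fintype Y) (θ : Y → List A) (aL bL : X → List Y)
      (Wl : List (List Y)), Fintype.card Y ≤ 100 * (r + 1) ^ 3 ∧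
      Wl.length ≤ 100 * (r + 1) ^ 3 ∧ (∀ a ∈ Wl, a.length ≤ 100 * (r + 1) ^ 3) ∧ [] ∈ Wl ∧
      (∀ x, rl x → (aL x).map θ = as x ∧ (bL x).map θ = bs x ∧ aL x ∈ Wl ∧ bL x ∈ Wl) ∧
      (∀ a ∈ Wl, ∀ b, b <:+: a → b ∈ Wl) ∧
      (∀ a ∈ Wl, a = [] ∨ ∃ x, rl x ∧ (a <:+: aL x ∨ a <:+: bL x)) := by
  classical
  let m : ℕ := 3 * (2 * r) + 2
  have hcr : Fintype.card {x // rl x} ≤ r := by
    rw [← Nat.card_eq_fintype_card]
    exact hr
  let aL : X → List ({x // rl x} × Bool × Fin m) := fun x =>
    if h : rl x then List.ofFn (fun i : Fin (as x).length =>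
      ((⟨x, h⟩ : {x // rl x}), false, (⟨i, lt_of_lt_of_le i.2 (has x h)⟩ : Fin m))) else []
  let bL : X → List ({x // rl x} × Bool × Fin m) := fun x =>
    if h : rl x then List.ofFn (fun i : Fin (bs x).length =>
      ((⟨x, h⟩ : {x // rl x}), true, (⟨i, lt_of_lt_of_le i.2 (hbs x h)⟩ : Fin m))) else []
  let θ : {x // rl x} × Bool × Fin m → List A := fun y =>
    if y.2.1 then (bs y.1.1).getD y.2.2 [] else (as y.1.1).getD y.2.2 []
  let Wl : List (List ({x // rl x} × Bool × Fin m)) := [] ::
    (Finset.univ : Finset {x // rl x}).toList.flatMap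
      (fun x => infs23 (aL x.1) ++ infs23 (bL x.1))
  have haL : ∀ x, rl x → (aL x).length ≤ m := by
    intro x hx
    simp only [aL, dif_pos hx, List.length_ofFn]
    exact has x hx
  have hbL : ∀ x, rl x → (bL x).length ≤ m := by
    intro x hx
    simp only [bL, dif_pos hx, List.length_ofFn]
    exact hbs x hx
  have hmem : ∀ a, a ∈ Wl ↔ a = [] ∨ ∃ x, rl x ∧ (a <:+: aL x ∨ a <:+: bL x) := by
    intro a
    simp only [Wl, List.mem_cons, List.mem_flatMap, Finset.mem_toList, Finset.mem_univ,
      true_and, List.mem_append, mem_infs23, Subtype.exists]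
    constructor
    · rintro (h | ⟨x, hx, h⟩)
      · exact Or.inl h
      · exact Or.inr ⟨x, hx, h⟩
    · rintro (h | ⟨x, hx, h⟩)
      · exact Or.inl h
      · exact Or.inr ⟨x, hx, h⟩
  have hm : m ≤ 100 * (r + 1) ^ 3 := by
    simp only [m]
    nlinarith [Nat.zero_le (r ^ 3), Nat.zero_le (r ^ 2)]
  refine ⟨{x // rl x} × Bool × Fin m, inferInstance, θ, aL, bL, Wl, ?_, ?_, ?_, ?_, ?_, ?_,
    fun a ha => (hmem a).1 ha⟩
  · rw [Fintype.card_prod, Fintype.card_prod, Fintype.card_bool, Fintype.card_fin]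
    calc Fintype.card {x // rl x} * (2 * m) ≤ r * (2 * m) := Nat.mul_le_mul_right _ hcr
      _ ≤ _ := by
        simp only [m]
        nlinarith [Nat.zero_le (r ^ 3), Nat.zero_le (r ^ 2)]
  · simp only [Wl, List.length_cons, List.length_flatMap]
    have h : ∀ z ∈ (Finset.univ : Finset {x // rl x}).toList.map
        (fun x => (infs23 (aL x.1) ++ infs23 (bL x.1)).length), z ≤ 2 * ((m + 1) * (m + 1)) := by
      intro z hz
      obtain ⟨x, -, rfl⟩ := List.mem_map.1 hz
      rw [List.length_append]
      have e1 := length_infs23 (aL x.1)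
      have e2 := length_infs23 (bL x.1)
      have e3 := haL x.1 x.2
      have e4 := hbL x.1 x.2
      have e5 : ((aL x.1).length + 1) * ((aL x.1).length + 1) ≤ (m + 1) * (m + 1) :=
        Nat.mul_le_mul (by omega) (by omega)
      have e6 : ((bL x.1).length + 1) * ((bL x.1).length + 1) ≤ (m + 1) * (m + 1) :=
        Nat.mul_le_mul (by omega) (by omega)
      omega
    have h2 := List.sum_le_card_nsmul _ _ h
    rw [List.length_map, Finset.length_toList, Finset.card_univ, smul_eq_mul] at h2
    have h3 : Fintype.card {x // rl x} * (2 * ((m + 1) * (m + 1))) ≤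
        r * (2 * ((m + 1) * (m + 1))) := Nat.mul_le_mul_right _ hcr
    have h4 : r * (2 * ((m + 1) * (m + 1))) + 1 ≤ 100 * (r + 1) ^ 3 := by
      simp only [m]
      nlinarith [Nat.zero_le (r ^ 3), Nat.zero_le (r ^ 2)]
    omega
  · intro a ha
    rcases (hmem a).1 ha with h | ⟨x, hx, h⟩
    · rw [h]
      exact Nat.zero_le _
    · have h1 : a.length ≤ m := by
        rcases h with h | h
        · exact h.length_le.trans (haL x hx)
        · exact h.length_le.trans (hbL x hx)
      exact h1.trans hm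
  · exact (hmem _).2 (Or.inl rfl)
  · intro x hx
    refine ⟨?_, ?_, (hmem _).2 (Or.inr ⟨x, hx, Or.inl (List.infix_refl _)⟩),
      (hmem _).2 (Or.inr ⟨x, hx, Or.inr (List.infix_refl _)⟩)⟩
    · simp only [aL, dif_pos hx, List.map_ofFn]
      refine List.ext_getElem (by simp) fun i h1 h2 => ?_
      simp [θ, h2]
    · simp only [bL, dif_pos hx, List.map_ofFn]
      refine List.ext_getElem (by simp) fun i h1 h2 => ?_
      simp [θ, h2]
  · intro a ha b hb
    rcases (hmem a).1 ha with h | ⟨x, hx, h⟩
    · rw [h] at hb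
      exact (hmem _).2 (Or.inl (List.infix_nil.1 hb))
    · refine (hmem _).2 (Or.inr ⟨x, hx, ?_⟩)
      rcases h with h | h
      · exact Or.inl (hb.trans h)
      · exact Or.inr (hb.trans h)

end WJ
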