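import Pool.Agent.WK.Words66D
import Pool.Agent.WE45.Enc

/-! Word equations with few repeated variables (MP_fc7ad9_lc). Helper module:
common definitions. -/

set_option autoImplicit false

open WE45 WK

namespace WJ

/-- a critical cut: a short local period is excluded -/
def Crit {A : Type*} (w : ℕ) (a c : List A) : Prop :=
  a.length = w ∧ c.length = w ∧ ∀ q, 1 ≤ q → 2 * q < w → a.drop (w - q) ≠ c.take q

/-- the cut rule given by a family of markers -/
def KZ {A ι : Type*} (ma mc : ι → List A) (h f : List A) : Prop :=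
  ∃ z, ma z <:+ h ∧ mc z <+: f

/-- a two-sided cut rule that sees `w` letters on each side -/
def Loc2 {A : Type*} (w : ℕ) (K : List A → List A → Prop) : Prop :=
  ∀ h t f g, w ≤ t.length → w ≤ f.length → (K (h ++ t) (f ++ g) ↔ K t f)

/-- all data of the cut repeated variables -/
structure CutData {A X : Type*} (w N m : ℕ) (K : List A → List A → Prop)
    (σ pre mid suf : X → List A) (as bs : X → List (List A)) (lgR : X → Prop) : Prop where
  loc : Loc2 w K
  needs : ∀ h f, K h f → w ≤ h.length ∧ w ≤ f.length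
  split : ∀ x, lgR x → σ x = pre x ++ mid x ++ suf x
  preL : ∀ x, lgR x → w ≤ (pre x).length ∧ (pre x).length ≤ (N + 2) * w
  sufL : ∀ x, lgR x → w ≤ (suf x).length ∧ (suf x).length ≤ (N + 2) * w
  cutL : ∀ x, lgR x → K (pre x) (mid x ++ suf x)
  cutR : ∀ x, lgR x → K (pre x ++ mid x) (suf x)
  as_flat : ∀ x, lgR x → (as x).flatten = suf x ∧ (as x).length ≤ 3 * m + 2 ∧
    ∀ b ∈ as x, b ≠ []
  bs_flat : ∀ x, lgR x → (bs x).flatten = pre x ∧ (bs x).length ≤ 3 * m + 2 ∧
    ∀ b ∈ bs x, b ≠ []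
  as_bd : ∀ x, lgR x → ∀ t r f, suf x = t ++ r → K (pre x ++ mid x ++ t) (r ++ f) →
    ∃ a1 a2, as x = a1 ++ a2 ∧ a1.flatten = t ∧ a2.flatten = r
  bs_bd : ∀ x, lgR x → ∀ h t r, pre x = t ++ r → K (h ++ t) (r ++ mid x ++ suf x) →
    ∃ b1 b2, bs x = b1 ++ b2 ∧ b1.flatten = t ∧ b2.flatten = r
  sparse : ∀ (h u f : List A) (P : Finset ℕ), (∀ i ∈ P, 1 ≤ i ∧ i ≤ u.length ∧
    K (h ++ u.take i) (u.drop i ++ f)) → P.card * w ≤ m * (2 * u.length + w)

/-- evaluation of a word of atoms -/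
def fl {A Y : Type*} (θ : Y → List A) (a : List Y) : List A := a.flatMap θ

/-- block boundaries inside the atoms on the left are boundaries of atoms -/
def BPL {A Y : Type*} (θ : Y → List A) (a : List Y) (D : List (List A)) : Prop :=
  ∀ D1 D2, D = D1 ++ D2 → D1.flatten.length ≤ (fl θ a).length →
    ∃ a1 a2, a = a1 ++ a2 ∧ D1.flatten = fl θ a1

/-- block boundaries inside the atoms on the right are boundaries of atoms -/
def BPR {A Y : Type*} (θ : Y → List A) (b : List Y) (D : List (List A)) : Prop :=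
  ∀ D1 D2, D = D1 ++ D2 → D2.flatten.length ≤ (fl θ b).length →
    ∃ b1 b2, b = b1 ++ b2 ∧ D2.flatten = fl θ b2

/-- the new atoms keep the relations of the old ones -/
structure Keeps {A Y : Type*} (θ θ' : Y → List A) (W : List Y → Prop) (d : ℕ)
    (Gs : List (List A)) : Prop where
  eq : ∀ a b a' b', W a → W b → W a' → W b' → ∀ g g' : List A, g.length ≤ d →
    g'.length ≤ d → fl θ a ++ g ++ fl θ b = fl θ a' ++ g' ++ fl θ b' →
    fl θ' a ++ g ++ fl θ' b = fl θ' a' ++ g' ++ fl θ' b'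
  pre : ∀ a a' b', W a → W a' → W b' → ∀ g g' : List A, g.length ≤ d →
    g'.length ≤ d → fl θ a ++ g <+: fl θ a' ++ g' ++ fl θ b' →
    fl θ' a ++ g <+: fl θ' a' ++ g' ++ fl θ' b'
  suf : ∀ b a' b', W b → W a' → W b' → ∀ g g' : List A, g.length ≤ d →
    g'.length ≤ d → g ++ fl θ b <:+ fl θ a' ++ g' ++ fl θ b' →
    g ++ fl θ' b <:+ fl θ' a' ++ g' ++ fl θ' b'
  fac : ∀ G ∈ Gs, ∀ a b, W a → W b → ∀ g : List A, g.length ≤ d →
    G <:+: fl θ a ++ g ++ fl θ b → G <:+: fl θ' a ++ g ++ fl θ' b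

/-- properties of the replacement of blocks -/
structure PhiOK {A Y : Type*} (θ θ' : Y → List A) (W : List Y → Prop) (d : ℕ)
    (Gs : List (List A)) (φ : List A → List A) : Prop where
  form : ∀ a b, W a → W b → ∀ g : List A, g.length ≤ d →
    φ (fl θ a ++ g ++ fl θ b) = fl θ' a ++ g ++ fl θ' b
  pre : ∀ a, W a → ∀ g B : List A, g.length ≤ d → fl θ a ++ g <+: B →
    fl θ' a ++ g <+: φ B
  suf : ∀ b, W b → ∀ g B : List A, g.length ≤ d → g ++ fl θ b <:+ B →
    g ++ fl θ' b <:+ φ B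
  fac : ∀ G ∈ Gs, ∀ B : List A, G <:+: B → G <:+: φ B

/-- insert the word `Z` before every letter whose suffix satisfies `P` -/
noncomputable def ins {A : Type*} (Z : List A) (P : List A → Prop) : List A → List A
  | [] => []
  | a :: u => (@ite _ (P (a :: u)) (Classical.dec _) Z []) ++ a :: ins Z P u

/-- words of length `q` that start inside a symbol of a side and are not inside the value of
one variable -/
def Win {A X : Type*} (σ : X → List A) (E : List (List (A ⊕ X) × List (A ⊕ X))) (q : ℕ)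
    (z : List A) : Prop :=
  z.length = q ∧ ∃ t ∈ E, ∃ l, (l = t.1 ∨ l = t.2) ∧ ∃ l1 s l2, l = l1 ++ s :: l2 ∧
    ∃ i, i < (sb σ [s]).length ∧ z = ((sb σ (s :: l2)).drop i).take q ∧
      (s.isLeft ∨ (sb σ [s]).length < i + q)

end WJ
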