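import Pool.Agent.WJ.Blk64
import Pool.Agent.WJ.Defs23

/-! Word equations with boundedly many repeated variables (MP_fc7ad9_lc). Helper module:
block boundaries inside the ends of a long repeated variable are boundaries of atoms. -/

namespace WJ

open WE45 WK64

variable {A X : Type*}

section

variable {K : List A → List A → Prop} [∀ h f, Decidable (K h f)] {l : ℕ}

/-- a boundary is not inside a block -/
theorem cut_cmp66 {L G1 G2 D1 D2 : List (List A)} {b : List A} (h : L = G1 ++ G2)
    (h' : L = D1 ++ b :: D2) : G1.flatten.length ≤ D1.flatten.length ∨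
      D1.flatten.length + b.length ≤ G1.flatten.length := by
  have h1 : G1 <+: L := ⟨G2, h.symm⟩
  have h2 : D1 ++ [b] <+: L := ⟨D2, by rw [h']; simp⟩
  rcases le_total G1.length D1.length with h3 | h3
  · left
    have h4 : G1 <+: D1 := List.prefix_of_prefix_length_le h1 ⟨b :: D2, h'.symm⟩ h3
    obtain ⟨s, rfl⟩ := h4
    rw [List.flatten_append, List.length_append]
    exact Nat.le_add_right _ _
  · rcases h3.eq_or_lt with h3 | h3
    · left
      have h4 : G1 <+: D1 := List.prefix_of_prefix_length_le h1 ⟨b :: D2, h'.symm⟩ h3.symm.le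
      obtain ⟨s, rfl⟩ := h4
      rw [List.flatten_append, List.length_append]
      exact Nat.le_add_right _ _
    · right
      have h4 : D1 ++ [b] <+: G1 := List.prefix_of_prefix_length_le h2 h1
        (by rw [List.length_append, List.length_singleton]; omega)
      obtain ⟨s, rfl⟩ := h4
      rw [List.flatten_append, List.flatten_append, List.flatten_singleton, List.length_append,
        List.length_append]
      exact Nat.le_add_right _ _

/-- a boundary of `dd` after a cut, close to it, is a cut -/
theorem dd_cut_after (hl : 1 ≤ l) {v z : List A} (hv : v ≠ []) (hK : K v z)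
    {F1 F2 : List (List A)} (h : dd K l (v ++ z) = F1 ++ F2) (h1 : F1 ≠ []) (h2 : F2 ≠ [])
    (h3 : v.length ≤ F1.flatten.length) (h4 : F1.flatten.length < v.length + l) :
    K F1.flatten F2.flatten := by
  rcases dd_boundary K hl h h1 h2 with h5 | ⟨D1, D2, b1, b2, g1, g2, g3, g4, g5⟩
  · exact h5
  · exfalso
    obtain ⟨G1, G2, k1, k2, k3, k4, k5⟩ := boundary_of_K K hv hK
    have h6 := cut_cmp66 k1 g1
    rw [k2] at h6
    rw [g2, List.length_append] at h3 h4
    rw [List.length_append] at h6
    omega

/-- a boundary of `dd` before a cut, close to it, is a cut -/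
theorem dd_cut_before (hl : 1 ≤ l) {v z : List A} (hv : v ≠ []) (hK : K v z)
    {F1 F2 : List (List A)} (h : dd K l (v ++ z) = F1 ++ F2) (h1 : F1 ≠ []) (h2 : F2 ≠ [])
    (h3 : F1.flatten.length ≤ v.length) (h4 : v.length < F1.flatten.length + l) :
    K F1.flatten F2.flatten := by
  rcases dd_boundary K hl h h1 h2 with h5 | ⟨D1, D2, b1, b2, g1, g2, g3, g4, g5⟩
  · exact h5
  · exfalso
    obtain ⟨G1, G2, k1, k2, k3, k4, k5⟩ := boundary_of_K K hv hK
    have h6 := cut_cmp66 k1 g1
    rw [k2] at h6
    rw [g2, List.length_append] at h3 h4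
    rw [List.length_append] at h6
    omega

variable {w N m : ℕ} {σ pre mid suf : X → List A} {as bs : X → List (List A)} {rl : X → Prop}

/-- boundaries inside the right end of a long repeated variable -/
theorem CutData.bpl (hC : CutData w N m K σ pre mid suf as bs rl) (hw : 1 ≤ w) {l : ℕ}
    (hl : (N + 2) * w ≤ l) {x : X} (hx : rl x) (u f : List A) {E0 E2 : List (List A)}
    (h : dd K l (u ++ (σ x ++ f)) = E0 ++ E2) (hE : E2.flatten = suf x ++ f) :
    ∀ D1 D2, E2 = D1 ++ D2 → D1.flatten.length ≤ (suf x).length →
      ∃ a1 a2, as x = a1 ++ a2 ∧ D1.flatten = a1.flatten := by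
  intro D1 D2 hD hlen
  have hl1 : w ≤ l := le_trans (by nlinarith [Nat.zero_le (N * w)]) hl
  subst hD
  rw [List.flatten_append] at hE
  have hpre : D1.flatten <+: suf x :=
    List.prefix_of_prefix_length_le (l₃ := suf x ++ f) ⟨_, hE⟩ (List.prefix_append _ _) hlen
  obtain ⟨r, hr⟩ := hpre
  have hD2 : D2.flatten = r ++ f := by
    rw [← hr, List.append_assoc] at hE
    exact List.append_cancel_left hE
  obtain ⟨hf1, _, _⟩ := hC.as_flat x hx
  rcases eq_or_ne D1.flatten [] with h0 | h0
  · exact ⟨[], as x, by simp, by rw [h0]; rfl⟩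
  rcases eq_or_ne r [] with h00 | h00
  · refine ⟨as x, [], by simp, ?_⟩
    rw [hf1, ← hr, h00, List.append_nil]
  have hE0 : E0.flatten = u ++ pre x ++ mid x := by
    have := flatten_dd K l (u ++ (σ x ++ f))
    rw [h, List.flatten_append, List.flatten_append, hE, hC.split x hx] at this
    have e : u ++ (pre x ++ mid x ++ suf x ++ f) = (u ++ pre x ++ mid x) ++ (suf x ++ f) := by
      simp only [List.append_assoc]
    rw [e] at this
    exact List.append_cancel_right this
  have hpl := (hC.preL x hx).1
  have hsl := hC.sufL x hx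
  have hcut : K (u ++ pre x ++ mid x) (suf x ++ f) := by
    rw [List.append_assoc]
    exact (hC.loc u (pre x ++ mid x) (suf x) f (by rw [List.length_append]; omega)
      hsl.1).2 (hC.cutR x hx)
  have hne : u ++ pre x ++ mid x ≠ [] := by
    intro h5
    have := congrArg List.length h5
    simp only [List.length_append, List.length_nil] at this
    omega
  have hW : u ++ (σ x ++ f) = (u ++ pre x ++ mid x) ++ (suf x ++ f) := by
    rw [hC.split x hx]
    simp only [List.append_assoc]
  have hrlen : 1 ≤ r.length := List.length_pos_iff.2 h00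
  have hlen2 : D1.flatten.length + r.length = (suf x).length := by
    rw [← hr, List.length_append]
  have hK : K (E0 ++ D1).flatten D2.flatten := by
    refine dd_cut_after (l := l) (by omega) hne hcut (by rw [← hW, h, List.append_assoc])
      ?_ ?_ ?_ ?_
    · intro h5
      have := (List.append_eq_nil_iff.1 h5).2
      rw [this] at h0
      exact h0 rfl
    · intro h5
      rw [h5] at hD2
      have := congrArg List.length hD2
      rw [List.length_append, List.flatten_nil, List.length_nil] at this
      omega
    · rw [List.flatten_append, hE0, List.length_append (as := u ++ pre x ++ mid x)]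
      omega
    · rw [List.flatten_append, hE0, List.length_append (as := u ++ pre x ++ mid x)]
      omega
  rw [List.flatten_append, hE0, hD2] at hK
  have hn := (hC.needs _ _ hK).2
  have hK2 : K (pre x ++ mid x ++ D1.flatten) (r ++ f) := by
    have := (hC.loc u (pre x ++ mid x ++ D1.flatten) (r ++ f) []
      (by simp only [List.length_append]; omega) hn).1 (by simpa using hK)
    exact this
  obtain ⟨a1, a2, h6, h7, _⟩ := hC.as_bd x hx D1.flatten r f hr.symm hK2
  exact ⟨a1, a2, h6, h7.symm⟩

/-- boundaries inside the left end of a long repeated variable -/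
theorem CutData.bpr (hC : CutData w N m K σ pre mid suf as bs rl) (hw : 1 ≤ w) {l : ℕ}
    (hl : (N + 2) * w ≤ l) {x : X} (hx : rl x) (u f : List A) {E1 E3 : List (List A)}
    (h : dd K l (u ++ (σ x ++ f)) = E1 ++ E3) (hE : E1.flatten = u ++ pre x) :
    ∀ D1 D2, E1 = D1 ++ D2 → D2.flatten.length ≤ (pre x).length →
      ∃ b1 b2, bs x = b1 ++ b2 ∧ D2.flatten = b2.flatten := by
  intro D1 D2 hD hlen
  have hl1 : w ≤ l := le_trans (by nlinarith [Nat.zero_le (N * w)]) hl
  subst hD
  rw [List.flatten_append] at hE
  have hsuf : D2.flatten <:+ pre x :=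
    List.suffix_of_suffix_length_le (l₃ := u ++ pre x) ⟨_, hE⟩ (List.suffix_append _ _) hlen
  obtain ⟨t, ht⟩ := hsuf
  have hD1 : D1.flatten = u ++ t := by
    rw [← ht, ← List.append_assoc] at hE
    exact List.append_cancel_right hE
  obtain ⟨hf1, _, _⟩ := hC.bs_flat x hx
  rcases eq_or_ne D2.flatten [] with h0 | h0
  · exact ⟨bs x, [], by simp, by rw [h0]; rfl⟩
  rcases eq_or_ne t [] with h00 | h00
  · refine ⟨[], bs x, by simp, ?_⟩
    rw [hf1, ← ht, h00, List.nil_append]
  have hpl := hC.preL x hx
  have hsl := hC.sufL x hx
  have hE3 : E3.flatten = mid x ++ suf x ++ f := by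
    have := flatten_dd K l (u ++ (σ x ++ f))
    rw [h, List.flatten_append, List.flatten_append, hE, hC.split x hx] at this
    have e : u ++ (pre x ++ mid x ++ suf x ++ f) = (u ++ pre x) ++ (mid x ++ suf x ++ f) := by
      simp only [List.append_assoc]
    rw [e] at this
    exact List.append_cancel_left this
  have hcut : K (u ++ pre x) (mid x ++ suf x ++ f) :=
    (hC.loc u (pre x) (mid x ++ suf x) f hpl.1 (by rw [List.length_append]; omega)).2
      (hC.cutL x hx)
  have hne : u ++ pre x ≠ [] := by
    intro h5
    have := congrArg List.length h5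
    simp only [List.length_append, List.length_nil] at this
    omega
  have hW : u ++ (σ x ++ f) = (u ++ pre x) ++ (mid x ++ suf x ++ f) := by
    rw [hC.split x hx]
    simp only [List.append_assoc]
  have htlen : 1 ≤ t.length := List.length_pos_iff.2 h00
  have hlen2 : t.length + D2.flatten.length = (pre x).length := by
    rw [← ht, List.length_append]
  have hK : K D1.flatten (D2 ++ E3).flatten := by
    refine dd_cut_before (l := l) (by omega) hne hcut (by rw [← hW, h, List.append_assoc])
      ?_ ?_ ?_ ?_
    · intro h5
      rw [h5] at hD1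
      have := congrArg List.length hD1
      rw [List.length_append, List.flatten_nil, List.length_nil] at this
      omega
    · intro h5
      have := (List.append_eq_nil_iff.1 h5).1
      rw [this] at h0
      exact h0 rfl
    · rw [hD1, List.length_append, List.length_append]
      omega
    · rw [hD1, List.length_append, List.length_append]
      omega
  rw [List.flatten_append, hE3, hD1] at hK
  have hn := (hC.needs _ _ hK).1
  have hK2 : K (u ++ t) (D2.flatten ++ mid x ++ suf x) := by
    have := (hC.loc [] (u ++ t) (D2.flatten ++ mid x ++ suf x) f hn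
      (by simp only [List.length_append]; omega)).1 (by simpa using hK)
    exact this
  obtain ⟨b1, b2, h6, _, h7⟩ := hC.bs_bd x hx u t D2.flatten ht.symm hK2
  exact ⟨b1, b2, h6, h7.symm⟩

end

end WJ
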