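import Pool.Agent.WJ.Tag64

/-! Word equations with boundedly many repeated variables (MP_fc7ad9_lc). Helper module:
block lists of a word for a two sided rule, chopping, boundaries. -/

namespace WJ

open WE45 WK64

variable {A X : Type*}

section ChopB

/-- cut a block into pieces of length `l`, the last one of length less than `2 * l` -/
def chopF (l : ℕ) : ℕ → List A → List (List A)
  | 0, B => [B]
  | n + 1, B => if B.length < 2 * l then [B] else B.take l :: chopF l n (B.drop l)

/-- cut a block into pieces -/
def chopB (l : ℕ) (B : List A) : List (List A) := chopF l B.length B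

theorem flatten_chopF (l : ℕ) : ∀ (n : ℕ) (B : List A), (chopF l n B).flatten = B
  | 0, B => by simp [chopF]
  | n + 1, B => by
      simp only [chopF]
      split_ifs
      · simp
      · rw [List.flatten_cons, flatten_chopF l n, List.take_append_drop]

theorem flatten_chopB (l : ℕ) (B : List A) : (chopB l B).flatten = B := flatten_chopF l _ B

theorem chopF_lt {l : ℕ} (hl : 1 ≤ l) : ∀ (n : ℕ) (B : List A), B.length ≤ n →
    ∀ C ∈ chopF l n B, C.length < 2 * l
  | 0, B, hB, C, hC => by
      simp only [chopF, List.mem_singleton] at hC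
      rw [hC]; omega
  | n + 1, B, hB, C, hC => by
      simp only [chopF] at hC
      split_ifs at hC with h
      · rw [List.mem_singleton.1 hC]; exact h
      · rcases List.mem_cons.1 hC with hC | hC
        · rw [hC, List.length_take]; omega
        · exact chopF_lt hl n _ (by rw [List.length_drop]; omega) C hC

/-- all pieces are short -/
theorem chopB_lt {l : ℕ} (hl : 1 ≤ l) (B : List A) : ∀ C ∈ chopB l B, C.length < 2 * l :=
  chopF_lt hl _ B le_rfl

theorem chopB_short {l : ℕ} (B : List A) (hB : B.length < 2 * l) : chopB l B = [B] := by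
  rw [chopB]
  rcases h : B.length with _ | n
  · rfl
  · simp only [chopF]
    rw [if_pos hB]

theorem chopF_inner {l : ℕ} (hl : 1 ≤ l) : ∀ (n : ℕ) (B : List A) (C1 C2 : List (List A)),
    chopF l n B = C1 ++ C2 → C1 ≠ [] → C2 ≠ [] → l ≤ C1.flatten.length ∧ l ≤ C2.flatten.length
  | 0, B, C1, C2, h, h1, h2 => by
      exfalso
      simp only [chopF] at h
      rcases C1 with _ | ⟨c, C1⟩
      · exact h1 rfl
      · rw [List.cons_append, List.cons.injEq] at h
        have := List.append_eq_nil_iff.1 h.2.symm
        exact h2 this.2
  | n + 1, B, C1, C2, h, h1, h2 => by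
      simp only [chopF] at h
      split_ifs at h with hB
      · exfalso
        rcases C1 with _ | ⟨c, C1⟩
        · exact h1 rfl
        · rw [List.cons_append, List.cons.injEq] at h
          have := List.append_eq_nil_iff.1 h.2.symm
          exact h2 this.2
      · rcases C1 with _ | ⟨c, C1⟩
        · exact absurd rfl h1
        · rw [List.cons_append, List.cons.injEq] at h
          obtain ⟨e1, e2⟩ := h
          have e3 : c.length = l := by rw [← e1, List.length_take]; omega
          rcases eq_or_ne C1 [] with rfl | hC1
          · refine ⟨by simp [e3], ?_⟩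
            rw [List.nil_append] at e2
            rw [← e2, flatten_chopF, List.length_drop]
            omega
          · obtain ⟨_, h4⟩ := chopF_inner hl n _ C1 C2 e2 hC1 h2
            refine ⟨?_, h4⟩
            rw [List.flatten_cons, List.length_append]
            omega

/-- inner chop cuts are far from both ends of the block -/
theorem chopB_inner {l : ℕ} (hl : 1 ≤ l) (B : List A) (C1 C2 : List (List A))
    (h : chopB l B = C1 ++ C2) (h1 : C1 ≠ []) (h2 : C2 ≠ []) :
    l ≤ C1.flatten.length ∧ l ≤ C2.flatten.length := chopF_inner hl _ B C1 C2 h h1 h2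

theorem chopF_ne_nil {l : ℕ} (hl : 1 ≤ l) : ∀ (n : ℕ) (B : List A), B ≠ [] →
    ∀ C ∈ chopF l n B, C ≠ []
  | 0, B, hB, C, hC => by
      simp only [chopF, List.mem_singleton] at hC
      rw [hC]; exact hB
  | n + 1, B, hB, C, hC => by
      simp only [chopF] at hC
      split_ifs at hC with h
      · rw [List.mem_singleton.1 hC]; exact hB
      · rcases List.mem_cons.1 hC with hC | hC
        · intro h1
          rw [h1] at hC
          have := congrArg List.length hC
          rw [List.length_take, List.length_nil] at this
          omega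
        · refine chopF_ne_nil hl n _ ?_ C hC
          intro h1
          have := congrArg List.length h1
          rw [List.length_drop, List.length_nil] at this
          omega

theorem chopB_ne_nil {l : ℕ} (hl : 1 ≤ l) (B : List A) (hB : B ≠ []) :
    ∀ C ∈ chopB l B, C ≠ [] := chopF_ne_nil hl _ B hB

theorem length_chopF {l : ℕ} (hl : 1 ≤ l) : ∀ (n : ℕ) (B : List A),
    (chopF l n B).length * l ≤ B.length + l
  | 0, B => by simp [chopF]
  | n + 1, B => by
      simp only [chopF]
      split_ifs with h
      · simp
      · have := length_chopF hl n (B.drop l)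
        rw [List.length_cons, add_mul, one_mul]
        rw [List.length_drop] at this
        omega

/-- the number of pieces -/
theorem length_chopB {l : ℕ} (hl : 1 ≤ l) (B : List A) :
    (chopB l B).length * l ≤ B.length + l := length_chopF hl _ B

theorem flatten_flatMap_chopB (l : ℕ) (D : List (List A)) :
    (D.flatMap (chopB l)).flatten = D.flatten := by
  induction D with
  | nil => rfl
  | cons B D ih => rw [List.flatMap_cons, List.flatten_append, ih, flatten_chopB,
      List.flatten_cons]

/-- a splitting of a `flatMap` -/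
theorem flatMap_eq_append {B C : Type*} (f : B → List C) : ∀ (D : List B) (F1 F2 : List C),
    D.flatMap f = F1 ++ F2 → F1 ≠ [] → F2 ≠ [] →
    ∃ (D1 D2 : List B) (b : B) (C1 C2 : List C), D = D1 ++ b :: D2 ∧ f b = C1 ++ C2 ∧
      F1 = D1.flatMap f ++ C1 ∧ F2 = C2 ++ D2.flatMap f ∧ C1 ≠ []
  | [], F1, F2, h, h1, _ => by
      exfalso
      simp only [List.flatMap_nil] at h
      exact h1 (List.append_eq_nil_iff.1 h.symm).1
  | b :: D, F1, F2, h, h1, h2 => by
      rw [List.flatMap_cons] at h
      rcases List.append_eq_append_iff.1 h with ⟨C2, h3, h4⟩ | ⟨C2, h3, h4⟩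
      · rcases eq_or_ne C2 [] with rfl | hC
        · refine ⟨[], D, b, f b, [], by simp, by simp, by simpa using h3, by simpa using h4.symm,
            ?_⟩
          rw [List.append_nil] at h3
          rw [← h3]; exact h1
        · obtain ⟨D1, D2, b', C1', C2', e1, e2, e3, e4, e5⟩ :=
            flatMap_eq_append f D C2 F2 h4 hC h2
          refine ⟨b :: D1, D2, b', C1', C2', by rw [e1]; simp, e2, ?_, e4, e5⟩
          rw [h3, e3, List.flatMap_cons, List.append_assoc]
      · refine ⟨[], D, b, F1, C2, by simp, h3, by simp, h4, h1⟩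

end ChopB

section KB

variable (K : List A → List A → Prop) [∀ h f, Decidable (K h f)]

/-- all blocks of a word for the rule `K` -/
def kb (W : List A) : List (List A) := blT (tg K [] W [])

theorem flatten_kb (W : List A) : (kb K W).flatten = W := by
  rw [kb, flatten_blT, map_fst_tg]

theorem closed_tg (u h f : List A) (hK : u ≠ [] → K (h ++ u) f) : Closed (tg K h u f) := by
  rcases eq_or_ne u [] with rfl | hu
  · exact closed_nil
  obtain ⟨v, a, rfl⟩ : ∃ v a, u = v ++ [a] :=
    ⟨u.dropLast, u.getLast hu, (List.dropLast_append_getLast hu).symm⟩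
  rw [tg_concat]
  have h1 : decide (K (h ++ v ++ [a]) f) = true := by
    rw [decide_eq_true_iff, List.append_assoc]
    exact hK hu
  rw [h1]
  exact closed_concat _ _

/-- splitting at a cut -/
theorem kb_split (u f : List A) (hK : u ≠ [] → K u f) :
    kb K (u ++ f) = outT [] (tg K [] u f) ++ blT (tg K u f []) := by
  have h1 : Closed (tg K [] u f) := closed_tg K u [] f (by simpa using hK)
  rw [kb, tg_append, List.append_nil, List.nil_append, blT, outT_append, pendT_append,
    h1.pendT_nil, List.append_assoc]
  rfl

/-- every boundary between blocks is a cut -/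
theorem K_of_boundary_aux : ∀ (u h p f : List A) (D1 D2 : List (List A)),
    outT p (tg K h u f) ++ [pendT p (tg K h u f)] = D1 ++ D2 → D1 ≠ [] → D2 ≠ [] →
    ∃ v, D1.flatten = p ++ v ∧ v ++ D2.flatten = u ∧ K (h ++ v) (D2.flatten ++ f)
  | [], h, p, f, D1, D2, he, h1, h2 => by
      exfalso
      simp only [tg, outT, pendT, List.nil_append] at he
      rcases D1 with _ | ⟨c, D1⟩
      · exact h1 rfl
      · rw [List.cons_append, List.cons.injEq] at he
        exact h2 (List.append_eq_nil_iff.1 he.2.symm).2
  | a :: u, h, p, f, D1, D2, he, h1, h2 => by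
      simp only [tg] at he
      by_cases hK : K (h ++ [a]) (u ++ f)
      · rw [decide_eq_true hK] at he
        simp only [outT, pendT] at he
        rcases D1 with _ | ⟨c, D1⟩
        · exact absurd rfl h1
        · rw [List.cons_append, List.cons_append, List.cons.injEq] at he
          obtain ⟨e1, e2⟩ := he
          rcases eq_or_ne D1 [] with rfl | hD1
          · rw [List.nil_append] at e2
            have e3 : D2.flatten = u := by
              rw [← e2]
              have := flatten_blT (tg K (h ++ [a]) u f)
              rw [map_fst_tg] at this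
              exact this
            refine ⟨[a], ?_, ?_, ?_⟩
            · simp [e1]
            · rw [e3]; rfl
            · rw [e3]; exact hK
          · obtain ⟨v, g1, g2, g3⟩ := K_of_boundary_aux u (h ++ [a]) [] f D1 D2 e2 hD1 h2
            refine ⟨a :: v, ?_, ?_, ?_⟩
            · rw [List.flatten_cons, g1, ← e1]; simp
            · rw [List.cons_append, g2]
            · rw [List.append_assoc, List.singleton_append] at g3
              exact g3
      · rw [decide_eq_false hK] at he
        simp only [outT, pendT] at he
        obtain ⟨v, g1, g2, g3⟩ := K_of_boundary_aux u (h ++ [a]) (p ++ [a]) f D1 D2 he h1 h2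
        refine ⟨a :: v, ?_, ?_, ?_⟩
        · rw [g1]; simp
        · rw [List.cons_append, g2]
        · rw [List.append_assoc, List.singleton_append] at g3
          exact g3

theorem K_of_boundary {W : List A} {D1 D2 : List (List A)} (h : kb K W = D1 ++ D2)
    (h1 : D1 ≠ []) (h2 : D2 ≠ []) : K D1.flatten D2.flatten := by
  obtain ⟨v, g1, _, g3⟩ := K_of_boundary_aux K W [] [] [] D1 D2 h h1 h2
  rw [List.nil_append] at g1 g3
  rw [List.append_nil] at g3
  rw [g1]
  exact g3

/-- every cut is a boundary between blocks -/
theorem boundary_of_K {u f : List A} (hu : u ≠ []) (hK : K u f) : ∃ D1 D2 : List (List A),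
    kb K (u ++ f) = D1 ++ D2 ∧ D1.flatten = u ∧ D2.flatten = f ∧ D1 ≠ [] ∧ D2 ≠ [] := by
  have h1 := kb_split K u f (fun _ => hK)
  have hc : Closed (tg K [] u f) := closed_tg K u [] f (by simpa using fun _ => hK)
  have h2 : (outT [] (tg K [] u f)).flatten = u := by
    have := flatten_outT (tg K [] u f) []
    rw [hc.pendT_nil, map_fst_tg] at this
    simpa using this
  refine ⟨_, _, h1, h2, ?_, ?_, ?_⟩
  · rw [flatten_blT, map_fst_tg]
  · intro h3
    rw [h3] at h2
    exact hu h2.symm
  · simp [blT]

theorem kb_ne_nil_of_mem_dropLast {W : List A} {D1 D2 : List (List A)} (h : kb K W = D1 ++ D2)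
    (h2 : D2 ≠ []) : ∀ B ∈ D1, B ≠ [] := by
  intro B hB
  have h3 : D1 <+: outT [] (tg K [] W []) := by
    obtain ⟨D3, b, rfl⟩ : ∃ v a, D2 = v ++ [a] :=
      ⟨D2.dropLast, D2.getLast h2, (List.dropLast_append_getLast h2).symm⟩
    rw [kb, blT, ← List.append_assoc] at h
    have := (List.append_inj' h (by simp)).1
    exact ⟨D3, this.symm⟩
  exact outT_ne_nil _ _ B (h3.subset hB)

end KB

section DD

variable (K : List A → List A → Prop) [∀ h f, Decidable (K h f)] (l : ℕ)

/-- the final list of blocks of a word: the blocks of the rule, the long ones chopped -/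
def dd (W : List A) : List (List A) := (kb K W).flatMap (chopB l)

theorem flatten_dd (W : List A) : (dd K l W).flatten = W := by
  rw [dd, flatten_flatMap_chopB, flatten_kb]

variable {l}

theorem dd_lt (hl : 1 ≤ l) (W : List A) : ∀ B ∈ dd K l W, B.length < 2 * l := by
  intro B hB
  obtain ⟨C, _, hC⟩ := List.mem_flatMap.1 hB
  exact chopB_lt hl C B hC

/-- a boundary of `dd` is a cut of the rule or far from the neighbouring cuts -/
theorem dd_boundary (hl : 1 ≤ l) {W : List A} {F1 F2 : List (List A)}
    (h : dd K l W = F1 ++ F2) (h1 : F1 ≠ []) (h2 : F2 ≠ []) :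
    K F1.flatten F2.flatten ∨ ∃ D1 D2 : List (List A), ∃ b1 b2 : List A,
      kb K W = D1 ++ (b1 ++ b2) :: D2 ∧ F1.flatten = D1.flatten ++ b1 ∧
      F2.flatten = b2 ++ D2.flatten ∧ l ≤ b1.length ∧ l ≤ b2.length := by
  obtain ⟨D1, D2, b, C1, C2, e1, e2, e3, e4, e5⟩ := flatMap_eq_append (chopB l) _ F1 F2 h h1 h2
  have e6 : b = C1.flatten ++ C2.flatten := by
    rw [← List.flatten_append, ← e2, flatten_chopB]
  have e7 : F1.flatten = D1.flatten ++ C1.flatten := by
    rw [e3, List.flatten_append, flatten_flatMap_chopB]
  have e8 : F2.flatten = C2.flatten ++ D2.flatten := by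
    rw [e4, List.flatten_append, flatten_flatMap_chopB]
  rcases eq_or_ne C2 [] with hC2 | hC2
  · left
    subst hC2
    have e9 : b = C1.flatten := by simpa using e6
    have e10 : D2 ≠ [] := by
      intro h3
      rw [h3] at e4
      exact h2 (by simpa using e4)
    have := K_of_boundary K (W := W) (D1 := D1 ++ [b]) (D2 := D2) (by rw [e1]; simp) (by simp) e10
    rw [e7, e8, ← e9]
    simpa using this
  · right
    obtain ⟨g1, g2⟩ := chopB_inner hl b C1 C2 e2 e5 hC2
    exact ⟨D1, D2, C1.flatten, C2.flatten, by rw [e1, ← e6], e7, e8, g1, g2⟩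

end DD

end WJ
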