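import Pool.Agent.WK.Seg64

/-! Word equations with boundedly many repeated variables (MP_fc7ad9_lc). Helper module:
lengths of the constant segments of composed words. -/

set_option autoImplicit false

open WE45 WO45 WK

namespace WJ

universe u w

variable {A : Type u} {X : Type w}

theorem SegLe.mono37 {d e : ℕ} {l : List (A ⊕ X)} (h : SegLe d l) (hde : d ≤ e) : SegLe e l :=
  fun w hw => (h w hw).trans hde

theorem SegLe.factor37 {d : ℕ} {l l' : List (A ⊕ X)} (h : SegLe d l) (hl : l' <:+: l) :
    SegLe d l' :=
  fun w hw => h w (hw.trans hl)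

theorem SegLe.append37 {d e : ℕ} {l l' : List (A ⊕ X)} (h : SegLe d l) (h' : SegLe e l') :
    SegLe (d + e) (l ++ l') := by
  intro u hu
  obtain ⟨s, t, e1⟩ := hu
  rw [List.append_assoc] at e1
  rcases List.append_eq_append_iff.1 e1 with ⟨a, h1, h2⟩ | ⟨c, h1, h2⟩
  · -- l = s ++ a
    rcases List.append_eq_append_iff.1 h2 with ⟨b, h3, h4⟩ | ⟨b, h3, h4⟩
    · -- a = u.map inl ++ b
      have h5 := h u ⟨s, b, by rw [h1, h3, List.append_assoc]⟩
      omega
    · -- u.map inl = a ++ b, l' = b ++ t
      obtain ⟨u1, u2, h6, h7, h8⟩ := List.map_eq_append_iff.1 h3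
      have h9 := h u1 ⟨s, [], by rw [h7, List.append_nil, h1]⟩
      have h10 := h' u2 ⟨[], t, by rw [h8, List.nil_append, h4]⟩
      rw [h6, List.length_append]
      omega
  · have h5 := h' u ⟨c, t, by rw [h2, List.append_assoc]⟩
    omega

theorem segLe_nil37 : SegLe 0 ([] : List (A ⊕ X)) := by
  intro u hu
  have h1 := hu.length_le
  rw [List.length_map, List.length_nil] at h1
  exact h1

theorem segLe_inl37 (a : A) : SegLe 1 ([Sum.inl a] : List (A ⊕ X)) := by
  intro u hu
  have h1 := hu.length_le
  rw [List.length_map, List.length_singleton] at h1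
  exact h1

theorem segLe_inr37 (x : X) : SegLe 0 ([Sum.inr x] : List (A ⊕ X)) := by
  intro u hu
  have h1 := hu.length_le
  rw [List.length_map, List.length_singleton] at h1
  rcases Nat.eq_zero_or_pos u.length with h | h
  · omega
  · exfalso
    obtain ⟨a, u', rfl⟩ := List.exists_cons_of_length_pos h
    have h2 : Sum.inl a ∈ ([Sum.inr x] : List (A ⊕ X)) := hu.subset (by simp)
    simp at h2

theorem all_inl37 {B : Type*} {Y : Type*} (f : A → B) (g : X → Y) :
    ∀ (c : List (A ⊕ X)) (v : List B), c.map (Sum.map f g) = v.map Sum.inl →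
      ∃ c' : List A, c = c'.map Sum.inl ∧ c'.length = v.length
  | [], v, h => by
      cases v with
      | nil => exact ⟨[], rfl, rfl⟩
      | cons b v => simp at h
  | s :: c, v, h => by
      cases v with
      | nil => simp at h
      | cons b v =>
        rw [List.map_cons, List.map_cons] at h
        obtain ⟨h1, h2⟩ := List.cons.inj h
        obtain ⟨c', h3, h4⟩ := all_inl37 f g c v h2
        cases s with
        | inl a => exact ⟨a :: c', by rw [h3]; rfl, by rw [List.length_cons, List.length_cons, h4]⟩
        | inr x => exact absurd h1 (by simp)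

theorem SegLe.map37 {B : Type*} {Y : Type*} (f : A → B) (g : X → Y) {d : ℕ}
    {l : List (A ⊕ X)} (h : SegLe d l) : SegLe d (l.map (Sum.map f g)) := by
  intro v hv
  obtain ⟨s, t, e⟩ := hv
  obtain ⟨a, b, h1, h2, h3⟩ := List.map_eq_append_iff.1 e.symm
  obtain ⟨c, c1, h4, h5, h6⟩ := List.map_eq_append_iff.1 h2
  obtain ⟨c', h7, h8⟩ := all_inl37 f g c1 v h6
  rw [← h8]
  refine h c' ⟨c, b, ?_⟩
  rw [← h7, ← h4, h1]

/-- number of constants in terms of the segments -/
theorem cN_le37 {d : ℕ} : ∀ l : List (A ⊕ X), SegLe d l → cN l ≤ (vN l + 1) * d := by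
  have key : ∀ l : List (A ⊕ X), SegLe d l → cN l ≤ lead l + vN l * d := by
    intro l
    induction l with
    | nil => intro _; simp [cN]
    | cons s l ih =>
      intro h
      have h1 := ih h.tail
      have h2 := h.tail.lead_le
      cases s with
      | inl a => simp only [cN, lead, vN]; omega
      | inr x =>
        simp only [cN, lead, vN]
        have e : (vN l + 1) * d = vN l * d + d := by ring
        omega
  intro l h
  have h1 := key l h
  have h2 := h.lead_le
  have e : (vN l + 1) * d = vN l * d + d := by ring
  omega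

theorem cN_sublist37 {l l' : List (A ⊕ X)} (h : l.Sublist l') : cN l ≤ cN l' := by
  induction h with
  | slnil => exact le_rfl
  | cons s _ ih =>
    cases s with
    | inl a => simp only [cN]; omega
    | inr x => simp only [cN]; omega
  | cons_cons s _ ih =>
    cases s with
    | inl a => simp only [cN]; omega
    | inr x => simp only [cN]; omega

theorem vN_sublist37 {l l' : List (A ⊕ X)} (h : l.Sublist l') : vN l ≤ vN l' := by
  induction h with
  | slnil => exact le_rfl
  | cons s _ ih =>
    cases s with
    | inl a => simp only [vN]; omega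
    | inr x => simp only [vN]; omega
  | cons_cons s _ ih =>
    cases s with
    | inl a => simp only [vN]; omega
    | inr x => simp only [vN]; omega

/-- length of the value in terms of the numbers of constants and variables -/
theorem length_sb37 [Fintype X] (ρ : X → List A) (M : ℕ) (hM : ∑ x, (ρ x).length ≤ M) :
    ∀ l : List (A ⊕ X), (sb ρ l).length ≤ cN l + vN l * M
  | [] => by simp [sb_nil]
  | .inl a :: l => by
      have h := length_sb37 ρ M hM l
      rw [sb_inl, List.length_cons]
      simp only [cN, vN]
      omega
  | .inr x :: l => by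
      have h := length_sb37 ρ M hM l
      have h1 : (ρ x).length ≤ ∑ x, (ρ x).length :=
        Finset.single_le_sum (f := fun x => (ρ x).length) (fun _ _ => Nat.zero_le _)
          (Finset.mem_univ x)
      rw [sb_inr, List.length_append]
      simp only [cN, vN, add_mul, one_mul]
      omega

end WJ
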