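import Pool.Agent.WK.FinE64
import Pool.Agent.WK.Lit37
import Pool.Agent.WK.Sys3
import Pool.Agent.WJ.Seg37

/-! Word equations with boundedly many repeated variables (MP_fc7ad9_lc). Helper module:
the explicit bound for systems of equations. -/

set_option autoImplicit false

open WE45 WO45 WK

namespace WJ

universe u w

/-- the variables of the coding equation -/
theorem mem_glue37 {A : Type u} {X : Type w} (c : Bool) (x : X) :
    ∀ ls : List (List (A ⊕ X)), Sum.inr x ∈ glue c ls → ∃ l ∈ ls, Sum.inr x ∈ l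
  | [], h => absurd h (by simp [glue])
  | l :: ls, h => by
      simp only [glue, List.mem_append, List.mem_cons] at h
      rcases h with h | h | h
      · refine ⟨l, by simp, ?_⟩
        unfold up at h
        obtain ⟨s, hs, he⟩ := List.mem_map.1 h
        cases s with
        | inl a => exact absurd he (by simp)
        | inr y =>
          have : y = x := by simpa using he
          rw [← this]; exact hs
      · exact absurd h (by simp)
      · obtain ⟨l', h1, h2⟩ := mem_glue37 c x ls h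
        exact ⟨l', List.mem_cons_of_mem _ h1, h2⟩

theorem mem_enc37 {A : Type u} {X : Type w} (E : List (List (A ⊕ X) × List (A ⊕ X))) (x : X)
    (h : Sum.inr x ∈ encL E ++ encR E) : ∃ t ∈ E, Sum.inr x ∈ t.1 ++ t.2 := by
  unfold encL encR at h
  simp only [List.mem_append] at h
  rcases h with (h | h) | (h | h)
  all_goals
    obtain ⟨l, h1, h2⟩ := mem_glue37 _ x _ h
    obtain ⟨t, h3, h4⟩ := List.mem_map.1 h1
    refine ⟨t, h3, ?_⟩
    rw [List.mem_append]
    first
      | exact Or.inl (by rw [h4]; exact h2)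
      | exact Or.inr (by rw [h4]; exact h2)

theorem seg_glue37 {A : Type u} {X : Type w} (c : Bool) {d : ℕ} :
    ∀ ls : List (List (A ⊕ X)), (∀ l ∈ ls, SegLe d l) → SegLe (ls.length * (d + 1)) (glue c ls)
  | [], _ => by
      simp only [glue, List.length_nil, Nat.zero_mul]
      exact segLe_nil37
  | l :: ls, h => by
      have h1 := seg_glue37 c ls fun l' hl' => h l' (List.mem_cons_of_mem _ hl')
      have h2 : SegLe d (up l) := SegLe.map37 Sum.inl id (h l (by simp))
      have h3 := SegLe.append37 h2 (SegLe.append37 (segLe_inl37 (A := A ⊕ Bool) (X := X)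
        (Sum.inr c)) h1)
      have e : glue c (l :: ls) = up l ++ ([Sum.inl (Sum.inr c)] ++ glue c ls) := rfl
      rw [e]
      refine SegLe.mono37 h3 ?_
      rw [List.length_cons, add_mul]
      omega

theorem seg_enc37 {A : Type u} {X : Type w} {d m : ℕ} (E : List (List (A ⊕ X) × List (A ⊕ X)))
    (hE : E.length ≤ m) (h : ∀ t ∈ E, SegLe d t.1 ∧ SegLe d t.2) :
    SegLe (2 * (m * (d + 1))) (encL E) ∧ SegLe (2 * (m * (d + 1))) (encR E) := by
  have h1 : ∀ l ∈ E.map Prod.fst, SegLe d l := by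
    intro l hl
    obtain ⟨t, h1, rfl⟩ := List.mem_map.1 hl
    exact (h t h1).1
  have h2 : ∀ l ∈ E.map Prod.snd, SegLe d l := by
    intro l hl
    obtain ⟨t, h1, rfl⟩ := List.mem_map.1 hl
    exact (h t h1).2
  have h3 : E.length * (d + 1) ≤ m * (d + 1) := Nat.mul_le_mul_right _ hE
  constructor
  · refine SegLe.mono37 (SegLe.append37 (seg_glue37 true _ h1) (seg_glue37 false _ h1)) ?_
    rw [List.length_map]
    omega
  · refine SegLe.mono37 (SegLe.append37 (seg_glue37 true _ h2) (seg_glue37 false _ h2)) ?_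
    rw [List.length_map]
    omega

/-- **Explicit bound for systems.** -/
theorem explicit_sys37 : ∃ C : ℕ, ∀ {A : Type u} {X : Type w} [Fintype X]
    (E : List (List (A ⊕ X) × List (A ⊕ X))) (V : Finset X) (v d m : ℕ),
    (∀ t ∈ E, ∀ x, Sum.inr x ∈ t.1 ++ t.2 → x ∈ V) →
    (E.map fun t => (t.1 ++ t.2).countP Sum.isRight).sum ≤ v → E.length ≤ m → 1 ≤ m →
    (∀ t ∈ E, SegLe d t.1 ∧ SegLe d t.2) →
    (∃ σ : X → List A, ∀ t ∈ E, sb σ t.1 = sb σ t.2) →
    ∃ σ : X → List A, (∀ t ∈ E, sb σ t.1 = sb σ t.2) ∧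
      ∑ x, (σ x).length ≤ 2 * (m * (d + 1)) *
        ((2 * v + 2) ^ (C * (V.card + 1) ^ 2) * 2 ^ 2 ^ (C * (V.card + 1) ^ C)) := by
  obtain ⟨C, hC⟩ := WK.explicit_final.{u, w}
  refine ⟨C, ?_⟩
  intro A X _ E V v d m hV hv hm hm1 hd ⟨σ₀, hσ₀⟩
  obtain ⟨hs1, hs2⟩ := seg_enc37 E hm hd
  have hpos : 1 ≤ 2 * (m * (d + 1)) := by
    have : 1 * 1 ≤ m * (d + 1) := Nat.mul_le_mul hm1 (by omega)
    omega
  obtain ⟨σ, h1, h2⟩ := hC (encL E) (encR E) V (2 * v) (2 * (m * (d + 1)))
    (fun x hx => by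
      obtain ⟨t, h1, h2⟩ := mem_enc37 E x hx
      exact hV t h1 x h2)
    (by
      rw [vN_append37, countP_enc]
      exact Nat.mul_le_mul_left 2 hv)
    hpos hs1 hs2 ⟨_, enc_of_sol E σ₀ hσ₀⟩
  refine ⟨fun x => dn (σ x), sol_of_enc E σ h1, ?_⟩
  exact (Finset.sum_le_sum fun x _ => length_dn (σ x)).trans h2

end WJ
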