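import Pool.Agent.WJ.Side37
import Pool.Agent.WJ.Sys37

/-! Word equations with boundedly many repeated variables (MP_fc7ad9_lc). Helper module:
equations with a joker (a variable that occurs once) on both sides. -/

set_option autoImplicit false

open WE45 WO45 WK

namespace WJ

universe u w

/-- embedding of the words into words with four more variables -/
def emb37 {A : Type u} {X : Type w} (l : List (A ⊕ X)) : List (A ⊕ (X ⊕ ULift.{w} (Fin 4))) :=
  l.map (Sum.map id Sum.inl)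

theorem sb_emb37 {A : Type u} {X : Type w} (τ : X ⊕ ULift.{w} (Fin 4) → List A) :
    ∀ l : List (A ⊕ X), sb τ (emb37 l) = sb (fun x => τ (Sum.inl x)) l
  | [] => rfl
  | .inl a :: l => by
      have e : emb37 (.inl a :: l) = .inl a :: emb37 l := rfl
      rw [e, sb_inl, sb_inl, sb_emb37 τ l]
  | .inr x :: l => by
      have e : emb37 (.inr x :: l) = .inr (.inl x) :: emb37 l := rfl
      rw [e, sb_inr, sb_inr, sb_emb37 τ l]

theorem mem_emb37 {A : Type u} {X : Type w} {z : X ⊕ ULift.{w} (Fin 4)} {l : List (A ⊕ X)}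
    (h : Sum.inr z ∈ emb37 l) : ∃ x, z = Sum.inl x ∧ Sum.inr x ∈ l := by
  unfold emb37 at h
  obtain ⟨s, hs, he⟩ := List.mem_map.1 h
  cases s with
  | inl a => exact absurd he (by simp)
  | inr y =>
    refine ⟨y, ?_, hs⟩
    have : Sum.inl y = z := by simpa using he
    exact this.symm

theorem vN_emb37 {A : Type u} {X : Type w} (l : List (A ⊕ X)) : vN (emb37 l) = vN l :=
  vN_map37 _ _ l

theorem arith_both37 (C : ℕ) : ∃ C' : ℕ, ∀ v k : ℕ,
    32 * (v + 1) * ((2 * (2 * v + 4) + 2) ^ (C * (k + 4 + 1) ^ 2) *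
      2 ^ 2 ^ (C * (k + 4 + 1) ^ C)) ≤
      (v + 2) ^ (C' * (k + 1) ^ 2) * 2 ^ 2 ^ (C' * (k + 1) ^ C') := by
  refine ⟨100 * C + C * 5 ^ C + 20, fun v k => ?_⟩
  set P := v + 2 with hP
  have hP2 : 2 ≤ P := by omega
  have h1 : 32 * (v + 1) ≤ P ^ 6 := by
    calc 32 * (v + 1) ≤ 2 ^ 5 * P := by omega
      _ ≤ P ^ 5 * P := Nat.mul_le_mul_right _ (Nat.pow_le_pow_left hP2 5)
      _ = P ^ 6 := by ring
  have h2 : 2 * (2 * v + 4) + 2 ≤ P ^ 4 := by
    calc 2 * (2 * v + 4) + 2 ≤ 2 ^ 3 * P := by omega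
      _ ≤ P ^ 3 * P := Nat.mul_le_mul_right _ (Nat.pow_le_pow_left hP2 3)
      _ = P ^ 4 := by ring
  have h4 : k + 4 + 1 ≤ 5 * (k + 1) := by omega
  have h5 : C * (k + 4 + 1) ^ 2 ≤ 25 * C * (k + 1) ^ 2 := by
    calc C * (k + 4 + 1) ^ 2 ≤ C * (5 * (k + 1)) ^ 2 :=
          Nat.mul_le_mul_left _ (Nat.pow_le_pow_left h4 2)
      _ = 25 * C * (k + 1) ^ 2 := by ring
  have h6 : (2 * (2 * v + 4) + 2) ^ (C * (k + 4 + 1) ^ 2) ≤ P ^ (100 * C * (k + 1) ^ 2) := by
    calc (2 * (2 * v + 4) + 2) ^ (C * (k + 4 + 1) ^ 2)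
        ≤ (P ^ 4) ^ (C * (k + 4 + 1) ^ 2) := Nat.pow_le_pow_left h2 _
      _ = P ^ (4 * (C * (k + 4 + 1) ^ 2)) := by rw [← pow_mul]
      _ ≤ P ^ (100 * C * (k + 1) ^ 2) := by
          refine Nat.pow_le_pow_right (by omega) ?_
          calc 4 * (C * (k + 4 + 1) ^ 2) ≤ 4 * (25 * C * (k + 1) ^ 2) :=
                Nat.mul_le_mul_left _ h5
            _ = 100 * C * (k + 1) ^ 2 := by ring
  set C' := 100 * C + C * 5 ^ C + 20 with hC'
  have h7 : C * (k + 4 + 1) ^ C ≤ C' * (k + 1) ^ C' := by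
    calc C * (k + 4 + 1) ^ C ≤ C * (5 * (k + 1)) ^ C :=
          Nat.mul_le_mul_left _ (Nat.pow_le_pow_left h4 C)
      _ = C * 5 ^ C * (k + 1) ^ C := by rw [mul_pow]; ring
      _ ≤ C' * (k + 1) ^ C' := by
          refine Nat.mul_le_mul (by omega) (Nat.pow_le_pow_right (Nat.succ_pos _) ?_)
          omega
  have h8 : 2 ^ 2 ^ (C * (k + 4 + 1) ^ C) ≤ 2 ^ 2 ^ (C' * (k + 1) ^ C') :=
    Nat.pow_le_pow_right (by norm_num) (Nat.pow_le_pow_right (by norm_num) h7)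
  calc 32 * (v + 1) * ((2 * (2 * v + 4) + 2) ^ (C * (k + 4 + 1) ^ 2) *
      2 ^ 2 ^ (C * (k + 4 + 1) ^ C))
      ≤ P ^ 6 * (P ^ (100 * C * (k + 1) ^ 2) * 2 ^ 2 ^ (C' * (k + 1) ^ C')) :=
        Nat.mul_le_mul h1 (Nat.mul_le_mul h6 h8)
    _ = P ^ (100 * C * (k + 1) ^ 2 + 6) * 2 ^ 2 ^ (C' * (k + 1) ^ C') := by ring
    _ ≤ P ^ (C' * (k + 1) ^ 2) * 2 ^ 2 ^ (C' * (k + 1) ^ C') := by
        refine Nat.mul_le_mul_right _ (Nat.pow_le_pow_right (by omega) ?_)
        have h12 : 1 ≤ (k + 1) ^ 2 := Nat.one_le_pow _ _ (Nat.succ_pos _)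
        calc 100 * C * (k + 1) ^ 2 + 6 ≤ 100 * C * (k + 1) ^ 2 + 6 * (k + 1) ^ 2 := by omega
          _ = (100 * C + 6) * (k + 1) ^ 2 := by ring
          _ ≤ C' * (k + 1) ^ 2 := Nat.mul_le_mul_right _ (by omega)

/-- **Jokers on both sides.** `W` contains all variables that occur at least twice; both sides
contain a variable outside `W`. -/
theorem both37 : ∃ C : ℕ, ∀ {A : Type u} {X : Type w} [Fintype X] (L R : List (A ⊕ X))
    (W : Finset X) (v d : ℕ), (∀ x, [Sum.inr x, Sum.inr x].Sublist (L ++ R) → x ∈ W) →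
    (∃ x, x ∉ W ∧ Sum.inr x ∈ L) → (∃ x, x ∉ W ∧ Sum.inr x ∈ R) → vN L + vN R ≤ v → 1 ≤ d →
    SegLe d L → SegLe d R → (∃ σ : X → List A, sb σ L = sb σ R) →
    ∃ σ : X → List A, sb σ L = sb σ R ∧ ∑ x, (σ x).length ≤
      d * ((v + 2) ^ (C * (W.card + 1) ^ 2) * 2 ^ 2 ^ (C * (W.card + 1) ^ C)) := by
  obtain ⟨C₀, hC₀⟩ := explicit_sys37.{u, w}
  obtain ⟨C, hC⟩ := arith_both37 C₀
  refine ⟨C, ?_⟩
  intro A X _ L R W v d hW hL hR hv hd hdL hdR ⟨σ₀, hσ₀⟩
  classical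
  have hoL : ∀ x, x ∉ W → ¬ [Sum.inr x, Sum.inr x].Sublist L := fun x hx h =>
    hx (hW x (h.trans (List.sublist_append_left _ _)))
  have hoR : ∀ x, x ∉ W → ¬ [Sum.inr x, Sum.inr x].Sublist R := fun x hx h =>
    hx (hW x (h.trans (List.sublist_append_right _ _)))
  have hdis : ∀ x, x ∉ W → Sum.inr x ∈ L → Sum.inr x ∈ R → False := fun x hx h h' =>
    hx (hW x (twice37 h h'))
  obtain ⟨uL, mL, tL, huL, hmL, htL, suL, smL, stL, hL1, hL2⟩ :=
    side37 (fun x => x ∉ W) L hL hoL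
  obtain ⟨uR, mR, tR, huR, hmR, htR, suR, smR, stR, hR1, hR2⟩ :=
    side37 (fun x => x ∉ W) R hR hoR
  -- the system
  let Y := X ⊕ ULift.{w} (Fin 4)
  let q : Fin 4 → A ⊕ Y := fun i => Sum.inr (Sum.inr (ULift.up i))
  let E : List (List (A ⊕ Y) × List (A ⊕ Y)) :=
    [(emb37 uL ++ [q 0], emb37 uR ++ [q 1]), (q 2 :: emb37 tL, q 3 :: emb37 tR)]
  let V : Finset Y := W.disjSum Finset.univ
  have hVc : V.card = W.card + 4 := by
    show (W.disjSum Finset.univ).card = _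
    rw [Finset.card_disjSum, Finset.card_univ, Fintype.card_ulift, Fintype.card_fin]
  have hqV : ∀ i, (Sum.inr (ULift.up i) : Y) ∈ V := fun i => by
    show _ ∈ W.disjSum Finset.univ
    rw [Finset.inr_mem_disjSum]
    exact Finset.mem_univ _
  have hembV : ∀ l : List (A ⊕ X), (∀ x, Sum.inr x ∈ l → ¬ (x ∉ W)) →
      ∀ z : Y, Sum.inr z ∈ emb37 l → z ∈ V := by
    intro l hl z hz
    obtain ⟨x, rfl, hx⟩ := mem_emb37 hz
    show _ ∈ W.disjSum Finset.univ
    rw [Finset.inl_mem_disjSum]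
    exact not_not.1 (hl x hx)
  have hEV : ∀ t ∈ E, ∀ z, Sum.inr z ∈ t.1 ++ t.2 → z ∈ V := by
    intro t ht z hz
    simp only [E, List.mem_cons, List.not_mem_nil, or_false] at ht
    rcases ht with rfl | rfl
    · simp only [List.mem_append, List.mem_cons, List.not_mem_nil, or_false] at hz
      rcases hz with (hz | hz) | (hz | hz)
      · exact hembV uL huL z hz
      · rw [Sum.inr.inj hz]; exact hqV 0
      · exact hembV uR huR z hz
      · rw [Sum.inr.inj hz]; exact hqV 1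
    · simp only [List.mem_append, List.mem_cons] at hz
      rcases hz with (hz | hz) | (hz | hz)
      · rw [Sum.inr.inj hz]; exact hqV 2
      · exact hembV tL htL z hz
      · rw [Sum.inr.inj hz]; exact hqV 3
      · exact hembV tR htR z hz
  have huLn := vN_sublist37 suL.sublist
  have huRn := vN_sublist37 suR.sublist
  have htLn := vN_sublist37 stL.sublist
  have htRn := vN_sublist37 stR.sublist
  have hmLn := vN_sublist37 smL
  have hmRn := vN_sublist37 smR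
  have hEv : (E.map fun t => (t.1 ++ t.2).countP Sum.isRight).sum ≤ 2 * v + 4 := by
    have e : ∀ l l' : List (A ⊕ Y), (l ++ l').countP Sum.isRight = vN l + vN l' :=
      fun l l' => (vN_append37 l l').symm
    simp only [E, List.map_cons, List.map_nil, List.sum_cons, List.sum_nil, e]
    simp only [vN_append]
    simp only [q, vN]
    have a1 : vN (emb37 uL : List (A ⊕ Y)) = vN uL := vN_emb37 uL
    have a2 : vN (emb37 uR : List (A ⊕ Y)) = vN uR := vN_emb37 uR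
    have a3 : vN (emb37 tL : List (A ⊕ Y)) = vN tL := vN_emb37 tL
    have a4 : vN (emb37 tR : List (A ⊕ Y)) = vN tR := vN_emb37 tR
    omega
  have hEd : ∀ t ∈ E, SegLe d t.1 ∧ SegLe d t.2 := by
    have e1 : ∀ (l : List (A ⊕ X)) (i : Fin 4), SegLe d l → SegLe d (emb37 l ++ [q i]) := by
      intro l i h
      exact SegLe.append37 (SegLe.map37 id Sum.inl h) (segLe_inr37 _)
    have e2 : ∀ (l : List (A ⊕ X)) (i : Fin 4), SegLe d l → SegLe d (q i :: emb37 l) := by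
      intro l i h
      have h1 := SegLe.append37 (segLe_inr37 (A := A) (Sum.inr (ULift.up i) : Y))
        (SegLe.map37 id (Sum.inl : X → Y) h)
      rw [Nat.zero_add] at h1
      exact h1
    intro t ht
    simp only [E, List.mem_cons, List.not_mem_nil, or_false] at ht
    rcases ht with rfl | rfl
    · exact ⟨e1 uL 0 (SegLe.factor37 hdL suL.isInfix), e1 uR 1 (SegLe.factor37 hdR suR.isInfix)⟩
    · exact ⟨e2 tL 2 (SegLe.factor37 hdL stL.isInfix), e2 tR 3 (SegLe.factor37 hdR stR.isInfix)⟩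
  have hEs : ∃ τ : Y → List A, ∀ t ∈ E, sb τ t.1 = sb τ t.2 := by
    obtain ⟨a, b, h1, h2⟩ := hL1 σ₀
    obtain ⟨a', b', h3, h4⟩ := hR1 σ₀
    let τ : Y → List A := Sum.elim σ₀ fun i =>
      if i.down = 0 then a else if i.down = 1 then a' else if i.down = 2 then b else b'
    refine ⟨τ, ?_⟩
    have e0 : sb τ [q 0] = a := by
      show sb τ [Sum.inr (Sum.inr (ULift.up 0))] = a
      rw [sb_inr, sb_nil, List.append_nil]
      rfl
    have e1 : sb τ [q 1] = a' := by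
      show sb τ [Sum.inr (Sum.inr (ULift.up 1))] = a'
      rw [sb_inr, sb_nil, List.append_nil]
      rfl
    have e2 : ∀ l, sb τ (q 2 :: l) = b ++ sb τ l := by
      intro l
      show sb τ (Sum.inr (Sum.inr (ULift.up 2)) :: l) = _
      rw [sb_inr]
      rfl
    have e3 : ∀ l, sb τ (q 3 :: l) = b' ++ sb τ l := by
      intro l
      show sb τ (Sum.inr (Sum.inr (ULift.up 3)) :: l) = _
      rw [sb_inr]
      rfl
    have eσ : (fun x => τ (Sum.inl x)) = σ₀ := rfl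
    intro t ht
    simp only [E, List.mem_cons, List.not_mem_nil, or_false] at ht
    rcases ht with rfl | rfl
    · show sb τ (emb37 uL ++ [q 0]) = sb τ (emb37 uR ++ [q 1])
      rw [sb_append, sb_append, e0, e1, sb_emb37, sb_emb37, eσ, ← h1, ← h3, hσ₀]
    · show sb τ (q 2 :: emb37 tL) = sb τ (q 3 :: emb37 tR)
      rw [e2, e3, sb_emb37, sb_emb37, eσ, ← h2, ← h4, hσ₀]
  obtain ⟨τ, hτ, hM⟩ := hC₀ E V (2 * v + 4) d 2 hEV hEv le_rfl (by norm_num) hEd hEs
  rw [hVc] at hM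
  obtain ⟨Q, hQe⟩ : ∃ Q, Q = (2 * (2 * v + 4) + 2) ^ (C₀ * (W.card + 4 + 1) ^ 2) *
      2 ^ 2 ^ (C₀ * (W.card + 4 + 1) ^ C₀) := ⟨_, rfl⟩
  have hQ1 : 1 ≤ Q := by
    rw [hQe]
    exact Nat.mul_le_mul (Nat.one_le_pow _ _ (by omega)) Nat.one_le_two_pow
  rw [← hQe] at hM
  obtain ⟨M, hMe⟩ : ∃ M, M = 2 * (2 * (d + 1)) * Q := ⟨_, rfl⟩
  rw [← hMe] at hM
  let ρ : X → List A := fun x => τ (Sum.inl x)
  let w4 : Fin 4 → List A := fun i => τ (Sum.inr (ULift.up i))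
  have hsum : ∑ z : Y, (τ z).length = ∑ x, (ρ x).length + ∑ i : Fin 4, (w4 i).length := by
    have h := Fintype.sum_equiv Equiv.ulift (fun i => (τ (Sum.inr i)).length)
      (fun i => (w4 i).length) (fun i => rfl)
    rw [Fintype.sum_sum_type, h]
  rw [hsum, Fin.sum_univ_four] at hM
  have hA : sb ρ uL ++ w4 0 = sb ρ uR ++ w4 1 := by
    have h := hτ (emb37 uL ++ [q 0], emb37 uR ++ [q 1]) (by simp [E])
    have h' : sb τ (emb37 uL ++ [q 0]) = sb τ (emb37 uR ++ [q 1]) := h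
    rw [sb_append, sb_append, sb_emb37, sb_emb37] at h'
    have e0 : sb τ [q 0] = w4 0 := by
      show sb τ [Sum.inr (Sum.inr (ULift.up 0))] = _
      rw [sb_inr, sb_nil, List.append_nil]
    have e1 : sb τ [q 1] = w4 1 := by
      show sb τ [Sum.inr (Sum.inr (ULift.up 1))] = _
      rw [sb_inr, sb_nil, List.append_nil]
    rw [e0, e1] at h'
    exact h'
  have hB : w4 2 ++ sb ρ tL = w4 3 ++ sb ρ tR := by
    have h := hτ (q 2 :: emb37 tL, q 3 :: emb37 tR) (by simp [E])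
    have h' : sb τ (q 2 :: emb37 tL) = sb τ (q 3 :: emb37 tR) := h
    have e2 : ∀ l, sb τ (q 2 :: l) = w4 2 ++ sb τ l := by
      intro l
      show sb τ (Sum.inr (Sum.inr (ULift.up 2)) :: l) = _
      rw [sb_inr]
    have e3 : ∀ l, sb τ (q 3 :: l) = w4 3 ++ sb τ l := by
      intro l
      show sb τ (Sum.inr (Sum.inr (ULift.up 3)) :: l) = _
      rw [sb_inr]
    rw [e2, e3, sb_emb37, sb_emb37] at h'
    exact h'
  -- the new solution
  obtain ⟨σ₁, hs1, hv1, hl1⟩ := hL2 ρ (w4 0) (sb ρ mR ++ w4 2)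
  obtain ⟨σ₂, hs2, hv2, hl2⟩ := hR2 σ₁ (w4 1 ++ sb ρ mL) (w4 3)
  have hsame : ∀ l : List (A ⊕ X), (∀ x, Sum.inr x ∈ l → ¬ (x ∉ W)) → sb σ₁ l = sb ρ l :=
    fun l hl => sb_congr l fun x hx => hs1 x fun h => hl x hx h.1
  have hL3 : sb σ₂ L = sb σ₁ L := sb_congr L fun x hx => hs2 x fun h => hdis x h.1 hx h.2
  rw [hsame uR huR, hsame mR hmR, hsame tR htR] at hv2
  refine ⟨σ₂, ?_, ?_⟩
  · rw [hL3, hv1, hv2]
    calc sb ρ uL ++ w4 0 ++ sb ρ mL ++ (sb ρ mR ++ w4 2) ++ sb ρ tL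
        = (sb ρ uL ++ w4 0) ++ sb ρ mL ++ sb ρ mR ++ (w4 2 ++ sb ρ tL) := by
          simp only [List.append_assoc]
      _ = (sb ρ uR ++ w4 1) ++ sb ρ mL ++ sb ρ mR ++ (w4 3 ++ sb ρ tR) := by rw [hA, hB]
      _ = sb ρ uR ++ (w4 1 ++ sb ρ mL) ++ sb ρ mR ++ w4 3 ++ sb ρ tR := by
          simp only [List.append_assoc]
  · have hρM : ∑ x, (ρ x).length ≤ M := by omega
    have hc1 := cN_le37 L hdL
    have hc2 := cN_le37 R hdR
    have hc3 := cN_sublist37 smL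
    have hc4 := cN_sublist37 smR
    have hmL2 : (sb ρ mL).length ≤ (v + 1) * d + v * M := by
      refine (length_sb37 ρ M hρM mL).trans (Nat.add_le_add ?_ ?_)
      · exact (hc3.trans hc1).trans (Nat.mul_le_mul_right _ (by omega))
      · exact Nat.mul_le_mul_right _ (by omega)
    have hmR2 : (sb ρ mR).length ≤ (v + 1) * d + v * M := by
      refine (length_sb37 ρ M hρM mR).trans (Nat.add_le_add ?_ ?_)
      · exact (hc4.trans hc2).trans (Nat.mul_le_mul_right _ (by omega))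
      · exact Nat.mul_le_mul_right _ (by omega)
    rw [List.length_append] at hl1 hl2
    have hdM : d ≤ M := by
      rw [hMe]
      calc d ≤ 2 * (2 * (d + 1)) * 1 := by omega
        _ ≤ 2 * (2 * (d + 1)) * Q := Nat.mul_le_mul_left _ hQ1
    have h1 : ∑ x, (σ₂ x).length ≤ (4 * v + 4) * M := by
      have h2 : (v + 1) * d ≤ (v + 1) * M := Nat.mul_le_mul_left _ hdM
      have e1 : (4 * v + 4) * M = 4 * ((v + 1) * M) := by ring
      have e2 : (v + 1) * M = v * M + M := by ring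
      rw [e1]
      omega
    refine h1.trans ?_
    calc (4 * v + 4) * M = 16 * (v + 1) * Q * (d + 1) := by rw [hMe]; ring
      _ ≤ 16 * (v + 1) * Q * (2 * d) := Nat.mul_le_mul_left _ (by omega)
      _ = d * (32 * (v + 1) * Q) := by ring
      _ ≤ _ := by
          rw [hQe]
          exact Nat.mul_le_mul_left _ (hC v W.card)

end WJ
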