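import Pool.Agent.WK.Words21

/-! MP_fc7ad9_lc, helper module: the critical factorization theorem (with context), after
Crochemore and Perrin. -/

set_option autoImplicit false

open WK

namespace WJ

variable {A : Type*}

/-- lexicographic order (not strict), `r` is the strict order of the letters -/
def LeX (r : A → A → Prop) : List A → List A → Prop
  | [], _ => True
  | _ :: _, [] => False
  | a :: u, b :: v => r a b ∨ (a = b ∧ LeX r u v)

/-- strict linear order -/
structure SLin (r : A → A → Prop) : Prop where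
  irr : ∀ a, ¬ r a a
  tr : ∀ a b c, r a b → r b c → r a c
  tri : ∀ a b, r a b ∨ a = b ∨ r b a

theorem SLin.flip {r : A → A → Prop} (h : SLin r) : SLin (fun a b => r b a) where
  irr := h.irr
  tr := fun a b c h1 h2 => h.tr c b a h2 h1
  tri := fun a b => by
    rcases h.tri a b with h1 | h1 | h1
    · exact Or.inr (Or.inr h1)
    · exact Or.inr (Or.inl h1)
    · exact Or.inl h1

theorem exists_SLin (A : Type*) : ∃ r : A → A → Prop, SLin r := by
  obtain ⟨o, -⟩ := exists_wellFoundedLT A
  exact ⟨fun a b => a < b, ⟨fun a => lt_irrefl a, fun a b c => lt_trans, fun a b => lt_trichotomy a b⟩⟩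

theorem LeX.total {r : A → A → Prop} (hr : SLin r) : ∀ u v : List A, LeX r u v ∨ LeX r v u
  | [], _ => Or.inl trivial
  | _ :: _, [] => Or.inr trivial
  | a :: u, b :: v => by
    rcases hr.tri a b with h | h | h
    · exact Or.inl (Or.inl h)
    · subst h
      rcases LeX.total hr u v with h1 | h1
      · exact Or.inl (Or.inr ⟨rfl, h1⟩)
      · exact Or.inr (Or.inr ⟨rfl, h1⟩)
    · exact Or.inr (Or.inl h)

theorem LeX.refl {r : A → A → Prop} : ∀ u : List A, LeX r u u
  | [] => trivial
  | _ :: u => Or.inr ⟨rfl, LeX.refl u⟩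

theorem LeX.trans {r : A → A → Prop} (hr : SLin r) :
    ∀ {u v w : List A}, LeX r u v → LeX r v w → LeX r u w
  | [], _, _, _, _ => trivial
  | _ :: _, [], _, h, _ => h.elim
  | _ :: _, _ :: _, [], _, h => h.elim
  | a :: u, b :: v, c :: w, h1, h2 => by
    rcases h1 with h1 | ⟨rfl, h1⟩
    · rcases h2 with h2 | ⟨rfl, h2⟩
      · exact Or.inl (hr.tr _ _ _ h1 h2)
      · exact Or.inl h1
    · rcases h2 with h2 | ⟨rfl, h2⟩
      · exact Or.inl h2
      · exact Or.inr ⟨rfl, LeX.trans hr h1 h2⟩

theorem LeX.antisymm {r : A → A → Prop} (hr : SLin r) :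
    ∀ {u v : List A}, LeX r u v → LeX r v u → u = v
  | [], [], _, _ => rfl
  | [], _ :: _, _, h => h.elim
  | _ :: _, [], h, _ => h.elim
  | a :: u, b :: v, h1, h2 => by
    rcases h1 with h1 | ⟨rfl, h1⟩
    · rcases h2 with h2 | ⟨rfl, h2⟩
      · exact (hr.irr _ (hr.tr _ _ _ h1 h2)).elim
      · exact (hr.irr _ h1).elim
    · rcases h2 with h2 | ⟨-, h2⟩
      · exact (hr.irr _ h2).elim
      · rw [LeX.antisymm hr h1 h2]

theorem LeX.cancel {r : A → A → Prop} (hr : SLin r) :
    ∀ {s u v : List A}, LeX r (s ++ u) (s ++ v) → LeX r u v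
  | [], _, _, h => h
  | a :: s, u, v, h => by
    rcases h with h | ⟨-, h⟩
    · exact (hr.irr _ h).elim
    · exact LeX.cancel hr h

theorem LeX.ext_nil {r : A → A → Prop} (hr : SLin r) :
    ∀ {v t : List A}, LeX r (v ++ t) v → t = []
  | [], [], _ => rfl
  | [], _ :: _, h => h.elim
  | a :: v, t, h => by
    rcases h with h | ⟨-, h⟩
    · exact (hr.irr _ h).elim
    · exact LeX.ext_nil hr h

theorem LeX.both {r : A → A → Prop} (hr : SLin r) :
    ∀ {u v : List A}, LeX r u v → LeX (fun a b => r b a) u v → u <+: v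
  | [], _, _, _ => List.nil_prefix
  | _ :: _, [], h, _ => h.elim
  | a :: u, b :: v, h1, h2 => by
    rcases h1 with h1 | ⟨rfl, h1⟩
    · rcases h2 with h2 | ⟨rfl, h2⟩
      · exact (hr.irr _ (hr.tr _ _ _ h1 h2)).elim
      · exact (hr.irr _ h1).elim
    · rcases h2 with h2 | ⟨-, h2⟩
      · exact (hr.irr _ h2).elim
      · exact (List.prefix_cons_inj _).2 (LeX.both hr h1 h2)

/-- the largest suffix -/
theorem exists_max_suffix {r : A → A → Prop} (hr : SLin r) :
    ∀ w : List A, ∃ v, v <:+ w ∧ ∀ t, t <:+ w → LeX r t v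
  | [] => ⟨[], List.suffix_refl _, fun t ht => by
      rw [List.suffix_nil.1 ht]; exact LeX.refl _⟩
  | a :: w => by
    obtain ⟨v, hv, hm⟩ := exists_max_suffix hr w
    rcases LeX.total hr (a :: w) v with h | h
    · refine ⟨v, hv.trans (List.suffix_cons a w), fun t ht => ?_⟩
      rcases List.suffix_cons_iff.1 ht with rfl | ht
      · exact h
      · exact hm t ht
    · refine ⟨a :: w, List.suffix_refl _, fun t ht => ?_⟩
      rcases List.suffix_cons_iff.1 ht with rfl | ht
      · exact LeX.refl _
      · exact LeX.trans hr (hm t ht) h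

theorem cft_core {r : A → A → Prop} (hr : SLin r) {w u v vt : List A} (hw : w = u ++ v)
    (hv : ∀ t, t <:+ w → LeX r t v) (hvt : vt <:+ w)
    (hvtm : ∀ t, t <:+ w → LeX (fun a b => r b a) t vt) (hle : v.length ≤ vt.length)
    {z1 z2 s : List A} (hs : s ≠ []) (h1 : s <:+ z1 ++ u) (h2 : s <+: v ++ z2) :
    Per s.length w := by
  have hvw : v <:+ w := ⟨u, hw.symm⟩
  by_cases hpu : s.length ≤ u.length
  · exfalso
    have hsu : s <:+ u := List.suffix_of_suffix_length_le h1 (List.suffix_append z1 u) hpu
    have hsv : s ++ v <:+ w := by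
      obtain ⟨x, hx⟩ := hsu
      exact ⟨x, by rw [hw, ← hx]; simp⟩
    have hL := hv _ hsv
    by_cases hpv : s.length ≤ v.length
    · have hsp : s <+: v := List.prefix_of_prefix_length_le h2 (List.prefix_append v z2) hpv
      obtain ⟨v', hv'⟩ := hsp
      have h3 : LeX r (s ++ v) (s ++ v') := by rw [hv']; exact hL
      have h4 : LeX r v v' := LeX.cancel hr h3
      have h5 : v' <:+ w := List.IsSuffix.trans ⟨s, hv'⟩ hvw
      have h6 : v = v' := LeX.antisymm hr h4 (hv _ h5)
      have h7 := congrArg List.length hv'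
      rw [List.length_append, ← h6] at h7
      exact hs (List.length_eq_zero_iff.1 (by omega))
    · have hsp : v <+: s := List.prefix_of_prefix_length_le (List.prefix_append v z2) h2 (by omega)
      obtain ⟨s', hs'⟩ := hsp
      rw [← hs', List.append_assoc] at hL
      have h3 := LeX.ext_nil hr hL
      have h4 : s' = [] ∧ v = [] := List.append_eq_nil_iff.1 h3
      exact hs (by rw [← hs', h4.1, h4.2]; rfl)
  · have hus : u <:+ s := List.suffix_of_suffix_length_le (List.suffix_append z1 u) h1 (by omega)
    obtain ⟨s1, hs1⟩ := hus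
    by_cases hpv : s.length ≤ v.length
    · have hsp : s <+: v := List.prefix_of_prefix_length_le h2 (List.prefix_append v z2) hpv
      obtain ⟨z, hz⟩ := hsp
      have hvvt : v <:+ vt := List.suffix_of_suffix_length_le hvw hvt hle
      obtain ⟨y, hy⟩ := hvvt
      have hyu : y <:+ u := by
        obtain ⟨x, hx⟩ := hvt
        refine ⟨x, ?_⟩
        rw [← hy, hw, ← List.append_assoc] at hx
        exact List.append_cancel_right hx
      have hys : y <:+ s := hyu.trans ⟨s1, hs1⟩
      have hyz : y ++ z <:+ w := by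
        obtain ⟨x, hx⟩ := hys
        refine List.IsSuffix.trans ⟨x, ?_⟩ hvw
        rw [← List.append_assoc, hx, hz]
      have h3 : LeX (fun a b => r b a) z v := by
        have h4 := hvtm _ hyz
        rw [← hy] at h4
        exact LeX.cancel hr.flip h4
      have h4 : LeX r z v := hv _ (List.IsSuffix.trans ⟨s, hz⟩ hvw)
      obtain ⟨h, hh⟩ := LeX.both hr h4 h3
      have hlen : h.length = s.length := by
        have e1 := congrArg List.length hz
        have e2 := congrArg List.length hh
        rw [List.length_append] at e1 e2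
        omega
      have h5 : Per h.length (s ++ v) := by
        refine Per.border (z := v) (h := h) (k := s) ?_ rfl
        calc s ++ v = s ++ (z ++ h) := by rw [hh]
          _ = (s ++ z) ++ h := (List.append_assoc _ _ _).symm
          _ = v ++ h := by rw [hz]
      rw [← hlen]
      exact h5.factor ⟨s1, [], by rw [hw, List.append_nil, ← List.append_assoc, hs1]⟩
    · have hsp : v <+: s := List.prefix_of_prefix_length_le (List.prefix_append v z2) h2 (by omega)
      obtain ⟨s2, hs2⟩ := hsp
      have h5 : Per s.length (s ++ s) := by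
        refine Per.border (z := s) (h := s) (k := s) rfl rfl
      exact h5.factor ⟨s1, s2, by rw [hw, ← List.append_assoc, hs1, List.append_assoc, hs2]⟩

/-- **Critical factorization theorem** (with context): every word has a position such that the
length of every square centred there, in any context, is a period of the word. -/
theorem cft (w : List A) : ∃ u v, w = u ++ v ∧ ∀ z1 z2 s : List A, s ≠ [] →
    s <:+ z1 ++ u → s <+: v ++ z2 → Per s.length w := by
  obtain ⟨r, hr⟩ := exists_SLin A
  obtain ⟨v, hv, hvm⟩ := exists_max_suffix hr w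
  obtain ⟨vt, hvt, hvtm⟩ := exists_max_suffix hr.flip w
  rcases le_total v.length vt.length with h | h
  · obtain ⟨u, hu⟩ := hv
    exact ⟨u, v, hu.symm, fun z1 z2 s hs h1 h2 => cft_core hr hu.symm hvm hvt hvtm h hs h1 h2⟩
  · obtain ⟨u, hu⟩ := hvt
    exact ⟨u, vt, hu.symm, fun z1 z2 s hs h1 h2 => cft_core hr.flip hu.symm hvtm hv hvm h hs h1 h2⟩

/-- A nonperiodic word has a position at which no short square is centred, in any context. -/
theorem cft_nosq {l : ℕ} (w : List A) (hw : ∀ p, 1 ≤ p → 2 * p < l → ¬ Per p w) :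
    ∃ u v, w = u ++ v ∧ ∀ z1 z2 s : List A, 1 ≤ s.length → 2 * s.length < l →
      s <:+ z1 ++ u → s <+: v ++ z2 → False := by
  obtain ⟨u, v, h, hc⟩ := cft w
  refine ⟨u, v, h, fun z1 z2 s h1 h2 h3 h4 => hw _ h1 h2 (hc z1 z2 s ?_ h3 h4)⟩
  rintro rfl
  simp at h1

end WJ
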