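import Mathlib

/-! # Row R6 of P16: few constant words cover all short factors -/

set_option autoImplicit false

namespace WJ

/-- the first positions of the factors of length `q` -/
noncomputable def fo52 {A : Type*} (T : List A) (m q : ℕ) : Finset ℕ := by
  classical
  exact (Finset.range m).filter fun i => ∀ j < i, (T.drop j).take q ≠ (T.drop i).take q

theorem mem_fo52 {A : Type*} {T : List A} {m q i : ℕ} :
    i ∈ fo52 T m q ↔ i < m ∧ ∀ j < i, (T.drop j).take q ≠ (T.drop i).take q := by
  classical
  simp [fo52]

theorem fo52_mono {A : Type*} {T : List A} {m q : ℕ} : fo52 T m q ⊆ fo52 T m (q + 1) := by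
  intro i hi
  rw [mem_fo52] at hi ⊢
  refine ⟨hi.1, fun j hj he => hi.2 j hj ?_⟩
  have h2 := congrArg (List.take q) he
  simpa [List.take_take] using h2

theorem card_fo52 {A : Type*} {T : List A} {m q k : ℕ} {S : Finset (List A)}
    (hm : ∀ i < m, i + q ≤ T.length)
    (hS : ∀ z : List A, z <:+: T → z.length = q → z ∈ S) (hk : S.card ≤ k) :
    (fo52 T m q).card ≤ k := by
  classical
  refine le_trans (Finset.card_le_card_of_injOn (fun i => (T.drop i).take q) ?_ ?_) hk
  · intro i hi
    have hi1 := (mem_fo52.1 hi).1
    apply hS
    · exact ((List.take_prefix _ _).isInfix).trans (List.drop_suffix _ _).isInfix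
    · have := hm i hi1
      simp only [List.length_take, List.length_drop]
      omega
  · intro i hi j hj he
    have hi1 := mem_fo52.1 hi
    have hj1 := mem_fo52.1 hj
    rcases lt_trichotomy i j with h | h | h
    · exact absurd he (hj1.2 i h)
    · exact h
    · exact absurd he.symm (hi1.2 j h)

theorem start_fo52 {A : Type*} {T : List A} {m q i : ℕ} (h1 : i ∉ fo52 T m q)
    (h2 : i + 1 ∈ fo52 T m q) : i ∈ fo52 T m (q + 1) := by
  rw [mem_fo52] at h2 ⊢
  refine ⟨by omega, fun j hj he => h2.2 (j + 1) (by omega) ?_⟩
  have h3 := congrArg (List.drop 1) he
  simpa [List.drop_take, List.drop_drop, add_comm] using h3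

/-- R6: few constant words cover all short factors -/
theorem cover_factors {A : Type*} (T : List A) (q0 c : ℕ) (hq0 : 1 ≤ q0)
    (S : ℕ → Finset (List A)) (hS : ∀ q, q0 ≤ q → q ≤ 2 * q0 →
      (∀ z : List A, z <:+: T → z.length = q → z ∈ S q) ∧ (S q).card ≤ c * q0) :
    ∃ H : List (List A), H.length ≤ c + 3 ∧
      (∀ h ∈ H, h <:+: T ∧ h.length ≤ (c + 2) * q0) ∧
      ∀ z : List A, z <:+: T → z.length ≤ q0 → ∃ h ∈ H, z <:+: h := by
  classical
  have hc2 : 2 * q0 ≤ (c + 2) * q0 := Nat.mul_le_mul_right _ (by omega)
  by_cases hn : T.length ≤ 2 * q0
  · refine ⟨[T], by simp, ?_, ?_⟩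
    · intro h hh
      simp only [List.mem_singleton] at hh
      subst hh
      exact ⟨⟨[], [], by simp⟩, by omega⟩
    · intro z hz _
      exact ⟨T, by simp, hz⟩
  · rw [not_le] at hn
    set m := T.length - 2 * q0 + 1 with hm
    have hcard : ∀ q, q0 ≤ q → q ≤ 2 * q0 → (fo52 T m q).card ≤ c * q0 := by
      intro q h1 h2
      exact card_fo52 (fun i hi => by omega) (hS q h1 h2).1 (hS q h1 h2).2
    -- a level with few new positions
    obtain ⟨q, hq1, hq2, hq3⟩ : ∃ q, q0 ≤ q ∧ q < 2 * q0 ∧
        (fo52 T m (q + 1)).card ≤ (fo52 T m q).card + c := by
      by_contra hcon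
      push Not at hcon
      have key : ∀ k, k ≤ q0 → k * (c + 1) ≤ (fo52 T m (q0 + k)).card := by
        intro k
        induction k with
        | zero => intro _; simp
        | succ k ih =>
          intro hk
          have h1 := ih (by omega)
          have h2 := hcon (q0 + k) (by omega) (by omega)
          have h3 : (k + 1) * (c + 1) = k * (c + 1) + c + 1 := by ring
          have h4 : q0 + (k + 1) = q0 + k + 1 := by ring
          rw [h3, h4]
          omega
      have h1 := key q0 le_rfl
      have h2 := hcard (q0 + q0) (by omega) (by omega)
      have h3 : q0 * (c + 1) = c * q0 + q0 := by ring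
      omega
    set F := fo52 T m q with hF
    set St := F.filter fun i => i = 0 ∨ i - 1 ∉ F with hSt
    have hStc : St.card ≤ c + 1 := by
      have h1 : (St.erase 0).card ≤ (fo52 T m (q + 1) \ F).card := by
        refine Finset.card_le_card_of_injOn (fun i => i - 1) ?_ ?_
        · intro i hi
          have hi' : i ∈ St.erase 0 := hi
          simp only [hSt, Finset.mem_erase, Finset.mem_filter] at hi'
          obtain ⟨h0, hiF, hor⟩ := hi'
          have h2 : i - 1 ∉ F := by
            rcases hor with h | h
            · exact absurd h h0
            · exact h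
          simp only [Finset.coe_sdiff, Set.mem_sdiff, Finset.mem_coe]
          refine ⟨start_fo52 h2 ?_, h2⟩
          have h3 : i - 1 + 1 = i := by omega
          rw [h3]
          exact hiF
        · intro i hi j hj he
          have hi' : i ∈ St.erase 0 := hi
          have hj' : j ∈ St.erase 0 := hj
          have h1 := Finset.ne_of_mem_erase hi'
          have h2 := Finset.ne_of_mem_erase hj'
          simp only at he
          omega
      have h2 : (fo52 T m (q + 1) \ F).card ≤ c := by
        rw [Finset.card_sdiff_of_subset fo52_mono, ← hF]
        omega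
      have h3 : St.card ≤ (St.erase 0).card + 1 := by
        have := Finset.pred_card_le_card_erase (s := St) (a := 0)
        omega
      omega
    refine ⟨(St.toList.map fun s => (T.drop s).take ((c + 2) * q0)) ++ [T.drop (T.length - 2 * q0)],
      ?_, ?_, ?_⟩
    · simp only [List.length_append, List.length_map, Finset.length_toList, List.length_singleton]
      omega
    · intro h hh
      rw [List.mem_append] at hh
      rcases hh with hh | hh
      · rw [List.mem_map] at hh
        obtain ⟨s, _, rfl⟩ := hh
        refine ⟨((List.take_prefix _ _).isInfix).trans (List.drop_suffix _ _).isInfix, ?_⟩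
        simp only [List.length_take]
        omega
      · simp only [List.mem_singleton] at hh
        subst hh
        refine ⟨(List.drop_suffix _ _).isInfix, ?_⟩
        simp only [List.length_drop]
        omega
    · intro z hz hzl
      -- first position of z
      have hex : ∃ i, z <+: T.drop i := by
        obtain ⟨s, t, hst⟩ := hz
        refine ⟨s.length, ?_⟩
        rw [← hst, List.append_assoc, List.drop_left]
        exact List.prefix_append _ _
      set i := Nat.find hex with hi
      have hi1 : z <+: T.drop i := Nat.find_spec hex
      have hi2 : ∀ j < i, ¬ z <+: T.drop j := fun j hj => Nat.find_min hex hj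
      by_cases him : T.length - 2 * q0 < i
      · refine ⟨T.drop (T.length - 2 * q0), by simp, ?_⟩
        have h1 : T.drop i = (T.drop (T.length - 2 * q0)).drop (i - (T.length - 2 * q0)) := by
          rw [List.drop_drop]
          congr 1
          omega
        rw [h1] at hi1
        exact hi1.isInfix.trans (List.drop_suffix _ _).isInfix
      · rw [not_lt] at him
        have hiF : i ∈ F := by
          rw [hF, mem_fo52]
          refine ⟨by omega, fun j hj he => hi2 j hj ?_⟩
          have h1 : z = ((T.drop i).take q).take z.length := by
            rw [List.take_take, min_eq_left (by omega)]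
            exact List.prefix_iff_eq_take.1 hi1
          rw [h1, ← he, List.take_take]
          exact List.take_prefix _ _
        -- start of the run
        have hrun : ∃ s, s ≤ i ∧ ∀ k, s ≤ k → k ≤ i → k ∈ F := ⟨i, le_rfl, fun k h1 h2 => by
          have : k = i := le_antisymm h2 h1
          rw [this]; exact hiF⟩
        set s := Nat.find hrun with hs
        have hs1 : s ≤ i ∧ ∀ k, s ≤ k → k ≤ i → k ∈ F := Nat.find_spec hrun
        have hsSt : s ∈ St := by
          rw [hSt, Finset.mem_filter]
          refine ⟨hs1.2 s le_rfl hs1.1, ?_⟩
          by_contra hcon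
          push Not at hcon
          obtain ⟨h0, h1⟩ := hcon
          have h2 := Nat.find_min hrun (show s - 1 < Nat.find hrun by omega)
          apply h2
          refine ⟨by omega, fun k hk1 hk2 => ?_⟩
          rcases Nat.lt_or_ge k s with h | h
          · have : k = s - 1 := by omega
            rw [this]; exact h1
          · exact hs1.2 k h hk2
        have hlen : i - s + 1 ≤ c * q0 := by
          have h1 : Finset.Icc s i ⊆ F := by
            intro k hk
            rw [Finset.mem_Icc] at hk
            exact hs1.2 k hk.1 hk.2
          have h2 := Finset.card_le_card h1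
          rw [Nat.card_Icc] at h2
          have h3 := hcard q hq1 (by omega)
          have h4 := hs1.1
          rw [← hF] at h3
          omega
        refine ⟨(T.drop s).take ((c + 2) * q0), ?_, ?_⟩
        · rw [List.mem_append]
          left
          rw [List.mem_map]
          exact ⟨s, Finset.mem_toList.2 hsSt, rfl⟩
        · have h1 : T.drop i = (T.drop s).drop (i - s) := by
            rw [List.drop_drop]
            congr 1
            omega
          have h2 : z = (((T.drop s).take ((c + 2) * q0)).drop (i - s)).take z.length := by
            rw [List.drop_take, List.take_take, min_eq_left, ← h1]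
            · exact List.prefix_iff_eq_take.1 hi1
            · have h5 : (c + 2) * q0 = c * q0 + 2 * q0 := by ring
              omega
          rw [h2]
          exact ((List.take_prefix _ _).isInfix).trans (List.drop_suffix _ _).isInfix

end WJ
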