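import Pool.Agent.WK.Words66D
import Pool.Agent.WJ.CFT66

/-! Word equations with boundedly many repeated variables (MP_fc7ad9_lc). Helper module:
centred markers, their possible cut places in a word, atoms. -/

set_option autoImplicit false

namespace WJ

open WK

variable {A : Type*}

/-- no square of period `< w / 2` is centred at the cut `a | b` -/
def NoSq (w : ℕ) (a b : List A) : Prop :=
  ∀ z : List A, 1 ≤ z.length → 2 * z.length < w → z <:+ a → z <+: b → False

theorem NoSq.mono {w : ℕ} {a b a' b' : List A} (h : NoSq w a b) (ha : a' <:+ a) (hb : b' <+: b) :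
    NoSq w a' b' := fun z h1 h2 h3 h4 => h z h1 h2 (h3.trans ha) (h4.trans hb)

theorem NoSq.of_len {w : ℕ} {a b a' b' : List A} (h : NoSq w a' b') (ha : a' <:+ a)
    (hb : b' <+: b) (hla : w ≤ 2 * a'.length) (hlb : w ≤ 2 * b'.length) : NoSq w a b := by
  intro z h1 h2 h3 h4
  exact h z h1 h2 (List.suffix_of_suffix_length_le h3 ha (by omega))
    (List.prefix_of_prefix_length_le h4 hb (by omega))

/-- two cuts of one marker are far apart -/
theorem cut_sep {w : ℕ} {a c q h f : List A} (ha : a.length = w) (hc : c.length = w)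
    (hn : NoSq w a c) (hq : 1 ≤ q.length) (h1 : c <+: q ++ f) (h2 : a <:+ h ++ q) :
    w ≤ 2 * q.length := by
  by_contra hlt
  rw [not_le] at hlt
  refine hn q hq hlt ?_ ?_
  · exact List.suffix_of_suffix_length_le (List.suffix_append h q) h2 (by omega)
  · exact List.prefix_of_prefix_length_le (List.prefix_append q f) h1 (by omega)

/-- a critical cut inside a long word with bounded exponents -/
theorem exists_crit {N d0 w : ℕ} {u : List A} (hu : EBdd N d0 u) (hd : d0 ≤ w) (hN : 1 ≤ N)
    (hw : 1 ≤ w) (hl : (N + 2) * w ≤ u.length) :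
    ∃ h a c f, u = h ++ a ++ c ++ f ∧ a.length = w ∧ c.length = w ∧ NoSq w a c := by
  have p1 : (N + 2) * w = N * w + w + w := by ring
  have hU2 : EBdd N d0 ((u.drop w).take (N * w)) :=
    hu.factor ((List.take_prefix _ _).isInfix.trans (List.drop_suffix _ _).isInfix)
  have hU2l : ((u.drop w).take (N * w)).length = N * w := by
    rw [List.length_take, List.length_drop]; omega
  obtain ⟨a, z, b, e1, e2, e3⟩ := exists_nonperD hU2 hd hN hw hU2l.ge
  obtain ⟨x, y, e4, e5⟩ := cft_nosq z e3
  have e6 : u = u.take w ++ ((u.drop w).take (N * w) ++ (u.drop w).drop (N * w)) := by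
    rw [List.take_append_drop, List.take_append_drop]
  have l1 := congrArg List.length e1
  rw [hU2l] at l1
  simp only [List.length_append] at l1
  have l2 := congrArg List.length e4
  rw [List.length_append] at l2
  obtain ⟨U, hU⟩ : ∃ U, U = u.take w ++ a ++ x := ⟨_, rfl⟩
  obtain ⟨V, hV⟩ : ∃ V, V = y ++ (b ++ (u.drop w).drop (N * w)) := ⟨_, rfl⟩
  have e7 : u = U ++ V := by
    rw [hU, hV]
    conv_lhs => rw [e6, e1, e4]
    simp only [List.append_assoc]
  have hUl : w ≤ U.length := by
    rw [hU]; simp only [List.length_append, List.length_take]; omega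
  have hVl : w ≤ V.length := by
    rw [hV]; simp only [List.length_append, List.length_drop]; omega
  have e8 : NoSq w U V := by
    intro s s1 s2 s3 s4
    rw [hU] at s3
    rw [hV] at s4
    exact e5 _ _ s s1 s2 s3 s4
  refine ⟨U.take (U.length - w), U.drop (U.length - w), V.take w, V.drop w, ?_, ?_, ?_, ?_⟩
  · rw [List.take_append_drop, List.append_assoc, List.take_append_drop, e7]
  · rw [List.length_drop]; omega
  · rw [List.length_take]; omega
  · exact e8.mono (List.drop_suffix _ _) (List.take_prefix _ _)

/-! ### possible cut places -/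

/-- a set of numbers in `[a, b)` whose distances are at least `w / 2` -/
theorem card_sep {w a b : ℕ} (hw : 1 ≤ w) (P : Finset ℕ) (hP : ∀ t ∈ P, a ≤ t ∧ t < b)
    (hs : ∀ s ∈ P, ∀ t ∈ P, s < t → w ≤ 2 * (t - s)) : P.card * w ≤ 2 * (b - a) + w := by
  classical
  induction P using Finset.induction_on_max generalizing b with
  | empty => simp
  | insert m s hm ih =>
    have hms : m ∉ s := fun h => lt_irrefl _ (hm m h)
    rw [Finset.card_insert_of_notMem hms]
    have hmP := hP m (Finset.mem_insert_self _ _)
    rcases s.eq_empty_or_nonempty with rfl | hne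
    · simp
    · have h1 := ih (b := m - (w - 1) / 2) (by
        intro t ht
        have h2 := hP t (Finset.mem_insert_of_mem ht)
        have h3 := hm t ht
        have h4 := hs t (Finset.mem_insert_of_mem ht) m (Finset.mem_insert_self _ _) h3
        omega) (fun x hx y hy => hs x (Finset.mem_insert_of_mem hx) y (Finset.mem_insert_of_mem hy))
      obtain ⟨t, ht⟩ := hne
      have h2 := hP t (Finset.mem_insert_of_mem ht)
      have h3 := hm t ht
      have h4 := hs t (Finset.mem_insert_of_mem ht) m (Finset.mem_insert_self _ _) h3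
      have h5 : (s.card + 1) * w = s.card * w + w := by ring
      omega

/-- in some context there is a cut of a marker from `Z` after `t` letters of `u` -/
def Poss (Z : List (List A × List A)) (u : List A) (t : ℕ) : Prop :=
  ∃ z ∈ Z, ∃ h f, z.1 <:+ h ++ u.take t ∧ z.2 <+: u.drop t ++ f

theorem poss_sep {w : ℕ} {a c u : List A} (ha : a.length = w) (hc : c.length = w)
    (hn : NoSq w a c) {s t : ℕ} (hst : s < t) (ht : t ≤ u.length)
    (h1 : Poss [(a, c)] u s) (h2 : Poss [(a, c)] u t) : w ≤ 2 * (t - s) := by
  obtain ⟨z1, hz1, h1, f1, e1, e2⟩ := h1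
  obtain ⟨z2, hz2, h2, f2, e3, e4⟩ := h2
  rw [List.mem_singleton] at hz1 hz2
  subst hz1; subst hz2
  have hq : u.drop s = (u.drop s).take (t - s) ++ u.drop t := by
    conv_lhs => rw [← List.take_append_drop (t - s) (u.drop s), List.drop_drop]
    congr 2; omega
  have hq2 : u.take t = u.take s ++ (u.drop s).take (t - s) := by
    conv_lhs => rw [show t = s + (t - s) by omega, List.take_add]
  have hl : ((u.drop s).take (t - s)).length = t - s := by
    rw [List.length_take, List.length_drop]; omega
  have := cut_sep (q := (u.drop s).take (t - s)) (h := h2 ++ u.take s) (f := u.drop t ++ f1)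
    ha hc hn (by omega) (by rw [hq, List.append_assoc] at e2; exact e2)
    (by rw [hq2, ← List.append_assoc] at e3; exact e3)
  omega

open Classical in
theorem poss_card {w : ℕ} (hw : 1 ≤ w) (u : List A) (α β : ℕ) (hβ : β ≤ u.length + 1) :
    ∀ Z : List (List A × List A),
      (∀ z ∈ Z, z.1.length = w ∧ z.2.length = w ∧ NoSq w z.1 z.2) →
      ((Finset.Ico α β).filter (Poss Z u)).card * w ≤ Z.length * (2 * (β - α) + w)
  | [], _ => by
    have : (Finset.Ico α β).filter (Poss [] u) = ∅ := by
      ext t; simp [Poss]
    simp [this]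
  | z :: Z, hZ => by
    have ih := poss_card hw u α β hβ Z fun z hz => hZ z (List.mem_cons_of_mem _ hz)
    obtain ⟨h1, h2, h3⟩ := hZ z List.mem_cons_self
    have e1 : ((Finset.Ico α β).filter (Poss [z] u)).card * w ≤ 2 * (β - α) + w := by
      refine card_sep hw _ (fun t ht => ?_) fun s hs t ht hst => ?_
      · rw [Finset.mem_filter, Finset.mem_Ico] at ht; exact ht.1
      · rw [Finset.mem_filter, Finset.mem_Ico] at hs ht
        exact poss_sep (a := z.1) (c := z.2) h1 h2 h3 hst (by omega) hs.2 ht.2
    have e2 : (Finset.Ico α β).filter (Poss (z :: Z) u) ⊆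
        (Finset.Ico α β).filter (Poss [z] u) ∪ (Finset.Ico α β).filter (Poss Z u) := by
      intro t ht
      rw [Finset.mem_union, Finset.mem_filter, Finset.mem_filter]
      rw [Finset.mem_filter] at ht
      obtain ⟨ht1, y, hy, hh⟩ := ht
      rcases List.mem_cons.1 hy with rfl | hy
      · exact Or.inl ⟨ht1, y, List.mem_singleton_self _, hh⟩
      · exact Or.inr ⟨ht1, y, hy, hh⟩
    have e3 := (Finset.card_le_card e2).trans (Finset.card_union_le _ _)
    have e4 := Nat.mul_le_mul_right w e3
    rw [Nat.add_mul] at e4
    rw [List.length_cons, Nat.add_mul, one_mul]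
    omega

/-! ### atoms -/

theorem atoms_of (P : Finset ℕ) : ∀ (u : List A), (∀ t ∈ P, t ≤ u.length) →
    ∃ L : List (List A), L.flatten = u ∧ L.length ≤ P.card + 1 ∧
      ∀ t ∈ P, ∃ i, i ≤ L.length ∧ (L.take i).flatten = u.take t := by
  classical
  induction P using Finset.induction_on_max with
  | empty =>
    intro u _
    exact ⟨[u], by simp, by simp, by simp⟩
  | insert m s hm ih =>
    intro u hu
    have hms : m ∉ s := fun h => lt_irrefl _ (hm m h)
    have hmu : m ≤ u.length := hu m (Finset.mem_insert_self _ _)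
    obtain ⟨L, h1, h2, h3⟩ := ih (u.take m) (by
      intro t ht
      have := hm t ht
      rw [List.length_take]; omega)
    refine ⟨L ++ [u.drop m], by simp [h1], ?_, ?_⟩
    · rw [List.length_append, List.length_singleton, Finset.card_insert_of_notMem hms]; omega
    · intro t ht
      rw [Finset.mem_insert] at ht
      rcases ht with rfl | ht
      · refine ⟨L.length, by simp, ?_⟩
        rw [List.take_left, h1]
      · obtain ⟨i, hi, hi2⟩ := h3 t ht
        refine ⟨i, by rw [List.length_append]; omega, ?_⟩
        rw [List.take_append_of_le_length hi, hi2, List.take_take, min_eq_left (hm t ht).le]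

end WJ
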