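import Pool.Agent.WJ.Defs23
import Pool.Agent.WJ.Mark98

/-! Word equations with few repeated variables (MP_fc7ad9_lc). Helper module:
critical cuts of the repeated variables. -/

set_option autoImplicit false

open WE45 WK

namespace WJ

theorem crit_of_noSq {A : Type*} {w : ℕ} {a c : List A} (ha : a.length = w) (hc : c.length = w)
    (h : NoSq w a c) : Crit w a c := by
  refine ⟨ha, hc, fun q h1 h2 h3 => ?_⟩
  refine h (c.take q) (by rw [List.length_take]; omega) (by rw [List.length_take]; omega)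
    (h3 ▸ List.drop_suffix _ _) (List.take_prefix _ _)

theorem Crit.noSq {A : Type*} {w : ℕ} {a c : List A} (h : Crit w a c) : NoSq w a c := by
  intro z h1 h2 h3 h4
  refine h.2.2 z.length h1 h2 ?_
  have e1 := List.prefix_iff_eq_take.1 h4
  have e2 := List.suffix_iff_eq_drop.1 h3
  rw [h.1] at e2
  exact e2.symm.trans e1

/-- a critical cut in a long word -/
theorem exists_critC {A : Type*} {N d0 w : ℕ} {u : List A} (hu : EBdd N d0 u) (hN : 1 ≤ N)
    (hd : d0 ≤ w) (hw : 2 ≤ w) (hlen : (N + 2) * w ≤ u.length) :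
    ∃ h a c f, u = h ++ a ++ c ++ f ∧ Crit w a c := by
  obtain ⟨h, a, c, f, e1, e2, e3, e4⟩ := exists_crit hu hd hN (by omega) hlen
  exact ⟨h, a, c, f, e1, crit_of_noSq e2 e3 e4⟩

/-- two cuts of one marker are far apart (also if the contexts differ) -/
theorem crit_space {A : Type*} {w q : ℕ} {a c h' t f : List A} (hc : Crit w a c)
    (h1 : c <+: t ++ f) (h2 : a <:+ h' ++ t) (ht : t.length = q) (hq : 1 ≤ q) :
    w ≤ 2 * q := by
  have := cut_sep hc.1 hc.2.1 hc.noSq (by omega) h1 h2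
  omega

/-- atoms without empty words -/
theorem atoms_ne {A : Type*} (P : Finset ℕ) (u : List A) (hP : ∀ t ∈ P, t ≤ u.length) :
    ∃ L : List (List A), L.flatten = u ∧ L.length ≤ P.card + 1 ∧ (∀ b ∈ L, b ≠ []) ∧
      ∀ t ∈ P, ∃ L1 L2, L = L1 ++ L2 ∧ L1.flatten = u.take t ∧ L2.flatten = u.drop t := by
  classical
  obtain ⟨L, h1, h2, h3⟩ := atoms_of P u hP
  have hf : ∀ M : List (List A), (M.filter fun b => decide (b ≠ [])).flatten = M.flatten := by
    intro M
    induction M with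
    | nil => rfl
    | cons b M ih =>
      by_cases hb : b = []
      · subst hb
        rw [List.filter_cons_of_neg (by simp), ih]; simp
      · rw [List.filter_cons_of_pos (by simpa using hb), List.flatten_cons, ih,
          List.flatten_cons]
  refine ⟨L.filter fun b => decide (b ≠ []), by rw [hf, h1],
    (List.length_filter_le _ _).trans h2, ?_, ?_⟩
  · intro b hb
    have := (List.mem_filter.1 hb).2
    simpa using this
  · intro t ht
    obtain ⟨i, hi, hi2⟩ := h3 t ht
    refine ⟨(L.take i).filter fun b => decide (b ≠ []), (L.drop i).filter fun b => decide (b ≠ []),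
      ?_, by rw [hf, hi2], ?_⟩
    · rw [← List.filter_append, List.take_append_drop]
    · rw [hf]
      have e : u.take t ++ (L.drop i).flatten = u.take t ++ u.drop t := by
        rw [← hi2, ← List.flatten_append, List.take_append_drop, h1, hi2, List.take_append_drop]
      exact List.append_cancel_left e

theorem KZ.loc2 {A ι : Type*} {ma mc : ι → List A} {w : ℕ} (ha : ∀ z, (ma z).length = w)
    (hc : ∀ z, (mc z).length = w) : Loc2 w (KZ ma mc) := by
  intro h t f g ht hf
  constructor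
  · rintro ⟨z, h1, h2⟩
    exact ⟨z, List.suffix_of_suffix_length_le h1 (List.suffix_append h t) (by rw [ha z]; exact ht),
      List.prefix_of_prefix_length_le h2 (List.prefix_append f g) (by rw [hc z]; exact hf)⟩
  · rintro ⟨z, h1, h2⟩
    exact ⟨z, h1.trans (List.suffix_append h t), h2.trans (List.prefix_append f g)⟩

theorem KZ.needs {A ι : Type*} {ma mc : ι → List A} {w : ℕ} (ha : ∀ z, (ma z).length = w)
    (hc : ∀ z, (mc z).length = w) {h f : List A} (hK : KZ ma mc h f) :
    w ≤ h.length ∧ w ≤ f.length := by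
  obtain ⟨z, h1, h2⟩ := hK
  have e1 := h1.length_le
  have e2 := h2.length_le
  rw [ha z] at e1
  rw [hc z] at e2
  exact ⟨e1, e2⟩

/-- first determined cut -/
theorem exists_first {A : Type*} {K : List A → List A → Prop} {u p s : List A} (h : u = p ++ s)
    (hK : K p s) : ∃ p' s', u = p' ++ s' ∧ K p' s' ∧ p'.length ≤ p.length ∧
      ∀ p'' s'', u = p'' ++ s'' → K p'' s'' → p'.length ≤ p''.length := by
  classical
  have hex : ∃ i, i ≤ u.length ∧ K (u.take i) (u.drop i) :=
    ⟨p.length, by rw [h]; simp, by rw [h, List.take_left, List.drop_left]; exact hK⟩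
  have h1 := Nat.find_spec hex
  refine ⟨u.take (Nat.find hex), u.drop (Nat.find hex), (List.take_append_drop _ _).symm, h1.2,
    ?_, ?_⟩
  · rw [List.length_take]
    have : Nat.find hex ≤ p.length := Nat.find_min' hex ⟨by rw [h]; simp,
      by rw [h, List.take_left, List.drop_left]; exact hK⟩
    omega
  · intro p'' s'' h2 h3
    rw [List.length_take]
    have : Nat.find hex ≤ p''.length := Nat.find_min' hex ⟨by rw [h2]; simp,
      by rw [h2, List.take_left, List.drop_left]; exact h3⟩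
    omega

/-- last determined cut -/
theorem exists_last {A : Type*} {K : List A → List A → Prop} {u p s : List A} (h : u = p ++ s)
    (hK : K p s) : ∃ p' s', u = p' ++ s' ∧ K p' s' ∧ s'.length ≤ s.length ∧
      ∀ p'' s'', u = p'' ++ s'' → K p'' s'' → s'.length ≤ s''.length := by
  classical
  obtain ⟨p', s', h1, h2, h3, h4⟩ := exists_first (K := fun x y => K y.reverse x.reverse)
    (u := u.reverse) (p := s.reverse) (s := p.reverse) (by rw [h, List.reverse_append])
    (by simpa using hK)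
  refine ⟨s'.reverse, p'.reverse, ?_, h2, ?_, ?_⟩
  · have := congrArg List.reverse h1
    rwa [List.reverse_reverse, List.reverse_append] at this
  · simpa using h3
  · intro p'' s'' h5 h6
    have := h4 s''.reverse p''.reverse (by rw [h5, List.reverse_append]) (by simpa using h6)
    simpa using this


theorem card_filter_poss {A : Type*} {w m : ℕ} (hw : 1 ≤ w) (Z : List (List A × List A))
    (hZ : ∀ z ∈ Z, z.1.length = w ∧ z.2.length = w ∧ NoSq w z.1 z.2) (hm : Z.length ≤ m)
    (u : List A) (α β : ℕ) (hβ : β ≤ u.length + 1) (P : Finset ℕ)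
    (hP : ∀ t ∈ P, α ≤ t ∧ t < β ∧ Poss Z u t) : P.card * w ≤ m * (2 * (β - α) + w) := by
  classical
  have h1 : P ⊆ (Finset.Ico α β).filter (Poss Z u) := by
    intro t ht
    obtain ⟨h1, h2, h3⟩ := hP t ht
    exact Finset.mem_filter.2 ⟨Finset.mem_Ico.2 ⟨h1, h2⟩, h3⟩
  have h2 := poss_card hw u α β hβ Z hZ
  have h3 := Nat.mul_le_mul_right w (Finset.card_le_card h1)
  have h4 := Nat.mul_le_mul_right (2 * (β - α) + w) hm
  calc P.card * w ≤ _ := h3
    _ ≤ _ := by convert h2
    _ ≤ _ := h4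

theorem card_le_three {w c m : ℕ} (hw : 1 ≤ w) {e : ℕ} (he : e ≤ w)
    (h : c * w ≤ m * (2 * e + w)) : c ≤ 3 * m := by
  have h1 : m * (2 * e + w) ≤ m * (3 * w) := Nat.mul_le_mul_left m (by omega)
  have h2 : c * w ≤ (3 * m) * w := by
    calc c * w ≤ m * (2 * e + w) := h
      _ ≤ m * (3 * w) := h1
      _ = (3 * m) * w := by ring
  exact Nat.le_of_mul_le_mul_right h2 (by omega)

/-- markers of one long word -/
theorem exists_markers {A : Type*} {N d0 w : ℕ} {u : List A} (hu : EBdd N d0 u) (hN : 1 ≤ N)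
    (hd : d0 ≤ w) (hw : 2 ≤ w) (hlen : 2 * ((N + 2) * w) ≤ u.length) :
    ∃ a1 c1 a2 c2 : List A, Crit w a1 c1 ∧ Crit w a2 c2 ∧
      (∃ p s, u = p ++ s ∧ a1 <:+ p ∧ c1 <+: s ∧ p.length ≤ (N + 2) * w) ∧
      (∃ p s, u = p ++ s ∧ a2 <:+ p ∧ c2 <+: s ∧ s.length ≤ (N + 2) * w) := by
  obtain ⟨h1, a1, c1, f1, e1, e2⟩ := exists_critC (u := u.take ((N + 2) * w))
    (hu.factor (List.take_prefix _ _).isInfix) hN hd hw (by rw [List.length_take]; omega)
  obtain ⟨h2, a2, c2, f2, e3, e4⟩ := exists_critC (u := u.drop (u.length - (N + 2) * w))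
    (hu.factor (List.drop_suffix _ _).isInfix) hN hd hw (by rw [List.length_drop]; omega)
  refine ⟨a1, c1, a2, c2, e2, e4, ⟨h1 ++ a1, c1 ++ (f1 ++ u.drop ((N + 2) * w)), ?_,
    List.suffix_append _ _, List.prefix_append _ _, ?_⟩,
    ⟨u.take (u.length - (N + 2) * w) ++ (h2 ++ a2), c2 ++ f2, ?_, ?_, List.prefix_append _ _, ?_⟩⟩
  · conv_lhs => rw [← List.take_append_drop ((N + 2) * w) u, e1]
    simp only [List.append_assoc]
  · have := congrArg List.length e1
    simp only [List.length_append, List.length_take] at this ⊢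
    omega
  · conv_lhs => rw [← List.take_append_drop (u.length - (N + 2) * w) u, e3]
    simp only [List.append_assoc]
  · rw [← List.append_assoc]; exact List.suffix_append _ _
  · have := congrArg List.length e3
    simp only [List.length_append, List.length_drop] at this ⊢
    omega

/-- the data of one long word -/
theorem exists_one {A : Type*} {N w m : ℕ} (hw : 1 ≤ w) {K : List A → List A → Prop}
    (hloc : Loc2 w K) (hneeds : ∀ h f, K h f → w ≤ h.length ∧ w ≤ f.length)
    (Z : List (List A × List A)) (hZ : ∀ z ∈ Z, z.1.length = w ∧ z.2.length = w ∧ NoSq w z.1 z.2)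
    (hm : Z.length ≤ m) (hK : ∀ h f, K h f → ∃ z ∈ Z, z.1 <:+ h ∧ z.2 <+: f)
    {u : List A} (hlen : 2 * ((N + 2) * w) ≤ u.length)
    (h1 : ∃ p s, u = p ++ s ∧ K p s ∧ p.length ≤ (N + 2) * w)
    (h2 : ∃ p s, u = p ++ s ∧ K p s ∧ s.length ≤ (N + 2) * w) :
    ∃ (pre mid suf : List A) (as bs : List (List A)), u = pre ++ mid ++ suf ∧
      (w ≤ pre.length ∧ pre.length ≤ (N + 2) * w) ∧ (w ≤ suf.length ∧ suf.length ≤ (N + 2) * w) ∧
      K pre (mid ++ suf) ∧ K (pre ++ mid) suf ∧
      (as.flatten = suf ∧ as.length ≤ 3 * m + 2 ∧ ∀ b ∈ as, b ≠ []) ∧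
      (bs.flatten = pre ∧ bs.length ≤ 3 * m + 2 ∧ ∀ b ∈ bs, b ≠ []) ∧
      (∀ t r f, suf = t ++ r → K (pre ++ mid ++ t) (r ++ f) →
        ∃ a1 a2, as = a1 ++ a2 ∧ a1.flatten = t ∧ a2.flatten = r) ∧
      (∀ h t r, pre = t ++ r → K (h ++ t) (r ++ mid ++ suf) →
        ∃ b1 b2, bs = b1 ++ b2 ∧ b1.flatten = t ∧ b2.flatten = r) := by
  classical
  obtain ⟨p, s, e1, e2, e3⟩ := h1
  obtain ⟨p2, s2, e4, e5, e6⟩ := h2
  obtain ⟨pre, s', f1, f2, f3, f4⟩ := exists_first e1 e2
  obtain ⟨p', suf, g1, g2, g3, g4⟩ := exists_last e4 e5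
  have l1 := congrArg List.length f1
  have l2 := congrArg List.length g1
  rw [List.length_append] at l1 l2
  -- the middle part
  obtain ⟨mid, hmid⟩ : ∃ mid, p' = pre ++ mid := by
    have a1 : pre <+: u := ⟨s', f1.symm⟩
    have a2 : p' <+: u := ⟨suf, g1.symm⟩
    obtain ⟨mid, h⟩ := List.prefix_of_prefix_length_le a1 a2 (by omega)
    exact ⟨mid, h.symm⟩
  have hs' : s' = mid ++ suf := by
    have : pre ++ s' = pre ++ (mid ++ suf) := by
      rw [← f1, g1, hmid, List.append_assoc]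
    exact List.append_cancel_left this
  rw [hs'] at f2
  rw [hmid] at g2
  have n1 := hneeds _ _ f2
  have n2 := hneeds _ _ g2
  have hu : u = pre ++ mid ++ suf := by rw [g1, hmid]
  -- atoms of the suffix part
  obtain ⟨as, a1, a2, a3, a4⟩ := atoms_ne
    ((Finset.Ico (suf.length + 1 - w) (suf.length + 1)).filter (Poss Z suf)) suf (by
      intro t ht
      rw [Finset.mem_filter, Finset.mem_Ico] at ht
      omega)
  have ca := card_le_three hw (e := suf.length + 1 - (suf.length + 1 - w)) (by omega)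
    (card_filter_poss hw Z hZ hm suf (suf.length + 1 - w) (suf.length + 1) le_rfl
    ((Finset.Ico (suf.length + 1 - w) (suf.length + 1)).filter (Poss Z suf)) (by
      intro t ht
      rw [Finset.mem_filter, Finset.mem_Ico] at ht
      exact ⟨ht.1.1, ht.1.2, ht.2⟩))
  -- atoms of the prefix part
  obtain ⟨bs, b1, b2, b3, b4⟩ := atoms_ne
    ((Finset.Ico 0 (min w (pre.length + 1))).filter (Poss Z pre)) pre (by
      intro t ht
      rw [Finset.mem_filter, Finset.mem_Ico] at ht
      omega)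
  have cb := card_le_three hw (e := min w (pre.length + 1) - 0) (by omega)
    (card_filter_poss hw Z hZ hm pre 0 (min w (pre.length + 1)) (by omega)
    ((Finset.Ico 0 (min w (pre.length + 1))).filter (Poss Z pre)) (by
      intro t ht
      rw [Finset.mem_filter, Finset.mem_Ico] at ht
      exact ⟨ht.1.1, ht.1.2, ht.2⟩))
  refine ⟨pre, mid, suf, as, bs, hu, ⟨n1.1, by omega⟩, ⟨n2.2, by omega⟩, f2, g2,
    ⟨a1, by omega, a3⟩, ⟨b1, by omega, b3⟩, ?_, ?_⟩
  · intro t r f htr hk
    have lt := congrArg List.length htr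
    rw [List.length_append] at lt
    by_cases hr : w ≤ r.length
    · have k1 : K (pre ++ mid ++ t) r := by
        have := (hloc [] (pre ++ mid ++ t) r f (by
          rw [List.length_append, List.length_append]; omega) hr).1
        exact this (by simpa using hk)
      have k2 := g4 (pre ++ mid ++ t) r (by rw [hu, htr]; simp only [List.append_assoc]) k1
      have k3 : t = [] := List.length_eq_zero_iff.1 (by omega)
      subst k3
      exact ⟨[], as, rfl, rfl, by rw [a1, htr]; rfl⟩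
    · have hp : Poss Z suf t.length := by
        obtain ⟨z, hz, z1, z2⟩ := hK _ _ hk
        refine ⟨z, hz, pre ++ mid, f, ?_, ?_⟩
        · rw [htr, List.take_left]; exact z1
        · rw [htr, List.drop_left]; exact z2
      obtain ⟨L1, L2, q1, q2, q3⟩ := a4 t.length (Finset.mem_filter.2
        ⟨Finset.mem_Ico.2 ⟨by omega, by omega⟩, hp⟩)
      refine ⟨L1, L2, q1, ?_, ?_⟩
      · rw [q2, htr, List.take_left]
      · rw [q3, htr, List.drop_left]
  · intro h t r htr hk
    have lt := congrArg List.length htr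
    rw [List.length_append] at lt
    by_cases hr : w ≤ t.length
    · have k1 : K t (r ++ mid ++ suf) := by
        have := (hloc h t (r ++ mid ++ suf) [] hr (by
          rw [List.length_append, List.length_append]; omega)).1
        exact this (by simpa using hk)
      have k2 := f4 t (r ++ mid ++ suf) (by rw [hu, htr]; simp only [List.append_assoc]) k1
      have k3 : r = [] := List.length_eq_zero_iff.1 (by omega)
      subst k3
      exact ⟨bs, [], by simp, by rw [b1, htr]; simp, rfl⟩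
    · have hp : Poss Z pre t.length := by
        obtain ⟨z, hz, z1, z2⟩ := hK _ _ hk
        refine ⟨z, hz, h, mid ++ suf, ?_, ?_⟩
        · rw [htr, List.take_left]; exact z1
        · rw [htr, List.drop_left, ← List.append_assoc]; exact z2
      obtain ⟨L1, L2, q1, q2, q3⟩ := b4 t.length (Finset.mem_filter.2
        ⟨Finset.mem_Ico.2 ⟨by omega, by omega⟩, hp⟩)
      refine ⟨L1, L2, q1, ?_, ?_⟩
      · rw [q2, htr, List.take_left]
      · rw [q3, htr, List.drop_left]

/-- all data -/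
theorem exists_cutData {A X : Type*} [Fintype X] {N d0 w m : ℕ} (hN : 1 ≤ N) (hd : d0 ≤ w)
    (hw : 2 ≤ w) (σ : X → List A) (lgR : X → Prop)
    (hm : 2 * Nat.card {x // lgR x} ≤ m) (hEB : ∀ x, lgR x → EBdd N d0 (σ x))
    (hlong : ∀ x, lgR x → 2 * ((N + 2) * w) ≤ (σ x).length) :
    ∃ K pre mid suf as bs, CutData w N m K σ pre mid suf as bs lgR := by
  classical
  have H : ∀ x : {x // lgR x}, ∃ a1 c1 a2 c2 : List A, Crit w a1 c1 ∧ Crit w a2 c2 ∧
      (∃ p s, σ x.1 = p ++ s ∧ a1 <:+ p ∧ c1 <+: s ∧ p.length ≤ (N + 2) * w) ∧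
      (∃ p s, σ x.1 = p ++ s ∧ a2 <:+ p ∧ c2 <+: s ∧ s.length ≤ (N + 2) * w) := fun x =>
    exists_markers (hEB x.1 x.2) hN hd hw (hlong x.1 x.2)
  choose a1 c1 a2 c2 hc1 hc2 hp1 hp2 using H
  obtain ⟨ma, hma⟩ : ∃ ma : {x // lgR x} × Bool → List A,
    ma = fun z => cond z.2 (a1 z.1) (a2 z.1) := ⟨_, rfl⟩
  obtain ⟨mc, hmc⟩ : ∃ mc : {x // lgR x} × Bool → List A,
    mc = fun z => cond z.2 (c1 z.1) (c2 z.1) := ⟨_, rfl⟩
  have hcr : ∀ z, Crit w (ma z) (mc z) := by
    rintro ⟨x, b⟩
    rw [hma, hmc]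
    cases b
    · exact hc2 x
    · exact hc1 x
  have hla : ∀ z, (ma z).length = w := fun z => (hcr z).1
  have hlc : ∀ z, (mc z).length = w := fun z => (hcr z).2.1
  obtain ⟨Z, hZe⟩ : ∃ Z : List (List A × List A),
    Z = (Finset.univ : Finset ({x // lgR x} × Bool)).toList.map fun z => (ma z, mc z) := ⟨_, rfl⟩
  have hZ : ∀ z ∈ Z, z.1.length = w ∧ z.2.length = w ∧ NoSq w z.1 z.2 := by
    intro z hz
    rw [hZe, List.mem_map] at hz
    obtain ⟨y, -, rfl⟩ := hz
    exact ⟨hla y, hlc y, (hcr y).noSq⟩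
  have hZm : Z.length ≤ m := by
    rw [hZe, List.length_map, Finset.length_toList, Finset.card_univ, Fintype.card_prod,
      Fintype.card_bool]
    rw [Nat.card_eq_fintype_card] at hm
    omega
  have hK : ∀ h f, KZ ma mc h f → ∃ z ∈ Z, z.1 <:+ h ∧ z.2 <+: f := by
    rintro h f ⟨z, h1, h2⟩
    refine ⟨(ma z, mc z), ?_, h1, h2⟩
    rw [hZe, List.mem_map]
    exact ⟨z, by simp, rfl⟩
  have hloc : Loc2 w (KZ ma mc) := KZ.loc2 hla hlc
  have hneeds : ∀ h f, KZ ma mc h f → w ≤ h.length ∧ w ≤ f.length := fun h f =>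
    KZ.needs hla hlc
  have H2 : ∀ x, lgR x → ∃ (pre mid suf : List A) (as bs : List (List A)),
      σ x = pre ++ mid ++ suf ∧
      (w ≤ pre.length ∧ pre.length ≤ (N + 2) * w) ∧ (w ≤ suf.length ∧ suf.length ≤ (N + 2) * w) ∧
      KZ ma mc pre (mid ++ suf) ∧ KZ ma mc (pre ++ mid) suf ∧
      (as.flatten = suf ∧ as.length ≤ 3 * m + 2 ∧ ∀ b ∈ as, b ≠ []) ∧
      (bs.flatten = pre ∧ bs.length ≤ 3 * m + 2 ∧ ∀ b ∈ bs, b ≠ []) ∧
      (∀ t r f, suf = t ++ r → KZ ma mc (pre ++ mid ++ t) (r ++ f) →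
        ∃ a1 a2, as = a1 ++ a2 ∧ a1.flatten = t ∧ a2.flatten = r) ∧
      (∀ h t r, pre = t ++ r → KZ ma mc (h ++ t) (r ++ mid ++ suf) →
        ∃ b1 b2, bs = b1 ++ b2 ∧ b1.flatten = t ∧ b2.flatten = r) := by
    intro x hx
    refine exists_one (by omega) hloc hneeds Z hZ hZm hK (hlong x hx) ?_ ?_
    · obtain ⟨p, s, e1, e2, e3, e4⟩ := hp1 ⟨x, hx⟩
      exact ⟨p, s, e1, ⟨(⟨x, hx⟩, true), by rw [hma]; exact e2, by rw [hmc]; exact e3⟩, e4⟩
    · obtain ⟨p, s, e1, e2, e3, e4⟩ := hp2 ⟨x, hx⟩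
      exact ⟨p, s, e1, ⟨(⟨x, hx⟩, false), by rw [hma]; exact e2, by rw [hmc]; exact e3⟩, e4⟩
  choose! pre mid suf as bs q1 q2 q3 q4 q5 q6 q7 q8 q9 using H2
  refine ⟨KZ ma mc, pre, mid, suf, as, bs, ⟨hloc, hneeds, q1, q2, q3, q4, q5, q6, q7, q8, q9,
    ?_⟩⟩
  intro h u f P hP
  have := card_filter_poss (by omega : 1 ≤ w) Z hZ hZm u 1 (u.length + 1) le_rfl P (by
    intro t ht
    obtain ⟨t1, t2, t3⟩ := hP t ht
    obtain ⟨z, hz, z1, z2⟩ := hK _ _ t3
    exact ⟨t1, by omega, z, hz, h, f, z1, z2⟩)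
  rwa [Nat.add_sub_cancel] at this

end WJ
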