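import Pool.Agent.WK.MainE64
import Pool.Agent.WJ.Arith23

/-! Word equations with boundedly many repeated variables (MP_fc7ad9_lc). Helper module:
the ladder of scales, from one rung to the bound for equations whose right side has only
repeated variables. -/

set_option autoImplicit false

open WE45 WK64 WO45 WK

namespace WJ

universe u w

/-- from one rung to the bound -/
theorem joker_of_rung (C1 : ℕ) (HR : ∀ {A : Type u} {X : Type w} [Fintype A] [Fintype X]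
    (L R : List (A ⊕ X)) (W : Finset X) (v d0 S N : ℕ) (σ : X → List A),
    vN L + vN R ≤ v → 1 ≤ d0 → SegLe d0 L → SegLe d0 R →
    (∀ x, [Sum.inr x, Sum.inr x].Sublist (L ++ R) → x ∈ W) →
    (∀ x, Sum.inr x ∈ R → x ∈ W) → MinSol L R σ → 2 ≤ N → (∀ x, EBdd N d0 (σ x)) →
    d0 ≤ S → (∀ x, (σ x).length ≤ S ∨ (1280000 * (N + v + 6) ^ 3 * (W.card + 1) ^ 4 *
      2 ^ (2 ^ (C1 * (100 * (W.card + 1) ^ 3 + 1) ^ C1))) * (S + d0) ≤ (σ x).length) →
    (∃ x, S < (σ x).length) → False) :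
    ∃ C : ℕ, ∀ {A : Type u} {X : Type w} [Finite A] [Fintype X]
    (L R : List (A ⊕ X)) (W : Finset X) (v d : ℕ), vN L + vN R ≤ v → 1 ≤ d → SegLe d L →
    SegLe d R → (∀ x, [Sum.inr x, Sum.inr x].Sublist (L ++ R) → x ∈ W) →
    (∀ x, Sum.inr x ∈ R → x ∈ W) → (∃ σ : X → List A, sb σ L = sb σ R) →
    ∃ σ : X → List A, sb σ L = sb σ R ∧ ∑ x, (σ x).length ≤
      d * ((v + 2) ^ (C * (Fintype.card X + 1) ^ 2) *
        2 ^ ((Fintype.card X + 1) * 2 ^ (C * (W.card + 1) ^ C))) := by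
  obtain ⟨C0, hexp⟩ := exp_boundD.{u, w}
  obtain ⟨C, hC⟩ := joker_arith (C0 + 1) C1 1280000 4
  refine ⟨C, ?_⟩
  intro A X _ _ L R W v d hv hd hL hR hW hRW hsol
  classical
  have := Fintype.ofFinite A
  obtain ⟨k, hk⟩ : ∃ k, k = Fintype.card X := ⟨_, rfl⟩
  rw [← hk]
  have hX : Fintype.card X ≤ k := hk.ge
  obtain ⟨σ, hmin⟩ := exists_minSol hsol
  refine ⟨σ, hmin.1, ?_⟩
  obtain ⟨N, hN⟩ : ∃ N, N = (v + 2) ^ ((C0 + 1) * (k + 1)) := ⟨_, rfl⟩
  have hN2 : 2 ≤ N := by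
    rw [hN]
    calc 2 ≤ v + 2 := by omega
      _ = (v + 2) ^ 1 := (pow_one _).symm
      _ ≤ _ := Nat.pow_le_pow_right (by omega) (Nat.mul_pos (by omega) (by omega))
  have hEB : ∀ x, EBdd N d (σ x) := by
    intro x
    refine EBdd.mono ?_ (hexp k v d L R hX hv hd hL hR σ hmin x)
    rw [hN]
    exact Nat.pow_le_pow_right (by omega) (Nat.mul_le_mul_right _ (Nat.le_succ C0))
  obtain ⟨B, hB⟩ : ∃ B, B = 1280000 * (N + v + 6) ^ 3 * (W.card + 1) ^ 4 *
      2 ^ (2 ^ (C1 * (100 * (W.card + 1) ^ 3 + 1) ^ C1)) := ⟨_, rfl⟩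
  have hB1 : 1 ≤ B := by
    rw [hB]
    exact Nat.mul_pos (Nat.mul_pos (Nat.mul_pos (by norm_num) (Nat.pow_pos (by omega)))
      (Nat.pow_pos (by omega))) (Nat.pow_pos (by norm_num))
  have hsum : ∑ x, (σ x).length ≤ k * (fun S => B * (S + d))^[k] d := by
    refine ladder_base_sum hX (fun S => B * (S + d))
      (fun S => (Nat.le_add_right S d).trans (Nat.le_mul_of_pos_left _ hB1)) d
      (fun x => (σ x).length) ?_
    intro S hS hgood hne
    refine HR L R W v d S N σ hv hd hL hR hW hRW hmin hN2 hEB hS ?_ hne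
    rw [← hB]
    exact hgood
  have h1 := ladder_lin_base B d d hB1 k
  calc ∑ x, (σ x).length ≤ k * (fun S => B * (S + d))^[k] d := hsum
    _ ≤ k * ((2 * B) ^ k * (d + d)) := Nat.mul_le_mul_left _ h1
    _ = k * ((2 * B) ^ k * (2 * d)) := by rw [two_mul d]
    _ ≤ _ := by
      rw [hB, hN]
      exact hC k v W.card d

end WJ
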