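import Pool.Agent.WK.SysLin3
import Pool.Agent.WJ.Defs23

/-! Word equations (MP_fc7ad9_lc). Helper module: systems with few occurrences of variables have
short solutions that keep all given short factors of the values. -/

set_option autoImplicit false

open WE45 WK64 WO45 WK

namespace WJ

universe u w

namespace Fac35

section Ins

variable {A : Type u}

theorem ins_cons_neg {Z : List A} {P : List A → Prop} {a : A} {u : List A}
    (h : ¬ P (a :: u)) : ins Z P (a :: u) = a :: ins Z P u := by
  rw [ins, if_neg h]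
  rfl

theorem ins_cons_pos {Z : List A} {P : List A → Prop} {a : A} {u : List A}
    (h : P (a :: u)) : ins Z P (a :: u) = Z ++ a :: ins Z P u := by
  rw [ins, if_pos h]

theorem ins_append (Z : List A) (P : List A → Prop) (v : List A) : ∀ u : List A,
    (∀ t, t ≠ [] → t <:+ u → (P (t ++ v) ↔ P t)) → ins Z P (u ++ v) = ins Z P u ++ ins Z P v
  | [], _ => rfl
  | a :: u, h => by
      have ih := ins_append Z P v u (fun t ht hs => h t ht (hs.trans (List.suffix_cons a u)))
      have hiff : P (a :: (u ++ v)) ↔ P (a :: u) := h (a :: u) (by simp) (List.suffix_refl _)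
      rw [List.cons_append]
      by_cases hc : P (a :: u)
      · rw [ins_cons_pos (hiff.2 hc), ins_cons_pos hc, ih]
        simp
      · rw [ins_cons_neg (fun h3 => hc (hiff.1 h3)), ins_cons_neg hc, ih]
        rfl

theorem ins_of_no (Z : List A) (P : List A → Prop) : ∀ x : List A,
    (∀ t, t ≠ [] → t <:+ x → ¬ P t) → ins Z P x = x
  | [], _ => rfl
  | a :: x, h => by
      rw [ins_cons_neg (h (a :: x) (by simp) (List.suffix_refl _)),
        ins_of_no Z P x (fun t ht hs => h t ht (hs.trans (List.suffix_cons a x)))]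

theorem infix_ins {Z : List A} {P : List A → Prop} {a : A} {s : List A} (hP : P (a :: s)) :
    ∀ p : List A, Z <:+: ins Z P (p ++ a :: s)
  | [] => by
      rw [List.nil_append, ins_cons_pos hP]
      exact (List.prefix_append Z _).isInfix
  | b :: p => by
      have ih := infix_ins (Z := Z) hP p
      rw [List.cons_append]
      by_cases hc : P (b :: (p ++ a :: s))
      · rw [ins_cons_pos hc]
        exact ih.trans ((List.suffix_cons b _).trans (List.suffix_append Z _)).isInfix
      · rw [ins_cons_neg hc]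
        exact ih.trans (List.suffix_cons b _).isInfix

end Ins

section Cls

variable {A : Type u} {X : Type w}

/-- the places at the ends of variables in the value of a word, with the parts of the value on
both sides of the place -/
def cls (σ : X → List A) : List A → List (A ⊕ X) → List (List A × List A)
  | h, [] => [(h, [])]
  | h, .inl a :: s => cls σ (h ++ [a]) s
  | h, .inr x :: s => (h, σ x ++ sb σ s) :: (h ++ σ x, sb σ s) :: cls σ (h ++ σ x) s

theorem length_cls (σ : X → List A) : ∀ (s : List (A ⊕ X)) (h : List A),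
    (cls σ h s).length = 1 + 2 * s.countP Sum.isRight
  | [], h => rfl
  | .inl a :: s, h => by
      rw [cls, length_cls σ s, List.countP_cons_of_neg (by simp)]
  | .inr x :: s, h => by
      rw [cls, List.length_cons, List.length_cons, length_cls σ s,
        List.countP_cons_of_pos (by simp)]
      omega

/-- a word that goes through one of the places of the list -/
def Nf (cl : List (List A × List A)) (u : List A) : Prop :=
  ∃ κ ∈ cl, ∃ u₁ u₂, u = u₁ ++ u₂ ∧ u₁ <:+ κ.1 ∧ u₂ <+: κ.2

theorem Nf.mono {cl cl' : List (List A × List A)} {u : List A} (h : Nf cl u)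
    (hs : ∀ κ ∈ cl, κ ∈ cl') : Nf cl' u := by
  obtain ⟨κ, hκ, h⟩ := h
  exact ⟨κ, hs κ hκ, h⟩

theorem nf_const (σ : X → List A) (w : ℕ) : ∀ (s : List (A ⊕ X)) (h t u₂ : List A),
    t <:+ h → u₂ <+: sb σ s → t.length + s.countP Sum.isLeft ≤ w → (t ++ u₂).length = w →
    Nf (cls σ h s) (t ++ u₂)
  | [], h, t, u₂, ht, hu, _, _ => by
      have h1 : u₂ = [] := by
        rw [sb_nil] at hu
        exact List.prefix_nil.1 hu
      refine ⟨(h, []), ?_, t, u₂, rfl, ht, ?_⟩
      · rw [cls]
        exact List.mem_cons_self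
      · rw [h1]
  | .inl a :: s, h, t, u₂, ht, hu, hc, hl => by
      rw [sb_inl] at hu
      have hc1 : (Sum.inl a :: s : List (A ⊕ X)).countP Sum.isLeft = s.countP Sum.isLeft + 1 := by
        rw [List.countP_cons_of_pos (by simp)]
      cases u₂ with
      | nil =>
        simp only [List.append_nil] at hl
        omega
      | cons b u₂ =>
        rw [List.cons_prefix_cons] at hu
        obtain ⟨rfl, hu⟩ := hu
        have h1 : t ++ b :: u₂ = (t ++ [b]) ++ u₂ := by simp
        rw [h1, cls]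
        refine nf_const σ w s (h ++ [b]) (t ++ [b]) u₂ ?_ hu ?_ ?_
        · obtain ⟨z, hz⟩ := ht
          exact ⟨z, by rw [← List.append_assoc, hz]⟩
        · rw [List.length_append, List.length_singleton]
          omega
        · rw [← h1]
          exact hl
  | .inr x :: s, h, t, u₂, ht, hu, hc, hl => by
      rw [sb_inr] at hu
      exact ⟨(h, σ x ++ sb σ s), by rw [cls]; exact List.mem_cons_self, t, u₂, rfl, ht, hu⟩

/-- a word of length `w` is here that goes through no place of the list -/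
def Fw (w : ℕ) (cl : List (List A × List A)) (t : List A) : Prop :=
  w ≤ t.length ∧ ¬ Nf cl (t.take w)

theorem ins_sb (σ : X → List A) (w : ℕ) (hw : 1 ≤ w) (Z : List A)
    (cl : List (List A × List A)) :
    ∀ (s : List (A ⊕ X)) (h : List A), s.countP Sum.isLeft ≤ w → (∀ κ ∈ cls σ h s, κ ∈ cl) →
    ins Z (Fw w cl) (sb σ s) = sb (fun x => ins Z (Fw w cl) (σ x)) s
  | [], _, _, _ => rfl
  | .inl a :: s, h, hc, hn => by
      have hc1 : (Sum.inl a :: s : List (A ⊕ X)).countP Sum.isLeft = s.countP Sum.isLeft + 1 := by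
        rw [List.countP_cons_of_pos (by simp)]
      rw [sb_inl, sb_inl]
      have h1 : ¬ Fw w cl (a :: sb σ s) := by
        rintro ⟨h2, h3⟩
        refine h3 ?_
        obtain ⟨w', rfl⟩ : ∃ w', w = w' + 1 := ⟨w - 1, by omega⟩
        have h4 : (a :: sb σ s).take (w' + 1) = [a] ++ (sb σ s).take w' := rfl
        rw [h4]
        refine Nf.mono (nf_const σ (w' + 1) s (h ++ [a]) [a] _ (List.suffix_append h [a])
            (List.take_prefix _ _) ?_ ?_) hn
        · rw [List.length_singleton]
          omega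
        · rw [← h4, List.length_take]
          omega
      rw [ins_cons_neg h1, ins_sb σ w hw Z cl s (h ++ [a]) (by omega) hn]
  | .inr x :: s, h, hc, hn => by
      have hc1 : (Sum.inr x :: s : List (A ⊕ X)).countP Sum.isLeft = s.countP Sum.isLeft := by
        rw [List.countP_cons_of_neg (by simp)]
      rw [sb_inr, sb_inr, ins_append Z _ (sb σ s) (σ x), ins_sb σ w hw Z cl s (h ++ σ x) (by omega)]
      · intro κ hκ
        refine hn κ ?_
        rw [cls]
        exact List.mem_cons_of_mem _ (List.mem_cons_of_mem _ hκ)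
      · intro t _ ht
        by_cases htl : w ≤ t.length
        · have h2 : (t ++ sb σ s).take w = t.take w := List.take_append_of_le_length htl
          rw [Fw, Fw, h2, List.length_append]
          exact ⟨fun h3 => ⟨htl, h3.2⟩, fun h3 => ⟨by omega, h3.2⟩⟩
        · constructor
          · rintro ⟨h3, h4⟩
            refine absurd ?_ h4
            have h2 : (t ++ sb σ s).take w = t ++ (sb σ s).take (w - t.length) := by
              rw [List.take_append, List.take_of_length_le (by omega)]
            rw [h2]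
            refine ⟨(h ++ σ x, sb σ s), hn _ ?_, t, _, rfl, ?_, List.take_prefix _ _⟩
            · rw [cls]
              exact List.mem_cons_of_mem _ List.mem_cons_self
            · exact ht.trans (List.suffix_append h (σ x))
          · rintro ⟨h3, _⟩
            exact absurd h3 htl

end Cls

section Cover

variable {A : Type u}

theorem infix_pos {V g : List A} {i m : ℕ} (h : g <:+: (V.drop i).take m) :
    ∃ p, i ≤ p ∧ p + g.length ≤ i + m ∧ (V.drop p).take g.length = g := by
  obtain ⟨s, t, h⟩ := h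
  have h1 : s.length + g.length + t.length ≤ m := by
    have h2 := congrArg List.length h
    rw [List.length_append, List.length_append, List.length_take] at h2
    omega
  refine ⟨i + s.length, by omega, by omega, ?_⟩
  have h3 : V.drop i = s ++ (g ++ (t ++ (V.drop i).drop m)) := by
    conv_lhs => rw [← List.take_append_drop m (V.drop i), ← h]
    simp only [List.append_assoc]
  rw [← List.drop_drop, h3, List.drop_left', List.take_left']
  · rfl
  · rfl

theorem pos_infix {V g : List A} {i m p : ℕ} (h1 : i ≤ p) (h2 : p + g.length ≤ i + m)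
    (h3 : (V.drop p).take g.length = g) : g <:+: (V.drop i).take m := by
  have h4 : (((V.drop i).take m).drop (p - i)).take g.length = g := by
    rw [List.drop_take, List.take_take, List.drop_drop, show i + (p - i) = p by omega,
      min_eq_left (by omega)]
    exact h3
  rw [← h4]
  exact (List.take_prefix _ _).isInfix.trans (List.drop_suffix _ _).isInfix

theorem cover_aux (V : List A) (w₂ a : ℕ) (Q : ℕ → Prop) (hQ : ∀ i, Q i → a ≤ i ∧ i ≤ a + w₂) :
    ∃ Hs : List (List A), Hs.length ≤ 2 ∧ (∀ H ∈ Hs, ∃ i, Q i ∧ H = (V.drop i).take (2 * w₂)) ∧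
      ∀ i, Q i → ∀ g : List A, g.length ≤ w₂ → g <:+: (V.drop i).take (2 * w₂) →
        ∃ H ∈ Hs, g <:+: H := by
  classical
  by_cases he : ∃ i, Q i
  · obtain ⟨i₀, hi₀⟩ := he
    let S := (Finset.range (a + w₂ + 1)).filter Q
    have hS : ∀ i, Q i → i ∈ S := fun i hi => by
      rw [Finset.mem_filter, Finset.mem_range]
      have := (hQ i hi).2
      exact ⟨by omega, hi⟩
    have hne : S.Nonempty := ⟨i₀, hS i₀ hi₀⟩
    have h1 : Q (S.min' hne) := (Finset.mem_filter.1 (S.min'_mem hne)).2
    have h2 : Q (S.max' hne) := (Finset.mem_filter.1 (S.max'_mem hne)).2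
    refine ⟨[(V.drop (S.min' hne)).take (2 * w₂), (V.drop (S.max' hne)).take (2 * w₂)], by simp,
      ?_, ?_⟩
    · intro H hH
      rw [List.mem_cons, List.mem_singleton] at hH
      rcases hH with rfl | rfl
      · exact ⟨_, h1, rfl⟩
      · exact ⟨_, h2, rfl⟩
    · intro i hi g hg hgi
      obtain ⟨p, hp1, hp2, hp3⟩ := infix_pos hgi
      have h3 := S.min'_le i (hS i hi)
      have h4 := S.le_max' i (hS i hi)
      have h5 := hQ _ h1
      have h6 := hQ _ h2
      by_cases hp : S.max' hne ≤ p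
      · exact ⟨_, List.mem_cons_of_mem _ List.mem_cons_self, pos_infix hp (by omega) hp3⟩
      · exact ⟨_, List.mem_cons_self, pos_infix (by omega) (by omega) hp3⟩
  · exact ⟨[], by simp, by simp, fun i hi => absurd ⟨i, hi⟩ he⟩

theorem cover_class (l r y : List A) (w₂ : ℕ) :
    ∃ Hs : List (List A), Hs.length ≤ 4 ∧ (∀ H ∈ Hs, H.length = 2 * w₂ ∧ H <:+: y) ∧
      ∀ u : List A, u.length = 2 * w₂ → u <:+: y →
        (∃ u₁ u₂, u = u₁ ++ u₂ ∧ u₁ <:+ l ∧ u₂ <+: r) →
        ∀ g : List A, g.length ≤ w₂ → g <:+: u → ∃ H ∈ Hs, g <:+: H := by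
  classical
  let Q : ℕ → Prop := fun i => ((l ++ r).drop i).take (2 * w₂) <:+: y ∧
    i + 2 * w₂ ≤ (l ++ r).length
  obtain ⟨H₁, a1, a2, a3⟩ := cover_aux (l ++ r) w₂ (l.length - 2 * w₂)
    (fun i => Q i ∧ l.length - 2 * w₂ ≤ i ∧ i ≤ l.length - 2 * w₂ + w₂) (fun i hi => hi.2)
  obtain ⟨H₂, b1, b2, b3⟩ := cover_aux (l ++ r) w₂ (l.length - 2 * w₂ + w₂)
    (fun i => Q i ∧ l.length - 2 * w₂ + w₂ ≤ i ∧ i ≤ l.length - 2 * w₂ + w₂ + w₂)
    (fun i hi => hi.2)
  refine ⟨H₁ ++ H₂, by rw [List.length_append]; omega, ?_, ?_⟩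
  · intro H hH
    rw [List.mem_append] at hH
    have key : ∀ i, Q i → (((l ++ r).drop i).take (2 * w₂)).length = 2 * w₂ := by
      intro i hi
      rw [List.length_take, List.length_drop]
      have := hi.2
      omega
    rcases hH with hH | hH
    · obtain ⟨i, hi, rfl⟩ := a2 H hH
      exact ⟨key i hi.1, hi.1.1⟩
    · obtain ⟨i, hi, rfl⟩ := b2 H hH
      exact ⟨key i hi.1, hi.1.1⟩
  · rintro u hu huy ⟨u₁, u₂, rfl, ⟨l', hl'⟩, ⟨r', hr'⟩⟩ g hg hgu
    have h1 : ((l ++ r).drop l'.length).take (2 * w₂) = u₁ ++ u₂ := by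
      rw [← hl', ← hr', List.append_assoc, List.drop_left', ← List.append_assoc, ← hu,
        List.take_left']
      · rfl
      · rfl
    have hll : l.length = l'.length + u₁.length := by rw [← hl', List.length_append]
    have hrl : r.length = u₂.length + r'.length := by rw [← hr', List.length_append]
    rw [List.length_append] at hu
    have hq : Q l'.length := by
      refine ⟨by rw [h1]; exact huy, ?_⟩
      rw [List.length_append]
      omega
    rcases le_total l'.length (l.length - 2 * w₂ + w₂) with h | h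
    · obtain ⟨H, hH, hgH⟩ := a3 l'.length ⟨hq, by omega, h⟩ g hg (by rw [h1]; exact hgu)
      exact ⟨H, List.mem_append_left _ hH, hgH⟩
    · obtain ⟨H, hH, hgH⟩ := b3 l'.length ⟨hq, h, by omega⟩ g hg (by rw [h1]; exact hgu)
      exact ⟨H, List.mem_append_right _ hH, hgH⟩

theorem cover_list (y : List A) (w₂ : ℕ) : ∀ cl : List (List A × List A),
    ∃ Hs : List (List A), Hs.length ≤ 4 * cl.length ∧
      (∀ H ∈ Hs, H.length = 2 * w₂ ∧ H <:+: y) ∧
      ∀ u : List A, u.length = 2 * w₂ → u <:+: y → Nf cl u →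
        ∀ g : List A, g.length ≤ w₂ → g <:+: u → ∃ H ∈ Hs, g <:+: H
  | [] => ⟨[], by simp, by simp, by
      rintro u _ _ ⟨κ, hκ, _⟩
      exact absurd hκ (by simp)⟩
  | κ :: cl => by
      obtain ⟨H₁, a1, a2, a3⟩ := cover_class κ.1 κ.2 y w₂
      obtain ⟨H₂, b1, b2, b3⟩ := cover_list y w₂ cl
      refine ⟨H₁ ++ H₂, by rw [List.length_append, List.length_cons]; omega, ?_, ?_⟩
      · intro H hH
        rcases List.mem_append.1 hH with hH | hH
        · exact a2 H hH
        · exact b2 H hH
      · rintro u hu huy ⟨κ', hκ', hN⟩ g hg hgu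
        rcases List.mem_cons.1 hκ' with rfl | hκ'
        · obtain ⟨H, hH, hgH⟩ := a3 u hu huy hN g hg hgu
          exact ⟨H, List.mem_append_left _ hH, hgH⟩
        · obtain ⟨H, hH, hgH⟩ := b3 u hu huy ⟨κ', hκ', hN⟩ g hg hgu
          exact ⟨H, List.mem_append_right _ hH, hgH⟩

/-- a factor lies in a factor of a given length -/
theorem exists_window {y g : List A} {w : ℕ} (hg : g <:+: y) (hgw : g.length ≤ w)
    (hw : w ≤ y.length) : ∃ u : List A, u.length = w ∧ u <:+: y ∧ g <:+: u := by
  obtain ⟨s, t, h⟩ := hg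
  have hl : s.length + g.length + t.length = y.length := by
    rw [← h, List.length_append, List.length_append]
  have h0 : y.take y.length = y := List.take_length
  have h1 : (y.drop s.length).take g.length = g := by
    rw [← h, List.append_assoc, List.drop_left', List.take_left']
    · rfl
    · rfl
  refine ⟨(y.drop (min s.length (y.length - w))).take w, ?_, ?_, ?_⟩
  · rw [List.length_take, List.length_drop]
    omega
  · exact (List.take_prefix _ _).isInfix.trans (List.drop_suffix _ _).isInfix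
  · exact pos_infix (by omega) (by omega) h1

/-- the factors that one value has to keep -/
theorem demands (cl : List (List A × List A)) (w₂ : ℕ) (hw : 1 ≤ w₂) (Z y : List A) :
    ∃ Fs : List (List A), Fs.length ≤ 4 * cl.length + 1 ∧
      (∀ F ∈ Fs, F.length ≤ 2 * w₂ + Z.length ∧ F <:+: ins Z (Fw (2 * w₂) cl) y) ∧
      ∀ g : List A, g.length ≤ w₂ → g <:+: y → ∃ F ∈ Fs, F = Z ∨ g <:+: F := by
  by_cases hf : ∃ t, t ≠ [] ∧ t <:+ y ∧ Fw (2 * w₂) cl t
  · obtain ⟨t, ht, ⟨p, rfl⟩, hF⟩ := hf
    refine ⟨[Z], by simp, ?_, ?_⟩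
    · intro F hF'
      rw [List.mem_singleton] at hF'
      subst hF'
      refine ⟨by omega, ?_⟩
      cases t with
      | nil => exact absurd rfl ht
      | cons a s => exact infix_ins hF p
    · intro g _ _
      exact ⟨Z, List.mem_singleton.2 rfl, Or.inl rfl⟩
  · have hno : ins Z (Fw (2 * w₂) cl) y = y :=
      ins_of_no _ _ y fun t ht hs hF => hf ⟨t, ht, hs, hF⟩
    by_cases hy : y.length < 2 * w₂
    · refine ⟨[y], by simp, ?_, ?_⟩
      · intro F hF
        rw [List.mem_singleton] at hF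
        subst hF
        rw [hno]
        exact ⟨by omega, List.infix_refl _⟩
      · intro g _ hgy
        exact ⟨_, List.mem_singleton.2 rfl, Or.inr hgy⟩
    · obtain ⟨Hs, h1, h2, h3⟩ := cover_list y w₂ cl
      refine ⟨Hs, by omega, ?_, ?_⟩
      · intro H hH
        rw [hno]
        exact ⟨by have := (h2 H hH).1; omega, (h2 H hH).2⟩
      · intro g hg hgy
        obtain ⟨u, hu, huy, hgu⟩ := exists_window hgy (show g.length ≤ 2 * w₂ by omega)
          (by omega)
        have hN : Nf cl u := by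
          by_contra hN
          obtain ⟨p, q, hpq⟩ := huy
          refine hf ⟨u ++ q, ?_, ⟨p, by rw [← hpq, List.append_assoc]⟩, ?_, ?_⟩
          · intro h4
            have h5 := congrArg List.length h4
            rw [List.length_append, List.length_nil] at h5
            omega
          · rw [List.length_append]
            omega
          · rw [← hu, List.take_left']
            · exact hN
            · rfl
        obtain ⟨H, hH, hgH⟩ := h3 u hu huy hN g hg hgu
        exact ⟨_, hH, Or.inr hgH⟩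

end Cover

section Main

/-- relabelling of the variables -/
def up1 {A : Type u} {X X' : Type w} (f : X → X') (s : List (A ⊕ X)) : List (A ⊕ X') :=
  s.map (Sum.map id f)

theorem sb_up1 {A : Type u} {X X' : Type w} (f : X → X') (ρ : X' → List A) :
    ∀ s : List (A ⊕ X), sb ρ (up1 f s) = sb (fun x => ρ (f x)) s
  | [] => rfl
  | .inl a :: s => by
      have h1 : up1 f (.inl a :: s) = .inl a :: up1 f s := rfl
      rw [h1, sb_inl, sb_inl, sb_up1 f ρ s]
  | .inr x :: s => by
      have h1 : up1 f (.inr x :: s) = .inr (f x) :: up1 f s := rfl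
      rw [h1, sb_inr, sb_inr, sb_up1 f ρ s]

theorem countP_up1 {A : Type u} {X X' : Type w} (f : X → X') (s : List (A ⊕ X)) :
    (up1 f s).countP Sum.isRight = s.countP Sum.isRight := by
  rw [up1, List.countP_map]
  congr 1
  funext a
  cases a <;> rfl

theorem sb_map_inl {A : Type u} {X : Type w} (ρ : X → List A) :
    ∀ F : List A, sb ρ (F.map Sum.inl) = F
  | [] => rfl
  | a :: F => by
      rw [List.map_cons, sb_inl, sb_map_inl ρ F]

theorem fac_arith (C : ℕ) : ∃ C' : ℕ, ∀ v D d z c : ℕ, c ≤ v * (2 * v + 2) →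
    (D + 2 * (D + d + 1) + z + 3 + 1) *
      2 ^ (2 ^ (C * (v + v * (4 * c + 1) + 3 + 1) ^ C)) ≤
      (D + d + z + 1) * 2 ^ (2 ^ (C' * (v + 1) ^ C')) := by
  refine ⟨C * 8 ^ C + 2 + 3 * C, ?_⟩
  intro v D d z c hc
  obtain ⟨t, ht⟩ : ∃ t, t = v + 1 := ⟨_, rfl⟩
  have ht1 : 1 ≤ t := by omega
  have h1 : v + v * (4 * c + 1) + 3 + 1 ≤ 8 * t ^ 3 := by
    have h2 : v * (4 * c + 1) ≤ v * (4 * (v * (2 * v + 2)) + 1) :=
      Nat.mul_le_mul_left _ (by omega)
    have h3 : v + v * (4 * (v * (2 * v + 2)) + 1) + 3 + 1 ≤ 8 * t ^ 3 := by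
      rw [ht]
      ring_nf
      nlinarith [Nat.zero_le v]
    omega
  obtain ⟨a, ha⟩ : ∃ a, a = C * (v + v * (4 * c + 1) + 3 + 1) ^ C := ⟨_, rfl⟩
  have h4 : a ≤ C * 8 ^ C * t ^ (3 * C) := by
    calc a ≤ C * (8 * t ^ 3) ^ C := by
          rw [ha]
          exact Nat.mul_le_mul_left _ (Nat.pow_le_pow_left h1 C)
      _ = C * 8 ^ C * t ^ (3 * C) := by rw [mul_pow, ← pow_mul, mul_assoc]
  have h5 : a + 2 ≤ (C * 8 ^ C + 2 + 3 * C) * t ^ (C * 8 ^ C + 2 + 3 * C) := by
    have h6 : t ^ (3 * C) ≤ t ^ (C * 8 ^ C + 2 + 3 * C) := Nat.pow_le_pow_right ht1 (by omega)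
    have h7 : 1 ≤ t ^ (C * 8 ^ C + 2 + 3 * C) := Nat.one_le_pow _ _ ht1
    calc a + 2 ≤ C * 8 ^ C * t ^ (C * 8 ^ C + 2 + 3 * C) +
            2 * t ^ (C * 8 ^ C + 2 + 3 * C) :=
          Nat.add_le_add (h4.trans (Nat.mul_le_mul_left _ h6)) (by omega)
      _ = (C * 8 ^ C + 2) * t ^ (C * 8 ^ C + 2 + 3 * C) := by ring
      _ ≤ (C * 8 ^ C + 2 + 3 * C) * t ^ (C * 8 ^ C + 2 + 3 * C) :=
          Nat.mul_le_mul_right _ (by omega)
  have h8 : D + 2 * (D + d + 1) + z + 3 + 1 ≤ (D + d + z + 1) * 2 ^ 3 := by omega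
  have h9 : 3 + 2 ^ a ≤ 2 ^ (a + 2) := by
    have : 1 ≤ 2 ^ a := Nat.one_le_two_pow
    rw [pow_add]
    omega
  rw [← ha, ← ht]
  calc (D + 2 * (D + d + 1) + z + 3 + 1) * 2 ^ (2 ^ a) ≤
        ((D + d + z + 1) * 2 ^ 3) * 2 ^ (2 ^ a) := Nat.mul_le_mul_right _ h8
    _ = (D + d + z + 1) * 2 ^ (3 + 2 ^ a) := by rw [mul_assoc, ← pow_add]
    _ ≤ _ := Nat.mul_le_mul_left _ (Nat.pow_le_pow_right (by norm_num)
        (h9.trans (Nat.pow_le_pow_right (by norm_num) h5)))

theorem length_cl {A : Type u} {X : Type w} (σ : X → List A) (v : ℕ) :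
    ∀ E : List (List (A ⊕ X) × List (A ⊕ X)),
    (∀ t ∈ E, (t.1 ++ t.2).countP Sum.isRight ≤ v) →
    (E.flatMap fun t => cls σ [] t.1 ++ cls σ [] t.2).length ≤ E.length * (2 * v + 2)
  | [], _ => by simp
  | t :: E, h => by
      have h1 := length_cl σ v E (fun t ht => h t (List.mem_cons_of_mem _ ht))
      have h2 := h t List.mem_cons_self
      rw [List.countP_append] at h2
      rw [List.flatMap_cons, List.length_append, List.length_append, length_cls, length_cls,
        List.length_cons, Nat.add_mul, Nat.one_mul]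
      omega

end Main

end Fac35

open Fac35 in
/-- **Systems with few occurrences, factors are kept.** -/
theorem few_systems_fac : ∃ C : ℕ, ∀ {A : Type u} {X : Type w} [Fintype A] [Fintype X]
    (v D d : ℕ) (E : List (List (A ⊕ X) × List (A ⊕ X))) (Gs : List (List A))
    (σ : X → List A), Fintype.card X ≤ v → E.length ≤ v →
    (∀ t ∈ E, (t.1 ++ t.2).countP Sum.isRight ≤ v) →
    (∀ t ∈ E, t.1.length + t.2.length ≤ D) → (∀ G ∈ Gs, G.length ≤ d) →
    (∀ t ∈ E, sb σ t.1 = sb σ t.2) →
    ∃ σ' : X → List A, (∀ t ∈ E, sb σ' t.1 = sb σ' t.2) ∧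
      (∀ x, ∀ G ∈ Gs, G <:+: σ x → G <:+: σ' x) ∧
      ∑ x, (σ' x).length ≤ (D + d + Gs.flatten.length + 1) * 2 ^ (2 ^ (C * (v + 1) ^ C)) := by
  classical
  obtain ⟨C, hC⟩ := few_systems_lin.{u, w}
  obtain ⟨C', hC'⟩ := fac_arith C
  refine ⟨C', ?_⟩
  intro A X _ _ v D d E Gs σ hX hE hv hD hG hσ
  obtain ⟨cl, hcl⟩ : ∃ cl, cl = E.flatMap fun t => cls σ [] t.1 ++ cls σ [] t.2 := ⟨_, rfl⟩
  have hcl1 : cl.length ≤ v * (2 * v + 2) := by
    rw [hcl]
    exact (length_cl σ v E hv).trans (Nat.mul_le_mul_right _ hE)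
  obtain ⟨w₂, hw₂⟩ : ∃ w₂, w₂ = D + d + 1 := ⟨_, rfl⟩
  obtain ⟨Z, hZ⟩ : ∃ Z, Z = Gs.flatten := ⟨_, rfl⟩
  obtain ⟨K, hK⟩ : ∃ K, K = 4 * cl.length + 1 := ⟨_, rfl⟩
  have hdem := fun x => demands cl w₂ (by omega) Z (σ x)
  choose Fs f1 f2 f3 using hdem
  obtain ⟨τ, hτ⟩ : ∃ τ : X → List A, τ = fun x => ins Z (Fw (2 * w₂) cl) (σ x) := ⟨_, rfl⟩
  have hτE : ∀ t ∈ E, sb τ t.1 = sb τ t.2 := by
    intro t ht
    have h0 : ∀ s : List (A ⊕ X), s.countP Sum.isLeft ≤ s.length := fun s => List.countP_le_length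
    have h1 := ins_sb σ (2 * w₂) (by omega) Z cl t.1 []
      (by have := h0 t.1; have := hD t ht; omega) (fun κ hκ => by
        rw [hcl, List.mem_flatMap]
        exact ⟨t, ht, List.mem_append_left _ hκ⟩)
    have h2 := ins_sb σ (2 * w₂) (by omega) Z cl t.2 []
      (by have := h0 t.2; have := hD t ht; omega) (fun κ hκ => by
        rw [hcl, List.mem_flatMap]
        exact ⟨t, ht, List.mem_append_right _ hκ⟩)
    rw [hτ, ← h1, ← h2, hσ t ht]
  have hF : ∀ (x : X) (j : Fin K), ((Fs x)[(j : ℕ)]?.getD []).length ≤ 2 * w₂ + Z.length ∧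
      (Fs x)[(j : ℕ)]?.getD [] <:+: τ x := by
    intro x j
    by_cases hj : (j : ℕ) < (Fs x).length
    · rw [List.getElem?_eq_getElem hj, Option.getD_some, hτ]
      exact f2 x _ (List.getElem_mem hj)
    · rw [List.getElem?_eq_none (by omega), Option.getD_none]
      exact ⟨by simp, List.nil_infix⟩
  choose pa pb hp using fun (x : X) (j : Fin K) => (hF x j).2
  let X' := X ⊕ (X × Fin K × Bool)
  let e2 : X × Fin K → List (A ⊕ X') × List (A ⊕ X') := fun p =>
    ([Sum.inr (Sum.inl p.1)], Sum.inr (Sum.inr (p.1, p.2, false)) ::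
      ((((Fs p.1)[(p.2 : ℕ)]?.getD []).map Sum.inl) ++ [Sum.inr (Sum.inr (p.1, p.2, true))]))
  let E2 : List (List (A ⊕ X') × List (A ⊕ X')) := (Finset.univ : Finset (X × Fin K)).toList.map e2
  let E' : List (List (A ⊕ X') × List (A ⊕ X')) :=
    E.map (fun t => (up1 Sum.inl t.1, up1 Sum.inl t.2)) ++ E2
  have hsb2 : ∀ (ρ : X' → List A) (p : X × Fin K), sb ρ (e2 p).1 = sb ρ (e2 p).2 ↔
      ρ (Sum.inl p.1) = ρ (Sum.inr (p.1, p.2, false)) ++ (Fs p.1)[(p.2 : ℕ)]?.getD [] ++
        ρ (Sum.inr (p.1, p.2, true)) := by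
    intro ρ p
    simp only [e2]
    rw [sb_inr, sb_inr, sb_append, Fac35.sb_map_inl, sb_inr, sb_nil, List.append_nil, List.append_nil,
      List.append_assoc]
  obtain ⟨ρ, hρ, hlen⟩ := hC (v + v * K + 3) (D + 2 * w₂ + Z.length + 3) E' (by
      simp only [E', E2]
      rw [List.length_append, List.length_map, List.length_map, Finset.length_toList,
        Finset.card_univ, Fintype.card_prod, Fintype.card_fin]
      have := Nat.mul_le_mul_right K hX
      omega) (by
      intro t ht
      rcases List.mem_append.1 ht with ht | ht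
      · obtain ⟨s, hs, rfl⟩ := List.mem_map.1 ht
        have := hv s hs
        rw [List.countP_append] at this ⊢
        rw [countP_up1, countP_up1]
        omega
      · obtain ⟨p, _, rfl⟩ := List.mem_map.1 ht
        have h0 : ((((Fs p.1)[(p.2 : ℕ)]?.getD []).map
            (Sum.inl : A → A ⊕ X')).countP Sum.isRight) = 0 := by
          rw [List.countP_eq_zero]
          intro a ha
          obtain ⟨b, _, rfl⟩ := List.mem_map.1 ha
          simp
        have h1 : ((e2 p).1 ++ (e2 p).2).countP Sum.isRight = 3 := by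
          simp only [e2, List.countP_append, List.countP_cons, List.countP_nil, h0]
          rfl
        rw [h1]
        omega) (by
      intro t ht
      rcases List.mem_append.1 ht with ht | ht
      · obtain ⟨s, hs, rfl⟩ := List.mem_map.1 ht
        have := hD s hs
        simp only [up1, List.length_map]
        omega
      · obtain ⟨p, _, rfl⟩ := List.mem_map.1 ht
        have := (hF p.1 p.2).1
        simp only [e2, List.length_cons, List.length_append, List.length_map, List.length_nil]
        omega)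
    ⟨Sum.elim τ (fun q => if q.2.2 then pb q.1 q.2.1 else pa q.1 q.2.1), by
      intro t ht
      rcases List.mem_append.1 ht with ht | ht
      · obtain ⟨s, hs, rfl⟩ := List.mem_map.1 ht
        rw [sb_up1, sb_up1]
        exact hτE s hs
      · obtain ⟨p, _, rfl⟩ := List.mem_map.1 ht
        rw [hsb2]
        simpa using (hp p.1 p.2).symm⟩
  refine ⟨fun x => ρ (Sum.inl x), ?_, ?_, ?_⟩
  · intro t ht
    have h1 := hρ (up1 Sum.inl t.1, up1 Sum.inl t.2)
      (List.mem_append_left _ (List.mem_map.2 ⟨t, ht, rfl⟩))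
    rw [sb_up1, sb_up1] at h1
    exact h1
  · intro x G hGs hGx
    obtain ⟨F, hFx, hFG⟩ := f3 x G (by have := hG G hGs; omega) hGx
    have hGF : G <:+: F := by
      rcases hFG with rfl | h
      · rw [hZ]
        exact List.infix_of_mem_flatten hGs
      · exact h
    obtain ⟨j, hj, hjF⟩ := List.mem_iff_getElem.1 hFx
    have hjK : j < K := by
      have := f1 x
      omega
    have h1 := (hsb2 ρ (x, ⟨j, hjK⟩)).1 (hρ _ (List.mem_append_right _
      (List.mem_map.2 ⟨(x, ⟨j, hjK⟩), by simp, rfl⟩)))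
    have h2 : (Fs x)[j]?.getD [] = F := by
      rw [List.getElem?_eq_getElem hj, Option.getD_some, hjF]
    have h3 : F <:+: ρ (Sum.inl x) := by
      simp only [h2] at h1
      exact ⟨_, _, h1.symm⟩
    exact hGF.trans h3
  · have h1 : ∑ x, (ρ (Sum.inl x)).length ≤ ∑ x, (ρ x).length := by
      rw [Fintype.sum_sum_type]
      omega
    refine h1.trans (hlen.trans ?_)
    have h2 := hC' v D d Z.length cl.length hcl1
    rw [← hw₂, ← hK, hZ] at h2
    rw [hZ]
    exact h2

end WJ
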