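import Pool.Agent.WJ.Both37
import Pool.Agent.WK.FinE64

/-! Word equations with boundedly many repeated variables (MP_fc7ad9_lc). Helper module:
from equations whose right side has only repeated variables to all equations. -/

set_option autoImplicit false

open WE45 WO45 WK

namespace WJ

universe u w

theorem swap37 {α : Type*} {s : α} {l l' : List α} (h : [s, s].Sublist (l ++ l')) :
    [s, s].Sublist (l' ++ l) := by
  classical
  have h1 : (List.replicate 2 s).Sublist (l ++ l') := h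
  have h2 : (List.replicate 2 s).Sublist (l' ++ l) := by
    rw [List.replicate_sublist_iff] at h1 ⊢
    rw [List.count_append] at h1 ⊢
    omega
  exact h2

/-- **All equations**, from the bound for equations whose right side has only repeated
variables. -/
theorem final_of_joker37 (H : ∃ C : ℕ, ∀ {A : Type u} {X : Type w} [Finite A] [Fintype X]
    (L R : List (A ⊕ X)) (W : Finset X) (v d : ℕ), vN L + vN R ≤ v → 1 ≤ d → SegLe d L →
    SegLe d R → (∀ x, [Sum.inr x, Sum.inr x].Sublist (L ++ R) → x ∈ W) →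
    (∀ x, Sum.inr x ∈ R → x ∈ W) → (∃ σ : X → List A, sb σ L = sb σ R) →
    ∃ σ : X → List A, sb σ L = sb σ R ∧ ∑ x, (σ x).length ≤
      d * ((v + 2) ^ (C * (Fintype.card X + 1) ^ 2) *
        2 ^ ((Fintype.card X + 1) * 2 ^ (C * (W.card + 1) ^ C)))) :
    ∃ C : ℕ, ∀ {A : Type u} {X : Type w} [Fintype X] (L R : List (A ⊕ X)) (V W : Finset X)
    (v d : ℕ), (∀ x, Sum.inr x ∈ L ++ R → x ∈ V) →
    (∀ x, [Sum.inr x, Sum.inr x].Sublist (L ++ R) → x ∈ W) → vN L + vN R ≤ v → 1 ≤ d →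
    SegLe d L → SegLe d R → (∃ σ : X → List A, sb σ L = sb σ R) →
    ∃ σ : X → List A, sb σ L = sb σ R ∧ ∑ x, (σ x).length ≤
      d * ((v + 2) ^ (C * (V.card + 1) ^ 2) *
        2 ^ ((V.card + 1) * 2 ^ (C * (W.card + 1) ^ C))) := by
  obtain ⟨C₁, h₁⟩ := H
  obtain ⟨C₂, h₂⟩ := both37.{u, w}
  refine ⟨C₁ + C₂, ?_⟩
  intro A X _ L R V W v d hV hW hv hd hdL hdR hs
  classical
  obtain ⟨S, Z, L', R', e1, e2, hZV, -, hs', hback⟩ := finishG L R V hV
  have hvL : vN L' = vN L := by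
    rw [← e1]
    exact (vN_map37 _ _ _).symm
  have hvR : vN R' = vN R := by
    rw [← e2]
    exact (vN_map37 _ _ _).symm
  have hZ : Fintype.card {x // x ∈ Z} = Z.card := Fintype.card_coe Z
  have hZc : Z.card ≤ V.card := Finset.card_le_card hZV
  have hdL' : SegLe d L' := by
    intro w hw
    have := hdL (w.map Subtype.val) (by
      rw [← e1]
      exact seg_map37 _ _ _ _ hw)
    rwa [List.length_map] at this
  have hdR' : SegLe d R' := by
    intro w hw
    have := hdR (w.map Subtype.val) (by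
      rw [← e2]
      exact seg_map37 _ _ _ _ hw)
    rwa [List.length_map] at this
  let W0 : Finset {x // x ∈ Z} := Finset.univ.filter fun x => x.1 ∈ W
  have hW0 : ∀ x, x ∈ W0 ↔ x.1 ∈ W := by
    intro x
    show x ∈ Finset.univ.filter _ ↔ _
    rw [Finset.mem_filter]
    exact ⟨fun h => h.2, fun h => ⟨Finset.mem_univ _, h⟩⟩
  have hW0c : W0.card ≤ W.card := by
    refine Finset.card_le_card_of_injOn (fun x => x.1) (fun x hx => (hW0 x).1 hx) ?_
    intro x _ y _ hxy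
    exact Subtype.ext hxy
  have htw : ∀ x, [Sum.inr x, Sum.inr x].Sublist (L' ++ R') → x ∈ W0 := by
    intro x hx
    rw [hW0]
    apply hW
    have h := hx.map (Sum.map (Subtype.val : {a // a ∈ S} → A) (Subtype.val : {x // x ∈ Z} → X))
    rw [List.map_append, e1, e2] at h
    exact h
  have hpow2 : (Z.card + 1) ^ 2 ≤ (V.card + 1) ^ 2 := Nat.pow_le_pow_left (by omega) 2
  have hexp : ∀ c, c ≤ C₁ + C₂ → c * (W0.card + 1) ^ c ≤ (C₁ + C₂) * (W.card + 1) ^ (C₁ + C₂) := by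
    intro c hc
    refine Nat.mul_le_mul hc ?_
    exact (Nat.pow_le_pow_left (by omega) c).trans (Nat.pow_le_pow_right (Nat.succ_pos _) hc)
  -- the bound from the joker theorem
  have hb1 : d * ((v + 2) ^ (C₁ * (Fintype.card {x // x ∈ Z} + 1) ^ 2) *
        2 ^ ((Fintype.card {x // x ∈ Z} + 1) * 2 ^ (C₁ * (W0.card + 1) ^ C₁))) ≤
      d * ((v + 2) ^ ((C₁ + C₂) * (V.card + 1) ^ 2) *
        2 ^ ((V.card + 1) * 2 ^ ((C₁ + C₂) * (W.card + 1) ^ (C₁ + C₂)))) := by
    rw [hZ]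
    refine Nat.mul_le_mul_left _ (Nat.mul_le_mul ?_ ?_)
    · exact Nat.pow_le_pow_right (by omega) (Nat.mul_le_mul (by omega) hpow2)
    · exact Nat.pow_le_pow_right (by norm_num) (Nat.mul_le_mul (by omega)
        (Nat.pow_le_pow_right (by norm_num) (hexp C₁ (by omega))))
  have hb2 : d * ((v + 2) ^ (C₂ * (W0.card + 1) ^ 2) * 2 ^ 2 ^ (C₂ * (W0.card + 1) ^ C₂)) ≤
      d * ((v + 2) ^ ((C₁ + C₂) * (V.card + 1) ^ 2) *
        2 ^ ((V.card + 1) * 2 ^ ((C₁ + C₂) * (W.card + 1) ^ (C₁ + C₂)))) := by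
    have h3 : W0.card ≤ Z.card := by
      rw [← hZ]
      exact Finset.card_le_univ _
    refine Nat.mul_le_mul_left _ (Nat.mul_le_mul ?_ ?_)
    · refine Nat.pow_le_pow_right (by omega) (Nat.mul_le_mul (by omega) ?_)
      exact Nat.pow_le_pow_left (by omega) 2
    · refine Nat.pow_le_pow_right (by norm_num) ?_
      refine (Nat.pow_le_pow_right (by norm_num) (hexp C₂ (by omega))).trans ?_
      exact Nat.le_mul_of_pos_left _ (Nat.succ_pos _)
  -- three cases
  have hfin : ∃ σ' : {x // x ∈ Z} → List {a // a ∈ S}, sb σ' L' = sb σ' R' ∧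
      ∑ x, (σ' x).length ≤ d * ((v + 2) ^ ((C₁ + C₂) * (V.card + 1) ^ 2) *
        2 ^ ((V.card + 1) * 2 ^ ((C₁ + C₂) * (W.card + 1) ^ (C₁ + C₂)))) := by
    by_cases hR : ∃ x, x ∉ W0 ∧ Sum.inr x ∈ R'
    · by_cases hL : ∃ x, x ∉ W0 ∧ Sum.inr x ∈ L'
      · obtain ⟨σ', h3, h4⟩ := h₂ L' R' W0 v d htw hL hR (by omega) hd hdL' hdR' (hs' hs)
        exact ⟨σ', h3, h4.trans hb2⟩
      · push Not at hL
        obtain ⟨σ₀, hσ₀⟩ := hs' hs
        obtain ⟨σ', h3, h4⟩ := h₁ R' L' W0 v d (by omega) hd hdR' hdL'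
          (fun x hx => htw x (swap37 hx))
          (fun x hx => by
            by_contra hn
            exact hL x hn hx) ⟨σ₀, hσ₀.symm⟩
        exact ⟨σ', h3.symm, h4.trans hb1⟩
    · push Not at hR
      obtain ⟨σ', h3, h4⟩ := h₁ L' R' W0 v d (by omega) hd hdL' hdR' htw
        (fun x hx => by
          by_contra hn
          exact hR x hn hx) (hs' hs)
      exact ⟨σ', h3, h4.trans hb1⟩
  obtain ⟨σ', h3, h4⟩ := hfin
  obtain ⟨σ, h5, h6⟩ := hback σ' h3
  exact ⟨σ, h5, by rw [h6]; exact h4⟩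

end WJ
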