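import Pool.Agent.WJ.Defs23

/-!
# Word equations with few repeated variables (MP_fc7ad9_lc): gaps (helper50)

The value of a gap between two cuts under the replacement of blocks.
-/

set_option autoImplicit false

open WE45 WK

namespace WJ

variable {A Y : Type*} {θ θ' : Y → List A} {W : List Y → Prop} {d : ℕ}
  {Gs : List (List A)} {φ : List A → List A}

theorem fl_nil50 (θ : Y → List A) : fl θ [] = [] := rfl

theorem fl_append50 (θ : Y → List A) (a b : List Y) : fl θ (a ++ b) = fl θ a ++ fl θ b := by
  unfold fl
  rw [List.flatMap_append]

theorem BPL.nil50 (θ : Y → List A) (D : List (List A)) : BPL θ [] D := by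
  intro D1 D2 _ h
  refine ⟨[], [], rfl, ?_⟩
  rw [fl_nil50] at h ⊢
  exact List.eq_nil_of_length_eq_zero (by simpa using h)

theorem BPR.nil50 (θ : Y → List A) (D : List (List A)) : BPR θ [] D := by
  intro D1 D2 _ h
  refine ⟨[], [], rfl, ?_⟩
  rw [fl_nil50] at h ⊢
  exact List.eq_nil_of_length_eq_zero (by simpa using h)

/-- the first block is a word of atoms: the rest -/
theorem BPL.tail50 {a1 a2 : List Y} {B : List A} {D : List (List A)}
    (h : BPL θ (a1 ++ a2) (B :: D)) (hB : B = fl θ a1) : BPL θ a2 D := by
  intro E1 E2 hE hl
  obtain ⟨c1, c2, h1, h2⟩ := h (B :: E1) E2 (by rw [hE]; rfl) (by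
    rw [List.flatten_cons, List.length_append, fl_append50, List.length_append, hB]
    omega)
  rw [List.flatten_cons, hB] at h2
  rcases List.append_eq_append_iff.1 h1 with ⟨e, he1, he2⟩ | ⟨r, hr1, hr2⟩
  · refine ⟨e, c2, he2, ?_⟩
    rw [he1, fl_append50] at h2
    exact List.append_cancel_left h2
  · refine ⟨[], a2, rfl, ?_⟩
    rw [hr1, fl_append50] at h2
    have h3 := congrArg List.length h2
    simp only [List.length_append] at h3
    rw [fl_nil50]
    exact List.eq_nil_of_length_eq_zero (by omega)

/-- the last block is a word of atoms: the rest -/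
theorem BPR.init50 {b1 b2 : List Y} {B : List A} {D : List (List A)}
    (h : BPR θ (b1 ++ b2) (D ++ [B])) (hB : B = fl θ b2) : BPR θ b1 D := by
  intro E1 E2 hE hl
  obtain ⟨c1, c2, h1, h2⟩ := h E1 (E2 ++ [B]) (by rw [hE, List.append_assoc]) (by
    rw [List.flatten_append, List.length_append, fl_append50, List.length_append,
      List.flatten_singleton, hB]
    omega)
  rw [List.flatten_append, List.flatten_singleton, hB] at h2
  rcases List.append_eq_append_iff.1 h1 with ⟨e, he1, he2⟩ | ⟨r, hr1, hr2⟩
  · refine ⟨b1, [], by simp, ?_⟩
    rw [he2, fl_append50] at h2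
    have h3 := congrArg List.length h2
    simp only [List.length_append] at h3
    rw [fl_nil50]
    exact List.eq_nil_of_length_eq_zero (by omega)
  · refine ⟨c1, r, hr1, ?_⟩
    rw [hr2, fl_append50] at h2
    exact List.append_cancel_right h2

/-- the last blocks are a word of atoms -/
theorem BPR.tail50 {b1 b2 : List Y} {B : List A} {D : List (List A)}
    (h : BPR θ (b1 ++ b2) (B :: D)) : BPR θ b2 D := by
  intro E1 E2 hE hl
  obtain ⟨c1, c2, h1, h2⟩ := h (B :: E1) E2 (by rw [hE]; rfl) (by
    rw [fl_append50, List.length_append]
    omega)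
  rcases List.append_eq_append_iff.1 h1 with ⟨e, he1, he2⟩ | ⟨r, hr1, hr2⟩
  · exact ⟨e, c2, he2, h2⟩
  · refine ⟨[], b2, rfl, ?_⟩
    rw [hr2, fl_append50] at h2
    have h3 := congrArg List.length h2
    simp only [List.length_append] at h3
    have h4 : fl θ r = [] := List.eq_nil_of_length_eq_zero (by omega)
    rw [h2, h4, List.nil_append]

theorem BPR.cons50 {b : List Y} {B : List A} {D : List (List A)}
    (h : BPR θ b (B :: D)) : BPR θ b D := by
  intro E1 E2 hE hl
  exact h (B :: E1) E2 (by rw [hE]; rfl) hl

theorem phi_fl50 (hφ : PhiOK θ θ' W d Gs φ) (h0 : W []) {a : List Y} (ha : W a) :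
    φ (fl θ a) = fl θ' a := by
  have h := hφ.form a [] ha h0 [] (Nat.zero_le _)
  simpa only [fl_nil50, List.append_nil] using h

theorem phi_left50 (hφ : PhiOK θ θ' W d Gs φ) (h0 : W []) {a : List Y} (ha : W a)
    {g : List A} (hg : g.length ≤ d) : φ (fl θ a ++ g) = fl θ' a ++ g := by
  have h := hφ.form a [] ha h0 g hg
  simpa only [fl_nil50, List.append_nil] using h

theorem phi_right50 (hφ : PhiOK θ θ' W d Gs φ) (h0 : W []) {b : List Y} (hb : W b)
    {g : List A} (hg : g.length ≤ d) : φ (g ++ fl θ b) = g ++ fl θ' b := by
  have h := hφ.form [] b h0 hb g hg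
  simpa only [fl_nil50, List.nil_append] using h

theorem fl_nil_of50 (hφ : PhiOK θ θ' W d Gs φ) (h0 : W []) {a : List Y} (ha : W a)
    (h : fl θ a = []) : fl θ' a = [] := by
  have h1 := phi_fl50 hφ h0 ha
  have h2 := phi_fl50 hφ h0 h0
  rw [fl_nil50, fl_nil50] at h2
  rw [h, h2] at h1
  exact h1.symm

theorem gap_cc (hφ : PhiOK θ θ' W d Gs φ) (hW : ∀ a b, W a → b <:+: a → W b)
    (a b : List Y) (ha : W a) (hb : W b) (G : List A) (hG : G.length ≤ d)
    (D : List (List A)) (hD : D.flatten = fl θ a ++ G ++ fl θ b) (hl : BPL θ a D)
    (hr : BPR θ b D) : (D.map φ).flatten = fl θ' a ++ G ++ fl θ' b := by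
  have h0 : W [] := hW a [] ha (List.nil_infix)
  induction D generalizing a b G with
  | nil =>
    have h1 := congrArg List.length hD
    simp only [List.flatten_nil, List.length_nil, List.length_append] at h1
    have e1 : fl θ a = [] := List.eq_nil_of_length_eq_zero (by omega)
    have e2 : G = [] := List.eq_nil_of_length_eq_zero (by omega)
    have e3 : fl θ b = [] := List.eq_nil_of_length_eq_zero (by omega)
    rw [fl_nil_of50 hφ h0 ha e1, fl_nil_of50 hφ h0 hb e3, e2]
    rfl
  | cons B D ih =>
    rw [List.flatten_cons] at hD
    rw [List.map_cons, List.flatten_cons]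
    by_cases hB : B.length ≤ (fl θ a).length
    · obtain ⟨a1, a2, h1, h2⟩ := hl [B] D rfl (by rw [List.flatten_singleton]; exact hB)
      rw [List.flatten_singleton] at h2
      subst h1
      have ha1 : W a1 := hW _ _ ha (List.prefix_append _ _).isInfix
      have ha2 : W a2 := hW _ _ ha (List.suffix_append _ _).isInfix
      have h3 : D.flatten = fl θ a2 ++ G ++ fl θ b := by
        rw [h2, fl_append50, List.append_assoc, List.append_assoc] at hD
        have := List.append_cancel_left hD
        rw [this, List.append_assoc]
      rw [ih a2 b ha2 hb G hG h3 (hl.tail50 h2) hr.cons50, h2, phi_fl50 hφ h0 ha1, fl_append50]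
      simp only [List.append_assoc]
    · by_cases hD2 : D.flatten.length ≤ (fl θ b).length
      · obtain ⟨b1, b2, h1, h2⟩ := hr [B] D rfl hD2
        subst h1
        have hb1 : W b1 := hW _ _ hb (List.prefix_append _ _).isInfix
        have hb2 : W b2 := hW _ _ hb (List.suffix_append _ _).isInfix
        have h3 : B = fl θ a ++ G ++ fl θ b1 := by
          rw [h2, fl_append50, ← List.append_assoc] at hD
          exact List.append_cancel_right hD
        have h4 := ih [] b2 h0 hb2 [] (Nat.zero_le _) (by rw [h2]; rfl) (BPL.nil50 _ _)
          hr.tail50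
        rw [h4, h3, hφ.form a b1 ha hb1 G hG, fl_append50, fl_nil50]
        simp only [List.append_assoc, List.nil_append]
      · have hD' : B ++ D.flatten = (fl θ a ++ G) ++ fl θ b := hD
        rcases List.append_eq_append_iff.1 hD' with ⟨e, he1, he2⟩ | ⟨r, hr1, hr2⟩
        · -- `B` ends inside `a G`
          rcases List.append_eq_append_iff.1 he1 with ⟨g, hg1, hg2⟩ | ⟨s, hs1, hs2⟩
          · have hg1' : B = fl θ a ++ g := hg1
            have hgl : g.length ≤ d := by
              have := congrArg List.length hg2
              rw [List.length_append] at this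
              omega
            have hel : e.length ≤ d := by
              have := congrArg List.length hg2
              rw [List.length_append] at this
              omega
            have h4 := ih [] b h0 hb e hel (by rw [he2]; rfl) (BPL.nil50 _ _) hr.cons50
            rw [h4, hg1', phi_left50 hφ h0 ha hgl, hg2, fl_nil50]
            simp only [List.append_assoc, List.nil_append]
          · exact absurd (by
              have := congrArg List.length hs1
              rw [List.length_append] at this
              omega) hB
        · exact absurd (by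
            have := congrArg List.length hr2
            rw [List.length_append] at this
            omega) hD2

theorem gap_co (hφ : PhiOK θ θ' W d Gs φ) (hW : ∀ a b, W a → b <:+: a → W b)
    (a : List Y) (ha : W a) (G y : List A) (hG : G.length ≤ d)
    (D : List (List A)) (hD : D.flatten = fl θ a ++ G ++ y) (hl : BPL θ a D) :
    ∃ y', (D.map φ).flatten = fl θ' a ++ G ++ y' := by
  have h0 : W [] := hW a [] ha (List.nil_infix)
  induction D generalizing a G with
  | nil =>
    have h1 := congrArg List.length hD
    simp only [List.flatten_nil, List.length_nil, List.length_append] at h1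
    have e1 : fl θ a = [] := List.eq_nil_of_length_eq_zero (by omega)
    have e2 : G = [] := List.eq_nil_of_length_eq_zero (by omega)
    refine ⟨[], ?_⟩
    rw [fl_nil_of50 hφ h0 ha e1, e2]
    rfl
  | cons B D ih =>
    rw [List.flatten_cons] at hD
    rw [List.map_cons, List.flatten_cons]
    by_cases hB : B.length ≤ (fl θ a).length
    · obtain ⟨a1, a2, h1, h2⟩ := hl [B] D rfl (by rw [List.flatten_singleton]; exact hB)
      rw [List.flatten_singleton] at h2
      subst h1
      have ha1 : W a1 := hW _ _ ha (List.prefix_append _ _).isInfix
      have ha2 : W a2 := hW _ _ ha (List.suffix_append _ _).isInfix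
      have h3 : D.flatten = fl θ a2 ++ G ++ y := by
        rw [h2, fl_append50, List.append_assoc, List.append_assoc] at hD
        have := List.append_cancel_left hD
        rw [this, List.append_assoc]
      obtain ⟨y', hy'⟩ := ih a2 ha2 G hG h3 (hl.tail50 h2)
      refine ⟨y', ?_⟩
      rw [hy', h2, phi_fl50 hφ h0 ha1, fl_append50]
      simp only [List.append_assoc]
    · rcases List.append_eq_append_iff.1 hD with ⟨e, he1, he2⟩ | ⟨r, hr1, hr2⟩
      · -- `B` ends inside `a G`
        rcases List.append_eq_append_iff.1 he1 with ⟨g, hg1, hg2⟩ | ⟨s, hs1, hs2⟩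
        · have hg1' : B = fl θ a ++ g := hg1
          have hgl : g.length ≤ d := by
            have := congrArg List.length hg2
            rw [List.length_append] at this
            omega
          have hel : e.length ≤ d := by
            have := congrArg List.length hg2
            rw [List.length_append] at this
            omega
          obtain ⟨y', hy'⟩ := ih [] h0 e hel (by rw [he2]; rfl) (BPL.nil50 _ _)
          refine ⟨y', ?_⟩
          rw [hy', hg1', phi_left50 hφ h0 ha hgl, hg2, fl_nil50]
          simp only [List.append_assoc, List.nil_append]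
        · exact absurd (by
            have := congrArg List.length hs1
            rw [List.length_append] at this
            omega) hB
      · obtain ⟨s, hs⟩ := hφ.pre a ha G B hG ⟨r, hr1.symm⟩
        refine ⟨s ++ (D.map φ).flatten, ?_⟩
        rw [← hs]
        simp only [List.append_assoc]

theorem gap_oc (hφ : PhiOK θ θ' W d Gs φ) (hW : ∀ a b, W a → b <:+: a → W b)
    (b : List Y) (hb : W b) (G y : List A) (hG : G.length ≤ d)
    (D : List (List A)) (hD : D.flatten = y ++ G ++ fl θ b) (hr : BPR θ b D) :
    ∃ y', (D.map φ).flatten = y' ++ G ++ fl θ' b := by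
  have h0 : W [] := hW b [] hb (List.nil_infix)
  induction D using List.reverseRecOn generalizing b G with
  | nil =>
    have h1 := congrArg List.length hD
    simp only [List.flatten_nil, List.length_nil, List.length_append] at h1
    have e1 : fl θ b = [] := List.eq_nil_of_length_eq_zero (by omega)
    have e2 : G = [] := List.eq_nil_of_length_eq_zero (by omega)
    refine ⟨[], ?_⟩
    rw [fl_nil_of50 hφ h0 hb e1, e2]
    rfl
  | append_singleton D B ih =>
    rw [List.flatten_append, List.flatten_singleton] at hD
    rw [List.map_append, List.flatten_append, List.map_singleton, List.flatten_singleton]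
    by_cases hB : B.length ≤ (fl θ b).length
    · obtain ⟨b1, b2, h1, h2⟩ := hr D [B] rfl (by rw [List.flatten_singleton]; exact hB)
      rw [List.flatten_singleton] at h2
      subst h1
      have hb1 : W b1 := hW _ _ hb (List.prefix_append _ _).isInfix
      have hb2 : W b2 := hW _ _ hb (List.suffix_append _ _).isInfix
      have h3 : D.flatten = y ++ G ++ fl θ b1 := by
        rw [h2, fl_append50, ← List.append_assoc] at hD
        exact List.append_cancel_right hD
      obtain ⟨y', hy'⟩ := ih b1 hb1 G hG h3 (hr.init50 h2)
      refine ⟨y', ?_⟩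
      rw [hy', h2, phi_fl50 hφ h0 hb2, fl_append50]
      simp only [List.append_assoc]
    · have hD' : D.flatten ++ B = y ++ (G ++ fl θ b) := by rw [hD, List.append_assoc]
      rcases List.append_eq_append_iff.1 hD' with ⟨e, he1, he2⟩ | ⟨r, hr1, hr2⟩
      · -- `G b` is inside `B`
        obtain ⟨s, hs⟩ := hφ.suf b hb G B hG ⟨e, he2.symm⟩
        refine ⟨(D.map φ).flatten ++ s, ?_⟩
        rw [← hs]
        simp only [List.append_assoc]
      · rcases List.append_eq_append_iff.1 hr2 with ⟨g, hg1, hg2⟩ | ⟨s, hs1, hs2⟩
        · exact absurd (by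
            have := congrArg List.length hg2
            rw [List.length_append] at this
            omega) hB
        · have hsl : s.length ≤ d := by
            have := congrArg List.length hs1
            rw [List.length_append] at this
            omega
          have hrl : r.length ≤ d := by
            have := congrArg List.length hs1
            rw [List.length_append] at this
            omega
          obtain ⟨y', hy'⟩ := ih [] h0 r hrl (by rw [hr1, fl_nil50, List.append_nil])
            (BPR.nil50 _ _)
          refine ⟨y', ?_⟩
          rw [hy', hs2, phi_right50 hφ h0 hb hsl, hs1, fl_nil50]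
          simp only [List.append_assoc, List.nil_append]

theorem gap_oo (hφ : PhiOK θ θ' W d Gs φ) (h0 : W []) (G y z : List A) (hG : G.length ≤ d)
    (hGs : G ∈ Gs) (D : List (List A)) (hD : D.flatten = y ++ G ++ z) :
    ∃ y' z', (D.map φ).flatten = y' ++ G ++ z' := by
  have hpre : ∀ (D : List (List A)) (g z : List A), g.length ≤ d → D.flatten = g ++ z →
      ∃ z', (D.map φ).flatten = g ++ z' := by
    intro D
    induction D with
    | nil =>
      intro g z _ h
      have h1 := congrArg List.length h
      simp only [List.flatten_nil, List.length_nil, List.length_append] at h1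
      have e2 : g = [] := List.eq_nil_of_length_eq_zero (by omega)
      exact ⟨[], by rw [e2]; rfl⟩
    | cons B D ih =>
      intro g z hg h
      rw [List.flatten_cons] at h
      rw [List.map_cons, List.flatten_cons]
      rcases List.append_eq_append_iff.1 h with ⟨e, he1, he2⟩ | ⟨r, hr1, hr2⟩
      · have hl := congrArg List.length he1
        rw [List.length_append] at hl
        obtain ⟨z', hz'⟩ := ih e z (by omega) he2
        have h3 := phi_left50 hφ h0 h0 (g := B) (by omega)
        rw [fl_nil50, fl_nil50, List.nil_append] at h3
        exact ⟨z', by rw [hz', h3, he1, List.append_assoc]⟩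
      · have h3 := hφ.pre [] h0 g B hg (by
          rw [fl_nil50, List.nil_append]
          exact ⟨r, hr1.symm⟩)
        rw [fl_nil50, List.nil_append] at h3
        obtain ⟨s, hs⟩ := h3
        exact ⟨s ++ (D.map φ).flatten, by rw [← hs, List.append_assoc]⟩
  induction D generalizing y with
  | nil =>
    have h1 := congrArg List.length hD
    simp only [List.flatten_nil, List.length_nil, List.length_append] at h1
    have e2 : G = [] := List.eq_nil_of_length_eq_zero (by omega)
    exact ⟨[], [], by rw [e2]; rfl⟩
  | cons B D ih =>
    rw [List.flatten_cons] at hD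
    rw [List.map_cons, List.flatten_cons]
    have hD' : B ++ D.flatten = y ++ (G ++ z) := by rw [hD, List.append_assoc]
    rcases List.append_eq_append_iff.1 hD' with ⟨e, he1, he2⟩ | ⟨r, hr1, hr2⟩
    · obtain ⟨y', z', h3⟩ := ih e (by rw [he2, List.append_assoc])
      refine ⟨φ B ++ y', z', ?_⟩
      rw [h3]
      simp only [List.append_assoc]
    · rcases List.append_eq_append_iff.1 hr2 with ⟨g, hg1, hg2⟩ | ⟨s, hs1, hs2⟩
      · -- `G` is inside `B`
        obtain ⟨p, q, hpq⟩ := hφ.fac G hGs B ⟨y, g, by rw [hr1, hg1, List.append_assoc]⟩
        refine ⟨p, q ++ (D.map φ).flatten, ?_⟩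
        rw [← hpq]
        simp only [List.append_assoc]
      · have hl := congrArg List.length hs1
        rw [List.length_append] at hl
        have h3 := hφ.suf [] h0 r B (by omega) (by
          rw [fl_nil50, List.append_nil]
          exact ⟨y, hr1.symm⟩)
        rw [fl_nil50, List.append_nil] at h3
        obtain ⟨p, hp⟩ := h3
        obtain ⟨z', hz'⟩ := hpre D s z (by omega) hs2
        refine ⟨p, z', ?_⟩
        rw [hz', ← hp, hs1]
        simp only [List.append_assoc]

end WJ
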