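import Pool.Agent.WK.Words66D
import Pool.Agent.WE45.Enc

/-!
# Few word equations keep all prefix conditions between forms

Helper file for MP_fc7ad9_lc (word equations with few repeated variables). For fixed words `S`,
`S1`, `P1` two word equations with short constants keep all true statements
that `S g` is a prefix of `S1 g1 P1` with short words `g`, `g1`.
-/

set_option autoImplicit false

open WE45 WK

namespace WJ

variable {A : Type*}

theorem sb_mapK45 {Γ X : Type*} (τ : X → List Γ) (l : List Γ) :
    sb τ (l.map (Sum.inl : Γ → Γ ⊕ X)) = l := by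
  induction l with
  | nil => rfl
  | cons a l ih => rw [List.map_cons, sb_inl, ih]

/-- the word `P` with its first `D` letters as constants and one unknown for the rest -/
def fk45 {X : Type*} (D : ℕ) (P : List A) (z : X) : List (A ⊕ X) :=
  (P.take D).map Sum.inl ++ (if P.length ≤ D then [] else [Sum.inr z])

theorem fk_count45 {X : Type*} (D : ℕ) (P : List A) (z : X) :
    (fk45 D P z).countP Sum.isRight ≤ 1 := by
  unfold fk45
  rw [List.countP_append]
  have h1 : ((P.take D).map (Sum.inl : A → A ⊕ X)).countP Sum.isRight = 0 := by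
    rw [List.countP_eq_zero]
    intro a ha
    obtain ⟨b, _, rfl⟩ := List.mem_map.1 ha
    simp
  rw [h1]
  split_ifs <;> simp

theorem cR45 {X : Type*} (x : X) (l : List (A ⊕ X)) :
    (Sum.inr x :: l).countP Sum.isRight = l.countP Sum.isRight + 1 := by
  rw [List.countP_cons_of_pos (by simp)]

theorem cL45 {X : Type*} (l : List A) :
    (l.map (Sum.inl : A → A ⊕ X)).countP Sum.isRight = 0 := by
  rw [List.countP_eq_zero]
  intro a ha
  obtain ⟨b, _, rfl⟩ := List.mem_map.1 ha
  simp

theorem fk_length45 {X : Type*} (D : ℕ) (P : List A) (z : X) : (fk45 D P z).length ≤ D + 1 := by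
  unfold fk45
  rw [List.length_append, List.length_map, List.length_take]
  split_ifs <;> simp

theorem fk_sb45 {X : Type*} {D : ℕ} {P : List A} {z : X} {τ : X → List A} (h : τ z = P.drop D) :
    sb τ (fk45 D P z) = P := by
  unfold fk45
  rw [sb_append, sb_mapK45]
  split_ifs with h1
  · rw [sb_nil, List.append_nil, List.take_of_length_le h1]
  · rw [sb_inr, sb_nil, List.append_nil, h, List.take_append_drop]

theorem fk_pre45 {X : Type*} {D : ℕ} {P : List A} {z : X} (τ : X → List A) {g w : List A}
    (h : w <+: g ++ P) (hl : w.length ≤ g.length + D) : w <+: g ++ sb τ (fk45 D P z) := by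
  unfold fk45
  rw [sb_append, sb_mapK45, ← List.append_assoc]
  refine List.IsPrefix.trans ?_ (List.prefix_append _ _)
  by_cases h1 : P.length ≤ D
  · rwa [List.take_of_length_le h1]
  · have h2 : g ++ P.take D <+: g ++ P :=
      (List.prefix_append_right_inj g).2 (List.take_prefix _ _)
    refine List.prefix_of_prefix_length_le h h2 ?_
    rw [List.length_append, List.length_take]
    omega

/-- **prefix conditions** between forms are kept by two equations -/
theorem prefix_keep5 {N d : ℕ} (S S1 P1 : List A) (hP : EBdd N d P1) :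
    ∃ E : List (List (A ⊕ Fin 5) × List (A ⊕ Fin 5)), E.length ≤ 2 ∧
      (∀ e ∈ E, (e.1 ++ e.2).countP Sum.isRight ≤ 4 ∧
        e.1.length + e.2.length ≤ (N + 2) * d + 4) ∧
      (∃ τ : Fin 5 → List A, τ 0 = S ∧ τ 1 = S1 ∧ τ 2 = P1 ∧ ∀ e ∈ E, sb τ e.1 = sb τ e.2) ∧
      ∀ τ : Fin 5 → List A, (∀ e ∈ E, sb τ e.1 = sb τ e.2) → ∀ g g1 : List A,
        g.length ≤ d → g1.length ≤ d → S ++ g <+: S1 ++ g1 ++ P1 →
        τ 0 ++ g <+: τ 1 ++ g1 ++ τ 2 := by
  classical
  by_cases hval : ∃ g g1 : List A, g.length ≤ d ∧ g1.length ≤ d ∧ S ++ g <+: S1 ++ g1 ++ P1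
  swap
  · refine ⟨[], by simp, by simp, ⟨fun i => if i = 0 then S else if i = 1 then S1 else P1,
      by simp, by simp, by simp, by simp⟩, ?_⟩
    intro τ _ g g1 h1 h2 h3
    exact absurd ⟨g, g1, h1, h2, h3⟩ hval
  obtain ⟨g0, g10, hg0, hg10, hv0⟩ := hval
  rcases Nat.le_total S.length S1.length with hle | hle
  · -- `S` is a prefix of `S1`
    have hpre : S <+: S1 := by
      have h1 : S <+: S1 ++ (g10 ++ P1) := by
        rw [← List.append_assoc]
        exact (List.prefix_append S g0).trans hv0
      exact List.prefix_of_prefix_length_le h1 (List.prefix_append _ _) hle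
    obtain ⟨a, ha⟩ := hpre
    have hred : ∀ g g1 : List A, S ++ g <+: S1 ++ g1 ++ P1 → g <+: a ++ g1 ++ P1 := by
      intro g g1 h
      rw [← ha] at h
      have h' : S ++ g <+: S ++ (a ++ g1 ++ P1) := by
        simpa only [List.append_assoc] using h
      exact (List.prefix_append_right_inj S).1 h'
    by_cases had : d ≤ a.length
    · -- the first `d` letters of `a`
      refine ⟨[([.inr 1], .inr 0 :: fk45 d a 3)], by simp, ?_, ?_, ?_⟩
      · intro e he
        rw [List.mem_singleton] at he
        subst he
        have h1 := fk_count45 d a (3 : Fin 5)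
        have h2 := fk_length45 d a (3 : Fin 5)
        refine ⟨?_, ?_⟩
        · show (Sum.inr 1 :: Sum.inr 0 :: fk45 d a 3).countP Sum.isRight ≤ 4
          rw [cR45, cR45]
          omega
        · simp only [List.length_cons, List.length_nil]
          have : d ≤ (N + 2) * d := Nat.le_mul_of_pos_left d (by omega)
          omega
      · refine ⟨fun i => if i = 0 then S else if i = 1 then S1 else if i = 2 then P1
          else a.drop d, by simp, by simp, by simp, ?_⟩
        intro e he
        rw [List.mem_singleton] at he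
        subst he
        show sb _ [.inr 1] = sb _ (.inr 0 :: fk45 d a 3)
        rw [sb_inr, sb_nil, List.append_nil, sb_inr, fk_sb45 (by simp)]
        simpa using ha.symm
      · intro τ hτ g g1 hg hg1 h
        have h1 := hτ _ (List.mem_singleton.2 rfl)
        simp only [sb_inr, sb_nil, List.append_nil] at h1
        have h2 := hred g g1 h
        have h3 : g <+: [] ++ a := by
          rw [List.nil_append]
          exact List.prefix_of_prefix_length_le h2
            (by rw [List.append_assoc]; exact List.prefix_append _ _) (by omega)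
        have h4 : g <+: [] ++ sb τ (fk45 d a 3) := fk_pre45 τ h3 (by rw [List.length_nil]; omega)
        rw [List.nil_append] at h4
        rw [List.append_assoc]
        refine List.IsPrefix.trans ?_ (List.prefix_append _ _)
        rw [h1]
        exact (List.prefix_append_right_inj _).2 h4
    · -- `a` is short
      refine ⟨[([.inr 1], .inr 0 :: a.map .inl), ([.inr 2], fk45 d P1 3)], by simp, ?_, ?_, ?_⟩
      · intro e he
        have hdd : d ≤ (N + 2) * d := Nat.le_mul_of_pos_left d (by omega)
        rcases List.mem_cons.1 he with he | he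
        · subst he
          refine ⟨?_, ?_⟩
          · show (Sum.inr 1 :: Sum.inr 0 :: a.map Sum.inl).countP Sum.isRight ≤ 4
            rw [cR45, cR45, cL45]
            omega
          · simp only [List.length_cons, List.length_nil, List.length_map]
            omega
        · rw [List.mem_singleton] at he
          subst he
          have h1 := fk_count45 d P1 (3 : Fin 5)
          have h2 := fk_length45 d P1 (3 : Fin 5)
          refine ⟨?_, ?_⟩
          · rw [List.countP_append]
            simp only [List.countP_singleton, Sum.isRight_inr, if_true]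
            omega
          · simp only [List.length_cons, List.length_nil]
            omega
      · refine ⟨fun i => if i = 0 then S else if i = 1 then S1 else if i = 2 then P1
          else P1.drop d, by simp, by simp, by simp, ?_⟩
        intro e he
        rcases List.mem_cons.1 he with he | he
        · subst he
          show sb _ [.inr 1] = sb _ (.inr 0 :: a.map .inl)
          rw [sb_inr, sb_nil, List.append_nil, sb_inr, sb_mapK45]
          simpa using ha.symm
        · rw [List.mem_singleton] at he
          subst he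
          show sb _ [.inr 2] = sb _ (fk45 d P1 3)
          rw [sb_inr, sb_nil, List.append_nil, fk_sb45 (by simp)]
          simp
      · intro τ hτ g g1 hg hg1 h
        have h1 := hτ _ (List.mem_cons_self)
        have h2 := hτ _ (List.mem_cons_of_mem _ (List.mem_singleton.2 rfl))
        simp only [sb_inr, sb_nil, List.append_nil, sb_mapK45] at h1 h2
        have h3 := hred g g1 h
        have h4 : g <+: (a ++ g1) ++ sb τ (fk45 d P1 3) := fk_pre45 τ h3 (by omega)
        rw [h1, h2]
        have h5 : τ 0 ++ a ++ g1 ++ sb τ (fk45 d P1 3) =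
            τ 0 ++ ((a ++ g1) ++ sb τ (fk45 d P1 3)) := by
          simp only [List.append_assoc]
        rw [h5]
        exact (List.prefix_append_right_inj _).2 h4
  · -- `S1` is a prefix of `S`
    have hpre : S1 <+: S := by
      have h1 : S <+: S1 ++ (g10 ++ P1) := by
        rw [← List.append_assoc]
        exact (List.prefix_append S g0).trans hv0
      exact List.prefix_of_prefix_length_le (List.prefix_append _ _) h1 hle
    obtain ⟨b, hb⟩ := hpre
    have hred : ∀ g g1 : List A, S ++ g <+: S1 ++ g1 ++ P1 → b ++ g <+: g1 ++ P1 := by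
      intro g g1 h
      rw [← hb] at h
      have h' : S1 ++ (b ++ g) <+: S1 ++ (g1 ++ P1) := by
        simpa only [List.append_assoc] using h
      exact (List.prefix_append_right_inj S1).1 h'
    by_cases hbd : b.length ≤ (N + 1) * d
    · -- `b` is short
      refine ⟨[([.inr 0], .inr 1 :: b.map .inl), ([.inr 2], fk45 ((N + 2) * d) P1 3)], by simp,
        ?_, ?_, ?_⟩
      · intro e he
        have hdd : (N + 1) * d ≤ (N + 2) * d := Nat.mul_le_mul_right d (by omega)
        rcases List.mem_cons.1 he with he | he
        · subst he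
          refine ⟨?_, ?_⟩
          · show (Sum.inr 0 :: Sum.inr 1 :: b.map Sum.inl).countP Sum.isRight ≤ 4
            rw [cR45, cR45, cL45]
            omega
          · simp only [List.length_cons, List.length_nil, List.length_map]
            omega
        · rw [List.mem_singleton] at he
          subst he
          have h1 := fk_count45 ((N + 2) * d) P1 (3 : Fin 5)
          have h2 := fk_length45 ((N + 2) * d) P1 (3 : Fin 5)
          refine ⟨?_, ?_⟩
          · rw [List.countP_append]
            simp only [List.countP_singleton, Sum.isRight_inr, if_true]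
            omega
          · simp only [List.length_cons, List.length_nil]
            omega
      · refine ⟨fun i => if i = 0 then S else if i = 1 then S1 else if i = 2 then P1
          else P1.drop ((N + 2) * d), by simp, by simp, by simp, ?_⟩
        intro e he
        rcases List.mem_cons.1 he with he | he
        · subst he
          show sb _ [.inr 0] = sb _ (.inr 1 :: b.map .inl)
          rw [sb_inr, sb_nil, List.append_nil, sb_inr, sb_mapK45]
          simpa using hb.symm
        · rw [List.mem_singleton] at he
          subst he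
          show sb _ [.inr 2] = sb _ (fk45 ((N + 2) * d) P1 3)
          rw [sb_inr, sb_nil, List.append_nil, fk_sb45 (by simp)]
          simp
      · intro τ hτ g g1 hg hg1 h
        have h1 := hτ _ (List.mem_cons_self)
        have h2 := hτ _ (List.mem_cons_of_mem _ (List.mem_singleton.2 rfl))
        simp only [sb_inr, sb_nil, List.append_nil, sb_mapK45] at h1 h2
        have h3 := hred g g1 h
        have h4 : b ++ g <+: g1 ++ sb τ (fk45 ((N + 2) * d) P1 3) := fk_pre45 τ h3 (by
          rw [List.length_append]
          have : (N + 2) * d = (N + 1) * d + d := by ring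
          omega)
        rw [h1, h2, List.append_assoc, List.append_assoc]
        exact (List.prefix_append_right_inj _).2 h4
    · -- `b` is long: only one `g1`
      push Not at hbd
      have hsplit : ∀ g g1 : List A, g1.length ≤ d → b ++ g <+: g1 ++ P1 →
          ∃ e, b = g1 ++ e ∧ e ++ g <+: P1 := by
        intro g g1 hg1 h
        have h1 : g1 <+: b := by
          refine List.prefix_of_prefix_length_le (List.prefix_append g1 P1)
            ((List.prefix_append b g).trans h) ?_
          have : d ≤ (N + 1) * d := Nat.le_mul_of_pos_left d (by omega)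
          omega
        obtain ⟨e, he⟩ := h1
        refine ⟨e, he.symm, ?_⟩
        rw [← he, List.append_assoc] at h
        exact (List.prefix_append_right_inj g1).1 h
      obtain ⟨e, hbe, he⟩ := hsplit g0 g10 hg10 (hred g0 g10 hv0)
      have huniq : ∀ g g1 : List A, g1.length ≤ d → b ++ g <+: g1 ++ P1 → g1 = g10 := by
        intro g g1 hg1 h
        obtain ⟨e', hbe', he'⟩ := hsplit g g1 hg1 h
        -- two splittings of `b`
        have key : ∀ (x x' y y' : List A), b = x ++ y → b = x' ++ y' → x.length ≤ d →
            x'.length ≤ d → y <+: P1 → y' <+: P1 → x.length < x'.length → False := by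
          intro x x' y y' h1 h2 h3 h4 h5 h6 h7
          have hx : x <+: x' := List.prefix_of_prefix_length_le ⟨y, h1.symm⟩ ⟨y', h2.symm⟩ h7.le
          obtain ⟨k, hk⟩ := hx
          have hy : y = k ++ y' := by
            have h8 : x ++ y = x ++ (k ++ y') := by
              rw [← h1, h2, ← hk, List.append_assoc]
            exact List.append_cancel_left h8
          have hkl : k.length = x'.length - x.length := by
            rw [← hk, List.length_append]; omega
          have hyl : y'.length ≤ y.length := by rw [hy, List.length_append]; omega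
          obtain ⟨t, ht⟩ := List.prefix_of_prefix_length_le h6 h5 hyl
          have hper : Per t.length y := Per.border ht.symm hy
          have htl : t.length = k.length := by
            have e1 := congrArg List.length ht
            have e2 := congrArg List.length hy
            rw [List.length_append] at e1 e2
            omega
          have h8 := hP t.length y (by omega) h5.isInfix hper
          have h9 : N * max t.length d = N * d := by
            rw [Nat.max_eq_right (by omega)]
          have h10 := congrArg List.length h1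
          rw [List.length_append] at h10
          have h11 : (N + 1) * d = N * d + d := by ring
          omega
        have he0 : e <+: P1 := (List.prefix_append e g0).trans he
        have he0' : e' <+: P1 := (List.prefix_append e' g).trans he'
        rcases Nat.lt_trichotomy g1.length g10.length with h1 | h1 | h1
        · exact (key g1 g10 e' e hbe' hbe hg1 hg10 he0' he0 h1).elim
        · exact (List.append_inj (hbe'.symm.trans hbe) h1).1
        · exact (key g10 g1 e e' hbe hbe' hg10 hg1 he0 he0' h1).elim
      obtain ⟨P2, hP2⟩ : ∃ P2, P1 = e ++ P2 := by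
        obtain ⟨t, ht⟩ := (List.prefix_append e g0).trans he
        exact ⟨t, ht.symm⟩
      refine ⟨[([.inr 0], .inr 1 :: (g10.map .inl ++ [.inr 3])),
        ([.inr 2], .inr 3 :: fk45 d P2 4)], by simp, ?_, ?_, ?_⟩
      · intro e he
        have hdd : d ≤ (N + 2) * d := Nat.le_mul_of_pos_left d (by omega)
        rcases List.mem_cons.1 he with he | he
        · subst he
          refine ⟨?_, ?_⟩
          · show (Sum.inr 0 :: Sum.inr 1 :: (g10.map Sum.inl ++ [Sum.inr 3])).countP
              Sum.isRight ≤ 4
            rw [cR45, cR45, List.countP_append, cL45, cR45]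
            simp
          · simp only [List.length_cons, List.length_nil, List.length_map, List.length_append]
            omega
        · rw [List.mem_singleton] at he
          subst he
          have h1 := fk_count45 d P2 (4 : Fin 5)
          have h2 := fk_length45 d P2 (4 : Fin 5)
          refine ⟨?_, ?_⟩
          · show (Sum.inr 2 :: Sum.inr 3 :: fk45 d P2 4).countP Sum.isRight ≤ 4
            rw [cR45, cR45]
            omega
          · simp only [List.length_cons, List.length_nil]
            omega
      · refine ⟨fun i => if i = 0 then S else if i = 1 then S1 else if i = 2 then P1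
          else if i = 3 then e else P2.drop d, by simp, by simp, by simp, ?_⟩
        intro t ht
        rcases List.mem_cons.1 ht with ht | ht
        · subst ht
          simp only [sb_inr, sb_nil, List.append_nil, sb_append, sb_mapK45]
          simp [← hb, hbe]
        · rw [List.mem_singleton] at ht
          subst ht
          show sb _ [.inr 2] = sb _ (.inr 3 :: fk45 d P2 4)
          rw [sb_inr, sb_nil, List.append_nil, sb_inr, fk_sb45 (by simp)]
          simp [hP2]
      · intro τ hτ g g1 hg hg1 h
        have h1 := hτ _ (List.mem_cons_self)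
        have h2 := hτ _ (List.mem_cons_of_mem _ (List.mem_singleton.2 rfl))
        simp only [sb_inr, sb_nil, List.append_nil, sb_mapK45, sb_append] at h1 h2
        have h3 := hred g g1 h
        have h4 := huniq g g1 hg1 h3
        subst h4
        rw [hbe, hP2, List.append_assoc] at h3
        have h5 := (List.prefix_append_right_inj e).1 ((List.prefix_append_right_inj g1).1 h3)
        have h6 : g <+: [] ++ sb τ (fk45 d P2 4) := fk_pre45 τ (by rwa [List.nil_append])
          (by rw [List.length_nil]; omega)
        rw [List.nil_append] at h6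
        rw [h1, h2]
        have h7 : τ 1 ++ (g1 ++ τ 3) ++ g = (τ 1 ++ g1 ++ τ 3) ++ g := by
          simp only [List.append_assoc]
        have h8 : τ 1 ++ g1 ++ (τ 3 ++ sb τ (fk45 d P2 4)) =
            (τ 1 ++ g1 ++ τ 3) ++ sb τ (fk45 d P2 4) := by
          simp only [List.append_assoc]
        rw [h7, h8]
        exact (List.prefix_append_right_inj _).2 h6

theorem sb_reverse45 {X : Type*} (τ : X → List A) : ∀ l : List (A ⊕ X),
    sb (fun x => (τ x).reverse) l.reverse = (sb τ l).reverse
  | [] => rfl
  | .inl a :: l => by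
      rw [List.reverse_cons, sb_append, sb_reverse45 τ l, sb_inl, sb_nil, sb_inl]
      simp
  | .inr x :: l => by
      rw [List.reverse_cons, sb_append, sb_reverse45 τ l, sb_inr, sb_nil, sb_inr]
      simp

/-- **suffix conditions** between forms are kept by two equations -/
theorem suffix_keep5 {N d : ℕ} (P P1 S1 : List A) (hS : EBdd N d S1) :
    ∃ E : List (List (A ⊕ Fin 5) × List (A ⊕ Fin 5)), E.length ≤ 2 ∧
      (∀ e ∈ E, (e.1 ++ e.2).countP Sum.isRight ≤ 4 ∧
        e.1.length + e.2.length ≤ (N + 2) * d + 4) ∧
      (∃ τ : Fin 5 → List A, τ 0 = P ∧ τ 1 = P1 ∧ τ 2 = S1 ∧ ∀ e ∈ E, sb τ e.1 = sb τ e.2) ∧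
      ∀ τ : Fin 5 → List A, (∀ e ∈ E, sb τ e.1 = sb τ e.2) → ∀ g g1 : List A,
        g.length ≤ d → g1.length ≤ d → g ++ P <:+ S1 ++ g1 ++ P1 →
        g ++ τ 0 <:+ τ 2 ++ g1 ++ τ 1 := by
  obtain ⟨E, h1, h2, ⟨τ, t0, t1, t2, t3⟩, h4⟩ := prefix_keep5 P.reverse P1.reverse S1.reverse
    hS.reverse
  refine ⟨E.map (fun e => (e.1.reverse, e.2.reverse)), by rwa [List.length_map], ?_, ?_, ?_⟩
  · intro e he
    obtain ⟨e', he', rfl⟩ := List.mem_map.1 he
    obtain ⟨k1, k2⟩ := h2 e' he'
    refine ⟨?_, by simpa using k2⟩
    rw [List.countP_append] at k1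
    show (e'.1.reverse ++ e'.2.reverse).countP Sum.isRight ≤ 4
    rw [List.countP_append, List.countP_reverse, List.countP_reverse]
    exact k1
  · refine ⟨fun x => (τ x).reverse, by simp [t0], by simp [t1], by simp [t2], ?_⟩
    intro e he
    obtain ⟨e', he', rfl⟩ := List.mem_map.1 he
    show sb _ e'.1.reverse = sb _ e'.2.reverse
    rw [sb_reverse45, sb_reverse45, t3 e' he']
  · intro τ' hτ' g g1 hg hg1 h
    have k1 : ∀ e ∈ E, sb (fun x => (τ' x).reverse) e.1 = sb (fun x => (τ' x).reverse) e.2 := by
      intro e he
      have k2 := hτ' _ (List.mem_map.2 ⟨e, he, rfl⟩)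
      have k3 := sb_reverse45 τ' e.1.reverse
      have k4 := sb_reverse45 τ' e.2.reverse
      rw [List.reverse_reverse] at k3 k4
      rw [k3, k4]
      exact congrArg List.reverse k2
    have k5 := h4 _ k1 g.reverse g1.reverse (by simpa using hg) (by simpa using hg1) (by
      have := List.reverse_prefix.2 h
      simpa [List.reverse_append, List.append_assoc] using this)
    have k6 := List.reverse_suffix.2 k5
    simpa [List.reverse_append, List.append_assoc] using k6

theorem sb_mapR45 {X Y : Type*} (π : X → Y) (τ : Y → List A) : ∀ l : List (A ⊕ X),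
    sb τ (l.map (Sum.map id π)) = sb (fun x => τ (π x)) l
  | [] => rfl
  | .inl a :: l => by
      rw [List.map_cons, sb_inl, ← sb_mapR45 π τ l]
      exact sb_inl _ _ _
  | .inr x :: l => by
      rw [List.map_cons, sb_inr, ← sb_mapR45 π τ l]
      exact sb_inr _ _ _

theorem countP_mapR45 {X Y : Type*} (π : X → Y) (l : List (A ⊕ X)) :
    (l.map (Sum.map id π)).countP Sum.isRight = l.countP Sum.isRight := by
  rw [List.countP_map]
  congr 1
  funext s
  cases s <;> rfl

theorem eq_keep_aux5 {N d : ℕ} (S P S1 P1 : List A) (hP : EBdd N d P)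
    (hle : S.length ≤ S1.length) :
    ∃ E : List (List (A ⊕ Fin 5) × List (A ⊕ Fin 5)), E.length ≤ 2 ∧
      (∀ e ∈ E, (e.1 ++ e.2).countP Sum.isRight ≤ 4 ∧
        e.1.length + e.2.length ≤ (N + 2) * d + 4) ∧
      (∃ τ : Fin 5 → List A, τ 0 = S ∧ τ 1 = P ∧ τ 2 = S1 ∧ τ 3 = P1 ∧
        ∀ e ∈ E, sb τ e.1 = sb τ e.2) ∧
      ∀ τ : Fin 5 → List A, (∀ e ∈ E, sb τ e.1 = sb τ e.2) → ∀ g g1 : List A,
        g.length ≤ d → g1.length ≤ d → S ++ g ++ P = S1 ++ g1 ++ P1 →
        τ 0 ++ g ++ τ 1 = τ 2 ++ g1 ++ τ 3 := by
  classical
  by_cases hval : ∃ g g1 : List A, g.length ≤ d ∧ g1.length ≤ d ∧ S ++ g ++ P = S1 ++ g1 ++ P1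
  swap
  · refine ⟨[], by simp, by simp, ⟨fun i => if i = 0 then S else if i = 1 then P else
      if i = 2 then S1 else P1, by simp, by simp, by simp, by simp, by simp⟩, ?_⟩
    intro τ _ g g1 h1 h2 h3
    exact absurd ⟨g, g1, h1, h2, h3⟩ hval
  obtain ⟨g0, g10, hg0, hg10, hv0⟩ := hval
  have hpre : S <+: S1 := by
    have h1 : S <+: S1 ++ (g10 ++ P1) := by
      rw [← List.append_assoc, ← hv0, List.append_assoc]
      exact List.prefix_append _ _
    exact List.prefix_of_prefix_length_le h1 (List.prefix_append _ _) hle
  obtain ⟨b, hb⟩ := hpre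
  have hred : ∀ g g1 : List A, S ++ g ++ P = S1 ++ g1 ++ P1 → g ++ P = b ++ g1 ++ P1 := by
    intro g g1 h
    rw [← hb] at h
    simp only [List.append_assoc] at h
    simpa only [List.append_assoc] using List.append_cancel_left h
  by_cases hbd : b.length ≤ (N + 1) * d
  · rcases Nat.le_total P.length P1.length with hPl | hPl
    · -- `P1 = c P`
      have hsuf : P <:+ P1 := by
        have h1 : P <:+ b ++ g10 ++ P1 := by
          rw [← hred g0 g10 hv0]
          exact List.suffix_append _ _
        exact List.suffix_of_suffix_length_le h1 (List.suffix_append _ _) hPl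
      obtain ⟨c, hc⟩ := hsuf
      have hcl : c.length ≤ d := by
        have h1 := congrArg List.length (hred g0 g10 hv0)
        have h2 := congrArg List.length hc
        simp only [List.length_append] at h1 h2
        omega
      have hdd : (N + 1) * d ≤ (N + 2) * d := Nat.mul_le_mul_right d (by omega)
      have hd2 : d ≤ (N + 2) * d := Nat.le_mul_of_pos_left d (by omega)
      refine ⟨[([.inr 2], .inr 0 :: b.map .inl), ([.inr 3], c.map .inl ++ [.inr 1])], by simp,
        ?_, ?_, ?_⟩
      · intro e he
        rcases List.mem_cons.1 he with he | he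
        · subst he
          refine ⟨?_, ?_⟩
          · show (Sum.inr 2 :: Sum.inr 0 :: b.map Sum.inl).countP Sum.isRight ≤ 4
            rw [cR45, cR45, cL45]
            omega
          · simp only [List.length_cons, List.length_nil, List.length_map]
            omega
        · rw [List.mem_singleton] at he
          subst he
          refine ⟨?_, ?_⟩
          · show (Sum.inr 3 :: (c.map Sum.inl ++ [Sum.inr 1])).countP Sum.isRight ≤ 4
            rw [cR45, List.countP_append, cL45, cR45]
            simp
          · simp only [List.length_cons, List.length_nil, List.length_map, List.length_append]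
            omega
      · refine ⟨fun i => if i = 0 then S else if i = 1 then P else if i = 2 then S1 else P1,
          by simp, by simp, by simp, by simp, ?_⟩
        intro e he
        rcases List.mem_cons.1 he with he | he
        · subst he
          simp only [sb_inr, sb_nil, List.append_nil, sb_mapK45]
          simpa using hb.symm
        · rw [List.mem_singleton] at he
          subst he
          simp only [sb_inr, sb_nil, List.append_nil, sb_mapK45, sb_append]
          simpa using hc.symm
      · intro τ hτ g g1 hg hg1 h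
        have h1 := hτ _ (List.mem_cons_self)
        have h2 := hτ _ (List.mem_cons_of_mem _ (List.mem_singleton.2 rfl))
        simp only [sb_inr, sb_nil, List.append_nil, sb_mapK45, sb_append] at h1 h2
        have h3 := hred g g1 h
        rw [← hc] at h3
        have h4 : g = b ++ g1 ++ c := by
          have : g ++ P = (b ++ g1 ++ c) ++ P := by simpa only [List.append_assoc] using h3
          exact List.append_cancel_right this
        rw [h1, h2, h4]
        simp only [List.append_assoc]
    · -- `P = c P1`
      have hsuf : P1 <:+ P := by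
        have h1 : P1 <:+ g0 ++ P := by
          rw [hred g0 g10 hv0]
          exact List.suffix_append _ _
        exact List.suffix_of_suffix_length_le h1 (List.suffix_append _ _) hPl
      obtain ⟨c, hc⟩ := hsuf
      have hcl : c.length ≤ (N + 2) * d := by
        have h1 := congrArg List.length (hred g0 g10 hv0)
        have h2 := congrArg List.length hc
        simp only [List.length_append] at h1 h2
        have h3 : (N + 2) * d = (N + 1) * d + d := by ring
        omega
      have hdd : (N + 1) * d ≤ (N + 2) * d := Nat.mul_le_mul_right d (by omega)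
      refine ⟨[([.inr 2], .inr 0 :: b.map .inl), ([.inr 1], c.map .inl ++ [.inr 3])], by simp,
        ?_, ?_, ?_⟩
      · intro e he
        rcases List.mem_cons.1 he with he | he
        · subst he
          refine ⟨?_, ?_⟩
          · show (Sum.inr 2 :: Sum.inr 0 :: b.map Sum.inl).countP Sum.isRight ≤ 4
            rw [cR45, cR45, cL45]
            omega
          · simp only [List.length_cons, List.length_nil, List.length_map]
            omega
        · rw [List.mem_singleton] at he
          subst he
          refine ⟨?_, ?_⟩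
          · show (Sum.inr 1 :: (c.map Sum.inl ++ [Sum.inr 3])).countP Sum.isRight ≤ 4
            rw [cR45, List.countP_append, cL45, cR45]
            simp
          · simp only [List.length_cons, List.length_nil, List.length_map, List.length_append]
            omega
      · refine ⟨fun i => if i = 0 then S else if i = 1 then P else if i = 2 then S1 else P1,
          by simp, by simp, by simp, by simp, ?_⟩
        intro e he
        rcases List.mem_cons.1 he with he | he
        · subst he
          simp only [sb_inr, sb_nil, List.append_nil, sb_mapK45]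
          simpa using hb.symm
        · rw [List.mem_singleton] at he
          subst he
          simp only [sb_inr, sb_nil, List.append_nil, sb_mapK45, sb_append]
          simpa using hc.symm
      · intro τ hτ g g1 hg hg1 h
        have h1 := hτ _ (List.mem_cons_self)
        have h2 := hτ _ (List.mem_cons_of_mem _ (List.mem_singleton.2 rfl))
        simp only [sb_inr, sb_nil, List.append_nil, sb_mapK45, sb_append] at h1 h2
        have h3 := hred g g1 h
        rw [← hc] at h3
        have h4 : g ++ c = b ++ g1 := by
          have : (g ++ c) ++ P1 = (b ++ g1) ++ P1 := by simpa only [List.append_assoc] using h3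
          exact List.append_cancel_right this
        rw [h1, h2]
        have h5 : τ 0 ++ g ++ (c ++ τ 3) = τ 0 ++ (g ++ c) ++ τ 3 := by
          simp only [List.append_assoc]
        rw [h5, h4]
        simp only [List.append_assoc]
  · -- `b` is long: only one pair
    push Not at hbd
    have hsplit : ∀ g g1 : List A, g.length ≤ d → g ++ P = b ++ g1 ++ P1 →
        ∃ e, b = g ++ e ∧ P = e ++ (g1 ++ P1) := by
      intro g g1 hg h
      have h1 : g <+: b := by
        refine List.prefix_of_prefix_length_le (List.prefix_append g P)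
          (by rw [h, List.append_assoc]; exact List.prefix_append _ _) ?_
        have : d ≤ (N + 1) * d := Nat.le_mul_of_pos_left d (by omega)
        omega
      obtain ⟨e, he⟩ := h1
      refine ⟨e, he.symm, ?_⟩
      rw [← he] at h
      simp only [List.append_assoc] at h
      exact List.append_cancel_left h
    obtain ⟨e, hbe, he⟩ := hsplit g0 g10 hg0 (hred g0 g10 hv0)
    have huniq : ∀ g g1 : List A, g.length ≤ d → g ++ P = b ++ g1 ++ P1 →
        g = g0 ∧ g1 = g10 := by
      intro g g1 hg h
      obtain ⟨e', hbe', he'⟩ := hsplit g g1 hg h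
      have key : ∀ (x x' y y' : List A), b = x ++ y → b = x' ++ y' → x.length ≤ d →
          x'.length ≤ d → y <+: P → y' <+: P → x.length < x'.length → False := by
        intro x x' y y' h1 h2 h3 h4 h5 h6 h7
        have hx : x <+: x' := List.prefix_of_prefix_length_le ⟨y, h1.symm⟩ ⟨y', h2.symm⟩ h7.le
        obtain ⟨k, hk⟩ := hx
        have hy : y = k ++ y' := by
          have h8 : x ++ y = x ++ (k ++ y') := by
            rw [← h1, h2, ← hk, List.append_assoc]
          exact List.append_cancel_left h8
        have hkl : k.length = x'.length - x.length := by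
          rw [← hk, List.length_append]; omega
        have hyl : y'.length ≤ y.length := by rw [hy, List.length_append]; omega
        obtain ⟨t, ht⟩ := List.prefix_of_prefix_length_le h6 h5 hyl
        have hper : Per t.length y := Per.border ht.symm hy
        have htl : t.length = k.length := by
          have e1 := congrArg List.length ht
          have e2 := congrArg List.length hy
          rw [List.length_append] at e1 e2
          omega
        have h8 := hP t.length y (by omega) h5.isInfix hper
        have h9 : N * max t.length d = N * d := by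
          rw [Nat.max_eq_right (by omega)]
        have h10 := congrArg List.length h1
        rw [List.length_append] at h10
        have h11 : (N + 1) * d = N * d + d := by ring
        omega
      have he0 : e <+: P := ⟨_, he.symm⟩
      have he0' : e' <+: P := ⟨_, he'.symm⟩
      have hgg : g = g0 := by
        rcases Nat.lt_trichotomy g.length g0.length with h1 | h1 | h1
        · exact (key g g0 e' e hbe' hbe hg hg0 he0' he0 h1).elim
        · exact (List.append_inj (hbe'.symm.trans hbe) h1).1
        · exact (key g0 g e e' hbe hbe' hg0 hg he0 he0' h1).elim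
      refine ⟨hgg, ?_⟩
      subst hgg
      have h1 := hred g g10 hv0
      rw [h] at h1
      simp only [List.append_assoc] at h1
      exact List.append_cancel_right (List.append_cancel_left h1)
    have hd2 : d ≤ (N + 2) * d := Nat.le_mul_of_pos_left d (by omega)
    refine ⟨[([.inr 2], .inr 0 :: (g0.map .inl ++ [.inr 4])),
      ([.inr 1], .inr 4 :: (g10.map .inl ++ [.inr 3]))], by simp, ?_, ?_, ?_⟩
    · intro t ht
      rcases List.mem_cons.1 ht with ht | ht
      · subst ht
        refine ⟨?_, ?_⟩
        · show (Sum.inr 2 :: Sum.inr 0 :: (g0.map Sum.inl ++ [Sum.inr 4])).countP Sum.isRight ≤ 4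
          rw [cR45, cR45, List.countP_append, cL45, cR45]
          simp
        · simp only [List.length_cons, List.length_nil, List.length_map, List.length_append]
          omega
      · rw [List.mem_singleton] at ht
        subst ht
        refine ⟨?_, ?_⟩
        · show (Sum.inr 1 :: Sum.inr 4 :: (g10.map Sum.inl ++ [Sum.inr 3])).countP Sum.isRight ≤ 4
          rw [cR45, cR45, List.countP_append, cL45, cR45]
          simp
        · simp only [List.length_cons, List.length_nil, List.length_map, List.length_append]
          omega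
    · refine ⟨fun i => if i = 0 then S else if i = 1 then P else if i = 2 then S1 else
        if i = 3 then P1 else e, by simp, by simp, by simp, by simp, ?_⟩
      intro t ht
      rcases List.mem_cons.1 ht with ht | ht
      · subst ht
        simp only [sb_inr, sb_nil, List.append_nil, sb_mapK45, sb_append]
        simp [← hb, hbe]
      · rw [List.mem_singleton] at ht
        subst ht
        simp only [sb_inr, sb_nil, List.append_nil, sb_mapK45, sb_append]
        simpa using he
    · intro τ hτ g g1 hg hg1 h
      have h1 := hτ _ (List.mem_cons_self)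
      have h2 := hτ _ (List.mem_cons_of_mem _ (List.mem_singleton.2 rfl))
      simp only [sb_inr, sb_nil, List.append_nil, sb_mapK45, sb_append] at h1 h2
      obtain ⟨h3, h4⟩ := huniq g g1 hg (hred g g1 h)
      subst h3 h4
      rw [h1, h2]
      simp only [List.append_assoc]

/-- **equalities** between forms are kept by two equations -/
theorem eq_keep5 {N d : ℕ} (S P S1 P1 : List A) (hP : EBdd N d P) (hP1 : EBdd N d P1) :
    ∃ E : List (List (A ⊕ Fin 5) × List (A ⊕ Fin 5)), E.length ≤ 2 ∧
      (∀ e ∈ E, (e.1 ++ e.2).countP Sum.isRight ≤ 4 ∧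
        e.1.length + e.2.length ≤ (N + 2) * d + 4) ∧
      (∃ τ : Fin 5 → List A, τ 0 = S ∧ τ 1 = P ∧ τ 2 = S1 ∧ τ 3 = P1 ∧
        ∀ e ∈ E, sb τ e.1 = sb τ e.2) ∧
      ∀ τ : Fin 5 → List A, (∀ e ∈ E, sb τ e.1 = sb τ e.2) → ∀ g g1 : List A,
        g.length ≤ d → g1.length ≤ d → S ++ g ++ P = S1 ++ g1 ++ P1 →
        τ 0 ++ g ++ τ 1 = τ 2 ++ g1 ++ τ 3 := by
  rcases Nat.le_total S.length S1.length with hle | hle
  · exact eq_keep_aux5 S P S1 P1 hP hle
  · obtain ⟨E, h1, h2, ⟨τ, t0, t1, t2, t3, t4⟩, h4⟩ := eq_keep_aux5 S1 P1 S P hP1 hle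
    let π : Fin 5 → Fin 5 := ![2, 3, 0, 1, 4]
    refine ⟨E.map (fun e => (e.1.map (Sum.map id π), e.2.map (Sum.map id π))),
      by rwa [List.length_map], ?_, ?_, ?_⟩
    · intro e he
      obtain ⟨e', he', rfl⟩ := List.mem_map.1 he
      obtain ⟨k1, k2⟩ := h2 e' he'
      refine ⟨?_, by simpa using k2⟩
      rw [List.countP_append] at k1
      show (e'.1.map (Sum.map id π) ++ e'.2.map (Sum.map id π)).countP Sum.isRight ≤ 4
      rw [List.countP_append, countP_mapR45, countP_mapR45]
      exact k1
    · have hππ : ∀ i, π (π i) = i := by decide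
      refine ⟨fun x => τ (π x), t2, t3, t0, t1, ?_⟩
      intro e he
      obtain ⟨e', he', rfl⟩ := List.mem_map.1 he
      show sb _ (e'.1.map (Sum.map id π)) = sb _ (e'.2.map (Sum.map id π))
      rw [sb_mapR45, sb_mapR45]
      simp only [hππ]
      exact t4 e' he'
    · intro τ' hτ' g g1 hg hg1 h
      have k1 : ∀ e ∈ E, sb (fun x => τ' (π x)) e.1 = sb (fun x => τ' (π x)) e.2 := by
        intro e he
        have k2 : sb τ' (e.1.map (Sum.map id π)) = sb τ' (e.2.map (Sum.map id π)) :=
          hτ' _ (List.mem_map.2 ⟨e, he, rfl⟩)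
        rwa [sb_mapR45, sb_mapR45] at k2
      exact (h4 _ k1 g1 g hg1 hg h.symm).symm

theorem EBdd.monoD45 {N d0 d : ℕ} {u : List A} (h : EBdd N d0 u) (hd : d0 ≤ d) : EBdd N d u := by
  intro q z hq hz hp
  exact lt_of_lt_of_le (h q z hq hz hp) (Nat.mul_le_mul_left N (max_le_max le_rfl hd))

/-- renaming of the unknowns of a list of equations -/
def rnE {X Y : Type*} (π : X → Y) (E : List (List (A ⊕ X) × List (A ⊕ X))) :
    List (List (A ⊕ Y) × List (A ⊕ Y)) :=
  E.map (fun e => (e.1.map (Sum.map id π), e.2.map (Sum.map id π)))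

theorem rnE_length {X Y : Type*} (π : X → Y) (E : List (List (A ⊕ X) × List (A ⊕ X))) :
    (rnE π E).length = E.length := List.length_map _

theorem rnE_sol {X Y : Type*} (π : X → Y) (E : List (List (A ⊕ X) × List (A ⊕ X)))
    (τ : Y → List A) : (∀ e ∈ rnE π E, sb τ e.1 = sb τ e.2) ↔
    ∀ e ∈ E, sb (fun x => τ (π x)) e.1 = sb (fun x => τ (π x)) e.2 := by
  unfold rnE
  simp only [List.mem_map, forall_exists_index, and_imp, forall_apply_eq_imp_iff₂,
    sb_mapR45]

theorem rnE_size {X Y : Type*} (π : X → Y) (E : List (List (A ⊕ X) × List (A ⊕ X)))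
    {D : ℕ} (h : ∀ e ∈ E, e.1.length + e.2.length ≤ D) :
    ∀ e ∈ rnE π E, e.1.length + e.2.length ≤ D := by
  intro e he
  obtain ⟨e', he', rfl⟩ := List.mem_map.1 he
  simpa using h e' he'

theorem rnE_count {X Y : Type*} (π : X → Y) (E : List (List (A ⊕ X) × List (A ⊕ X)))
    {D : ℕ} (h : ∀ e ∈ E, (e.1 ++ e.2).countP Sum.isRight ≤ D) :
    ∀ e ∈ rnE π E, (e.1 ++ e.2).countP Sum.isRight ≤ D := by
  intro e he
  obtain ⟨e', he', rfl⟩ := List.mem_map.1 he
  show (e'.1.map (Sum.map id π) ++ e'.2.map (Sum.map id π)).countP Sum.isRight ≤ D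
  rw [← List.map_append, countP_mapR45]
  exact h e' he'

theorem size45 {N d m : ℕ} (h : m ≤ (N + 2) * d + 4) : m ≤ 8 * (N + 3) * d + 8 := by
  have h1 : (N + 2) * d ≤ 8 * (N + 3) * d := Nat.mul_le_mul_right d (by omega)
  omega

/-- R4a -/
theorem prefix_keep {N d d0 : ℕ} (_hd : 1 ≤ d) (hd0 : d0 ≤ d) (S S1 P1 : List A)
    (_hS : EBdd N d0 S) (hP : EBdd N d0 P1) :
    ∃ E : List (List (A ⊕ Fin 6) × List (A ⊕ Fin 6)), E.length ≤ 4 ∧
      (∀ e ∈ E, (e.1 ++ e.2).countP Sum.isRight ≤ 4 ∧
        e.1.length + e.2.length ≤ 8 * (N + 3) * d + 8) ∧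
      (∃ τ : Fin 6 → List A, τ 0 = S ∧ τ 1 = S1 ∧ τ 2 = P1 ∧
        ∀ e ∈ E, sb τ e.1 = sb τ e.2) ∧
      ∀ τ' : Fin 6 → List A, (∀ e ∈ E, sb τ' e.1 = sb τ' e.2) → ∀ g g1 : List A,
        g.length ≤ d → g1.length ≤ d → S ++ g <+: S1 ++ g1 ++ P1 →
        τ' 0 ++ g <+: τ' 1 ++ g1 ++ τ' 2 := by
  obtain ⟨E, h1, h2, ⟨τ, t0, t1, t2, t3⟩, h4⟩ := prefix_keep5 S S1 P1 (EBdd.monoD45 hP hd0)
  let π : Fin 5 → Fin 6 := ![0, 1, 2, 3, 4]
  let ρ : Fin 6 → Fin 5 := ![0, 1, 2, 3, 4, 0]
  have hρ : ∀ i, ρ (π i) = i := by decide
  refine ⟨rnE π E, by rw [rnE_length]; omega, ?_, ⟨fun i => τ (ρ i), t0, t1, t2, ?_⟩, ?_⟩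
  · intro e he
    exact ⟨rnE_count π E (fun e he => (h2 e he).1) e he,
      size45 (rnE_size π E (fun e he => (h2 e he).2) e he)⟩
  · rw [rnE_sol]
    simp only [hρ]
    exact t3
  · intro τ' hτ' g g1 hg hg1 h
    rw [rnE_sol] at hτ'
    exact h4 _ hτ' g g1 hg hg1 h

/-- R4b -/
theorem suffix_keep {N d d0 : ℕ} (_hd : 1 ≤ d) (hd0 : d0 ≤ d) (P S1 P1 : List A)
    (_hP : EBdd N d0 P) (hS1 : EBdd N d0 S1) :
    ∃ E : List (List (A ⊕ Fin 6) × List (A ⊕ Fin 6)), E.length ≤ 4 ∧
      (∀ e ∈ E, (e.1 ++ e.2).countP Sum.isRight ≤ 4 ∧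
        e.1.length + e.2.length ≤ 8 * (N + 3) * d + 8) ∧
      (∃ τ : Fin 6 → List A, τ 0 = P ∧ τ 1 = S1 ∧ τ 2 = P1 ∧
        ∀ e ∈ E, sb τ e.1 = sb τ e.2) ∧
      ∀ τ' : Fin 6 → List A, (∀ e ∈ E, sb τ' e.1 = sb τ' e.2) → ∀ g g1 : List A,
        g.length ≤ d → g1.length ≤ d → g ++ P <:+ S1 ++ g1 ++ P1 →
        g ++ τ' 0 <:+ τ' 1 ++ g1 ++ τ' 2 := by
  obtain ⟨E, h1, h2, ⟨τ, t0, t1, t2, t3⟩, h4⟩ := suffix_keep5 P P1 S1 (EBdd.monoD45 hS1 hd0)
  let π : Fin 5 → Fin 6 := ![0, 2, 1, 3, 4]
  let ρ : Fin 6 → Fin 5 := ![0, 2, 1, 3, 4, 0]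
  have hρ : ∀ i, ρ (π i) = i := by decide
  refine ⟨rnE π E, by rw [rnE_length]; omega, ?_, ⟨fun i => τ (ρ i), t0, t2, t1, ?_⟩, ?_⟩
  · intro e he
    exact ⟨rnE_count π E (fun e he => (h2 e he).1) e he,
      size45 (rnE_size π E (fun e he => (h2 e he).2) e he)⟩
  · rw [rnE_sol]
    simp only [hρ]
    exact t3
  · intro τ' hτ' g g1 hg hg1 h
    rw [rnE_sol] at hτ'
    exact h4 _ hτ' g g1 hg hg1 h

/-- R4c -/
theorem eq_keep {N d d0 : ℕ} (_hd : 1 ≤ d) (hd0 : d0 ≤ d) (S P S1 P1 : List A)
    (_hS : EBdd N d0 S) (hP : EBdd N d0 P) (_hS1 : EBdd N d0 S1) (hP1 : EBdd N d0 P1) :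
    ∃ E : List (List (A ⊕ Fin 6) × List (A ⊕ Fin 6)), E.length ≤ 4 ∧
      (∀ e ∈ E, (e.1 ++ e.2).countP Sum.isRight ≤ 4 ∧
        e.1.length + e.2.length ≤ 8 * (N + 3) * d + 8) ∧
      (∃ τ : Fin 6 → List A, τ 0 = S ∧ τ 1 = P ∧ τ 2 = S1 ∧ τ 3 = P1 ∧
        ∀ e ∈ E, sb τ e.1 = sb τ e.2) ∧
      ∀ τ' : Fin 6 → List A, (∀ e ∈ E, sb τ' e.1 = sb τ' e.2) → ∀ g g1 : List A,
        g.length ≤ d → g1.length ≤ d → S ++ g ++ P = S1 ++ g1 ++ P1 →
        τ' 0 ++ g ++ τ' 1 = τ' 2 ++ g1 ++ τ' 3 := by
  obtain ⟨E, h1, h2, ⟨τ, t0, t1, t2, t2', t3⟩, h4⟩ := eq_keep5 S P S1 P1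
    (EBdd.monoD45 hP hd0) (EBdd.monoD45 hP1 hd0)
  let π : Fin 5 → Fin 6 := ![0, 1, 2, 3, 4]
  let ρ : Fin 6 → Fin 5 := ![0, 1, 2, 3, 4, 0]
  have hρ : ∀ i, ρ (π i) = i := by decide
  refine ⟨rnE π E, by rw [rnE_length]; omega, ?_, ⟨fun i => τ (ρ i), t0, t1, t2, t2', ?_⟩, ?_⟩
  · intro e he
    exact ⟨rnE_count π E (fun e he => (h2 e he).1) e he,
      size45 (rnE_size π E (fun e he => (h2 e he).2) e he)⟩
  · rw [rnE_sol]
    simp only [hρ]
    exact t3
  · intro τ' hτ' g g1 hg hg1 h
    rw [rnE_sol] at hτ'
    exact h4 _ hτ' g g1 hg hg1 h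

end WJ
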