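import Pool.Agent.WJ.Defs23
import Pool.Agent.WJ.Keep45

/-! Word equations with few repeated variables (MP_fc7ad9_lc). Helper module:
short atoms with the same relations. -/

set_option autoImplicit false

open WE45 WK

namespace WJ

universe u w

/-- the statement of row R7 with constant `C` -/
def FewFac (C : ℕ) : Prop := ∀ {A : Type u} {X : Type w} [Fintype A] [Fintype X]
    (v D d : ℕ) (E : List (List (A ⊕ X) × List (A ⊕ X))) (Gs : List (List A))
    (σ : X → List A), Fintype.card X ≤ v → E.length ≤ v →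
    (∀ t ∈ E, (t.1 ++ t.2).countP Sum.isRight ≤ v) →
    (∀ t ∈ E, t.1.length + t.2.length ≤ D) → (∀ G ∈ Gs, G.length ≤ d) →
    (∀ t ∈ E, sb σ t.1 = sb σ t.2) →
    ∃ σ' : X → List A, (∀ t ∈ E, sb σ' t.1 = sb σ' t.2) ∧
      (∀ x, ∀ G ∈ Gs, G <:+: σ x → G <:+: σ' x) ∧
      ∑ x, (σ' x).length ≤ (D + d + Gs.flatten.length + 1) * 2 ^ (2 ^ (C * (v + 1) ^ C))

/-- symbolic word of a word of atoms -/
def sy29 {A Y K : Type*} (a : List Y) : List (A ⊕ (Y ⊕ K)) := a.map (fun y => Sum.inr (Sum.inl y))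

theorem sb_sy29 {A Y K : Type*} (σ : Y ⊕ K → List A) (a : List Y) :
    sb σ (sy29 a : List (A ⊕ (Y ⊕ K))) = fl (fun y => σ (.inl y)) a := by
  induction a with
  | nil => rfl
  | cons y a ih =>
    show sb σ (Sum.inr (Sum.inl y) :: sy29 a) = _
    rw [sb_inr, ih]
    rfl

/-- equations that say that the unknown `(j, i)` is a word of atoms -/
def lk29 {A Y J : Type*} (j : J) (l : List (Fin 6 × List Y)) :
    List (List (A ⊕ (Y ⊕ (J × Fin 6))) × List (A ⊕ (Y ⊕ (J × Fin 6)))) :=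
  l.map (fun p => ([Sum.inr (Sum.inr (j, p.1))], sy29 p.2))

/-- one system from many small ones -/
theorem glue29 {C : ℕ} (hC : FewFac.{u, w} C) {A : Type u} {Y : Type w} [Fintype A] [Fintype Y]
    {J : Type} [Fintype J] (t v D d : ℕ) (θ : Y → List A) (Gs : List (List A))
    (E : J → List (List (A ⊕ Fin 6) × List (A ⊕ Fin 6))) (lk : J → List (Fin 6 × List Y))
    (τ : J → Fin 6 → List A) (hY : Fintype.card Y ≤ t) (hG : ∀ G ∈ Gs, G.length ≤ d)
    (hE1 : ∀ j, (E j).length ≤ 4)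
    (hE2 : ∀ j, ∀ e ∈ E j, (e.1 ++ e.2).countP Sum.isRight ≤ 4 ∧ e.1.length + e.2.length ≤ D)
    (hlk1 : ∀ j, (lk j).length ≤ 4) (hlk2 : ∀ j, ∀ p ∈ lk j, p.2.length ≤ t)
    (hτ1 : ∀ j, ∀ e ∈ E j, sb (τ j) e.1 = sb (τ j) e.2)
    (hτ2 : ∀ j, ∀ p ∈ lk j, τ j p.1 = fl θ p.2) (hv : t + 8 * Fintype.card J + 4 ≤ v) :
    ∃ (θ' : Y → List A) (τ' : J → Fin 6 → List A),
      (∀ j, ∀ e ∈ E j, sb (τ' j) e.1 = sb (τ' j) e.2) ∧
      (∀ j, ∀ p ∈ lk j, τ' j p.1 = fl θ' p.2) ∧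
      (∀ j i, ∀ G ∈ Gs, G <:+: τ j i → G <:+: τ' j i) ∧
      ∀ y, (θ' y).length ≤ (D + t + 1 + d + Gs.flatten.length + 1) *
        2 ^ (2 ^ (C * (v + 1) ^ C)) := by
  classical
  let F : J → List (List (A ⊕ (Y ⊕ (J × Fin 6))) × List (A ⊕ (Y ⊕ (J × Fin 6)))) := fun j =>
    rnE (fun i => Sum.inr (j, i)) (E j) ++ lk29 j (lk j)
  let T := (Finset.univ : Finset J).toList.flatMap F
  have hF : ∀ j, (F j).length ≤ 8 := by
    intro j
    show (rnE (fun i => Sum.inr (j, i)) (E j) ++ lk29 j (lk j)).length ≤ 8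
    rw [List.length_append, rnE_length]
    have h1 := hE1 j
    have h2 := hlk1 j
    have h3 : (lk29 (A := A) j (lk j)).length = (lk j).length := List.length_map _
    omega
  have hT : T.length ≤ 8 * Fintype.card J := by
    have key : ∀ l : List J, (l.flatMap F).length ≤ 8 * l.length := by
      intro l
      induction l with
      | nil => simp
      | cons j l ih =>
        rw [List.flatMap_cons, List.length_append, List.length_cons]
        have := hF j
        omega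
    have h := key (Finset.univ : Finset J).toList
    rwa [Finset.length_toList, Finset.card_univ] at h
  have hmem : ∀ e, e ∈ T ↔ ∃ j, e ∈ F j := by
    intro e
    simp [T]
  let σ0 : Y ⊕ (J × Fin 6) → List A := Sum.elim θ (fun p => τ p.1 p.2)
  have hcase : ∀ e ∈ T, (∃ j, e ∈ rnE (fun i => Sum.inr (j, i)) (E j)) ∨
      ∃ j, ∃ p ∈ lk j, e = ([Sum.inr (Sum.inr (j, p.1))], sy29 p.2) := by
    intro e he
    obtain ⟨j, hj⟩ := (hmem e).1 he
    rcases List.mem_append.1 hj with h | h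
    · exact Or.inl ⟨j, h⟩
    · obtain ⟨p, hp, rfl⟩ := List.mem_map.1 h
      exact Or.inr ⟨j, p, hp, rfl⟩
  obtain ⟨σ, hσ1, hσ2, hσ3⟩ := hC v (D + t + 1) d T Gs σ0 (by
      rw [Fintype.card_sum, Fintype.card_prod, Fintype.card_fin]
      omega) (by omega) (by
      intro e he
      rcases hcase e he with ⟨j, h⟩ | ⟨j, p, hp, rfl⟩
      · have := rnE_count (fun i => (Sum.inr (j, i) : Y ⊕ (J × Fin 6))) (E j)
          (fun e he => (hE2 j e he).1) e h
        omega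
      · have h1 : (([Sum.inr (Sum.inr (j, p.1))] ++ sy29 p.2 :
            List (A ⊕ (Y ⊕ (J × Fin 6)))).countP Sum.isRight) ≤ t + 1 := by
          refine List.countP_le_length.trans ?_
          rw [List.length_append, List.length_singleton]
          have h2 : (sy29 p.2 : List (A ⊕ (Y ⊕ (J × Fin 6)))).length = p.2.length :=
            List.length_map _
          have := hlk2 j p hp
          omega
        exact h1.trans (by omega)) (by
      intro e he
      rcases hcase e he with ⟨j, h⟩ | ⟨j, p, hp, rfl⟩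
      · have := rnE_size (fun i => (Sum.inr (j, i) : Y ⊕ (J × Fin 6))) (E j)
          (fun e he => (hE2 j e he).2) e h
        omega
      · have h2 : (sy29 p.2 : List (A ⊕ (Y ⊕ (J × Fin 6)))).length = p.2.length :=
          List.length_map _
        have := hlk2 j p hp
        show ([Sum.inr (Sum.inr (j, p.1))] : List (A ⊕ (Y ⊕ (J × Fin 6)))).length +
          (sy29 p.2 : List (A ⊕ (Y ⊕ (J × Fin 6)))).length ≤ _
        rw [List.length_singleton, h2]
        omega) hG (by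
      intro e he
      rcases hcase e he with ⟨j, h⟩ | ⟨j, p, hp, rfl⟩
      · exact (rnE_sol (fun i => (Sum.inr (j, i) : Y ⊕ (J × Fin 6))) (E j) σ0).2
          (hτ1 j) e h
      · show sb σ0 [Sum.inr (Sum.inr (j, p.1))] = sb σ0 (sy29 p.2)
        rw [sb_sy29, sb_inr, sb_nil, List.append_nil]
        exact hτ2 j p hp)
  refine ⟨fun y => σ (.inl y), fun j i => σ (.inr (j, i)), ?_, ?_, ?_, ?_⟩
  · intro j
    exact (rnE_sol (fun i => (Sum.inr (j, i) : Y ⊕ (J × Fin 6))) (E j) σ).1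
      (fun e he => hσ1 e ((hmem e).2 ⟨j, List.mem_append_left _ he⟩))
  · intro j p hp
    have h := hσ1 ([Sum.inr (Sum.inr (j, p.1))], sy29 p.2)
      ((hmem _).2 ⟨j, List.mem_append_right _ (List.mem_map.2 ⟨p, hp, rfl⟩)⟩)
    have h2 : sb σ [Sum.inr (Sum.inr (j, p.1))] = sb σ (sy29 p.2) := h
    rw [sb_sy29, sb_inr, sb_nil, List.append_nil] at h2
    exact h2
  · intro j i G hG2 hin
    exact hσ2 (.inr (j, i)) G hG2 hin
  · intro y
    exact (Finset.single_le_sum (f := fun x => (σ x).length) (fun _ _ => Nat.zero_le _)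
      (Finset.mem_univ (Sum.inl y))).trans hσ3

/-- the word `P` with its last `D` letters as constants and one unknown for the rest -/
def sk29 {A X : Type*} (D : ℕ) (P : List A) (z : X) : List (A ⊕ X) :=
  Sum.inr z :: (P.drop (P.length - D)).map Sum.inl

/-- the word `P` with its first `D` letters as constants and one unknown for the rest -/
def pk29 {A X : Type*} (D : ℕ) (P : List A) (z : X) : List (A ⊕ X) :=
  (P.take D).map Sum.inl ++ [Sum.inr z]

/-- the end letters of a word are kept -/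
theorem ends29 {A : Type*} (d N : ℕ) (P : List A) :
    ∃ E : List (List (A ⊕ Fin 6) × List (A ⊕ Fin 6)), E.length ≤ 4 ∧
      (∀ e ∈ E, (e.1 ++ e.2).countP Sum.isRight ≤ 4 ∧
        e.1.length + e.2.length ≤ 8 * (N + 3) * d + 8) ∧
      (∃ τ : Fin 6 → List A, τ 0 = P ∧ ∀ e ∈ E, sb τ e.1 = sb τ e.2) ∧
      ∀ τ' : Fin 6 → List A, (∀ e ∈ E, sb τ' e.1 = sb τ' e.2) →
        P.take d <+: τ' 0 ∧ P.drop (P.length - d) <:+ τ' 0 := by
  have spk : ∀ τ : Fin 6 → List A, sb τ (pk29 d P (1 : Fin 6)) = P.take d ++ τ 1 := by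
    intro τ
    unfold pk29
    rw [sb_append, sb_mapK45, sb_inr, sb_nil, List.append_nil]
  have ssk : ∀ τ : Fin 6 → List A, sb τ (sk29 d P (2 : Fin 6)) =
      τ 2 ++ P.drop (P.length - d) := by
    intro τ
    unfold sk29
    rw [sb_inr, sb_mapK45]
  have s0 : ∀ τ : Fin 6 → List A, sb τ ([Sum.inr (0 : Fin 6)] : List (A ⊕ Fin 6)) = τ 0 := by
    intro τ
    rw [sb_inr, sb_nil, List.append_nil]
  have hc : ∀ l : List A, (l.map (Sum.inl : A → A ⊕ Fin 6)).countP Sum.isRight = 0 :=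
    fun l => cL45 l
  have hs : d ≤ 8 * (N + 3) * d := by
    calc d = 1 * d := (one_mul d).symm
      _ ≤ 8 * (N + 3) * d := Nat.mul_le_mul_right d (by omega)
  refine ⟨[([Sum.inr 0], pk29 d P 1), ([Sum.inr 0], sk29 d P 2)], by simp, ?_,
    ⟨![P, P.drop d, P.take (P.length - d), [], [], []], rfl, ?_⟩, ?_⟩
  · intro e he
    rcases List.mem_cons.1 he with rfl | he
    · constructor
      · show (([Sum.inr (0 : Fin 6)] : List (A ⊕ Fin 6)) ++ pk29 d P (1 : Fin 6)).countP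
          Sum.isRight ≤ 4
        unfold pk29
        rw [List.countP_append, List.countP_append, hc]
        simp
      · show ([Sum.inr (0 : Fin 6)] : List (A ⊕ Fin 6)).length +
          (pk29 d P (1 : Fin 6)).length ≤ _
        unfold pk29
        simp only [List.length_append, List.length_cons, List.length_nil, List.length_map,
          List.length_take]
        omega
    · rw [List.mem_singleton] at he
      subst he
      constructor
      · show (([Sum.inr (0 : Fin 6)] : List (A ⊕ Fin 6)) ++ sk29 d P (2 : Fin 6)).countP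
          Sum.isRight ≤ 4
        unfold sk29
        rw [List.countP_append, cR45, cR45, hc]
        simp
      · show ([Sum.inr (0 : Fin 6)] : List (A ⊕ Fin 6)).length +
          (sk29 d P (2 : Fin 6)).length ≤ _
        unfold sk29
        simp only [List.length_cons, List.length_nil, List.length_map, List.length_drop]
        omega
  · intro e he
    rcases List.mem_cons.1 he with rfl | he
    · show sb _ ([Sum.inr (0 : Fin 6)] : List (A ⊕ Fin 6)) = sb _ (pk29 d P (1 : Fin 6))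
      rw [spk, s0]
      exact (List.take_append_drop d P).symm
    · rw [List.mem_singleton] at he
      subst he
      show sb _ ([Sum.inr (0 : Fin 6)] : List (A ⊕ Fin 6)) = sb _ (sk29 d P (2 : Fin 6))
      rw [ssk, s0]
      exact (List.take_append_drop (P.length - d) P).symm
  · intro τ' h
    have h1 : sb τ' ([Sum.inr (0 : Fin 6)] : List (A ⊕ Fin 6)) = sb τ' (pk29 d P (1 : Fin 6)) :=
      h ([Sum.inr 0], pk29 d P 1) (by simp)
    have h2 : sb τ' ([Sum.inr (0 : Fin 6)] : List (A ⊕ Fin 6)) = sb τ' (sk29 d P (2 : Fin 6)) :=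
      h ([Sum.inr 0], sk29 d P 2) (by simp)
    rw [spk, s0] at h1
    rw [ssk, s0] at h2
    exact ⟨⟨_, h1.symm⟩, ⟨_, h2.symm⟩⟩

/-- a short factor of `P ++ g ++ Q` is a factor of `P`, or of `Q`, or close to `g` -/
theorem factor29 {A : Type*} {G P g Q : List A} {d : ℕ} (hd : G.length ≤ d)
    (h : G <:+: P ++ g ++ Q) :
    G <:+: P ∨ G <:+: Q ∨ G <:+: P.drop (P.length - d) ++ g ++ Q.take d := by
  obtain ⟨x, y, hxy⟩ := h
  by_cases h1 : x.length + G.length ≤ P.length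
  · left
    have p1 : x ++ G <+: P ++ g ++ Q := ⟨y, hxy⟩
    have p2 : P <+: P ++ g ++ Q := by
      rw [List.append_assoc]
      exact List.prefix_append _ _
    have p3 : x ++ G <+: P := List.prefix_of_prefix_length_le p1 p2 (by
      rw [List.length_append]; exact h1)
    exact (List.suffix_append x G).isInfix.trans p3.isInfix
  by_cases h2 : P.length + g.length ≤ x.length
  · right; left
    have p1 : G ++ y <:+ P ++ g ++ Q := ⟨x, by rw [← hxy, List.append_assoc]⟩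
    have p2 : Q <:+ P ++ g ++ Q := List.suffix_append _ _
    have hl := congrArg List.length hxy
    simp only [List.length_append] at hl
    have p3 : G ++ y <:+ Q := List.suffix_of_suffix_length_le p1 p2 (by
      rw [List.length_append]; omega)
    exact (List.prefix_append G y).isInfix.trans p3.isInfix
  right; right
  have hl := congrArg List.length hxy
  simp only [List.length_append] at hl
  -- the left rest
  have hP : P.take (P.length - d) <+: x := by
    have p1 : P.take (P.length - d) <+: P ++ g ++ Q := by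
      rw [List.append_assoc]
      exact (List.take_prefix _ _).trans (List.prefix_append _ _)
    have p2 : x <+: P ++ g ++ Q := ⟨G ++ y, by rw [← List.append_assoc]; exact hxy⟩
    exact List.prefix_of_prefix_length_le p1 p2 (by rw [List.length_take]; omega)
  have hQ : Q.drop d <:+ y := by
    have p1 : Q.drop d <:+ P ++ g ++ Q := (List.drop_suffix _ _).trans (List.suffix_append _ _)
    have p2 : y <:+ P ++ g ++ Q := ⟨x ++ G, hxy⟩
    exact List.suffix_of_suffix_length_le p1 p2 (by rw [List.length_drop]; omega)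
  obtain ⟨x', hx'⟩ := hP
  obtain ⟨y', hy'⟩ := hQ
  refine ⟨x', y', ?_⟩
  have e1 : P ++ g ++ Q = P.take (P.length - d) ++
      ((P.drop (P.length - d) ++ g ++ Q.take d) ++ Q.drop d) := by
    conv_lhs => rw [← List.take_append_drop (P.length - d) P, ← List.take_append_drop d Q]
    simp only [List.append_assoc]
  rw [← hx', ← hy', e1] at hxy
  have e2 : P.take (P.length - d) ++ ((x' ++ G ++ y') ++ Q.drop d) =
      P.take (P.length - d) ++ ((P.drop (P.length - d) ++ g ++ Q.take d) ++ Q.drop d) := by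
    rw [← hxy]
    simp only [List.append_assoc]
  exact List.append_cancel_right (List.append_cancel_left e2)

/-- the four kinds of small systems -/
abbrev J29 (L : ℕ) : Type := (Fin L × Fin L × Fin L × Fin L) ⊕ ((Fin L × Fin L × Fin L) ⊕
  ((Fin L × Fin L × Fin L) ⊕ Fin L))

theorem preserve_core {C : ℕ} (hC : FewFac.{u, w} C) {A : Type u} {Y : Type w} [Fintype A]
    [Fintype Y] (t N d0 d v : ℕ) (θ : Y → List A) (Wl : List (List Y)) (Gs : List (List A))
    (hY : Fintype.card Y ≤ t) (_hL : Wl.length ≤ t) (ht : ∀ a ∈ Wl, a.length ≤ t) (hd : 1 ≤ d)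
    (hd0 : d0 ≤ d) (hEB : ∀ a ∈ Wl, EBdd N d0 (fl θ a)) (hG : ∀ G ∈ Gs, G.length ≤ d)
    (hv : t + 8 * Fintype.card (J29 Wl.length) + 4 ≤ v) :
    ∃ θ' : Y → List A, (∀ y, (θ' y).length ≤
        ((8 * (N + 3) * d + 8) + t + 1 + d + Gs.flatten.length + 1) *
          2 ^ (2 ^ (C * (v + 1) ^ C))) ∧
      Keeps θ θ' (fun a => a ∈ Wl) d Gs := by
  classical
  let wd : Fin Wl.length → List Y := fun i => Wl.get i
  have hwd : ∀ i, wd i ∈ Wl := fun i => List.get_mem _ _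
  have hidx : ∀ a ∈ Wl, ∃ i, wd i = a := fun a ha => List.mem_iff_get.1 ha
  -- the local systems
  have h1 : ∀ i1 i2 i3 i4 : Fin Wl.length,
      ∃ E : List (List (A ⊕ Fin 6) × List (A ⊕ Fin 6)), E.length ≤ 4 ∧
      (∀ e ∈ E, (e.1 ++ e.2).countP Sum.isRight ≤ 4 ∧
        e.1.length + e.2.length ≤ 8 * (N + 3) * d + 8) ∧
      (∃ τ : Fin 6 → List A, τ 0 = fl θ (wd i1) ∧ τ 1 = fl θ (wd i2) ∧ τ 2 = fl θ (wd i3) ∧
        τ 3 = fl θ (wd i4) ∧ ∀ e ∈ E, sb τ e.1 = sb τ e.2) ∧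
      ∀ τ' : Fin 6 → List A, (∀ e ∈ E, sb τ' e.1 = sb τ' e.2) → ∀ g g1 : List A,
        g.length ≤ d → g1.length ≤ d →
        fl θ (wd i1) ++ g ++ fl θ (wd i2) = fl θ (wd i3) ++ g1 ++ fl θ (wd i4) →
        τ' 0 ++ g ++ τ' 1 = τ' 2 ++ g1 ++ τ' 3 := fun i1 i2 i3 i4 =>
    eq_keep (N := N) hd hd0 (fl θ (wd i1)) (fl θ (wd i2)) (fl θ (wd i3)) (fl θ (wd i4))
      (hEB _ (hwd i1)) (hEB _ (hwd i2)) (hEB _ (hwd i3)) (hEB _ (hwd i4))
  have h2 : ∀ i1 i2 i3 : Fin Wl.length,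
      ∃ E : List (List (A ⊕ Fin 6) × List (A ⊕ Fin 6)), E.length ≤ 4 ∧
      (∀ e ∈ E, (e.1 ++ e.2).countP Sum.isRight ≤ 4 ∧
        e.1.length + e.2.length ≤ 8 * (N + 3) * d + 8) ∧
      (∃ τ : Fin 6 → List A, τ 0 = fl θ (wd i1) ∧ τ 1 = fl θ (wd i2) ∧ τ 2 = fl θ (wd i3) ∧
        ∀ e ∈ E, sb τ e.1 = sb τ e.2) ∧
      ∀ τ' : Fin 6 → List A, (∀ e ∈ E, sb τ' e.1 = sb τ' e.2) → ∀ g g1 : List A,
        g.length ≤ d → g1.length ≤ d →
        fl θ (wd i1) ++ g <+: fl θ (wd i2) ++ g1 ++ fl θ (wd i3) →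
        τ' 0 ++ g <+: τ' 1 ++ g1 ++ τ' 2 := fun i1 i2 i3 =>
    prefix_keep (N := N) hd hd0 (fl θ (wd i1)) (fl θ (wd i2)) (fl θ (wd i3))
      (hEB _ (hwd i1)) (hEB _ (hwd i3))
  have h3 : ∀ i1 i2 i3 : Fin Wl.length,
      ∃ E : List (List (A ⊕ Fin 6) × List (A ⊕ Fin 6)), E.length ≤ 4 ∧
      (∀ e ∈ E, (e.1 ++ e.2).countP Sum.isRight ≤ 4 ∧
        e.1.length + e.2.length ≤ 8 * (N + 3) * d + 8) ∧
      (∃ τ : Fin 6 → List A, τ 0 = fl θ (wd i1) ∧ τ 1 = fl θ (wd i2) ∧ τ 2 = fl θ (wd i3) ∧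
        ∀ e ∈ E, sb τ e.1 = sb τ e.2) ∧
      ∀ τ' : Fin 6 → List A, (∀ e ∈ E, sb τ' e.1 = sb τ' e.2) → ∀ g g1 : List A,
        g.length ≤ d → g1.length ≤ d →
        g ++ fl θ (wd i1) <:+ fl θ (wd i2) ++ g1 ++ fl θ (wd i3) →
        g ++ τ' 0 <:+ τ' 1 ++ g1 ++ τ' 2 := fun i1 i2 i3 =>
    suffix_keep (N := N) hd hd0 (fl θ (wd i1)) (fl θ (wd i2)) (fl θ (wd i3))
      (hEB _ (hwd i1)) (hEB _ (hwd i2))
  have h4 := fun i : Fin Wl.length => ends29 d N (fl θ (wd i))
  choose E1 e1a e1b h1' k1 using h1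
  choose τ1 k10 k11 k12 k13 k1s using h1'
  choose E2 e2a e2b h2' k2 using h2
  choose τ2 k20 k21 k22 k2s using h2'
  choose E3 e3a e3b h3' k3 using h3
  choose τ3 k30 k31 k32 k3s using h3'
  choose E4 e4a e4b h4' k4 using h4
  choose τ4 k40 k4s using h4'
  let E : J29 Wl.length → List (List (A ⊕ Fin 6) × List (A ⊕ Fin 6)) := fun j => match j with
    | .inl (i1, i2, i3, i4) => E1 i1 i2 i3 i4
    | .inr (.inl (i1, i2, i3)) => E2 i1 i2 i3
    | .inr (.inr (.inl (i1, i2, i3))) => E3 i1 i2 i3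
    | .inr (.inr (.inr i)) => E4 i
  let τ : J29 Wl.length → Fin 6 → List A := fun j => match j with
    | .inl (i1, i2, i3, i4) => τ1 i1 i2 i3 i4
    | .inr (.inl (i1, i2, i3)) => τ2 i1 i2 i3
    | .inr (.inr (.inl (i1, i2, i3))) => τ3 i1 i2 i3
    | .inr (.inr (.inr i)) => τ4 i
  let lk : J29 Wl.length → List (Fin 6 × List Y) := fun j => match j with
    | .inl (i1, i2, i3, i4) => [(0, wd i1), (1, wd i2), (2, wd i3), (3, wd i4)]
    | .inr (.inl (i1, i2, i3)) => [(0, wd i1), (1, wd i2), (2, wd i3)]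
    | .inr (.inr (.inl (i1, i2, i3))) => [(0, wd i1), (1, wd i2), (2, wd i3)]
    | .inr (.inr (.inr i)) => [(0, wd i)]
  obtain ⟨θ', τ', g1, g2, g3, g4⟩ := glue29 hC t v (8 * (N + 3) * d + 8) d θ Gs E lk τ hY hG
    (by
      rintro (⟨i1, i2, i3, i4⟩ | ⟨i1, i2, i3⟩ | ⟨i1, i2, i3⟩ | i)
      · exact e1a i1 i2 i3 i4
      · exact e2a i1 i2 i3
      · exact e3a i1 i2 i3
      · exact e4a i)
    (by
      rintro (⟨i1, i2, i3, i4⟩ | ⟨i1, i2, i3⟩ | ⟨i1, i2, i3⟩ | i)
      · exact e1b i1 i2 i3 i4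
      · exact e2b i1 i2 i3
      · exact e3b i1 i2 i3
      · exact e4b i)
    (by
      rintro (⟨i1, i2, i3, i4⟩ | ⟨i1, i2, i3⟩ | ⟨i1, i2, i3⟩ | i) <;> simp [lk])
    (by
      rintro (⟨i1, i2, i3, i4⟩ | ⟨i1, i2, i3⟩ | ⟨i1, i2, i3⟩ | i) p hp
      · have hp' : p ∈ [((0 : Fin 6), wd i1), (1, wd i2), (2, wd i3), (3, wd i4)] := hp
        simp only [List.mem_cons, List.not_mem_nil, or_false] at hp'
        rcases hp' with rfl | rfl | rfl | rfl <;> exact ht _ (hwd _)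
      · have hp' : p ∈ [((0 : Fin 6), wd i1), (1, wd i2), (2, wd i3)] := hp
        simp only [List.mem_cons, List.not_mem_nil, or_false] at hp'
        rcases hp' with rfl | rfl | rfl <;> exact ht _ (hwd _)
      · have hp' : p ∈ [((0 : Fin 6), wd i1), (1, wd i2), (2, wd i3)] := hp
        simp only [List.mem_cons, List.not_mem_nil, or_false] at hp'
        rcases hp' with rfl | rfl | rfl <;> exact ht _ (hwd _)
      · have hp' : p ∈ [((0 : Fin 6), wd i)] := hp
        rw [List.mem_singleton] at hp'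
        subst hp'
        exact ht _ (hwd _))
    (by
      rintro (⟨i1, i2, i3, i4⟩ | ⟨i1, i2, i3⟩ | ⟨i1, i2, i3⟩ | i)
      · exact k1s i1 i2 i3 i4
      · exact k2s i1 i2 i3
      · exact k3s i1 i2 i3
      · exact k4s i)
    (by
      rintro (⟨i1, i2, i3, i4⟩ | ⟨i1, i2, i3⟩ | ⟨i1, i2, i3⟩ | i) p hp
      · have hp' : p ∈ [((0 : Fin 6), wd i1), (1, wd i2), (2, wd i3), (3, wd i4)] := hp
        simp only [List.mem_cons, List.not_mem_nil, or_false] at hp'
        rcases hp' with rfl | rfl | rfl | rfl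
        · exact k10 i1 i2 i3 i4
        · exact k11 i1 i2 i3 i4
        · exact k12 i1 i2 i3 i4
        · exact k13 i1 i2 i3 i4
      · have hp' : p ∈ [((0 : Fin 6), wd i1), (1, wd i2), (2, wd i3)] := hp
        simp only [List.mem_cons, List.not_mem_nil, or_false] at hp'
        rcases hp' with rfl | rfl | rfl
        · exact k20 i1 i2 i3
        · exact k21 i1 i2 i3
        · exact k22 i1 i2 i3
      · have hp' : p ∈ [((0 : Fin 6), wd i1), (1, wd i2), (2, wd i3)] := hp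
        simp only [List.mem_cons, List.not_mem_nil, or_false] at hp'
        rcases hp' with rfl | rfl | rfl
        · exact k30 i1 i2 i3
        · exact k31 i1 i2 i3
        · exact k32 i1 i2 i3
      · have hp' : p ∈ [((0 : Fin 6), wd i)] := hp
        rw [List.mem_singleton] at hp'
        subst hp'
        exact k40 i) hv
  refine ⟨θ', g4, ?_, ?_, ?_, ?_⟩
  · intro a b a' b' ha hb ha' hb' g g' hg hg' heq
    obtain ⟨i1, rfl⟩ := hidx a ha
    obtain ⟨i2, rfl⟩ := hidx b hb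
    obtain ⟨i3, rfl⟩ := hidx a' ha'
    obtain ⟨i4, rfl⟩ := hidx b' hb'
    have h := k1 i1 i2 i3 i4 (τ' (.inl (i1, i2, i3, i4))) (g1 (.inl (i1, i2, i3, i4)))
      g g' hg hg' heq
    have l := g2 (.inl (i1, i2, i3, i4))
    rw [l (0, wd i1) (by simp [lk]), l (1, wd i2) (by simp [lk]), l (2, wd i3) (by simp [lk]),
      l (3, wd i4) (by simp [lk])] at h
    exact h
  · intro a a' b' ha ha' hb' g g' hg hg' hpre
    obtain ⟨i1, rfl⟩ := hidx a ha
    obtain ⟨i2, rfl⟩ := hidx a' ha'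
    obtain ⟨i3, rfl⟩ := hidx b' hb'
    have h := k2 i1 i2 i3 (τ' (.inr (.inl (i1, i2, i3)))) (g1 (.inr (.inl (i1, i2, i3))))
      g g' hg hg' hpre
    have l := g2 (.inr (.inl (i1, i2, i3)))
    rw [l (0, wd i1) (by simp [lk]), l (1, wd i2) (by simp [lk]),
      l (2, wd i3) (by simp [lk])] at h
    exact h
  · intro b a' b' hb ha' hb' g g' hg hg' hsuf
    obtain ⟨i1, rfl⟩ := hidx b hb
    obtain ⟨i2, rfl⟩ := hidx a' ha'
    obtain ⟨i3, rfl⟩ := hidx b' hb'
    have h := k3 i1 i2 i3 (τ' (.inr (.inr (.inl (i1, i2, i3)))))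
      (g1 (.inr (.inr (.inl (i1, i2, i3))))) g g' hg hg' hsuf
    have l := g2 (.inr (.inr (.inl (i1, i2, i3))))
    rw [l (0, wd i1) (by simp [lk]), l (1, wd i2) (by simp [lk]),
      l (2, wd i3) (by simp [lk])] at h
    exact h
  · intro G hGG a b ha hb g _ hfac
    obtain ⟨i1, rfl⟩ := hidx a ha
    obtain ⟨i2, rfl⟩ := hidx b hb
    have ea := k4 i1 (τ' (.inr (.inr (.inr i1)))) (g1 (.inr (.inr (.inr i1))))
    have eb := k4 i2 (τ' (.inr (.inr (.inr i2)))) (g1 (.inr (.inr (.inr i2))))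
    have la := g2 (.inr (.inr (.inr i1))) (0, wd i1) (by simp [lk])
    have lb := g2 (.inr (.inr (.inr i2))) (0, wd i2) (by simp [lk])
    have fa := g3 (.inr (.inr (.inr i1))) 0 G hGG
    have fb := g3 (.inr (.inr (.inr i2))) 0 G hGG
    have ta : τ (.inr (.inr (.inr i1))) 0 = fl θ (wd i1) := k40 i1
    have tb : τ (.inr (.inr (.inr i2))) 0 = fl θ (wd i2) := k40 i2
    simp only at la lb
    rw [la] at ea fa
    rw [lb] at eb fb
    rw [ta] at fa
    rw [tb] at fb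
    rcases factor29 (hG G hGG) hfac with h | h | h
    · have := fa h
      rw [List.append_assoc]
      exact this.trans (List.prefix_append _ _).isInfix
    · exact (fb h).trans (List.suffix_append _ _).isInfix
    · refine h.trans ?_
      obtain ⟨x, hx⟩ := ea.2
      obtain ⟨y, hy⟩ := eb.1
      refine ⟨x, y, ?_⟩
      rw [← hx, ← hy]
      simp only [List.append_assoc]

/-- R8: preservation -/
theorem preserve_of {C0 : ℕ} (hC : FewFac.{u, w} C0) : ∃ C : ℕ,
    ∀ {A : Type u} {Y : Type w} [Fintype A] [Fintype Y]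
    (t N d0 d : ℕ) (θ : Y → List A) (Wl : List (List Y)) (Gs : List (List A)),
    Fintype.card Y ≤ t → Wl.length ≤ t → (∀ a ∈ Wl, a.length ≤ t) → 1 ≤ d → d0 ≤ d →
    1 ≤ N → (∀ a ∈ Wl, EBdd N d0 (fl θ a)) → (∀ G ∈ Gs, G.length ≤ d) →
    ∃ θ' : Y → List A, (∀ y, (θ' y).length ≤
        ((N + 3) * d + Gs.flatten.length + 1) * 2 ^ (2 ^ (C * (t + 1) ^ C))) ∧
      Keeps θ θ' (fun a => a ∈ Wl) d Gs := by
  refine ⟨C0 * 48 ^ C0 + 4 * C0 + 8, ?_⟩
  intro A Y _ _ t N d0 d θ Wl Gs hY hL ht hd hd0 _hN hEB hG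
  obtain ⟨v, hv⟩ : ∃ v, v = 47 * (t + 1) ^ 4 := ⟨_, rfl⟩
  have ht1 : 1 ≤ t + 1 := by omega
  have hcard : Fintype.card (J29 Wl.length) ≤ 4 * (t + 1) ^ 4 := by
    have e : Fintype.card (J29 Wl.length) = Wl.length ^ 4 + (Wl.length ^ 3 +
        (Wl.length ^ 3 + Wl.length)) := by
      simp only [J29, Fintype.card_sum, Fintype.card_prod, Fintype.card_fin]
      ring
    have hL1 : Wl.length ≤ t + 1 := by omega
    have a1 : Wl.length ^ 4 ≤ (t + 1) ^ 4 := Nat.pow_le_pow_left hL1 4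
    have a2 : Wl.length ^ 3 ≤ (t + 1) ^ 4 := (Nat.pow_le_pow_left hL1 3).trans
      (Nat.pow_le_pow_right ht1 (by norm_num))
    have a3 : Wl.length ≤ (t + 1) ^ 4 := hL1.trans (by
      calc t + 1 = (t + 1) ^ 1 := (pow_one _).symm
        _ ≤ (t + 1) ^ 4 := Nat.pow_le_pow_right ht1 (by norm_num))
    omega
  have a4 : t + 1 ≤ (t + 1) ^ 4 := by
    calc t + 1 = (t + 1) ^ 1 := (pow_one _).symm
      _ ≤ (t + 1) ^ 4 := Nat.pow_le_pow_right ht1 (by norm_num)
  obtain ⟨θ', h1, h2⟩ := preserve_core hC t N d0 d v θ Wl Gs hY hL ht hd hd0 hEB hG (by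
    rw [hv]; omega)
  refine ⟨θ', fun y => (h1 y).trans ?_, h2⟩
  obtain ⟨g, hg⟩ : ∃ g, g = Gs.flatten.length := ⟨_, rfl⟩
  rw [← hg]
  -- the exponent
  obtain ⟨X, hX⟩ : ∃ X, X = C0 * (v + 1) ^ C0 := ⟨_, rfl⟩
  rw [← hX]
  have hX2 : X + t + 6 ≤ (C0 * 48 ^ C0 + 4 * C0 + 8) * (t + 1) ^ (C0 * 48 ^ C0 + 4 * C0 + 8) := by
    have b1 : v + 1 ≤ 48 * (t + 1) ^ 4 := by rw [hv]; omega
    have b2 : X ≤ C0 * 48 ^ C0 * (t + 1) ^ (4 * C0) := by
      rw [hX]
      calc C0 * (v + 1) ^ C0 ≤ C0 * (48 * (t + 1) ^ 4) ^ C0 :=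
            Nat.mul_le_mul_left _ (Nat.pow_le_pow_left b1 _)
        _ = C0 * 48 ^ C0 * (t + 1) ^ (4 * C0) := by rw [mul_pow, ← pow_mul, mul_assoc]
    have b3 : (t + 1) ^ (4 * C0) ≤ (t + 1) ^ (C0 * 48 ^ C0 + 4 * C0 + 8) :=
      Nat.pow_le_pow_right ht1 (by omega)
    have b4 : t + 1 ≤ (t + 1) ^ (C0 * 48 ^ C0 + 4 * C0 + 8) := by
      calc t + 1 = (t + 1) ^ 1 := (pow_one _).symm
        _ ≤ _ := Nat.pow_le_pow_right ht1 (by omega)
    have b5 := Nat.mul_le_mul_left (C0 * 48 ^ C0) b3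
    obtain ⟨P, hP⟩ : ∃ P, P = (t + 1) ^ (C0 * 48 ^ C0 + 4 * C0 + 8) := ⟨_, rfl⟩
    rw [← hP] at b3 b4 b5 ⊢
    have b6 : (C0 * 48 ^ C0 + 4 * C0 + 8) * P = C0 * 48 ^ C0 * P + 4 * C0 * P + 8 * P := by ring
    rw [b6]
    omega
  have hc : (8 * (N + 3) * d + 8) + t + 1 + d + g + 1 ≤
      ((N + 3) * d + g + 1) * (32 * (t + 1)) := by
    have c1 : d ≤ (N + 3) * d := by
      calc d = 1 * d := (one_mul d).symm
        _ ≤ (N + 3) * d := Nat.mul_le_mul_right d (by omega)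
    have c2 : 8 * (N + 3) * d = 8 * ((N + 3) * d) := by rw [mul_assoc]
    rw [c2]
    obtain ⟨P, hP⟩ : ∃ P, P = (N + 3) * d := ⟨_, rfl⟩
    rw [← hP] at c1 ⊢
    have c3 : (P + g + 1) * (32 * (t + 1)) = 32 * P + 32 * g + 32 + 32 * t + 32 * (P * t) +
        32 * (g * t) := by ring
    rw [c3]
    omega
  have h32 : 32 * (t + 1) ≤ 2 ^ (t + 5) := by
    have : t + 1 ≤ 2 ^ t := t.lt_two_pow_self
    calc 32 * (t + 1) ≤ 32 * 2 ^ t := Nat.mul_le_mul_left _ this
      _ = 2 ^ (t + 5) := by rw [pow_add]; ring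
  have hexp : t + 5 + 2 ^ X ≤ 2 ^ (X + t + 6) := by
    have c1 : t + 5 ≤ 2 ^ (t + 5) := (t + 5).lt_two_pow_self.le
    have c2 : 2 ^ (t + 5) ≤ 2 ^ (X + t + 5) := Nat.pow_le_pow_right (by norm_num) (by omega)
    have c3 : 2 ^ X ≤ 2 ^ (X + t + 5) := Nat.pow_le_pow_right (by norm_num) (by omega)
    have c4 : 2 ^ (X + t + 6) = 2 * 2 ^ (X + t + 5) := by
      rw [show X + t + 6 = (X + t + 5) + 1 from rfl, pow_succ]; ring
    omega
  calc ((8 * (N + 3) * d + 8) + t + 1 + d + g + 1) * 2 ^ (2 ^ X)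
      ≤ ((N + 3) * d + g + 1) * (32 * (t + 1)) * 2 ^ (2 ^ X) := Nat.mul_le_mul_right _ hc
    _ ≤ ((N + 3) * d + g + 1) * 2 ^ (t + 5) * 2 ^ (2 ^ X) :=
        Nat.mul_le_mul_right _ (Nat.mul_le_mul_left _ h32)
    _ = ((N + 3) * d + g + 1) * 2 ^ (t + 5 + 2 ^ X) := by rw [mul_assoc, ← pow_add]
    _ ≤ ((N + 3) * d + g + 1) * 2 ^ (2 ^ ((C0 * 48 ^ C0 + 4 * C0 + 8) *
        (t + 1) ^ (C0 * 48 ^ C0 + 4 * C0 + 8))) := by
        refine Nat.mul_le_mul_left _ (Nat.pow_le_pow_right (by norm_num) (hexp.trans ?_))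
        exact Nat.pow_le_pow_right (by norm_num) hX2

end WJ
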