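import Pool.Agent.WJ.Fac35
import Pool.Agent.WJ.Pres29

/-! Word equations with few repeated variables (MP_fc7ad9_lc). Helper module:
short atoms with the same relations, final form. -/

set_option autoImplicit false

open WE45 WK

namespace WJ

universe u w

/-- R8: preservation -/
theorem preserve : ∃ C : ℕ, ∀ {A : Type u} {Y : Type w} [Fintype A] [Fintype Y]
    (t N d0 d : ℕ) (θ : Y → List A) (Wl : List (List Y)) (Gs : List (List A)),
    Fintype.card Y ≤ t → Wl.length ≤ t → (∀ a ∈ Wl, a.length ≤ t) → 1 ≤ d → d0 ≤ d →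
    1 ≤ N → (∀ a ∈ Wl, EBdd N d0 (fl θ a)) → (∀ G ∈ Gs, G.length ≤ d) →
    ∃ θ' : Y → List A, (∀ y, (θ' y).length ≤
        ((N + 3) * d + Gs.flatten.length + 1) * 2 ^ (2 ^ (C * (t + 1) ^ C))) ∧
      Keeps θ θ' (fun a => a ∈ Wl) d Gs := by
  obtain ⟨C0, h⟩ := few_systems_fac.{u, w}
  exact preserve_of (C0 := C0) (fun v D d E Gs σ => h v D d E Gs σ)

end WJ
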