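import Pool.Agent.WJ.Rung64
import Pool.Agent.WK.LadderB23
import Pool.Agent.WK.ExpD45
import Pool.Agent.WK.MainR64

/-! Word equations with boundedly many repeated variables (MP_fc7ad9_lc). Helper module:
the main theorem, once occurring variables on one side. -/

set_option autoImplicit false

open WE45 WK64 WK WO45

namespace WJ

universe u w

/-- minimal solutions of word equations with few repeated variables, all other variables on
the left side -/
theorem joker_bound : ∃ C : ℕ, ∀ {A : Type u} {X : Type w} [Finite A] [Fintype X]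
    (L R : List (A ⊕ X)) (W : Finset X) (v d : ℕ), vN L + vN R ≤ v → 1 ≤ d →
    SegLe d L → SegLe d R →
    (∀ x, [Sum.inr x, Sum.inr x].Sublist (L ++ R) → x ∈ W) → (∀ x, Sum.inr x ∈ R → x ∈ W) →
    (∃ σ : X → List A, sb σ L = sb σ R) →
    ∃ σ : X → List A, sb σ L = sb σ R ∧ ∑ x, (σ x).length ≤
      d * ((v + 2) ^ (C * (Fintype.card X + 1) ^ 2) *
        2 ^ ((Fintype.card X + 1) * 2 ^ (C * (W.card + 1) ^ C))) := by
  obtain ⟨C0, hexp⟩ := exp_boundD.{u, w}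
  obtain ⟨Cf, hf⟩ := few_systems_fac.{u, w}
  obtain ⟨C1, hpre⟩ := preserve_of.{u, w} (C0 := Cf) hf
  obtain ⟨C, hC⟩ := joker_arith C0 C1 1280000 4
  refine ⟨C, ?_⟩
  intro A X _ _ L R W v d hv hd hL hR hrep hRj hsol
  classical
  have := Fintype.ofFinite A
  obtain ⟨σ, hmin⟩ := exists_minSol hsol
  refine ⟨σ, hmin.1, ?_⟩
  obtain ⟨k, hk⟩ : ∃ k, k = Fintype.card X := ⟨_, rfl⟩
  obtain ⟨r, hr⟩ : ∃ r, r = W.card := ⟨_, rfl⟩
  rw [← hk, ← hr]
  have hX : Fintype.card X ≤ k := hk.ge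
  obtain ⟨N, hN⟩ : ∃ N, N = (v + 2) ^ (C0 * (k + 1)) := ⟨_, rfl⟩
  obtain ⟨Ψ, hΨ⟩ : ∃ Ψ, Ψ = 2 ^ (2 ^ (C1 * (100 * (r + 1) ^ 3 + 1) ^ C1)) := ⟨_, rfl⟩
  obtain ⟨B, hB⟩ : ∃ B, B = 1280000 * (N + v + 6) ^ 3 * (r + 1) ^ 4 * Ψ := ⟨_, rfl⟩
  have hN1 : 1 ≤ N := by rw [hN]; exact Nat.one_le_pow _ _ (by omega)
  have hΨ1 : 1 ≤ Ψ := by rw [hΨ]; exact Nat.one_le_two_pow
  have hB1 : 1 ≤ B := by
    rw [hB]
    have h1 : 1 ≤ (N + v + 6) ^ 3 := Nat.one_le_pow _ _ (by omega)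
    have h2 : 1 ≤ (r + 1) ^ 4 := Nat.one_le_pow _ _ (by omega)
    exact Nat.mul_pos (Nat.mul_pos (Nat.mul_pos (by norm_num) h1) h2) hΨ1
  have hEB : ∀ x, EBdd N d (σ x) := by
    intro x
    rw [hN]
    exact hexp k v d L R hX hv hd hL hR σ hmin x
  have hsum : ∑ x, (σ x).length ≤ k * (fun S => B * (S + d))^[k] d := by
    refine ladder_base_sum hX (fun S => B * (S + d)) (fun S => ?_) d
      (fun x => (σ x).length) ?_
    · have : 1 * (S + d) ≤ B * (S + d) := Nat.mul_le_mul_right _ hB1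
      show S ≤ B * (S + d)
      omega
    · intro S hS hgood hne
      obtain ⟨t, ht⟩ : ∃ t, t = 100 * (r + 1) ^ 3 := ⟨_, rfl⟩
      have ht1 : 1 ≤ t := by
        rw [ht]
        have : 1 ≤ (r + 1) ^ 3 := Nat.one_le_pow _ _ (by omega)
        omega
      have harith := rung_arith (N := N) (v := v) (r := r) (t := t) (W := Ψ) (S := S) (d0 := d)
        (Gl := (v + 2) * ((v + 1) * (S + d))) hΨ1 ht1 rfl hd le_rfl rfl rfl rfl rfl rfl
      refine no_rung (r := r) (v := v) (d0 := d) (N := N) (S := S) (Ψ := Ψ) hN1 hd ht rfl rfl rfl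
        rfl rfl rfl ?_ L R W hr.ge hv hL hR hrep hRj σ hmin hEB ?_ hne
      · intro Y _ d' θ Wl Gs g1 g2 g3 g4 g5 g6 g7
        have := hpre t N d d' θ Wl Gs g1 g2 g3 g4 g5 hN1 g6 g7
        rw [hΨ, ← ht]
        exact this
      · intro x
        rcases hgood x with h | h
        · exact Or.inl h
        · refine Or.inr (le_trans harith (le_trans (le_of_eq ?_) h))
          rw [hB, ht]
          ring
  refine hsum.trans ?_
  have h1 := ladder_lin_base B d d hB1 k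
  calc k * (fun S => B * (S + d))^[k] d ≤ k * ((2 * B) ^ k * (d + d)) :=
        Nat.mul_le_mul_left _ h1
    _ = k * ((2 * B) ^ k * (2 * d)) := by rw [two_mul d]
    _ ≤ _ := by
      rw [hB, hN, hΨ]
      exact hC k v r d

end WJ
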