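import Pool.Agent.WJ.Blk64
import Pool.Agent.WJ.Defs23

/-! Word equations with boundedly many repeated variables (MP_fc7ad9_lc). Helper module:
the blocks at an occurrence of a cut variable. -/

set_option autoImplicit false

namespace WJ

open WE45 WK64 WK

variable {A X : Type*}

variable {K : List A → List A → Prop}

theorem locL_of {w : ℕ} (h : Loc2 w K) (hn : ∀ h f, K h f → w ≤ h.length ∧ w ≤ f.length) :
    LocL K w := by
  intro u t f ht
  by_cases hf : w ≤ f.length
  · have := h u t f [] ht hf
    rw [List.append_nil] at this
    exact this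
  · exact ⟨fun h1 => absurd (hn _ _ h1).2 hf, fun h1 => absurd (hn _ _ h1).2 hf⟩

theorem locR_of {w : ℕ} (h : Loc2 w K) (hn : ∀ h f, K h f → w ≤ h.length ∧ w ≤ f.length) :
    LocR K w := by
  intro u f g hf
  by_cases hu : w ≤ u.length
  · have := h [] u f g hu hf
    rw [List.nil_append] at this
    exact this
  · exact ⟨fun h1 => absurd (hn _ _ h1).1 hu, fun h1 => absurd (hn _ _ h1).1 hu⟩

section Occ

variable {w N m : ℕ} {σ pre mid suf : X → List A} {as bs : X → List (List A)} {rl : X → Prop}

theorem CutData.K_pre (hC : CutData w N m K σ pre mid suf as bs rl) {x : X} (hx : rl x)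
    (u f : List A) : K (u ++ pre x) (mid x ++ (suf x ++ f)) := by
  rw [locL_of hC.loc hC.needs u (pre x) _ (hC.preL x hx).1, ← List.append_assoc]
  rw [locR_of hC.loc hC.needs (pre x) (mid x ++ suf x) f (by
    rw [List.length_append]; have := (hC.sufL x hx).1; omega)]
  exact hC.cutL x hx

theorem CutData.K_suf (hC : CutData w N m K σ pre mid suf as bs rl) {x : X} (hx : rl x)
    (u f : List A) : K (u ++ (pre x ++ mid x)) (suf x ++ f) := by
  rw [locL_of hC.loc hC.needs u (pre x ++ mid x) _ (by
    rw [List.length_append]; have := (hC.preL x hx).1; omega)]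
  rw [locR_of hC.loc hC.needs _ (suf x) f (hC.sufL x hx).1]
  exact hC.cutR x hx

variable (K) [∀ h f, Decidable (K h f)]

/-- the blocks of a cut variable between its first and its last cut -/
def MM (l : ℕ) (pre mid suf : X → List A) (x : X) : List (List A) :=
  (outT [] (tg K (pre x) (mid x) (suf x))).flatMap (chopB l)

variable {K}

/-- the blocks around an occurrence of a cut variable -/
theorem CutData.occ (hC : CutData w N m K σ pre mid suf as bs rl) (hw : 1 ≤ w) {l : ℕ} {x : X}
    (hx : rl x) (u f : List A) :
    ∃ E1 E2 : List (List A), dd K l (u ++ (σ x ++ f)) = E1 ++ (MM K l pre mid suf x ++ E2) ∧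
      E1.flatten = u ++ pre x ∧ E2.flatten = suf x ++ f ∧ E1 ≠ [] ∧ E2 ≠ [] := by
  have hP := (hC.preL x hx).1
  have hS := (hC.sufL x hx).1
  have hpne : pre x ≠ [] := by
    intro h
    rw [h, List.length_nil] at hP
    omega
  have e0 : u ++ (σ x ++ f) = (u ++ pre x) ++ (mid x ++ (suf x ++ f)) := by
    rw [hC.split x hx]; simp
  have hK1 : K (u ++ pre x) (mid x ++ (suf x ++ f)) := hC.K_pre hx u f
  have hK2 : K (u ++ pre x ++ mid x) (suf x ++ f) := by
    rw [List.append_assoc]
    exact hC.K_suf hx u f
  have hc1 : Closed (tg K (u ++ pre x) (mid x) (suf x ++ f)) := closed_tg K _ _ _ fun _ => hK2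
  have e1 : tg K (u ++ pre x) (mid x) (suf x ++ f) = tg K (pre x) (mid x) (suf x) := by
    rw [tg_locL K (locL_of hC.loc hC.needs) _ _ _ _ hP,
      tg_locR K (locR_of hC.loc hC.needs) _ _ _ _ hS]
  have e2 : kb K (u ++ (σ x ++ f)) = outT [] (tg K [] (u ++ pre x) (mid x ++ (suf x ++ f))) ++
      (outT [] (tg K (pre x) (mid x) (suf x)) ++
        blT (tg K (u ++ pre x ++ mid x) (suf x ++ f) [])) := by
    rw [e0, kb_split K _ _ fun _ => hK1, tg_append K (mid x), List.append_nil, ← e1]
    congr 1
    simp only [blT]
    rw [outT_append, pendT_append, hc1.pendT_nil, List.append_assoc]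
  have hc0 : Closed (tg K [] (u ++ pre x) (mid x ++ (suf x ++ f))) :=
    closed_tg K _ _ _ fun _ => by simpa using hK1
  have e3 : (outT [] (tg K [] (u ++ pre x) (mid x ++ (suf x ++ f)))).flatten = u ++ pre x := by
    have := flatten_outT (tg K [] (u ++ pre x) (mid x ++ (suf x ++ f))) []
    rw [hc0.pendT_nil, map_fst_tg] at this
    simpa using this
  have hn : ∀ D : List (List A), (D.flatMap (chopB l)).flatten ≠ [] → D.flatMap (chopB l) ≠ [] := by
    intro D h1 h2
    rw [h2] at h1
    exact h1 rfl
  refine ⟨(outT [] (tg K [] (u ++ pre x) (mid x ++ (suf x ++ f)))).flatMap (chopB l),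
    (blT (tg K (u ++ pre x ++ mid x) (suf x ++ f) [])).flatMap (chopB l), ?_, ?_, ?_, ?_, ?_⟩
  · rw [dd, e2, List.flatMap_append, List.flatMap_append]
    rfl
  · rw [flatten_flatMap_chopB, e3]
  · rw [flatten_flatMap_chopB, flatten_blT, map_fst_tg]
  · apply hn
    rw [flatten_flatMap_chopB, e3]
    intro h
    exact hpne (List.append_eq_nil_iff.1 h).2
  · apply hn
    rw [flatten_flatMap_chopB, flatten_blT, map_fst_tg]
    intro h
    have h1 := (List.append_eq_nil_iff.1 h).1
    rw [h1, List.length_nil] at hS
    omega

/-- boundaries of `kb` are no inner positions of a block -/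
theorem kb_no_inner {W : List A} {D1 D2 B1 B2 : List (List A)} {b : List A}
    (h1 : kb K W = D1 ++ b :: D2) (h2 : kb K W = B1 ++ B2)
    (h3 : D1.flatten.length < B1.flatten.length)
    (h4 : B1.flatten.length < D1.flatten.length + b.length) : False := by
  have h := h1.symm.trans h2
  rcases List.append_eq_append_iff.1 h with ⟨C, h5, h6⟩ | ⟨C, h5, _⟩
  · rcases C with _ | ⟨c, C⟩
    · rw [List.append_nil] at h5
      rw [h5] at h3
      exact lt_irrefl _ h3
    · rw [List.cons_append, List.cons.injEq] at h6
      rw [h5, List.flatten_append, List.flatten_cons, List.length_append, List.length_append,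
        ← h6.1] at h4
      omega
  · rw [h5, List.flatten_append, List.length_append] at h3
    omega

/-- a boundary inside the prefix part of an occurrence of a cut variable is a cut of the rule -/
theorem CutData.boundP (hC : CutData w N m K σ pre mid suf as bs rl) {l : ℕ} {x : X}
    (hx : rl x) (u f : List A) (hl : (pre x).length ≤ l) (hl1 : 1 ≤ l) {F1 F2 : List (List A)}
    (h : dd K l (u ++ (σ x ++ f)) = F1 ++ F2) (p1 p2 : List A) (h1 : p1 ≠ []) (h2 : p2 ≠ [])
    (hp : pre x = p1 ++ p2) (hF : F1.flatten = u ++ p1) :
    K (u ++ p1) (p2 ++ mid x ++ suf x) := by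
  have hsp := hC.split x hx
  have hF2 : F2.flatten = p2 ++ (mid x ++ (suf x ++ f)) := by
    have e1 : (F1 ++ F2).flatten = u ++ (σ x ++ f) := by rw [← h, flatten_dd]
    rw [List.flatten_append, hF, hsp, hp] at e1
    simp only [List.append_assoc] at e1
    exact (List.append_cancel_left (List.append_cancel_left e1))
  have hF1n : F1 ≠ [] := by
    intro h3
    rw [h3, List.flatten_nil] at hF
    exact h1 (List.append_eq_nil_iff.1 hF.symm).2
  have hF2n : F2 ≠ [] := by
    intro h3
    rw [h3, List.flatten_nil] at hF2
    exact h2 (List.append_eq_nil_iff.1 hF2.symm).1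
  have hp1 : 0 < p1.length := List.length_pos_iff.2 h1
  have hp2 : 0 < p2.length := List.length_pos_iff.2 h2
  have hpl : (pre x).length = p1.length + p2.length := by rw [hp, List.length_append]
  have hK : K (u ++ p1) (p2 ++ (mid x ++ (suf x ++ f))) := by
    rcases dd_boundary K hl1 h hF1n hF2n with h3 | ⟨D1, D2, b1, b2, g1, g2, g3, g4, g5⟩
    · rw [hF, hF2] at h3
      exact h3
    · exfalso
      obtain ⟨B1, B2, k1, k2, k3, _, _⟩ := boundary_of_K K (u := u ++ pre x)
        (f := mid x ++ (suf x ++ f)) (by
          intro h4
          rw [hp] at h4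
          exact h1 (List.append_eq_nil_iff.1 (List.append_eq_nil_iff.1 h4).2).1) (hC.K_pre hx u f)
      have e2 : (u ++ pre x) ++ (mid x ++ (suf x ++ f)) = u ++ (σ x ++ f) := by
        rw [hsp]; simp
      rw [e2] at k1
      have e3 := congrArg List.length g2
      rw [hF, List.length_append, List.length_append] at e3
      have e4 := congrArg List.length k2
      rw [List.length_append] at e4
      refine kb_no_inner g1 k1 ?_ ?_
      · omega
      · rw [List.length_append]; omega
  rw [← List.append_assoc, ← List.append_assoc,
    locR_of hC.loc hC.needs _ (p2 ++ mid x ++ suf x) f (by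
      rw [List.length_append]; have := (hC.sufL x hx).1; omega)] at hK
  exact hK

/-- a boundary inside the suffix part of an occurrence of a cut variable is a cut of the rule -/
theorem CutData.boundS (hC : CutData w N m K σ pre mid suf as bs rl) {l : ℕ} {x : X}
    (hx : rl x) (u f : List A) (hl : (suf x).length ≤ l) (hl1 : 1 ≤ l)
    (hw : 1 ≤ w) {F1 F2 : List (List A)}
    (h : dd K l (u ++ (σ x ++ f)) = F1 ++ F2) (p1 p2 : List A) (h1 : p1 ≠ []) (h2 : p2 ≠ [])
    (hp : suf x = p1 ++ p2) (hF : F2.flatten = p2 ++ f) :
    K (pre x ++ mid x ++ p1) (p2 ++ f) := by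
  have hsp := hC.split x hx
  have hF1 : F1.flatten = u ++ (pre x ++ (mid x ++ p1)) := by
    have e1 : (F1 ++ F2).flatten = u ++ (σ x ++ f) := by rw [← h, flatten_dd]
    rw [List.flatten_append, hF, hsp, hp] at e1
    have e2 : u ++ (pre x ++ mid x ++ (p1 ++ p2) ++ f) =
        (u ++ (pre x ++ (mid x ++ p1))) ++ (p2 ++ f) := by simp
    rw [e2] at e1
    exact List.append_cancel_right e1
  have hF1n : F1 ≠ [] := by
    intro h3
    rw [h3, List.flatten_nil] at hF1
    have := (List.append_eq_nil_iff.1 hF1.symm).2
    have := (List.append_eq_nil_iff.1 this).2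
    exact h1 (List.append_eq_nil_iff.1 this).2
  have hF2n : F2 ≠ [] := by
    intro h3
    rw [h3, List.flatten_nil] at hF
    exact h2 (List.append_eq_nil_iff.1 hF.symm).1
  have hp1 : 0 < p1.length := List.length_pos_iff.2 h1
  have hp2 : 0 < p2.length := List.length_pos_iff.2 h2
  have hpl : (suf x).length = p1.length + p2.length := by rw [hp, List.length_append]
  have hPl := (hC.preL x hx).1
  have hK : K (u ++ (pre x ++ (mid x ++ p1))) (p2 ++ f) := by
    rcases dd_boundary K hl1 h hF1n hF2n with h3 | ⟨D1, D2, b1, b2, g1, g2, g3, g4, g5⟩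
    · rw [hF, hF1] at h3
      exact h3
    · exfalso
      obtain ⟨B1, B2, k1, k2, k3, _, _⟩ := boundary_of_K K (u := u ++ (pre x ++ mid x))
        (f := suf x ++ f) (by
          intro h4
          have h5 := (List.append_eq_nil_iff.1 (List.append_eq_nil_iff.1 h4).2).1
          rw [h5, List.length_nil] at hPl
          omega) (hC.K_suf hx u f)
      have e2 : (u ++ (pre x ++ mid x)) ++ (suf x ++ f) = u ++ (σ x ++ f) := by
        rw [hsp]; simp
      rw [e2] at k1
      have e3 := congrArg List.length g2
      rw [hF1] at e3
      simp only [List.length_append] at e3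
      have e4 := congrArg List.length k2
      simp only [List.length_append] at e4
      refine kb_no_inner g1 k1 ?_ ?_
      · omega
      · rw [List.length_append]; omega
  rw [locL_of hC.loc hC.needs u _ _ (by
      rw [List.length_append]; omega), ← List.append_assoc] at hK
  exact hK

end Occ

section Sparse

variable [∀ h f, Decidable (K h f)]

theorem chopF_ge {l : ℕ} (hl : 1 ≤ l) : ∀ (n : ℕ) (B : List A) (C1 C2 : List (List A))
    (c : List A), chopF l n B = C1 ++ c :: C2 → C2 ≠ [] → l ≤ c.length
  | 0, B, C1, C2, c, h, h2 => by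
      exfalso
      simp only [chopF] at h
      have := congrArg List.length h
      simp only [List.length_append, List.length_cons, List.length_nil] at this
      have : C2.length = 0 := by omega
      exact h2 (List.eq_nil_of_length_eq_zero this)
  | n + 1, B, C1, C2, c, h, h2 => by
      simp only [chopF] at h
      split_ifs at h with hB
      · exfalso
        have := congrArg List.length h
        simp only [List.length_append, List.length_cons, List.length_nil] at this
        have : C2.length = 0 := by omega
        exact h2 (List.eq_nil_of_length_eq_zero this)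
      · rcases C1 with _ | ⟨c1, C1⟩
        · rw [List.nil_append, List.cons.injEq] at h
          rw [← h.1, List.length_take]
          omega
        · rw [List.cons_append, List.cons.injEq] at h
          exact chopF_ge hl n _ C1 C2 c h.2 h2

/-- a short piece that is not the last one ends with a cut of the rule -/
theorem K_of_short {l : ℕ} (hl : 1 ≤ l) {W : List A} {F G : List (List A)} {c : List A}
    (h : dd K l W = F ++ c :: G) (hG : G ≠ []) (hc : c.length < l) :
    K (F.flatten ++ c) G.flatten ∧ c ≠ [] := by
  have h' : (kb K W).flatMap (chopB l) = (F ++ [c]) ++ G := by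
    rw [← dd, h]; simp
  obtain ⟨D1, D2, b, C1, C2, e1, e2, e3, e4, e5⟩ := flatMap_eq_append (chopB l) _ (F ++ [c]) G h'
    (by simp) hG
  obtain ⟨C3, c', rfl⟩ : ∃ v a, C1 = v ++ [a] :=
    ⟨C1.dropLast, C1.getLast e5, (List.dropLast_append_getLast e5).symm⟩
  have e6 : c = c' := by
    rw [← List.append_assoc] at e3
    have := (List.append_inj' e3 (by simp)).2
    simpa using this
  subst e6
  have hC2 : C2 = [] := by
    by_contra hC2
    have := chopF_ge hl _ b C3 C2 c (by
      have h2 := e2
      rw [chopB] at h2
      rw [h2]; simp) hC2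
    omega
  subst hC2
  rw [List.append_nil] at e2
  have e10 : D2 ≠ [] := by
    intro h3
    rw [h3] at e4
    exact hG (by simpa using e4)
  have e9 : b = (C3 ++ [c]).flatten := by rw [← e2, flatten_chopB]
  have hK := K_of_boundary K (W := W) (D1 := D1 ++ [b]) (D2 := D2) (by rw [e1]; simp) (by simp) e10
  have e7 : F.flatten ++ c = D1.flatten ++ (C3 ++ [c]).flatten := by
    have := congrArg List.flatten e3
    rw [List.flatten_append, List.flatten_append, flatten_flatMap_chopB] at this
    simpa using this
  have e8 : G.flatten = D2.flatten := by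
    rw [e4, List.nil_append, flatten_flatMap_chopB]
  refine ⟨?_, ?_⟩
  · rw [e7, e8, ← e9]
    simpa using hK
  · have hb : b ≠ [] := kb_ne_nil_of_mem_dropLast K (W := W) (D1 := D1 ++ [b]) (D2 := D2)
      (by rw [e1]; simp) e10 b (by simp)
    exact chopB_ne_nil hl b hb c (by rw [e2]; simp)

/-- the number of pieces is bounded by the number of cuts -/
theorem sparse_aux {l : ℕ} (hl : 1 ≤ l) {W : List A} {G : List (List A)} :
    ∀ (D F : List (List A)), dd K l W = F ++ (D ++ G) →
    ∃ P : Finset ℕ, (∀ i ∈ P, 1 ≤ i ∧ i ≤ D.flatten.length ∧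
      K (F.flatten ++ D.flatten.take i) (D.flatten.drop i ++ G.flatten)) ∧
      D.length * l ≤ D.flatten.length + (P.card + 1) * l
  | [], F, _ => ⟨∅, by simp, by simp⟩
  | c :: D, F, h => by
      classical
      obtain ⟨P, h1, h2⟩ := sparse_aux hl (G := G) D (F ++ [c]) (by rw [h]; simp)
      have hsh : ∀ i ∈ P.image (fun i => i + c.length), 1 ≤ i ∧ i ≤ (c :: D).flatten.length ∧
          K (F.flatten ++ (c :: D).flatten.take i) ((c :: D).flatten.drop i ++ G.flatten) := by
        intro i hi
        obtain ⟨j, hj, rfl⟩ := Finset.mem_image.1 hi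
        obtain ⟨g1, g2, g3⟩ := h1 j hj
        rw [List.flatten_cons, List.length_append]
        refine ⟨by omega, by omega, ?_⟩
        have e1 : (c ++ D.flatten).take (j + c.length) = c ++ D.flatten.take j := by
          rw [add_comm, List.take_length_add_append]
        have e2 : (c ++ D.flatten).drop (j + c.length) = D.flatten.drop j := by
          rw [add_comm, List.drop_length_add_append]
        rw [e1, e2]
        rw [List.flatten_append, List.flatten_singleton, List.append_assoc] at g3
        exact g3
      have hcard : (P.image (fun i => i + c.length)).card = P.card :=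
        Finset.card_image_of_injective _ (fun a b hab => by
          have hab' : a + c.length = b + c.length := hab
          omega)
      by_cases hc : c.length < l
      · by_cases hD : D ++ G = []
        · obtain ⟨rfl, rfl⟩ := List.append_eq_nil_iff.1 hD
          exact ⟨∅, by simp, by simp⟩
        · obtain ⟨k1, k2⟩ := K_of_short hl (W := W) (F := F) (G := D ++ G) (c := c)
            (by rw [h]; simp) hD hc
          have hc1 : 0 < c.length := List.length_pos_iff.2 k2
          refine ⟨insert c.length (P.image (fun i => i + c.length)), ?_, ?_⟩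
          · intro i hi
            rcases Finset.mem_insert.1 hi with rfl | hi
            · rw [List.flatten_cons, List.length_append]
              refine ⟨by omega, by omega, ?_⟩
              rw [List.take_left', List.drop_left'] <;> try rfl
              rw [List.flatten_append] at k1
              exact k1
            · exact hsh i hi
          · rw [Finset.card_insert_of_notMem (by
              intro h5
              obtain ⟨j, hj, hj2⟩ := Finset.mem_image.1 h5
              have := (h1 j hj).1
              omega), hcard, List.length_cons, List.flatten_cons, List.length_append, add_mul,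
              add_mul, add_mul]
            rw [add_mul] at h2
            omega
      · refine ⟨P.image (fun i => i + c.length), hsh, ?_⟩
        rw [hcard, List.length_cons, List.flatten_cons, List.length_append, add_mul]
        omega

variable {w N m : ℕ} {σ pre mid suf : X → List A} {as bs : X → List (List A)} {rl : X → Prop}

/-- the number of pieces in a part of the list of blocks -/
theorem CutData.sparse_dd (hC : CutData w N m K σ pre mid suf as bs rl) {l : ℕ} (hl : 1 ≤ l)
    (hwl : w ≤ l) {W : List A} {D : List (List A)} (hD : D <:+: dd K l W) :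
    D.length * w ≤ (2 * m + 2) * (D.flatten.length + w) := by
  obtain ⟨F, G, hFG⟩ := hD
  obtain ⟨P, h1, h2⟩ := sparse_aux hl (W := W) (G := G) D F (by rw [← hFG]; simp)
  have h3 := hC.sparse F.flatten D.flatten G.flatten P h1
  have h4 : D.length * w ≤ D.flatten.length + (P.card + 1) * w := by
    by_cases h5 : D.length ≤ P.card + 1
    · exact (Nat.mul_le_mul_right _ h5).trans (Nat.le_add_left _ _)
    · obtain ⟨q, hq⟩ : ∃ q, D.length = q + (P.card + 1) := ⟨D.length - (P.card + 1), by omega⟩
      rw [hq, add_mul] at h2 ⊢
      have : q * w ≤ q * l := Nat.mul_le_mul_left _ hwl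
      omega
  have h5 : (2 * m + 2) * (D.flatten.length + w) = m * (2 * D.flatten.length + w) + m * w +
    2 * D.flatten.length + 2 * w := by ring
  have h6 : (P.card + 1) * w = P.card * w + w := by ring
  rw [h5]
  omega

end Sparse

end WJ
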