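import Pool.Agent.WJ.Defs23

/-!
# Replacement of blocks

Helper file for MP_fc7ad9_lc (word equations with few repeated variables): a map of blocks from
a change of the atoms which keeps all relations between forms.
-/

set_option autoImplicit false

open WE45 WK

namespace WJ

/-- a longest word with a property -/
theorem exists_longest45 {A : Type*} (R : List A → Prop) {M : ℕ} (hne : ∃ p, R p)
    (hb : ∀ p, R p → p.length ≤ M) : ∃ p, R p ∧ ∀ q, R q → q.length ≤ p.length := by
  classical
  have h1 : (Set.range fun p : {p // R p} => p.1.length).Nonempty := by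
    obtain ⟨p, hp⟩ := hne
    exact ⟨p.length, ⟨⟨p, hp⟩, rfl⟩⟩
  have h2 : BddAbove (Set.range fun p : {p // R p} => p.1.length) := by
    refine ⟨M, ?_⟩
    rintro n ⟨p, rfl⟩
    exact hb p.1 p.2
  obtain ⟨⟨p, hp⟩, hpl⟩ := Nat.sSup_mem h1 h2
  refine ⟨p, hp, fun q hq => ?_⟩
  have h3 : q.length ≤ sSup (Set.range fun p : {p // R p} => p.1.length) :=
    le_csSup h2 ⟨⟨q, hq⟩, rfl⟩
  have h4 : p.length = sSup (Set.range fun p : {p // R p} => p.1.length) := hpl
  omega

theorem infix_flatten45 {A : Type*} {G : List A} : ∀ {Gs : List (List A)}, G ∈ Gs →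
    G <:+: Gs.flatten
  | [], h => by simp at h
  | G' :: Gs, h => by
      rw [List.flatten_cons]
      rcases List.mem_cons.1 h with h | h
      · rw [h]
        exact (List.prefix_append _ _).isInfix
      · exact (infix_flatten45 h).trans (List.suffix_append _ _).isInfix

/-- R9: replacement of blocks -/
theorem phi_of_keeps {A Y : Type*} {θ θ' : Y → List A} {W : List Y → Prop} {d M0 : ℕ}
    {Gs : List (List A)} (hK : Keeps θ θ' W d Gs) (h0 : W [])
    (hM : ∀ a, W a → (fl θ' a).length ≤ M0) :
    ∃ φ : List A → List A, PhiOK θ θ' W d Gs φ ∧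
      ∀ B, (φ B).length ≤ 2 * (M0 + d) + Gs.flatten.length := by
  classical
  have hnil : ∀ τ : Y → List A, fl τ [] = [] := fun τ => rfl
  -- forms
  let F : List A → List A → Prop := fun B C => ∃ a b g, W a ∧ W b ∧ g.length ≤ d ∧
    B = fl θ a ++ g ++ fl θ b ∧ C = fl θ' a ++ g ++ fl θ' b
  have hFu : ∀ B C C', F B C → F B C' → C = C' := by
    rintro B C C' ⟨a, b, g, ha, hb, hg, h1, h2⟩ ⟨a', b', g', ha', hb', hg', h1', h2'⟩
    rw [h2, h2']
    exact hK.eq a b a' b' ha hb ha' hb' g g' hg hg' (h1.symm.trans h1')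
  -- prefix demands
  let DP : List A → List A → Prop := fun B C => ∃ a g, W a ∧ g.length ≤ d ∧
    fl θ a ++ g <+: B ∧ C = fl θ' a ++ g
  let DS : List A → List A → Prop := fun B C => ∃ b g, W b ∧ g.length ≤ d ∧
    g ++ fl θ b <:+ B ∧ C = g ++ fl θ' b
  have hP : ∀ B, ∃ p, DP B p ∧ ∀ q, DP B q → q.length ≤ p.length := by
    intro B
    refine exists_longest45 (DP B) (M := M0 + d) ⟨[], [], [], h0, by simp, by simp [hnil], by
      simp [hnil]⟩ ?_
    rintro p ⟨a, g, ha, hg, -, rfl⟩
    rw [List.length_append]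
    have := hM a ha
    omega
  have hS : ∀ B, ∃ p, DS B p ∧ ∀ q, DS B q → q.length ≤ p.length := by
    intro B
    refine exists_longest45 (DS B) (M := M0 + d) ⟨[], [], [], h0, by simp, by simp [hnil], by
      simp [hnil]⟩ ?_
    rintro p ⟨a, g, ha, hg, -, rfl⟩
    rw [List.length_append]
    have := hM a ha
    omega
  choose mp hmp1 hmp2 using hP
  choose ms hms1 hms2 using hS
  have hmp : ∀ B q, DP B q → q <+: mp B := by
    intro B q hq
    have hlen := hmp2 B q hq
    obtain ⟨a, g, ha, hg, h1, rfl⟩ := hq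
    obtain ⟨a', g', ha', hg', h1', h2'⟩ := hmp1 B
    rw [h2'] at hlen ⊢
    rcases List.prefix_or_prefix_of_prefix h1 h1' with h | h
    · have h3 := hK.pre a a' [] ha ha' h0 g g' hg hg' (by
        rw [hnil, List.append_nil]
        exact h)
      rwa [hnil, List.append_nil] at h3
    · have h3 := hK.pre a' a [] ha' ha h0 g' g hg' hg (by
        rw [hnil, List.append_nil]
        exact h)
      rw [hnil, List.append_nil] at h3
      rw [h3.eq_of_length_le hlen]
  have hms : ∀ B q, DS B q → q <:+ ms B := by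
    intro B q hq
    have hlen := hms2 B q hq
    obtain ⟨a, g, ha, hg, h1, rfl⟩ := hq
    obtain ⟨a', g', ha', hg', h1', h2'⟩ := hms1 B
    rw [h2'] at hlen ⊢
    rcases List.suffix_or_suffix_of_suffix h1 h1' with h | h
    · have h3 := hK.suf a [] a' ha h0 ha' g g' hg hg' (by
        rw [hnil, List.nil_append]
        exact h)
      rwa [hnil, List.nil_append] at h3
    · have h3 := hK.suf a' [] a ha' h0 ha g' g hg' hg (by
        rw [hnil, List.nil_append]
        exact h)
      rw [hnil, List.nil_append] at h3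
      rw [h3.eq_of_length_le hlen]
  obtain ⟨φ, hφ1, hφ2⟩ : ∃ φ : List A → List A, (∀ B C, F B C → φ B = C) ∧
      ∀ B, (¬ ∃ C, F B C) → φ B = mp B ++ Gs.flatten ++ ms B := by
    refine ⟨fun B => if h : ∃ C, F B C then h.choose else mp B ++ Gs.flatten ++ ms B, ?_, ?_⟩
    · intro B C hBC
      have h : ∃ C, F B C := ⟨C, hBC⟩
      show (if h : ∃ C, F B C then h.choose else _) = _
      rw [dif_pos h]
      exact hFu _ _ _ h.choose_spec hBC
    · intro B hB
      show (if h : ∃ C, F B C then h.choose else _) = _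
      rw [dif_neg hB]
  refine ⟨φ, ?_, ?_⟩
  · have hform : ∀ a b, W a → W b → ∀ g : List A, g.length ≤ d →
        φ (fl θ a ++ g ++ fl θ b) = fl θ' a ++ g ++ fl θ' b := by
      intro a b ha hb g hg
      exact hφ1 _ _ ⟨a, b, g, ha, hb, hg, rfl, rfl⟩
    refine ⟨hform, ?_, ?_, ?_⟩
    · intro a ha g B hg h
      by_cases hF : ∃ C, F B C
      · obtain ⟨C, a', b', g', ha', hb', hg', h1, h2⟩ := hF
        rw [h1, hform a' b' ha' hb' g' hg']
        rw [h1] at h
        exact hK.pre a a' b' ha ha' hb' g g' hg hg' h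
      · rw [hφ2 B hF, List.append_assoc]
        exact (hmp B _ ⟨a, g, ha, hg, h, rfl⟩).trans (List.prefix_append _ _)
    · intro b hb g B hg h
      by_cases hF : ∃ C, F B C
      · obtain ⟨C, a', b', g', ha', hb', hg', h1, h2⟩ := hF
        rw [h1, hform a' b' ha' hb' g' hg']
        rw [h1] at h
        exact hK.suf b a' b' hb ha' hb' g g' hg hg' h
      · rw [hφ2 B hF]
        exact (hms B _ ⟨b, g, hb, hg, h, rfl⟩).trans (List.suffix_append _ _)
    · intro G hG B h
      by_cases hF : ∃ C, F B C
      · obtain ⟨C, a', b', g', ha', hb', hg', h1, h2⟩ := hF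
        rw [h1, hform a' b' ha' hb' g' hg']
        rw [h1] at h
        exact hK.fac G hG a' b' ha' hb' g' hg' h
      · rw [hφ2 B hF]
        exact (infix_flatten45 hG).trans ⟨mp B, ms B, rfl⟩
  · intro B
    by_cases hF : ∃ C, F B C
    · obtain ⟨C, hC⟩ := hF
      rw [hφ1 B C hC]
      obtain ⟨a, b, g, ha, hb, hg, -, h2⟩ := hC
      rw [h2, List.length_append, List.length_append]
      have := hM a ha
      have := hM b hb
      omega
    · rw [hφ2 B hF]
      obtain ⟨a, g, ha, hg, -, h1⟩ := hmp1 B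
      obtain ⟨b, g', hb, hg', -, h2⟩ := hms1 B
      rw [List.length_append, List.length_append, h1, h2, List.length_append,
        List.length_append]
      have := hM a ha
      have := hM b hb
      omega

end WJ
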