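import Pool.Agent.WJ.Main64J
import Pool.Agent.WJ.Fin37
import Pool.Agent.WK.Lit37

/-! Word equations (MP_fc7ad9_lc). Helper module: the lengths of the values of a minimal solution,
relative form of the bound for few repeated variables. -/

set_option autoImplicit false

open WE45 WO45 WK

namespace WJ

universe u w

section Freeze

variable {A : Type u} {X : Type w}

/-- substitution of the values of the variables outside `lg` -/
noncomputable def fz (lg : X → Prop) (σ : X → List A) : List (A ⊕ X) → List (A ⊕ X)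
  | [] => []
  | .inl a :: l => .inl a :: fz lg σ l
  | .inr x :: l => (@ite _ (lg x) (Classical.dec _) [Sum.inr x] ((σ x).map Sum.inl)) ++ fz lg σ l

theorem fz_append (lg : X → Prop) (σ : X → List A) : ∀ l l' : List (A ⊕ X),
    fz lg σ (l ++ l') = fz lg σ l ++ fz lg σ l'
  | [], l' => rfl
  | .inl a :: l, l' => by
      rw [List.cons_append]
      simp only [fz]
      rw [fz_append lg σ l l', List.cons_append]
  | .inr x :: l, l' => by
      rw [List.cons_append]
      simp only [fz]
      rw [fz_append lg σ l l', List.append_assoc]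

theorem sb_map_inl64 (τ : X → List A) (u : List A) : sb τ (u.map Sum.inl) = u := by
  induction u with
  | nil => rfl
  | cons a u ih => rw [List.map_cons, sb_inl, ih]

theorem sb_fz {lg : X → Prop} {σ τ : X → List A} : ∀ l : List (A ⊕ X),
    (∀ x, Sum.inr x ∈ l → ¬ lg x → τ x = σ x) → sb τ (fz lg σ l) = sb τ l
  | [], _ => rfl
  | .inl a :: l, h => by
      simp only [fz]
      rw [sb_inl, sb_inl, sb_fz l (fun x hx => h x (List.mem_cons_of_mem _ hx))]
  | .inr x :: l, h => by
      simp only [fz]
      rw [sb_append, sb_inr, sb_fz l (fun x hx => h x (List.mem_cons_of_mem _ hx))]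
      split_ifs with hx
      · rw [sb_inr, sb_nil, List.append_nil]
      · rw [sb_map_inl64, h x (by simp) hx]

theorem mem_fz {lg : X → Prop} {σ : X → List A} {x : X} : ∀ l : List (A ⊕ X),
    Sum.inr x ∈ fz lg σ l → lg x ∧ Sum.inr x ∈ l
  | [], h => by simp [fz] at h
  | .inl a :: l, h => by
      simp only [fz, List.mem_cons, reduceCtorEq, false_or] at h
      have := mem_fz l h
      exact ⟨this.1, List.mem_cons_of_mem _ this.2⟩
  | .inr y :: l, h => by
      simp only [fz] at h
      rcases List.mem_append.1 h with h | h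
      · split_ifs at h with hy
        · have : x = y := by simpa using h
          rw [this]
          exact ⟨hy, by simp⟩
        · simp at h
      · have := mem_fz l h
        exact ⟨this.1, List.mem_cons_of_mem _ this.2⟩

/-- the variables that stay form a sublist -/
theorem fz_sublist {lg : X → Prop} {σ : X → List A} {z : List X} : ∀ l : List (A ⊕ X),
    (z.map Sum.inr).Sublist (fz lg σ l) → (z.map Sum.inr).Sublist l
  | [], h => h
  | .inl a :: l, h => by
      simp only [fz] at h
      rcases z with _ | ⟨x, z⟩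
      · simp
      rw [List.map_cons] at h
      rcases List.sublist_cons_iff.1 h with h | ⟨r, h1, h2⟩
      · exact (fz_sublist (z := x :: z) l h).cons _
      · simp at h1
  | .inr y :: l, h => by
      simp only [fz] at h
      split_ifs at h with hy
      · rw [List.singleton_append] at h
        rcases List.sublist_cons_iff.1 h with h | ⟨r, h1, h2⟩
        · exact (fz_sublist l h).cons _
        · rcases z with _ | ⟨x, z⟩
          · simp
          rw [List.map_cons, List.cons.injEq] at h1
          rw [List.map_cons, h1.1]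
          rw [← h1.2] at h2
          exact (fz_sublist l h2).cons_cons _
      · obtain ⟨z1, z2, e1, e2, e3⟩ := List.sublist_append_iff.1 h
        have hz1 : z1 = [] := by
          rcases z1 with _ | ⟨s, z1⟩
          · rfl
          · exfalso
            have h1 : s ∈ (σ y).map (Sum.inl : A → A ⊕ X) := e2.subset (by simp)
            have h2 : s ∈ z.map (Sum.inr : X → A ⊕ X) := by rw [e1]; simp
            obtain ⟨a, _, ha⟩ := List.mem_map.1 h1
            obtain ⟨b, _, hb⟩ := List.mem_map.1 h2
            rw [← ha] at hb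
            simp at hb
        rw [hz1, List.nil_append] at e1
        rw [← e1] at e3
        exact (fz_sublist l e3).cons _

theorem vN_fz {lg : X → Prop} {σ : X → List A} : ∀ l : List (A ⊕ X),
    vN (fz lg σ l) ≤ vN l
  | [] => le_rfl
  | .inl a :: l => by
      simp only [fz, vN]
      exact vN_fz l
  | .inr y :: l => by
      have ih := vN_fz (lg := lg) (σ := σ) l
      simp only [fz, vN]
      rw [vN_append]
      split_ifs with hy
      · simp only [vN]; omega
      · rw [vN_map]; omega

theorem cN_map64 (u : List A) : cN (u.map (Sum.inl : A → A ⊕ X)) = u.length := by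
  induction u with
  | nil => rfl
  | cons a u ih => simp only [List.map_cons, cN, ih, List.length_cons]

theorem cN_fz {lg : X → Prop} {σ : X → List A} {M : ℕ}
    (hM : ∀ x, ¬ lg x → (σ x).length ≤ M) : ∀ l : List (A ⊕ X),
    cN (fz lg σ l) ≤ cN l + vN l * M
  | [] => by simp [fz, cN]
  | .inl a :: l => by
      have ih := cN_fz hM l
      simp only [fz, vN, cN]
      omega
  | .inr y :: l => by
      have ih := cN_fz hM l
      simp only [fz, vN, cN]
      rw [cN_append, add_mul, one_mul]
      split_ifs with hy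
      · simp only [cN]; omega
      · rw [cN_map64]
        have := hM y hy
        omega

theorem segLe_fz {lg : X → Prop} {σ : X → List A} {M d v : ℕ} {l : List (A ⊕ X)}
    (hM : ∀ x, ¬ lg x → (σ x).length ≤ M) (hv : vN l ≤ v) (hl : SegLe d l) :
    SegLe ((v + 1) * (d + M)) (fz lg σ l) := by
  intro u hu
  have h1 := cN_sublist37 hu.sublist
  rw [cN_map64] at h1
  have h2 := cN_fz hM l
  have h3 := cN_le37 l hl
  have h4 : vN l * M ≤ v * M := Nat.mul_le_mul_right _ hv
  have h5 : (vN l + 1) * d ≤ (v + 1) * d := Nat.mul_le_mul_right _ (by omega)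
  have h6 : (v + 1) * (d + M) = (v + 1) * d + v * M + M := by ring
  omega

/-- the number of variables that occur -/
theorem card_occ64 [Fintype X] [DecidableEq X] (P : X → Prop) [DecidablePred P] :
    ∀ l : List (A ⊕ X), (∀ x, P x → Sum.inr x ∈ l) → (Finset.univ.filter P).card ≤ vN l := by
  intro l
  have h1 : ∀ l : List (A ⊕ X), ∃ S : Finset X, (∀ x, Sum.inr x ∈ l → x ∈ S) ∧ S.card ≤ vN l := by
    intro l
    induction l with
    | nil => exact ⟨∅, by simp, by simp⟩
    | cons s l ih =>
      obtain ⟨S, h1, h2⟩ := ih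
      rcases s with a | y
      · refine ⟨S, fun x hx => h1 x (by simpa using hx), h2⟩
      · refine ⟨insert y S, fun x hx => ?_, ?_⟩
        · rcases List.mem_cons.1 hx with hx | hx
          · rw [Sum.inr.injEq] at hx
            rw [hx]; exact Finset.mem_insert_self _ _
          · exact Finset.mem_insert_of_mem (h1 x hx)
        · have := Finset.card_insert_le y S
          simp only [vN]
          omega
  intro hP
  obtain ⟨S, h2, h3⟩ := h1 l
  refine le_trans (Finset.card_le_card ?_) h3
  intro x hx
  exact h2 x (hP x (Finset.mem_filter.1 hx).2)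

end Freeze

/-- **relative bound** for the solutions of arbitrary word equations: `V` contains all
variables with long values, `W` those of them that occur at least twice; the short values are
kept -/
theorem relative_bound : ∃ C : ℕ, ∀ {A : Type u} {X : Type w} [Fintype X]
    (L R : List (A ⊕ X)) (σ : X → List A) (V W : Finset X) (v d M : ℕ),
    sb σ L = sb σ R →
    (∀ x, Sum.inr x ∈ L ++ R → M < (σ x).length → x ∈ V) →
    (∀ x, [Sum.inr x, Sum.inr x].Sublist (L ++ R) → M < (σ x).length → x ∈ W) →
    vN L + vN R ≤ v → 1 ≤ d → SegLe d L → SegLe d R →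
    ∃ τ : X → List A, sb τ L = sb τ R ∧
      (∀ x, Sum.inr x ∈ L ++ R → (σ x).length ≤ M → τ x = σ x) ∧
      ∑ x, (τ x).length ≤ (d + M) * ((v + 2) ^ (C * (V.card + 1) ^ 2) *
        2 ^ ((V.card + 1) * 2 ^ (C * (W.card + 1) ^ C))) := by
  obtain ⟨C, hC⟩ := final_of_joker37.{u, w} joker_bound
  refine ⟨C + 2, ?_⟩
  intro A X _ L R σ V W v d M hσ hV hW hv hd hL hR
  classical
  obtain ⟨lg, hlg⟩ : ∃ lg : X → Prop, lg = fun x => M < (σ x).length := ⟨_, rfl⟩
  have hM : ∀ x, ¬ lg x → (σ x).length ≤ M := by
    intro x hx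
    rw [hlg] at hx
    exact not_lt.1 hx
  obtain ⟨D, hD⟩ : ∃ D, D = (v + 1) * (d + M) := ⟨_, rfl⟩
  obtain ⟨E, hE⟩ : ∃ E, E = 2 ^ ((V.card + 1) * 2 ^ (C * (W.card + 1) ^ C)) := ⟨_, rfl⟩
  obtain ⟨P, hP⟩ : ∃ P, P = (v + 2) ^ (C * (V.card + 1) ^ 2) := ⟨_, rfl⟩
  have hD1 : 1 ≤ D := by rw [hD]; exact Nat.mul_pos (by omega) (by omega)
  obtain ⟨τ, h1, h2⟩ := hC (fz lg σ L) (fz lg σ R) V W v D (by
      intro x hx
      rw [← fz_append] at hx
      have := mem_fz _ hx
      rw [hlg] at this
      exact hV x this.2 this.1) (by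
      intro x hx
      rw [← fz_append] at hx
      have e : [Sum.inr x, (Sum.inr x : A ⊕ X)] = [x, x].map Sum.inr := rfl
      have h3 : lg x := (mem_fz (σ := σ) (L ++ R) (hx.subset (by simp))).1
      rw [e] at hx
      have h4 := fz_sublist (z := [x, x]) (L ++ R) hx
      rw [hlg] at h3
      exact hW x h4 h3)
    ((Nat.add_le_add (vN_fz L) (vN_fz R)).trans hv) hD1
    (by rw [hD]; exact segLe_fz hM (by omega) hL) (by rw [hD]; exact segLe_fz hM (by omega) hR)
    ⟨σ, by rw [sb_fz L (fun _ _ _ => rfl), sb_fz R (fun _ _ _ => rfl)]; exact hσ⟩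
  rw [← hE, ← hP] at h2
  -- the solution of the old equation
  obtain ⟨ρ, hρ⟩ : ∃ ρ : X → List A, ρ = fun x =>
    if ¬ lg x ∧ Sum.inr x ∈ L ++ R then σ x else τ x := ⟨_, rfl⟩
  have hρ1 : ∀ x, Sum.inr x ∈ L ++ R → ¬ lg x → ρ x = σ x := by
    intro x hx hl
    rw [hρ]
    simp only [if_pos (And.intro hl hx)]
  have hρ2 : ∀ l : List (A ⊕ X), sb ρ (fz lg σ l) = sb τ (fz lg σ l) := by
    intro l
    apply sb_congr
    intro x hx
    have := (mem_fz l hx).1
    rw [hρ]
    simp only [this, not_true_eq_false, false_and, if_false]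
  have hρs : sb ρ L = sb ρ R := by
    rw [← sb_fz (lg := lg) (σ := σ) L (fun x hx hl => hρ1 x (List.mem_append_left _ hx) hl),
      ← sb_fz (lg := lg) (σ := σ) R (fun x hx hl => hρ1 x (List.mem_append_right _ hx) hl),
      hρ2, hρ2, h1]
  have h4 : ∑ x, (ρ x).length ≤ ∑ x, (τ x).length + v * M := by
    have e1 : ∀ x, (ρ x).length ≤ (τ x).length +
        (if ¬ lg x ∧ Sum.inr x ∈ L ++ R then M else 0) := by
      intro x
      rw [hρ]
      by_cases hx : ¬ lg x ∧ Sum.inr x ∈ L ++ R
      · simp only [if_pos hx]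
        have := hM x hx.1
        omega
      · simp only [if_neg hx]
        omega
    calc ∑ x, (ρ x).length ≤ ∑ x, ((τ x).length +
          (if ¬ lg x ∧ Sum.inr x ∈ L ++ R then M else 0)) := Finset.sum_le_sum fun x _ => e1 x
      _ = ∑ x, (τ x).length + ∑ x, (if ¬ lg x ∧ Sum.inr x ∈ L ++ R then M else 0) :=
          Finset.sum_add_distrib
      _ = ∑ x, (τ x).length + (Finset.univ.filter
          (fun x => ¬ lg x ∧ Sum.inr x ∈ L ++ R)).card * M := by
          rw [← Finset.sum_filter, Finset.sum_const, smul_eq_mul]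
      _ ≤ _ := by
          refine Nat.add_le_add_left (Nat.mul_le_mul_right _ ?_) _
          refine (card_occ64 (A := A) _ (L ++ R) (fun x hx => hx.2)).trans ?_
          rw [vN_append]
          exact hv
  refine ⟨ρ, hρs, fun x hx hs => hρ1 x hx (by rw [hlg]; exact not_lt.2 hs), ?_⟩
  have hE1 : 1 ≤ E := by rw [hE]; exact Nat.one_le_two_pow
  have hP1 : 1 ≤ P := by rw [hP]; exact Nat.one_le_pow _ _ (by omega)
  have hPE : 1 ≤ P * E := Nat.mul_pos hP1 hE1
  have h5 : ∑ x, (ρ x).length ≤ (d + M) * ((v + 2) ^ 2 * P * E) := by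
    calc ∑ x, (ρ x).length ≤ D * (P * E) + v * M := by omega
      _ ≤ (v + 1) * (d + M) * (P * E) + (v + 1) * (d + M) * (P * E) := by
          rw [hD]
          refine Nat.add_le_add_left ?_ _
          have : v * M ≤ (v + 1) * (d + M) := Nat.mul_le_mul (by omega) (by omega)
          exact this.trans (Nat.le_mul_of_pos_right _ hPE)
      _ = (d + M) * (2 * (v + 1) * (P * E)) := by ring
      _ ≤ (d + M) * ((v + 2) ^ 2 * (P * E)) := by
          refine Nat.mul_le_mul_left _ (Nat.mul_le_mul_right _ ?_)
          nlinarith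
      _ = _ := by ring
  refine h5.trans (Nat.mul_le_mul_left _ (Nat.mul_le_mul ?_ ?_))
  · rw [hP, ← pow_add]
    refine Nat.pow_le_pow_right (by omega) ?_
    have : 1 ≤ (V.card + 1) ^ 2 := Nat.one_le_pow _ _ (by omega)
    nlinarith
  · rw [hE]
    refine Nat.pow_le_pow_right (by norm_num) (Nat.mul_le_mul_left _
      (Nat.pow_le_pow_right (by norm_num) ?_))
    exact Nat.mul_le_mul (by omega) (Nat.pow_le_pow_right (by omega) (by omega))

end WJ
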