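import Pool.Agent.WJ.Rel64
import Pool.Agent.WE45.Enc

/-! Word equations (MP_fc7ad9_lc). Helper module: the relative form of the bound for quadratic
equations with few repeated variables. -/

set_option autoImplicit false

open WE45 WO45 WK
open scoped Nat

namespace WJ

universe u w

variable {A : Type u} {X : Type w}

theorem count_fz [DecidableEq A] [DecidableEq X] {lg : X → Prop} {σ : X → List A} {x : X}
    (hx : lg x) : ∀ l : List (A ⊕ X), (fz lg σ l).count (Sum.inr x) = l.count (Sum.inr x)
  | [] => rfl
  | .inl a :: l => by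
      have ih := count_fz (σ := σ) hx l
      simp only [fz]
      rw [List.count_cons_of_ne (by simp), List.count_cons_of_ne (by simp), ih]
  | .inr y :: l => by
      have ih := count_fz (σ := σ) hx l
      simp only [fz]
      rw [List.count_append, ih]
      split_ifs with hy
      · rw [← List.singleton_append (x := Sum.inr y) (l := l), List.count_append]
      · have h1 : ((σ y).map (Sum.inl : A → A ⊕ X)).count (Sum.inr x) = 0 := by
          rw [List.count_eq_zero]
          simp
        have h2 : y ≠ x := by
          rintro rfl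
          exact hy hx
        rw [h1, List.count_cons_of_ne (by simpa using h2), zero_add]

theorem length_fz {lg : X → Prop} {σ : X → List A} {M : ℕ}
    (hM : ∀ x, ¬ lg x → (σ x).length ≤ M) : ∀ l : List (A ⊕ X),
    (fz lg σ l).length ≤ l.length + vN l * M
  | [] => by simp [fz]
  | .inl a :: l => by
      have ih := length_fz hM l
      simp only [fz, vN, List.length_cons]
      omega
  | .inr y :: l => by
      have ih := length_fz hM l
      simp only [fz, vN, List.length_cons]
      rw [List.length_append, add_mul, one_mul]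
      split_ifs with hy
      · rw [List.length_singleton]; omega
      · rw [List.length_map]
        have := hM y hy
        omega

/-- **relative bound**, quadratic form: the variables with long values occur at most twice -/
theorem relative_quadratic [DecidableEq A] [Fintype X] [DecidableEq X] (k M : ℕ)
    (L R : List (A ⊕ X)) (σ : X → List A) (hσ : sb σ L = sb σ R)
    (h2 : ∀ x : X, M < (σ x).length → (L ++ R).count (Sum.inr x) ≤ 2)
    (hk : (Finset.univ.filter (fun x : X => M < (σ x).length ∧
      (L ++ R).count (Sum.inr x) = 2)).card ≤ k) :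
    ∃ τ : X → List A, sb τ L = sb τ R ∧
      (∀ x, Sum.inr x ∈ L ++ R → (σ x).length ≤ M → τ x = σ x) ∧
      ∑ x, (τ x).length ≤ 2 ^ ((4 * k + 4)! + 1) * (L.length + R.length + (vN L + vN R) * M) +
        (vN L + vN R) * M := by
  classical
  obtain ⟨lg, hlg⟩ : ∃ lg : X → Prop, lg = fun x => M < (σ x).length := ⟨_, rfl⟩
  have hM : ∀ x, ¬ lg x → (σ x).length ≤ M := by
    intro x hx
    rw [hlg] at hx
    exact not_lt.1 hx
  have hc0 : ∀ x, ¬ lg x → (fz lg σ L ++ fz lg σ R).count (Sum.inr x) = 0 := by
    intro x hx
    rw [List.count_eq_zero, ← fz_append]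
    intro h
    exact hx (mem_fz _ h).1
  have hc1 : ∀ x, lg x → (fz lg σ L ++ fz lg σ R).count (Sum.inr x) =
      (L ++ R).count (Sum.inr x) := by
    intro x hx
    rw [← fz_append, count_fz hx]
  obtain ⟨τ, h1, h3⟩ := few_repeated k (fz lg σ L) (fz lg σ R) (by
      intro x
      by_cases hx : lg x
      · rw [hc1 x hx]
        rw [hlg] at hx
        exact h2 x hx
      · rw [hc0 x hx]; omega) (by
      refine le_trans (Finset.card_le_card ?_) hk
      intro x hx
      rw [Finset.mem_filter] at hx ⊢
      refine ⟨hx.1, ?_⟩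
      by_cases hl : lg x
      · rw [hc1 x hl] at hx
        rw [hlg] at hl
        exact ⟨hl, hx.2⟩
      · rw [hc0 x hl] at hx
        omega)
    ⟨σ, by
      have := hσ
      rw [← sb_fz (lg := lg) (σ := σ) L (fun _ _ _ => rfl),
        ← sb_fz (lg := lg) (σ := σ) R (fun _ _ _ => rfl)] at this
      exact this⟩
  have h1' : sb τ (fz lg σ L) = sb τ (fz lg σ R) := h1
  -- the solution of the old equation
  obtain ⟨ρ, hρ⟩ : ∃ ρ : X → List A, ρ = fun x =>
    if ¬ lg x ∧ Sum.inr x ∈ L ++ R then σ x else τ x := ⟨_, rfl⟩
  have hρ1 : ∀ x, Sum.inr x ∈ L ++ R → ¬ lg x → ρ x = σ x := by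
    intro x hx hl
    rw [hρ]
    simp only [if_pos (And.intro hl hx)]
  have hρ2 : ∀ l : List (A ⊕ X), sb ρ (fz lg σ l) = sb τ (fz lg σ l) := by
    intro l
    apply sb_congr
    intro x hx
    have := (mem_fz l hx).1
    rw [hρ]
    simp only [this, not_true_eq_false, false_and, if_false]
  have hρs : sb ρ L = sb ρ R := by
    rw [← sb_fz (lg := lg) (σ := σ) L (fun x hx hl => hρ1 x (List.mem_append_left _ hx) hl),
      ← sb_fz (lg := lg) (σ := σ) R (fun x hx hl => hρ1 x (List.mem_append_right _ hx) hl),
      hρ2, hρ2, h1']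
  have h4 : ∑ x, (ρ x).length ≤ ∑ x, (τ x).length + (vN L + vN R) * M := by
    have e1 : ∀ x, (ρ x).length ≤ (τ x).length +
        (if ¬ lg x ∧ Sum.inr x ∈ L ++ R then M else 0) := by
      intro x
      rw [hρ]
      by_cases hx : ¬ lg x ∧ Sum.inr x ∈ L ++ R
      · simp only [if_pos hx]
        have := hM x hx.1
        omega
      · simp only [if_neg hx]
        omega
    calc ∑ x, (ρ x).length ≤ ∑ x, ((τ x).length +
          (if ¬ lg x ∧ Sum.inr x ∈ L ++ R then M else 0)) := Finset.sum_le_sum fun x _ => e1 x
      _ = ∑ x, (τ x).length + ∑ x, (if ¬ lg x ∧ Sum.inr x ∈ L ++ R then M else 0) :=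
          Finset.sum_add_distrib
      _ = ∑ x, (τ x).length + (Finset.univ.filter
          (fun x => ¬ lg x ∧ Sum.inr x ∈ L ++ R)).card * M := by
          rw [← Finset.sum_filter, Finset.sum_const, smul_eq_mul]
      _ ≤ _ := by
          refine Nat.add_le_add_left (Nat.mul_le_mul_right _ ?_) _
          refine (card_occ64 (A := A) _ (L ++ R) (fun x hx => hx.2)).trans ?_
          rw [vN_append]
  refine ⟨ρ, hρs, fun x hx hs => hρ1 x hx (by rw [hlg]; exact not_lt.2 hs), h4.trans ?_⟩
  refine Nat.add_le_add_right (h3.trans (Nat.mul_le_mul_left _ ?_)) _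
  have g1 := length_fz hM L
  have g2 := length_fz hM R
  have g3 : (vN L + vN R) * M = vN L * M + vN R * M := by ring
  omega

end WJ
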