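import Pool.Agent.WJ.Rel64
import Pool.Agent.WK.FinR64

/-! Word equations (MP_fc7ad9_lc). Helper module: the relative form of the bound for few
variables. -/

set_option autoImplicit false

open WE45 WO45 WK

namespace WJ

universe u w

/-- **relative bound**, form for few long variables: `V` contains all variables with long
values; the short values are kept -/
theorem relative_ratio : ∃ C : ℕ, ∀ {A : Type u} {X : Type w} [Fintype X]
    (L R : List (A ⊕ X)) (σ : X → List A) (V : Finset X) (v d M : ℕ),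
    sb σ L = sb σ R →
    (∀ x, Sum.inr x ∈ L ++ R → M < (σ x).length → x ∈ V) →
    vN L + vN R ≤ v → 1 ≤ d → SegLe d L → SegLe d R →
    ∃ τ : X → List A, sb τ L = sb τ R ∧
      (∀ x, Sum.inr x ∈ L ++ R → (σ x).length ≤ M → τ x = σ x) ∧
      ∑ x, (τ x).length ≤ (d + M) * 2 ^ ((v + 2) ^ (C * (V.card + 1) ^ 4)) := by
  obtain ⟨C, hC⟩ := ratio_final.{u, w}
  refine ⟨C + 3, ?_⟩
  intro A X _ L R σ V v d M hσ hV hv hd hL hR
  classical
  obtain ⟨lg, hlg⟩ : ∃ lg : X → Prop, lg = fun x => M < (σ x).length := ⟨_, rfl⟩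
  have hM : ∀ x, ¬ lg x → (σ x).length ≤ M := by
    intro x hx
    rw [hlg] at hx
    exact not_lt.1 hx
  obtain ⟨D, hD⟩ : ∃ D, D = (v + 1) * (d + M) := ⟨_, rfl⟩
  obtain ⟨e, he⟩ : ∃ e, e = (v + 2) ^ (C * (V.card + 1) ^ 4) := ⟨_, rfl⟩
  have hD1 : 1 ≤ D := by rw [hD]; exact Nat.mul_pos (by omega) (by omega)
  obtain ⟨τ, h1, h2⟩ := hC (fz lg σ L) (fz lg σ R) V v D (by
      intro x hx
      rw [← fz_append] at hx
      have := mem_fz _ hx
      rw [hlg] at this
      exact hV x this.2 this.1)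
    ((Nat.add_le_add (vN_fz L) (vN_fz R)).trans hv) hD1
    (by rw [hD]; exact segLe_fz hM (by omega) hL) (by rw [hD]; exact segLe_fz hM (by omega) hR)
    ⟨σ, by rw [sb_fz L (fun _ _ _ => rfl), sb_fz R (fun _ _ _ => rfl)]; exact hσ⟩
  rw [← he] at h2
  -- the solution of the old equation
  obtain ⟨ρ, hρ⟩ : ∃ ρ : X → List A, ρ = fun x =>
    if ¬ lg x ∧ Sum.inr x ∈ L ++ R then σ x else τ x := ⟨_, rfl⟩
  have hρ1 : ∀ x, Sum.inr x ∈ L ++ R → ¬ lg x → ρ x = σ x := by
    intro x hx hl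
    rw [hρ]
    simp only [if_pos (And.intro hl hx)]
  have hρ2 : ∀ l : List (A ⊕ X), sb ρ (fz lg σ l) = sb τ (fz lg σ l) := by
    intro l
    apply sb_congr
    intro x hx
    have := (mem_fz l hx).1
    rw [hρ]
    simp only [this, not_true_eq_false, false_and, if_false]
  have hρs : sb ρ L = sb ρ R := by
    rw [← sb_fz (lg := lg) (σ := σ) L (fun x hx hl => hρ1 x (List.mem_append_left _ hx) hl),
      ← sb_fz (lg := lg) (σ := σ) R (fun x hx hl => hρ1 x (List.mem_append_right _ hx) hl),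
      hρ2, hρ2, h1]
  have h4 : ∑ x, (ρ x).length ≤ ∑ x, (τ x).length + v * M := by
    have e1 : ∀ x, (ρ x).length ≤ (τ x).length +
        (if ¬ lg x ∧ Sum.inr x ∈ L ++ R then M else 0) := by
      intro x
      rw [hρ]
      by_cases hx : ¬ lg x ∧ Sum.inr x ∈ L ++ R
      · simp only [if_pos hx]
        have := hM x hx.1
        omega
      · simp only [if_neg hx]
        omega
    calc ∑ x, (ρ x).length ≤ ∑ x, ((τ x).length +
          (if ¬ lg x ∧ Sum.inr x ∈ L ++ R then M else 0)) := Finset.sum_le_sum fun x _ => e1 x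
      _ = ∑ x, (τ x).length + ∑ x, (if ¬ lg x ∧ Sum.inr x ∈ L ++ R then M else 0) :=
          Finset.sum_add_distrib
      _ = ∑ x, (τ x).length + (Finset.univ.filter
          (fun x => ¬ lg x ∧ Sum.inr x ∈ L ++ R)).card * M := by
          rw [← Finset.sum_filter, Finset.sum_const, smul_eq_mul]
      _ ≤ _ := by
          refine Nat.add_le_add_left (Nat.mul_le_mul_right _ ?_) _
          refine (card_occ64 (A := A) _ (L ++ R) (fun x hx => hx.2)).trans ?_
          rw [vN_append]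
          exact hv
  refine ⟨ρ, hρs, fun x hx hs => hρ1 x hx (by rw [hlg]; exact not_lt.2 hs), ?_⟩
  have he1 : 1 ≤ 2 ^ e := Nat.one_le_two_pow
  have h5 : ∑ x, (ρ x).length ≤ (d + M) * ((v + 2) ^ 2 * 2 ^ e) := by
    calc ∑ x, (ρ x).length ≤ D * 2 ^ e + v * M := by omega
      _ ≤ (v + 1) * (d + M) * 2 ^ e + (v + 1) * (d + M) * 2 ^ e := by
          rw [hD]
          refine Nat.add_le_add_left ?_ _
          have : v * M ≤ (v + 1) * (d + M) := Nat.mul_le_mul (by omega) (by omega)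
          exact this.trans (Nat.le_mul_of_pos_right _ he1)
      _ = (d + M) * (2 * (v + 1) * 2 ^ e) := by ring
      _ ≤ (d + M) * ((v + 2) ^ 2 * 2 ^ e) := by
          refine Nat.mul_le_mul_left _ (Nat.mul_le_mul_right _ ?_)
          nlinarith
  refine h5.trans (Nat.mul_le_mul_left _ ?_)
  have e1 : (v + 2) ^ 2 ≤ 2 ^ ((v + 2) ^ 2) := Nat.lt_two_pow_self.le
  have hq : 1 ≤ (V.card + 1) ^ 4 := Nat.one_le_pow _ _ (by omega)
  calc (v + 2) ^ 2 * 2 ^ e ≤ 2 ^ ((v + 2) ^ 2) * 2 ^ e := Nat.mul_le_mul_right _ e1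
    _ = 2 ^ ((v + 2) ^ 2 + e) := by rw [pow_add]
    _ ≤ _ := by
        refine Nat.pow_le_pow_right (by norm_num) ?_
        rw [he]
        have e2 : (v + 2) ^ ((C + 3) * (V.card + 1) ^ 4) =
            (v + 2) ^ (3 * (V.card + 1) ^ 4) * (v + 2) ^ (C * (V.card + 1) ^ 4) := by
          rw [← pow_add]; congr 1; ring
        rw [e2]
        have e3 : (v + 2) ^ 3 ≤ (v + 2) ^ (3 * (V.card + 1) ^ 4) :=
          Nat.pow_le_pow_right (by omega) (by omega)
        have e4 : 1 ≤ (v + 2) ^ (C * (V.card + 1) ^ 4) := Nat.one_le_pow _ _ (by omega)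
        obtain ⟨b, hb⟩ : ∃ b, b = (v + 2) ^ (C * (V.card + 1) ^ 4) := ⟨_, rfl⟩
        obtain ⟨q, hq2⟩ : ∃ q, q = (v + 2) ^ 2 := ⟨_, rfl⟩
        have hq1 : 1 ≤ q := by rw [hq2]; exact Nat.one_le_pow _ _ (by omega)
        rw [← hb] at e4
        rw [← hb, ← hq2]
        calc q + b ≤ q * b + q * b := Nat.add_le_add (Nat.le_mul_of_pos_right _ e4)
              (Nat.le_mul_of_pos_left _ hq1)
          _ = 2 * q * b := by ring
          _ ≤ (v + 2) ^ 3 * b := by
              refine Nat.mul_le_mul_right _ ?_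
              rw [hq2, pow_succ (v + 2) 2, mul_comm 2]
              exact Nat.mul_le_mul_left _ (by omega)
          _ ≤ _ := Nat.mul_le_mul_right _ e3

end WJ
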