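import Pool.Agent.WJ.Side64
import Pool.Agent.WJ.Phi45
import Pool.Agent.WJ.Cut98
import Pool.Agent.WJ.Pres29
import Pool.Agent.WJ.Fac35
import Pool.Agent.WJ.Arith23
import Pool.Agent.WJ.Atoms23
import Pool.Agent.WK.Seg64

/-! Word equations with boundedly many repeated variables (MP_fc7ad9_lc). Helper module:
contradiction at one good scale. -/

set_option autoImplicit false

open WE45 WK64 WK WO45

namespace WJ

universe u w

section Small

variable {A X Y : Type*}

theorem gf_sublist64 (lg : X → Prop) [DecidablePred lg] (σ : X → List A) :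
    ∀ l : List (A ⊕ X), (((gf lg σ l).2.map Prod.fst).map Sum.inr).Sublist l
  | [] => by simp [gf]
  | .inl a :: l => by
      simp only [gf]
      exact (gf_sublist64 lg σ l).cons _
  | .inr x :: l => by
      simp only [gf]
      split_ifs with hx
      · simp only [List.map_cons]
        exact (gf_sublist64 lg σ l).cons_cons _
      · exact (gf_sublist64 lg σ l).cons _

theorem flatten_le64 {d : ℕ} : ∀ {Gs : List (List A)}, (∀ G ∈ Gs, G.length ≤ d) →
    Gs.flatten.length ≤ Gs.length * d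
  | [], _ => by simp
  | G :: Gs, h => by
      rw [List.flatten_cons, List.length_append, List.length_cons, add_mul, one_mul]
      have h1 := h G (by simp)
      have h2 := flatten_le64 (Gs := Gs) fun G' h' => h G' (List.mem_cons_of_mem _ h')
      omega

theorem fl_le64 {θ : Y → List A} {M : ℕ} (h : ∀ y, (θ y).length ≤ M) :
    ∀ a : List Y, (fl θ a).length ≤ a.length * M
  | [] => by simp [fl]
  | y :: a => by
      have h2 := fl_le64 h a
      simp only [fl] at h2 ⊢
      rw [List.flatMap_cons, List.length_append, List.length_cons, add_mul, one_mul]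
      have h1 := h y
      omega

theorem map_le64 {φ : List A → List A} {M : ℕ} (h : ∀ B, (φ B).length ≤ M) :
    ∀ D : List (List A), (D.map φ).flatten.length ≤ D.length * M
  | [] => by simp
  | B :: D => by
      rw [List.map_cons, List.flatten_cons, List.length_append, List.length_cons, add_mul,
        one_mul]
      have h1 := h B
      have h2 := map_le64 h D
      omega

theorem fl_infix64 {θ : Y → List A} {a b : List Y} (h : a <:+: b) : fl θ a <:+: fl θ b := by
  obtain ⟨s, t, rfl⟩ := h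
  simp only [fl, List.flatMap_append]
  exact ⟨_, _, rfl⟩

theorem mem_gfw64 {lg : X → Prop} [DecidablePred lg] {σ : X → List A} {l : List (A ⊕ X)}
    {v S d : ℕ} (hv : vN l ≤ v) (hl : SegLe d l)
    (hshort : ∀ x, ¬ lg x → (σ x).length ≤ S) :
    (gf lg σ l).1.length ≤ (v + 1) * (S + d) ∧
      ∀ r ∈ (gf lg σ l).2, r.2.length ≤ (v + 1) * (S + d) := by
  obtain ⟨h5, h6⟩ := gf_seg hshort l hl
  have h7 : vN l * (S + d) ≤ v * (S + d) := Nat.mul_le_mul_right _ hv
  have e : (v + 1) * (S + d) = v * (S + d) + (S + d) := by ring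
  have h8 := hl.lead_le
  refine ⟨by omega, ?_⟩
  intro r hr
  have := h6 r hr
  omega

end Small

/-- one good scale leads to a contradiction -/
theorem no_rung {A : Type u} {X : Type w} [Fintype X]
    {r v d0 N S Ψ F t d M0 M m ww : ℕ} (hN : 1 ≤ N) (hd0 : 1 ≤ d0)
    (ht : t = 100 * (r + 1) ^ 3) (hd : d = (v + 1) * (S + d0))
    (hM0 : M0 = ((N + 3) * d + (v + 2) * d + 1) * Ψ)
    (hM : M = 2 * (t * M0 + d) + (v + 2) * d) (hm : m = 2 * r)
    (hw : ww = 8 * (2 * m + 3) * M + 2 + d) (hF : F = 64 * (N + 3) * ww)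
    (hpre : ∀ {Y : Type w} [Fintype Y] (d : ℕ) (θ : Y → List A) (Wl : List (List Y))
      (Gs : List (List A)), Fintype.card Y ≤ t → Wl.length ≤ t → (∀ a ∈ Wl, a.length ≤ t) →
      1 ≤ d → d0 ≤ d → (∀ a ∈ Wl, EBdd N d0 (fl θ a)) → (∀ G ∈ Gs, G.length ≤ d) →
      ∃ θ' : Y → List A, (∀ y, (θ' y).length ≤ ((N + 3) * d + Gs.flatten.length + 1) * Ψ) ∧
        Keeps θ θ' (fun a => a ∈ Wl) d Gs)
    (L R : List (A ⊕ X)) (Wr : Finset X) (hWr : Wr.card ≤ r) (hv : vN L + vN R ≤ v)
    (hL : SegLe d0 L) (hR : SegLe d0 R)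
    (hrep : ∀ x, [Sum.inr x, Sum.inr x].Sublist (L ++ R) → x ∈ Wr)
    (hRj : ∀ x, Sum.inr x ∈ R → x ∈ Wr)
    (σ : X → List A) (hmin : MinSol L R σ) (hEB : ∀ x, EBdd N d0 (σ x))
    (hgood : ∀ x, (σ x).length ≤ S ∨ F ≤ (σ x).length)
    (hne : ∃ x, S < (σ x).length) : False := by
  classical
  -- long variables
  obtain ⟨lg, hlg⟩ : ∃ lg : X → Prop, lg = fun x => S < (σ x).length := ⟨_, rfl⟩
  obtain ⟨rl, hrl⟩ : ∃ rl : X → Prop, rl = fun x => lg x ∧ x ∈ Wr := ⟨_, rfl⟩
  have hrllg : ∀ x, rl x → lg x := by rw [hrl]; exact fun x h => h.1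
  have hrlW : ∀ x, rl x → x ∈ Wr := by rw [hrl]; exact fun x h => h.2
  have hshort : ∀ x, ¬ lg x → (σ x).length ≤ S := by
    rw [hlg]; exact fun x h => not_lt.1 h
  obtain ⟨Λ, hΛ⟩ : ∃ Λ, Λ = (N + 3) * ww := ⟨_, rfl⟩
  have hFΛ : F = 64 * Λ := by rw [hF, hΛ]; ring
  have hlong : ∀ x, lg x → 64 * Λ ≤ (σ x).length := by
    intro x hx
    rw [hlg] at hx
    rcases hgood x with h | h
    · exact absurd h (not_le.2 hx)
    · rw [← hFΛ]; exact h
  have hdd0 : d0 ≤ d := by rw [hd]; nlinarith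
  have hd1 : 1 ≤ d := hd0.trans hdd0
  have hdw : d ≤ ww := by rw [hw]; exact Nat.le_add_left _ _
  have hw2 : 2 ≤ ww := by rw [hw]; omega
  have hwΛ : ww ≤ Λ := by rw [hΛ]; exact Nat.le_mul_of_pos_left _ (by omega)
  have hw3Λ : (N + 2) * ww + ww = Λ := by rw [hΛ]; ring
  -- the cuts
  have hcard : Nat.card {x // rl x} ≤ r := by
    have h1 : Nat.card {x // rl x} ≤ Nat.card {x // x ∈ Wr} := by
      refine Nat.card_le_card_of_injective
        (fun x : {x // rl x} => (⟨x.1, hrlW x.1 x.2⟩ : {x // x ∈ Wr})) ?_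
      intro a b hab
      simp only [Subtype.mk.injEq] at hab
      exact Subtype.ext hab
    have h2 : Nat.card {x // x ∈ Wr} = Wr.card := by simp
    omega
  obtain ⟨K, pre, mid, suf, as, bs, hC⟩ := exists_cutData (m := m) hN (hdd0.trans hdw) hw2 σ rl
    (by omega) (fun x _ => hEB x) (fun x hx => by
      have := hlong x (hrllg x hx)
      have h2 : 2 * ((N + 2) * ww) ≤ 64 * Λ := by omega
      omega)
  have : ∀ h f, Decidable (K h f) := fun _ _ => Classical.propDecidable _
  -- the atoms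
  obtain ⟨Y, fY, θ, aL, bL, Wl, hY, hWl, hWla, hnil, hLL, hinf, hsrc⟩ := exists_atoms rl r hcard
    as bs (fun x hx => by have := (hC.as_flat x hx).2.1; rw [hm] at this; exact this)
    (fun x hx => by have := (hC.bs_flat x hx).2.1; rw [hm] at this; exact this)
  rw [← ht] at hY hWl hWla
  -- the gap words
  have gL := mem_gfw64 (lg := lg) (σ := σ) (v := v) (S := S) (by omega) hL hshort
  have gR := mem_gfw64 (lg := lg) (σ := σ) (v := v) (S := S) (by omega) hR hshort
  rw [← hd] at gL gR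
  obtain ⟨Gs, hGs⟩ : ∃ Gs, Gs = ((gf lg σ L).1 :: (gf lg σ L).2.map Prod.snd) ++
    ((gf lg σ R).1 :: (gf lg σ R).2.map Prod.snd) := ⟨_, rfl⟩
  have hGd : ∀ G ∈ Gs, G.length ≤ d := by
    intro G hG
    rw [hGs] at hG
    rcases List.mem_append.1 hG with h | h
    · rcases List.mem_cons.1 h with h | h
      · rw [h]; exact gL.1
      · obtain ⟨q, hq, rfl⟩ := List.mem_map.1 h
        exact gL.2 q hq
    · rcases List.mem_cons.1 h with h | h
      · rw [h]; exact gR.1
      · obtain ⟨q, hq, rfl⟩ := List.mem_map.1 h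
        exact gR.2 q hq
  have hGl : Gs.flatten.length ≤ (v + 2) * d := by
    refine (flatten_le64 hGd).trans (Nat.mul_le_mul_right _ ?_)
    have h1 := length_gf_vN (lg := lg) σ L
    have h2 := length_gf_vN (lg := lg) σ R
    rw [hGs]
    simp only [List.length_append, List.length_cons, List.length_map]
    omega
  have hGL : (gf lg σ L).1 ∈ Gs ∧ ∀ q ∈ (gf lg σ L).2, q.2 ∈ Gs := by
    rw [hGs]
    refine ⟨by simp, fun q hq => ?_⟩
    exact List.mem_append_left _ (List.mem_cons_of_mem _ (List.mem_map_of_mem hq))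
  have hGR : (gf lg σ R).1 ∈ Gs ∧ ∀ q ∈ (gf lg σ R).2, q.2 ∈ Gs := by
    rw [hGs]
    refine ⟨by simp, fun q hq => ?_⟩
    exact List.mem_append_right _ (List.mem_cons_of_mem _ (List.mem_map_of_mem hq))
  -- the new atoms
  have hbf : ∀ x, rl x → fl θ (bL x) = pre x := fun x hx => by
    rw [fl_map64 (hLL x hx).2.1]; exact (hC.bs_flat x hx).1
  have haf : ∀ x, rl x → fl θ (aL x) = suf x := fun x hx => by
    rw [fl_map64 (hLL x hx).1]; exact (hC.as_flat x hx).1
  obtain ⟨θ', hθ', hK⟩ := hpre d θ Wl Gs hY hWl hWla hd1 hdd0 (by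
    intro a ha
    rcases hsrc a ha with rfl | ⟨x, hx, h | h⟩
    · obtain ⟨x, hx⟩ := hne
      exact (hEB x).factor ⟨[], σ x, by simp [fl]⟩
    · have h1 := fl_infix64 (θ := θ) h
      rw [haf x hx] at h1
      refine (hEB x).factor (h1.trans ?_)
      rw [hC.split x hx]
      exact (List.suffix_append _ _).isInfix
    · have h1 := fl_infix64 (θ := θ) h
      rw [hbf x hx] at h1
      refine (hEB x).factor (h1.trans ?_)
      rw [hC.split x hx, List.append_assoc]
      exact (List.prefix_append _ _).isInfix) hGd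
  have hθM : ∀ y, (θ' y).length ≤ M0 := by
    intro y
    refine (hθ' y).trans ?_
    rw [hM0]
    exact Nat.mul_le_mul_right _ (by omega)
  have hflM : ∀ a ∈ Wl, (fl θ' a).length ≤ t * M0 := fun a ha =>
    (fl_le64 hθM a).trans (Nat.mul_le_mul_right _ (hWla a ha))
  obtain ⟨φ, hφ, hφM0⟩ := phi_of_keeps hK hnil hflM
  have hφM : ∀ B, (φ B).length ≤ M := fun B => (hφM0 B).trans (by rw [hM]; omega)
  have htM : t * M0 ≤ M := by rw [hM]; omega
  -- the sides
  have hbase : ∀ D : List (List A), BPL θ [] D := by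
    intro D D1 D2 _ h
    have h2 : (fl θ ([] : List Y)).length = 0 := rfl
    rw [h2] at h
    exact ⟨[], [], rfl, List.eq_nil_of_length_eq_zero (by omega)⟩
  have hsubL : ∀ x, ¬ rl x → ∀ t1 t2 G1, (gf lg σ L).2 = t1 ++ (x, G1) :: t2 →
      x ∉ t1.map Prod.fst ∧ x ∉ t2.map Prod.fst := by
    intro x hx t1 t2 G1 he
    have h1 := gf_sublist64 lg σ L
    have h2 : lg x := lg_of_mem lg σ L (x, G1) (by rw [he]; simp)
    have h3 : ¬ [Sum.inr x, Sum.inr x].Sublist (L ++ R) := by
      intro h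
      exact hx (by rw [hrl]; exact ⟨h2, hrep x h⟩)
    have h4 : L.Sublist (L ++ R) := List.sublist_append_left _ _
    constructor
    · intro h
      apply h3
      refine List.Sublist.trans ?_ (h1.trans h4)
      rw [he, List.map_append, List.map_append, List.map_cons, List.map_cons]
      have h5 : [(Sum.inr x : A ⊕ X)].Sublist ((t1.map Prod.fst).map Sum.inr) := by
        rw [List.singleton_sublist]
        exact List.mem_map_of_mem h
      exact h5.append (List.singleton_sublist.2 (by simp) :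
        [(Sum.inr x : A ⊕ X)].Sublist (Sum.inr x :: (t2.map Prod.fst).map Sum.inr))
    · intro h
      apply h3
      refine List.Sublist.trans ?_ (h1.trans h4)
      rw [he, List.map_append, List.map_append, List.map_cons, List.map_cons]
      refine List.Sublist.trans ?_ (List.sublist_append_right _ _)
      refine List.Sublist.cons_cons _ ?_
      rw [List.singleton_sublist]
      exact List.mem_map_of_mem h
  have hallR : ∀ q ∈ (gf lg σ R).2, rl q.1 := by
    intro q hq
    rw [hrl]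
    refine ⟨lg_of_mem lg σ R q hq, hRj q.1 ?_⟩
    exact (gf_sublist64 lg σ R).subset (List.mem_map_of_mem (List.mem_map_of_mem hq))
  have hsubR : ∀ x, ¬ rl x → ∀ t1 t2 G1, (gf lg σ R).2 = t1 ++ (x, G1) :: t2 →
      x ∉ t1.map Prod.fst ∧ x ∉ t2.map Prod.fst := by
    intro x hx t1 t2 G1 he
    exact absurd (hallR (x, G1) (by rw [he]; simp)) hx
  have hWc : ∀ a b, a ∈ Wl → b <:+: a → b ∈ Wl := fun a b ha hb => hinf a ha b hb
  have hΛw : (N + 2) * ww ≤ Λ := by omega
  have hsol := hmin.1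
  obtain ⟨ρL, l1, l2⟩ := side (Wp := fun a => a ∈ Wl) (W := sb σ L) hφ hWc hnil hC (by omega)
    hΛw (hdw.trans hwΛ) aL bL hLL hφM (gf lg σ L).2.length (gf lg σ L).2 le_rfl []
    (dd K Λ (sb σ L)) [] (gf lg σ L).1 hnil (by simp [fl]) (by simp)
    (by rw [flatten_dd, ← evg_gf lg σ σ (fun _ _ => rfl) L]; simp [fl]) (hbase _)
    ⟨gL.1, hGL.1⟩ (fun q hq => ⟨gL.2 q hq, hGL.2 q hq⟩) hsubL
    (fun q hq => by
      have := hlong q.1 (lg_of_mem lg σ L q hq)
      omega)
  obtain ⟨ρR, r1, _⟩ := side (Wp := fun a => a ∈ Wl) (W := sb σ R) hφ hWc hnil hC (by omega)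
    hΛw (hdw.trans hwΛ) aL bL hLL hφM (gf lg σ R).2.length (gf lg σ R).2 le_rfl []
    (dd K Λ (sb σ R)) [] (gf lg σ R).1 hnil (by simp [fl]) (by simp)
    (by rw [flatten_dd, ← evg_gf lg σ σ (fun _ _ => rfl) R]; simp [fl]) (hbase _)
    ⟨gR.1, hGR.1⟩ (fun q hq => ⟨gR.2 q hq, hGR.2 q hq⟩) hsubR
    (fun q hq => by
      have := hlong q.1 (lg_of_mem lg σ R q hq)
      omega)
  -- the new solution
  obtain ⟨ρ, hρ⟩ : ∃ ρ : X → List A, ρ = fun x =>
    if x ∈ (gf lg σ L).2.map Prod.fst then ρL x else [] := ⟨_, rfl⟩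
  obtain ⟨τ, hτ⟩ : ∃ τ : X → List A, τ = fun x =>
    if lg x then sN K pre mid suf θ' Λ φ rl aL bL ρ x else σ x := ⟨_, rfl⟩
  have hτn : ∀ x, ¬ lg x → τ x = σ x := by
    intro x hx
    rw [hτ]
    simp only [if_neg hx]
  have hτL : sb τ L = ((dd K Λ (sb σ L)).map φ).flatten := by
    rw [l1, ← evg_gf lg σ τ hτn L]
    have e0 : fl θ' ([] : List Y) = [] := rfl
    rw [e0, List.nil_append]
    refine evg_congr64 _ ?_
    intro q hq
    rw [hτ]
    simp only [if_pos (lg_of_mem lg σ L q hq)]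
    by_cases hq1 : rl q.1
    · rw [sN, sN, if_pos hq1, if_pos hq1]
    · rw [sN, sN, if_neg hq1, if_neg hq1, hρ]
      simp only [if_pos (List.mem_map_of_mem (f := Prod.fst) hq)]
  have hτR : sb τ R = ((dd K Λ (sb σ R)).map φ).flatten := by
    rw [r1, ← evg_gf lg σ τ hτn R]
    have e0 : fl θ' ([] : List Y) = [] := rfl
    rw [e0, List.nil_append]
    refine evg_congr64 _ ?_
    intro q hq
    rw [hτ]
    simp only [if_pos (lg_of_mem lg σ R q hq)]
    have hq1 := hallR q hq
    rw [sN, sN, if_pos hq1, if_pos hq1]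
  have hτsol : sb τ L = sb τ R := by rw [hτL, hτR, hsol]
  -- lengths
  have hkey : 8 * ((2 * m + 2) * M) ≤ ww := by
    have e1 : 8 * (2 * m + 3) * M = 8 * ((2 * m + 2) * M) + 8 * M := by ring
    rw [hw]; omega
  have hMw : M ≤ ww := by
    have e1 : 8 * (2 * m + 3) * M = M + (16 * m + 23) * M := by ring
    rw [hw]; omega
  have hstrict : ∀ x, lg x → (τ x).length < (σ x).length := by
    intro x hx
    have hlx := hlong x hx
    have hτx : τ x = sN K pre mid suf θ' Λ φ rl aL bL ρ x := by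
      rw [hτ]; simp only [if_pos hx]
    rw [hτx]
    by_cases hr1 : rl x
    · rw [sN, if_pos hr1, List.length_append, List.length_append]
      have b1 := hflM (bL x) (hLL x hr1).2.2.2
      have b2 := hflM (aL x) (hLL x hr1).2.2.1
      have b3 := map_le64 hφM (MM K Λ pre mid suf x)
      obtain ⟨E1, E2, k1, k2, k3, _, _⟩ := hC.occ (by omega : 1 ≤ ww) (l := Λ) hr1 [] []
      rw [List.nil_append, List.append_nil] at k1
      have b4 := hC.sparse_dd (l := Λ) (by omega) hwΛ (W := σ x)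
        (D := MM K Λ pre mid suf x) (by rw [k1]; exact ⟨E1, E2, by simp⟩)
      have b5 : (MM K Λ pre mid suf x).flatten.length ≤ (σ x).length := by
        have h := congrArg (fun l => l.flatten.length) k1
        simp only [flatten_dd, List.flatten_append, List.length_append] at h
        omega
      obtain ⟨n, hn⟩ : ∃ n, n = (MM K Λ pre mid suf x).length := ⟨_, rfl⟩
      rw [← hn] at b3 b4
      have b6 : 8 * (n * M) * ww ≤ ((σ x).length + ww) * ww := by
        calc 8 * (n * M) * ww = 8 * M * (n * ww) := by ring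
          _ ≤ 8 * M * ((2 * m + 2) * ((MM K Λ pre mid suf x).flatten.length + ww)) :=
            Nat.mul_le_mul_left _ b4
          _ = ((MM K Λ pre mid suf x).flatten.length + ww) * (8 * ((2 * m + 2) * M)) := by ring
          _ ≤ ((σ x).length + ww) * ww := Nat.mul_le_mul (by omega) hkey
      have b7 : 8 * (n * M) ≤ (σ x).length + ww := Nat.le_of_mul_le_mul_right b6 (by omega)
      omega
    · rw [sN, if_neg hr1, hρ]
      by_cases hxL : x ∈ (gf lg σ L).2.map Prod.fst
      · simp only [if_pos hxL]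
        obtain ⟨q, hq, rfl⟩ := List.mem_map.1 hxL
        have c1 := l2 q hq hr1
        have c2 : 8 * (ρL q.1).length * ww ≤ ((σ q.1).length + 8 * Λ + 3 * ww) * ww := by
          calc 8 * (ρL q.1).length * ww = 8 * ((ρL q.1).length * ww) := by ring
            _ ≤ 8 * ((2 * m + 2) * M * ((σ q.1).length + 8 * Λ + 3 * ww)) :=
              Nat.mul_le_mul_left _ c1
            _ = ((σ q.1).length + 8 * Λ + 3 * ww) * (8 * ((2 * m + 2) * M)) := by ring
            _ ≤ _ := Nat.mul_le_mul_left _ hkey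
        have c3 : 8 * (ρL q.1).length ≤ (σ q.1).length + 8 * Λ + 3 * ww :=
          Nat.le_of_mul_le_mul_right c2 (by omega)
        omega
      · simp only [if_neg hxL, List.length_nil]
        omega
  have hle : ∀ x, (τ x).length ≤ (σ x).length := by
    intro x
    by_cases hx : lg x
    · exact (hstrict x hx).le
    · rw [hτn x hx]
  obtain ⟨x0, hx0⟩ := hne
  have hx0' : lg x0 := by rw [hlg]; exact hx0
  have := hmin.2 τ hτsol
  have h2 : ∑ x, (τ x).length < ∑ x, (σ x).length :=
    Finset.sum_lt_sum (fun x _ => hle x) ⟨x0, Finset.mem_univ _, hstrict x0 hx0'⟩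
  omega

end WJ
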