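import Pool.Agent.WK.FinG37

/-! Word equations with boundedly many repeated variables (MP_fc7ad9_lc). Helper module:
one side of an equation that contains a variable which occurs once (a joker): all words between the
first and the last joker can be placed one after the other. -/

set_option autoImplicit false

open WE45 WO45

namespace WJ

universe u w

variable {A : Type u} {X : Type w}

/-- splitting at the first joker -/
theorem first37 (J : X → Prop) : ∀ l : List (A ⊕ X), (∃ x, J x ∧ Sum.inr x ∈ l) →
    ∃ (u l' : List (A ⊕ X)) (y : X), l = u ++ Sum.inr y :: l' ∧ J y ∧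
      ∀ x, Sum.inr x ∈ u → ¬ J x
  | [], ⟨x, _, h⟩ => absurd h (by simp)
  | .inl a :: l, ⟨x, hx, h⟩ => by
      have h' : Sum.inr x ∈ l := by simpa using h
      obtain ⟨u, l', y, h1, h2, h3⟩ := first37 J l ⟨x, hx, h'⟩
      refine ⟨.inl a :: u, l', y, by rw [h1]; rfl, h2, ?_⟩
      intro z hz
      exact h3 z (by simpa using hz)
  | .inr z :: l, ⟨x, hx, h⟩ => by
      classical
      by_cases hz : J z
      · exact ⟨[], l, z, rfl, hz, fun x hx => absurd hx (by simp)⟩
      · have h' : Sum.inr x ∈ l := by
          rcases List.mem_cons.1 h with h | h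
          · exact absurd hx (by rw [Sum.inr.inj h]; exact hz)
          · exact h
        obtain ⟨u, l', y, h1, h2, h3⟩ := first37 J l ⟨x, hx, h'⟩
        refine ⟨.inr z :: u, l', y, by rw [h1]; rfl, h2, ?_⟩
        intro t ht
        rcases List.mem_cons.1 ht with ht | ht
        · rw [Sum.inr.inj ht]; exact hz
        · exact h3 t ht

/-- splitting at the last joker -/
theorem last37 (J : X → Prop) : ∀ l : List (A ⊕ X), (∃ x, J x ∧ Sum.inr x ∈ l) →
    ∃ (l' t : List (A ⊕ X)) (y : X), l = l' ++ Sum.inr y :: t ∧ J y ∧
      ∀ x, Sum.inr x ∈ t → ¬ J x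
  | [], ⟨x, _, h⟩ => absurd h (by simp)
  | s :: l, ⟨x, hx, h⟩ => by
      classical
      by_cases hl : ∃ x, J x ∧ Sum.inr x ∈ l
      · obtain ⟨l', t, y, h1, h2, h3⟩ := last37 J l hl
        exact ⟨s :: l', t, y, by rw [h1]; rfl, h2, h3⟩
      · push Not at hl
        rcases List.mem_cons.1 h with h | h
        · refine ⟨[], l, x, by rw [← h]; rfl, hx, ?_⟩
          intro z hz hJ
          exact hl z hJ hz
        · exact absurd h (hl x hx)

/-- the jokers of a word are deleted -/
theorem mid37 (J : X → Prop) (σ ρ : X → List A) : ∀ l : List (A ⊕ X),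
    (∀ x, Sum.inr x ∈ l → J x → σ x = []) → (∀ x, ¬ J x → σ x = ρ x) →
    ∃ m : List (A ⊕ X), m.Sublist l ∧ (∀ x, Sum.inr x ∈ m → ¬ J x) ∧ sb σ l = sb ρ m
  | [], _, _ => ⟨[], List.Sublist.refl _, fun x hx => absurd hx (by simp), rfl⟩
  | .inl a :: l, h1, h2 => by
      obtain ⟨m, h3, h4, h5⟩ := mid37 J σ ρ l (fun x hx => h1 x (List.mem_cons_of_mem _ hx)) h2
      refine ⟨.inl a :: m, h3.cons_cons _, ?_, by rw [sb_inl, sb_inl, h5]⟩
      intro x hx
      exact h4 x (by simpa using hx)
  | .inr z :: l, h1, h2 => by
      obtain ⟨m, h3, h4, h5⟩ := mid37 J σ ρ l (fun x hx => h1 x (List.mem_cons_of_mem _ hx)) h2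
      by_cases hz : J z
      · refine ⟨m, h3.cons _, h4, ?_⟩
        rw [sb_inr, h1 z (by simp) hz, List.nil_append, h5]
      · refine ⟨.inr z :: m, h3.cons_cons _, ?_, by rw [sb_inr, sb_inr, h5, h2 z hz]⟩
        intro x hx
        rcases List.mem_cons.1 hx with hx | hx
        · rw [Sum.inr.inj hx]; exact hz
        · exact h4 x hx

/-- the jokers of a word are deleted, uniform version: the remaining word does not depend on the
assignment -/
theorem mid37' (J : X → Prop) [DecidablePred J] : ∀ l : List (A ⊕ X),
    ∃ m : List (A ⊕ X), m.Sublist l ∧ (∀ x, Sum.inr x ∈ m → ¬ J x) ∧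
      ∀ σ ρ : X → List A, (∀ x, Sum.inr x ∈ l → J x → σ x = []) →
        (∀ x, ¬ J x → σ x = ρ x) → sb σ l = sb ρ m
  | [] => ⟨[], List.Sublist.refl _, fun x hx => absurd hx (by simp), fun _ _ _ _ => rfl⟩
  | .inl a :: l => by
      obtain ⟨m, h3, h4, h5⟩ := mid37' J l
      refine ⟨.inl a :: m, h3.cons_cons _, ?_, ?_⟩
      · intro x hx
        exact h4 x (by simpa using hx)
      · intro σ ρ h1 h2
        rw [sb_inl, sb_inl, h5 σ ρ (fun x hx => h1 x (List.mem_cons_of_mem _ hx)) h2]
  | .inr z :: l => by
      obtain ⟨m, h3, h4, h5⟩ := mid37' J l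
      by_cases hz : J z
      · refine ⟨m, h3.cons _, h4, ?_⟩
        intro σ ρ h1 h2
        rw [sb_inr, h1 z (by simp) hz, List.nil_append,
          h5 σ ρ (fun x hx => h1 x (List.mem_cons_of_mem _ hx)) h2]
      · refine ⟨.inr z :: m, h3.cons_cons _, ?_, ?_⟩
        · intro x hx
          rcases List.mem_cons.1 hx with hx | hx
          · rw [Sum.inr.inj hx]; exact hz
          · exact h4 x hx
        · intro σ ρ h1 h2
          rw [sb_inr, sb_inr, h5 σ ρ (fun x hx => h1 x (List.mem_cons_of_mem _ hx)) h2, h2 z hz]

/-- a letter that occurs in both parts occurs twice -/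
theorem twice37 {s : A ⊕ X} {l l' : List (A ⊕ X)} (h : s ∈ l) (h' : s ∈ l') :
    [s, s].Sublist (l ++ l') := by
  have h1 : [s].Sublist l := List.singleton_sublist.2 h
  have h2 : [s].Sublist l' := List.singleton_sublist.2 h'
  exact h1.append h2

/-- One side with a joker: the words between the first and the last joker can be placed one after
the other, with free words `p` and `s` around them. -/
theorem side37 [Fintype X] (J : X → Prop) (l : List (A ⊕ X)) (hJ : ∃ x, J x ∧ Sum.inr x ∈ l)
    (hone : ∀ x, J x → ¬ [Sum.inr x, Sum.inr x].Sublist l) :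
    ∃ u m t : List (A ⊕ X), (∀ x, Sum.inr x ∈ u → ¬ J x) ∧ (∀ x, Sum.inr x ∈ m → ¬ J x) ∧
      (∀ x, Sum.inr x ∈ t → ¬ J x) ∧ u <+: l ∧ m.Sublist l ∧ t <:+ l ∧
      (∀ σ : X → List A, ∃ a b : List A, sb σ l = sb σ u ++ a ∧ sb σ l = b ++ sb σ t) ∧
      ∀ (ρ : X → List A) (p s : List A), ∃ σ : X → List A,
        (∀ x, ¬ (J x ∧ Sum.inr x ∈ l) → σ x = ρ x) ∧
        sb σ l = sb ρ u ++ p ++ sb ρ m ++ s ++ sb ρ t ∧
        ∑ x, (σ x).length ≤ (∑ x, (ρ x).length) + p.length + s.length := by
  classical
  obtain ⟨u, l2, y, h1, hy, hu⟩ := first37 J l hJ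
  have hyu : Sum.inr y ∉ u := fun h => hu y h hy
  have hy2 : Sum.inr y ∉ l2 := by
    intro h
    apply hone y hy
    rw [h1]
    have h3 : [Sum.inr y, Sum.inr y].Sublist (Sum.inr y :: l2) :=
      (List.singleton_sublist.2 h).cons_cons _
    exact h3.trans (List.sublist_append_right _ _)
  by_cases h2 : ∃ x, J x ∧ Sum.inr x ∈ l2
  · obtain ⟨l3, t, z, h3, hz, ht⟩ := last37 J l2 h2
    obtain ⟨m, hm1, hm2, hm3⟩ := mid37' (A := A) J l3
    have hyz : y ≠ z := by
      intro h
      apply hy2
      rw [h3, h]
      simp
    have hzu : Sum.inr z ∉ u := fun h => hu z h hz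
    have hz3 : Sum.inr z ∉ l3 := by
      intro h
      apply hone z hz
      rw [h1, h3]
      have h4 : [Sum.inr z, Sum.inr z].Sublist (l3 ++ Sum.inr z :: t) :=
        twice37 h (by simp)
      exact (h4.cons _).trans (List.sublist_append_right _ _)
    have hy3 : Sum.inr y ∉ l3 := fun h => hy2 (by rw [h3]; exact List.mem_append_left _ h)
    refine ⟨u, m, t, hu, hm2, ht, ?_, ?_, ?_, ?_, ?_⟩
    · rw [h1]; exact List.prefix_append _ _
    · rw [h1, h3]
      exact ((hm1.trans (List.sublist_append_left _ _)).cons _).trans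
        (List.sublist_append_right _ _)
    · refine ⟨u ++ Sum.inr y :: (l3 ++ [Sum.inr z]), ?_⟩
      rw [h1, h3]
      simp
    · intro σ
      refine ⟨sb σ (Sum.inr y :: l2), sb σ (u ++ Sum.inr y :: (l3 ++ [Sum.inr z])), ?_, ?_⟩
      · rw [h1, sb_append]
      · rw [← sb_append, h1, h3]
        congr 1
        simp
    · intro ρ p s
      let σ : X → List A := fun x => if x = y then p else if x = z then s else
        if J x ∧ Sum.inr x ∈ l then [] else ρ x
      have sy : σ y = p := if_pos rfl
      have sz : σ z = s := by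
        show (if z = y then p else if z = z then s else _) = s
        rw [if_neg (Ne.symm hyz), if_pos rfl]
      have sn : ∀ x, ¬ (J x ∧ Sum.inr x ∈ l) → σ x = ρ x := by
        intro x hx
        have e1 : x ≠ y := by
          intro h
          apply hx
          rw [h]
          exact ⟨hy, by rw [h1]; simp⟩
        have e2 : x ≠ z := by
          intro h
          apply hx
          rw [h]
          exact ⟨hz, by rw [h1, h3]; simp⟩
        show (if x = y then p else if x = z then s else if J x ∧ Sum.inr x ∈ l then [] else ρ x) = _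
        rw [if_neg e1, if_neg e2, if_neg hx]
      refine ⟨σ, sn, ?_, ?_⟩
      · have e1 : sb σ u = sb ρ u := sb_congr u fun x hx => sn x fun h => hu x hx h.1
        have e2 : sb σ t = sb ρ t := sb_congr t fun x hx => sn x fun h => ht x hx h.1
        have e3 : sb σ l3 = sb ρ m := by
          refine hm3 σ ρ ?_ ?_
          · intro x hx hJx
            have n1 : x ≠ y := fun h => hy3 (h ▸ hx)
            have n2 : x ≠ z := fun h => hz3 (h ▸ hx)
            show (if x = y then p else if x = z then s else
              if J x ∧ Sum.inr x ∈ l then [] else ρ x) = _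
            rw [if_neg n1, if_neg n2, if_pos]
            exact ⟨hJx, by rw [h1, h3]; simp [hx]⟩
          · intro x hx
            exact sn x fun h => hx h.1
        rw [h1, sb_append, sb_inr, h3, sb_append, sb_inr, e1, e2, e3, sy, sz]
        simp only [List.append_assoc]
      · have key : ∀ x, (σ x).length ≤ (ρ x).length + (if x = y then p.length else 0) +
            (if x = z then s.length else 0) := by
          intro x
          show (if x = y then p else if x = z then s else
            if J x ∧ Sum.inr x ∈ l then [] else ρ x).length ≤ _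
          by_cases e1 : x = y
          · rw [if_pos e1, if_pos e1]; omega
          · rw [if_neg e1, if_neg e1]
            by_cases e2 : x = z
            · rw [if_pos e2, if_pos e2]; omega
            · rw [if_neg e2, if_neg e2]
              by_cases e3 : J x ∧ Sum.inr x ∈ l
              · rw [if_pos e3]; simp
              · rw [if_neg e3]; omega
        refine (Finset.sum_le_sum fun x _ => key x).trans ?_
        rw [Finset.sum_add_distrib, Finset.sum_add_distrib, Finset.sum_ite_eq' Finset.univ y,
          Finset.sum_ite_eq' Finset.univ z, if_pos (Finset.mem_univ _),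
          if_pos (Finset.mem_univ _)]
  · push Not at h2
    refine ⟨u, [], l2, hu, fun x hx => absurd hx (by simp), fun x hx hJx => h2 x hJx hx, ?_, ?_,
      ?_, ?_, ?_⟩
    · rw [h1]; exact List.prefix_append _ _
    · exact List.nil_sublist _
    · refine ⟨u ++ [Sum.inr y], ?_⟩
      rw [h1]
      simp
    · intro σ
      refine ⟨sb σ (Sum.inr y :: l2), sb σ (u ++ [Sum.inr y]), ?_, ?_⟩
      · rw [h1, sb_append]
      · rw [← sb_append, h1]
        congr 1
        simp
    · intro ρ p s
      let σ : X → List A := fun x => if x = y then p ++ s else ρ x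
      have sy : σ y = p ++ s := if_pos rfl
      have sn : ∀ x, x ≠ y → σ x = ρ x := fun x hx => if_neg hx
      refine ⟨σ, ?_, ?_, ?_⟩
      · intro x hx
        apply sn
        intro h
        apply hx
        rw [h]
        exact ⟨hy, by rw [h1]; simp⟩
      · have e1 : sb σ u = sb ρ u := sb_congr u fun x hx => sn x fun h => hyu (h ▸ hx)
        have e2 : sb σ l2 = sb ρ l2 := sb_congr l2 fun x hx => sn x fun h => hy2 (h ▸ hx)
        rw [h1, sb_append, sb_inr, e1, e2, sy, sb_nil, List.append_nil]
        simp only [List.append_assoc]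
      · have key : ∀ x, (σ x).length ≤ (ρ x).length + (if x = y then p.length + s.length else 0) := by
          intro x
          show (if x = y then p ++ s else ρ x).length ≤ _
          by_cases e1 : x = y
          · rw [if_pos e1, if_pos e1, List.length_append]; omega
          · rw [if_neg e1, if_neg e1]; omega
        refine (Finset.sum_le_sum fun x _ => key x).trans ?_
        rw [Finset.sum_add_distrib, Finset.sum_ite_eq' Finset.univ y,
          if_pos (Finset.mem_univ _)]
        omega

end WJ
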