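import Pool.Agent.WJ.Gap50
import Pool.Agent.WK.Defs64

/-! Word equations with few repeated variables (MP_fc7ad9_lc). Helper module:
splitting a list of blocks at the long values of the variables that occur once. -/

set_option autoImplicit false

open WE45 WK64 WK

namespace WJ

theorem cut_at {A : Type*} {Λ : ℕ} (hΛ : 1 ≤ Λ) : ∀ (D : List (List A)) (n : ℕ),
    (∀ B ∈ D, B.length < 2 * Λ) → n ≤ D.flatten.length →
    ∃ D1 D2, D = D1 ++ D2 ∧ n ≤ D1.flatten.length ∧ D1.flatten.length < n + 2 * Λ
  | [], n, _, h => ⟨[], [], rfl, by simpa using h, by simp; omega⟩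
  | B :: D, n, hB, h => by
      rw [List.flatten_cons, List.length_append] at h
      by_cases hn : n ≤ B.length
      · by_cases h0 : n = 0
        · exact ⟨[], B :: D, rfl, by simp [h0], by simp; omega⟩
        · have h1 := hB B (by simp)
          refine ⟨[B], D, rfl, by simpa using hn, ?_⟩
          rw [List.flatten_cons, List.length_append]
          simp
          omega
      · obtain ⟨D1, D2, h1, h2, h3⟩ := cut_at hΛ D (n - B.length)
          (fun B' hB' => hB B' (List.mem_cons_of_mem _ hB')) (by omega)
        refine ⟨B :: D1, D2, by rw [h1]; rfl, ?_, ?_⟩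
        · rw [List.flatten_cons, List.length_append]
          omega
        · rw [List.flatten_cons, List.length_append]
          omega

theorem app_split {A : Type*} {as bs cs ds : List A} (h : as ++ bs = cs ++ ds)
    (hl : cs.length ≤ as.length) : ∃ e, as = cs ++ e ∧ ds = e ++ bs := by
  rcases List.append_eq_append_iff.1 h with ⟨e, h1, h2⟩ | ⟨e, h1, h2⟩
  · have h3 := congrArg List.length h1
    rw [List.length_append] at h3
    have h4 : e = [] := List.length_eq_zero_iff.1 (by omega)
    subst h4
    exact ⟨[], by rw [h1]; simp, by rw [h2]; simp⟩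
  · exact ⟨e, h1, h2⟩

/-- R11a -/
theorem split_long {A : Type*} {Λ : ℕ} {D : List (List A)} (hΛ : 1 ≤ Λ)
    (hB : ∀ B ∈ D, B.length < 2 * Λ)
    {U Yw V : List A} (hD : D.flatten = U ++ Yw ++ V) (hY : 4 * Λ ≤ Yw.length) :
    ∃ D1 T D2 y1 y2, D = D1 ++ T ++ D2 ∧ Yw = y1 ++ T.flatten ++ y2 ∧
      D1.flatten = U ++ y1 ∧ D2.flatten = y2 ++ V ∧ y1.length < 2 * Λ ∧
      y2.length < 2 * Λ := by
  have hlen : D.flatten.length = U.length + Yw.length + V.length := by
    rw [hD, List.length_append, List.length_append]
  obtain ⟨D1, D', h1, h2, h3⟩ := cut_at hΛ D U.length hB (by omega)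
  have hlen' : D1.flatten.length + D'.flatten.length = U.length + Yw.length + V.length := by
    rw [← hlen, h1, List.flatten_append, List.length_append]
  obtain ⟨T, D2, h4, h5, h6⟩ := cut_at hΛ D' (D'.flatten.length - V.length - (2 * Λ - 1))
    (fun B hB' => hB B (by rw [h1]; exact List.mem_append_right _ hB')) (by omega)
  have hlen2 : T.flatten.length + D2.flatten.length = D'.flatten.length := by
    rw [h4, List.flatten_append, List.length_append]
  have e1 : D1.flatten ++ (T.flatten ++ D2.flatten) = U ++ (Yw ++ V) := by
    rw [← List.append_assoc U, ← hD, h1, h4, List.flatten_append, List.flatten_append]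
  obtain ⟨y1, h7, h8⟩ := app_split e1 h2
  rw [← List.append_assoc] at h8
  obtain ⟨y2, h9, h10⟩ := app_split (cs := y1 ++ T.flatten) (ds := D2.flatten) h8 (by
    have := congrArg List.length h7
    rw [List.length_append] at this
    rw [List.length_append]
    omega)
  refine ⟨D1, T, D2, y1, y2, by rw [h1, h4, List.append_assoc], h9, h7, h10, ?_, ?_⟩
  · have := congrArg List.length h7
    rw [List.length_append] at this
    omega
  · have := congrArg List.length h10
    rw [List.length_append] at this
    omega

theorem length_map_flatten_le {A : Type*} {φ : List A → List A} {M : ℕ}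
    (hM : ∀ B, (φ B).length ≤ M) : ∀ D : List (List A), (D.map φ).flatten.length ≤ M * D.length
  | [] => by simp
  | B :: D => by
      rw [List.map_cons, List.flatten_cons, List.length_append, List.length_cons, mul_add, mul_one]
      have h1 := hM B
      have h2 := length_map_flatten_le hM D
      omega

theorem BPL.left {A Y : Type*} {θ : Y → List A} {a : List Y} {D1 D2 : List (List A)}
    (h : BPL θ a (D1 ++ D2)) : BPL θ a D1 := by
  intro E1 E2 hE hl
  exact h E1 (E2 ++ D2) (by rw [hE, List.append_assoc]) hl

theorem BPR.right {A Y : Type*} {θ : Y → List A} {b : List Y} {D1 D2 : List (List A)}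
    (h : BPR θ b (D1 ++ D2)) : BPR θ b D2 := by
  intro E1 E2 hE hl
  exact h (D1 ++ E1) E2 (by rw [hE, List.append_assoc]) hl

theorem evg_cons {A X : Type*} (σ : X → List A) (G : List A) (r : X × List A)
    (t : List (X × List A)) : evg σ G (r :: t) = G ++ σ r.1 ++ evg σ r.2 t := by
  simp [evg]

theorem evg_nil {A X : Type*} (σ : X → List A) (G : List A) : evg σ G [] = G := by
  simp [evg]

theorem evg_congr {A X : Type*} {σ σ' : X → List A} (G : List A) {t : List (X × List A)}
    (h : ∀ r ∈ t, σ r.1 = σ' r.1) : evg σ G t = evg σ' G t := by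
  unfold evg
  congr 1
  induction t with
  | nil => rfl
  | cons r t ih =>
    rw [List.flatMap_cons, List.flatMap_cons, h r (by simp),
      ih (fun r' hr' => h r' (List.mem_cons_of_mem _ hr'))]

/-- the part to the right of a long joker -/
theorem gap_right {A X Y : Type*} {θ θ' : Y → List A} {W : List Y → Prop} {d Λ M w c : ℕ}
    {Gs : List (List A)} {φ : List A → List A} (hφ : PhiOK θ θ' W d Gs φ)
    (hW : ∀ a b, W a → b <:+: a → W b) (σ : X → List A) (b : List Y)
    (hb : W b) (hΛ : 1 ≤ Λ) (hdΛ : d ≤ Λ)
    (hbΛ : (fl θ b).length ≤ Λ) (hM : ∀ B, (φ B).length ≤ M) :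
    ∀ (t : List (X × List A)) (G y : List A) (D : List (List A)),
    D.flatten = y ++ evg σ G t ++ fl θ b → BPR θ b D →
    (G.length ≤ d ∧ G ∈ Gs) → (∀ r ∈ t, r.2.length ≤ d ∧ r.2 ∈ Gs) →
    (t.map Prod.fst).Nodup → (∀ r ∈ t, 4 * Λ ≤ (σ r.1).length) →
    (∀ B ∈ D, B.length < 2 * Λ) → y.length ≤ 2 * Λ →
    (∀ D' : List (List A), D' <:+: D → D'.length * w ≤ c * (D'.flatten.length + w)) →
    ∃ (ρ : X → List A) (y' : List A) (n : ℕ),
      (D.map φ).flatten = y' ++ evg ρ G t ++ fl θ' b ∧ y'.length ≤ M * n ∧
      n * w ≤ c * (y.length + d + 2 * Λ + w) ∧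
      ∀ r ∈ t, (ρ r.1).length * w ≤ c * M * ((σ r.1).length + 8 * Λ + 3 * w) := by
  intro t
  induction t with
  | nil =>
    intro G y D hD hr hG _ _ _ hB hy hsp
    rw [evg_nil] at hD
    obtain ⟨y', h1⟩ := gap_oc hφ hW b hb G y hG.1 D hD hr
    refine ⟨fun _ => [], y', D.length, by rw [evg_nil]; exact h1, ?_, ?_, by simp⟩
    · have h2 := length_map_flatten_le hM D
      rw [h1, List.length_append, List.length_append] at h2
      omega
    · refine (hsp D List.infix_rfl).trans (Nat.mul_le_mul_left _ ?_)
      rw [hD, List.length_append, List.length_append]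
      have := hG.1
      omega
  | cons r t ih =>
    intro G y D hD hr hG ht hnd hlong hB hy hsp
    classical
    rw [evg_cons] at hD
    obtain ⟨D1, T, D2, y1, y2, h1, h2, h3, h4, h5, h6⟩ := split_long (U := y ++ G)
      (Yw := σ r.1) (V := evg σ r.2 t ++ fl θ b) hΛ hB
      (by rw [hD]; simp only [List.append_assoc]) (hlong r (by simp))
    obtain ⟨y', z', h7⟩ := gap_oo hφ (hW b [] hb List.nil_infix) G y y1 hG.1 hG.2 D1 h3
    rw [List.map_cons, List.nodup_cons] at hnd
    obtain ⟨ρ', y2', n, h8, h9, h10, h11⟩ := ih r.2 y2 D2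
      (by rw [h4, List.append_assoc]) (by rw [h1] at hr; exact hr.right)
      (ht r (by simp)) (fun r' hr' => ht r' (List.mem_cons_of_mem _ hr')) hnd.2
      (fun r' hr' => hlong r' (List.mem_cons_of_mem _ hr'))
      (fun B hB' => hB B (by rw [h1]; exact List.mem_append_right _ hB')) h6.le
      (fun D' hD' => hsp D' (by
        rw [h1]
        exact hD'.trans (List.suffix_append _ _).isInfix))
    have hne : ∀ r' ∈ t, r'.1 ≠ r.1 := by
      intro r' hr' he
      exact hnd.1 (he ▸ List.mem_map_of_mem hr')
    have hev : evg (Function.update ρ' r.1 (z' ++ (T.map φ).flatten ++ y2')) r.2 t =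
        evg ρ' r.2 t := evg_congr _ fun r' hr' => Function.update_of_ne (hne r' hr') _ _
    have hs1 := hsp D1 (by
      rw [h1, List.append_assoc]
      exact (List.prefix_append _ _).isInfix)
    have hs2 := hsp T (by
      rw [h1]
      exact ⟨D1, D2, rfl⟩)
    have hl1 := congrArg List.length h3
    have hl2 := congrArg List.length h2
    rw [List.length_append, List.length_append] at hl1 hl2
    have hg := hG.1
    refine ⟨Function.update ρ' r.1 (z' ++ (T.map φ).flatten ++ y2'), y', D1.length, ?_, ?_, ?_, ?_⟩
    · rw [evg_cons, hev, Function.update_self, h1, List.map_append, List.map_append,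
        List.flatten_append, List.flatten_append, h7, h8]
      simp only [List.append_assoc]
    · have h12 := length_map_flatten_le hM D1
      rw [h7, List.length_append, List.length_append] at h12
      omega
    · refine hs1.trans (Nat.mul_le_mul_left _ ?_)
      omega
    · intro r' hr'
      rcases List.mem_cons.1 hr' with hr' | hr'
      · subst hr'
        rw [Function.update_self, List.length_append, List.length_append]
        have h12 := length_map_flatten_le hM D1
        have h13 := length_map_flatten_le hM T
        rw [h7, List.length_append, List.length_append] at h12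
        have h14 : z'.length + (T.map φ).flatten.length + y2'.length ≤
            M * (D1.length + T.length + n) := by
          rw [mul_add, mul_add]
          omega
        calc (z'.length + (T.map φ).flatten.length + y2'.length) * w ≤
              M * (D1.length + T.length + n) * w := Nat.mul_le_mul_right _ h14
          _ = M * (D1.length * w + T.length * w + n * w) := by ring
          _ ≤ M * (c * (D1.flatten.length + w) + c * (T.flatten.length + w) +
                c * (y2.length + d + 2 * Λ + w)) :=
              Nat.mul_le_mul_left _ (Nat.add_le_add (Nat.add_le_add hs1 hs2) h10)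
          _ = c * M * ((D1.flatten.length + T.flatten.length + y2.length) +
                d + 2 * Λ + 3 * w) := by ring
          _ ≤ c * M * ((σ r'.1).length + 8 * Λ + 3 * w) :=
              Nat.mul_le_mul_left _ (by omega)
      · rw [Function.update_of_ne (hne r' hr')]
        exact h11 r' hr'

/-- R11b: a gap with jokers -/
theorem gap_jok {A X Y : Type*} {θ θ' : Y → List A} {W : List Y → Prop} {d Λ M w c : ℕ}
    {Gs : List (List A)} {φ : List A → List A} (hφ : PhiOK θ θ' W d Gs φ)
    (hW : ∀ a b, W a → b <:+: a → W b) (σ : X → List A) (a b : List Y) (ha : W a)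
    (hb : W b) (G : List A) (t : List (X × List A)) (D : List (List A))
    (hD : D.flatten = fl θ a ++ evg σ G t ++ fl θ b) (hl : BPL θ a D) (hr : BPR θ b D)
    (hG : G.length ≤ d ∧ G ∈ Gs) (ht : ∀ r ∈ t, r.2.length ≤ d ∧ r.2 ∈ Gs)
    (hnd : (t.map Prod.fst).Nodup) (hlong : ∀ r ∈ t, 4 * Λ ≤ (σ r.1).length) (hΛ : 1 ≤ Λ)
    (hB : ∀ B ∈ D, B.length < 2 * Λ) (hdΛ : d ≤ Λ) (haΛ : (fl θ a).length ≤ Λ)
    (hbΛ : (fl θ b).length ≤ Λ) (hM : ∀ B, (φ B).length ≤ M)
    (hsp : ∀ D' : List (List A), D' <:+: D → D'.length * w ≤ c * (D'.flatten.length + w)) :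
    ∃ ρ : X → List A, (D.map φ).flatten = fl θ' a ++ evg ρ G t ++ fl θ' b ∧
      ∀ r ∈ t, (ρ r.1).length * w ≤ c * M * ((σ r.1).length + 8 * Λ + 3 * w) := by
  classical
  cases t with
  | nil =>
    rw [evg_nil] at hD
    refine ⟨fun _ => [], ?_, by simp⟩
    rw [evg_nil]
    exact gap_cc hφ hW a b ha hb G hG.1 D hD hl hr
  | cons r t =>
    rw [evg_cons] at hD
    obtain ⟨D1, T, D2, y1, y2, h1, h2, h3, h4, h5, h6⟩ := split_long (U := fl θ a ++ G)
      (Yw := σ r.1) (V := evg σ r.2 t ++ fl θ b) hΛ hB
      (by rw [hD]; simp only [List.append_assoc]) (hlong r (by simp))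
    obtain ⟨z', h7⟩ := gap_co hφ hW a ha G y1 hG.1 D1 h3 (by
      rw [h1, List.append_assoc] at hl
      exact hl.left)
    rw [List.map_cons, List.nodup_cons] at hnd
    obtain ⟨ρ', y2', n, h8, h9, h10, h11⟩ := gap_right hφ hW σ b hb hΛ hdΛ hbΛ hM t r.2 y2 D2
      (by rw [h4, List.append_assoc]) (by rw [h1] at hr; exact hr.right)
      (ht r (by simp)) (fun r' hr' => ht r' (List.mem_cons_of_mem _ hr')) hnd.2
      (fun r' hr' => hlong r' (List.mem_cons_of_mem _ hr'))
      (fun B hB' => hB B (by rw [h1]; exact List.mem_append_right _ hB')) h6.le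
      (fun D' hD' => hsp D' (by
        rw [h1]
        exact hD'.trans (List.suffix_append _ _).isInfix))
    have hne : ∀ r' ∈ t, r'.1 ≠ r.1 := by
      intro r' hr' he
      exact hnd.1 (he ▸ List.mem_map_of_mem hr')
    have hev : evg (Function.update ρ' r.1 (z' ++ (T.map φ).flatten ++ y2')) r.2 t =
        evg ρ' r.2 t := evg_congr _ fun r' hr' => Function.update_of_ne (hne r' hr') _ _
    have hs1 := hsp D1 (by
      rw [h1, List.append_assoc]
      exact (List.prefix_append _ _).isInfix)
    have hs2 := hsp T (by
      rw [h1]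
      exact ⟨D1, D2, rfl⟩)
    have hl1 := congrArg List.length h3
    have hl2 := congrArg List.length h2
    rw [List.length_append, List.length_append] at hl1 hl2
    have hg := hG.1
    refine ⟨Function.update ρ' r.1 (z' ++ (T.map φ).flatten ++ y2'), ?_, ?_⟩
    · rw [evg_cons, hev, Function.update_self, h1, List.map_append, List.map_append,
        List.flatten_append, List.flatten_append, h7, h8]
      simp only [List.append_assoc]
    · intro r' hr'
      rcases List.mem_cons.1 hr' with hr' | hr'
      · subst hr'
        rw [Function.update_self, List.length_append, List.length_append]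
        have h12 := length_map_flatten_le hM D1
        have h13 := length_map_flatten_le hM T
        rw [h7, List.length_append, List.length_append] at h12
        have h14 : z'.length + (T.map φ).flatten.length + y2'.length ≤
            M * (D1.length + T.length + n) := by
          rw [mul_add, mul_add]
          omega
        calc (z'.length + (T.map φ).flatten.length + y2'.length) * w ≤
              M * (D1.length + T.length + n) * w := Nat.mul_le_mul_right _ h14
          _ = M * (D1.length * w + T.length * w + n * w) := by ring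
          _ ≤ M * (c * (D1.flatten.length + w) + c * (T.flatten.length + w) +
                c * (y2.length + d + 2 * Λ + w)) :=
              Nat.mul_le_mul_left _ (Nat.add_le_add (Nat.add_le_add hs1 hs2) h10)
          _ = c * M * ((D1.flatten.length + T.flatten.length + y2.length) +
                d + 2 * Λ + 3 * w) := by ring
          _ ≤ c * M * ((σ r'.1).length + 8 * Λ + 3 * w) :=
              Nat.mul_le_mul_left _ (by omega)
      · rw [Function.update_of_ne (hne r' hr')]
        exact h11 r' hr'

end WJ
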