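import Pool.Agent.WJ.Occ64
import Pool.Agent.WJ.Bd66
import Pool.Agent.WJ.Split3

/-! Word equations with boundedly many repeated variables (MP_fc7ad9_lc). Helper module:
the replacement of blocks on one side of the equation. -/

set_option autoImplicit false

open WE45 WK64 WK

namespace WJ

section Evg

variable {A X : Type*}

theorem evg_congr64 {f g : X → List A} (G : List A) {t : List (X × List A)}
    (h : ∀ r ∈ t, f r.1 = g r.1) : evg f G t = evg g G t := by
  simp only [evg]
  congr 1
  induction t with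
  | nil => rfl
  | cons r t ih =>
    rw [List.flatMap_cons, List.flatMap_cons, h r (by simp),
      ih (fun r' h' => h r' (List.mem_cons_of_mem _ h'))]

theorem evg_split64 (f : X → List A) (G : List A) (t1 t2 : List (X × List A)) (x : X)
    (G' : List A) : evg f G (t1 ++ (x, G') :: t2) = evg f G t1 ++ (f x ++ evg f G' t2) := by
  simp only [evg, List.flatMap_append, List.flatMap_cons, List.append_assoc]

theorem exists_first64 (rl : X → Prop) (t : List (X × List A)) :
    (∀ r ∈ t, ¬ rl r.1) ∨ ∃ t1 x G' t2, t = t1 ++ (x, G') :: t2 ∧ (∀ r ∈ t1, ¬ rl r.1) ∧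
      rl x := by
  induction t with
  | nil => left; simp
  | cons r t ih =>
    by_cases hr : rl r.1
    · right
      exact ⟨[], r.1, r.2, t, by simp, by simp, hr⟩
    · rcases ih with ih | ⟨t1, x, G', t2, h1, h2, h3⟩
      · left
        intro r' h'
        rcases List.mem_cons.1 h' with h' | h'
        · rw [h']; exact hr
        · exact ih r' h'
      · right
        refine ⟨r :: t1, x, G', t2, by rw [h1]; rfl, ?_, h3⟩
        intro r' h'
        rcases List.mem_cons.1 h' with h' | h'
        · rw [h']; exact hr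
        · exact h2 r' h'

end Evg

section Side

variable {A X Y : Type*} {K : List A → List A → Prop}
  {w N m : ℕ} {σ pre mid suf : X → List A} {as bs : X → List (List A)} {rl : X → Prop}
  {θ θ' : Y → List A} {Wp : List Y → Prop} {d Λ M : ℕ} {Gs : List (List A)}
  {φ : List A → List A}

variable (K θ' φ Λ pre mid suf) in
/-- the new values of the long variables -/
noncomputable def sN [∀ h f, Decidable (K h f)] (rl : X → Prop) (aL bL : X → List Y)
    (ρ : X → List A) (x : X) : List A :=
  @ite _ (rl x) (Classical.dec _)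
    (fl θ' (bL x) ++ (((MM K Λ pre mid suf x).map φ).flatten ++ fl θ' (aL x))) (ρ x)

theorem fl_map64 {a : List Y} {l : List (List A)} (h : a.map θ = l) : fl θ a = l.flatten := by
  rw [← h, fl, List.flatMap_def]

theorem fl_prefix64 {a : List Y} {l l1 l2 : List (List A)} (h : a.map θ = l)
    (h2 : l = l1 ++ l2) : ∃ a1 a2, a = a1 ++ a2 ∧ fl θ a1 = l1.flatten ∧
      fl θ a2 = l2.flatten := by
  rw [h2] at h
  obtain ⟨a1, a2, e1, e2, e3⟩ := List.map_eq_append_iff.1 h
  exact ⟨a1, a2, e1, fl_map64 e2, fl_map64 e3⟩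

/-- one side of the equation -/
theorem side [∀ h f, Decidable (K h f)] (hφ : PhiOK θ θ' Wp d Gs φ)
    (hW : ∀ a b, Wp a → b <:+: a → Wp b) (h0 : Wp [])
    (hC : CutData w N m K σ pre mid suf as bs rl) (hw : 1 ≤ w) (hΛ : (N + 2) * w ≤ Λ)
    (hdΛ : d ≤ Λ) (aL bL : X → List Y)
    (hL : ∀ x, rl x → (aL x).map θ = as x ∧ (bL x).map θ = bs x ∧ Wp (aL x) ∧ Wp (bL x))
    (hM : ∀ B, (φ B).length ≤ M) {W : List A} : ∀ (n : ℕ) (t : List (X × List A)),
    t.length ≤ n → ∀ (D0 D : List (List A)) (a : List Y) (G : List A), Wp a →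
    (fl θ a).length ≤ Λ → dd K Λ W = D0 ++ D → D.flatten = fl θ a ++ evg σ G t →
    BPL θ a D → (G.length ≤ d ∧ G ∈ Gs) → (∀ r ∈ t, r.2.length ≤ d ∧ r.2 ∈ Gs) →
    (∀ x, ¬ rl x → ∀ t1 t2 G1, t = t1 ++ (x, G1) :: t2 → x ∉ t1.map Prod.fst ∧
      x ∉ t2.map Prod.fst) →
    (∀ r ∈ t, 4 * Λ ≤ (σ r.1).length) →
    ∃ ρ : X → List A,
      (D.map φ).flatten = fl θ' a ++ evg (sN K pre mid suf θ' Λ φ rl aL bL ρ) G t ∧
      ∀ r ∈ t, ¬ rl r.1 →
        (ρ r.1).length * w ≤ (2 * m + 2) * M * ((σ r.1).length + 8 * Λ + 3 * w) := by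
  classical
  have hΛ1 : 1 ≤ Λ := by
    have : 1 * 1 ≤ (N + 2) * w := Nat.mul_le_mul (by omega) hw
    omega
  have hwΛ : w ≤ Λ := by
    have : 1 * w ≤ (N + 2) * w := Nat.mul_le_mul (by omega) le_rfl
    omega
  have hnodup : ∀ t : List (X × List A), (∀ r ∈ t, ¬ rl r.1) →
      (∀ x, ¬ rl x → ∀ t1 t2 G1, t = t1 ++ (x, G1) :: t2 → x ∉ t1.map Prod.fst ∧
        x ∉ t2.map Prod.fst) → (t.map Prod.fst).Nodup := by
    intro t ht hu
    induction t with
    | nil => simp
    | cons r t ih =>
      rw [List.map_cons, List.nodup_cons]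
      refine ⟨(hu r.1 (ht r (by simp)) [] t r.2 (by simp)).2, ih ?_ ?_⟩
      · exact fun r' h' => ht r' (List.mem_cons_of_mem _ h')
      · intro x hx t1 t2 G1 he
        have := hu x hx (r :: t1) t2 G1 (by rw [he]; rfl)
        refine ⟨fun h => this.1 ?_, this.2⟩
        rw [List.map_cons]
        exact List.mem_cons_of_mem _ h
  intro n
  induction n with
  | zero =>
    intro t ht D0 D a G ha haΛ hdd hD hl hG _ _ _
    have ht0 : t = [] := List.eq_nil_of_length_eq_zero (by omega)
    subst ht0
    obtain ⟨ρ, h1, _⟩ := gap_jok (c := 2 * m + 2) (w := w) hφ hW σ a [] ha h0 G [] D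
      (by rw [hD]; simp [fl]) hl (by
        intro D1 D2 _ h2
        refine ⟨[], [], rfl, ?_⟩
        have : (fl θ ([] : List Y)).length = 0 := rfl
        rw [this] at h2
        exact List.eq_nil_of_length_eq_zero (by omega)) hG (by simp) (by simp) (by simp) hΛ1
      (fun B hB => dd_lt K hΛ1 W B (by rw [hdd]; exact List.mem_append_right _ hB)) hdΛ haΛ
      (by simp [fl]) hM
      (fun D' hD' => hC.sparse_dd hΛ1 hwΛ (W := W)
        (hD'.trans (by rw [hdd]; exact (List.suffix_append _ _).isInfix)))
    refine ⟨ρ, ?_, by simp⟩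
    rw [h1]
    simp [fl, evg]
  | succ n ih =>
    intro t ht D0 D a G ha haΛ hdd hD hl hG htG hu hlong
    have hin : D <:+: dd K Λ W := by rw [hdd]; exact (List.suffix_append _ _).isInfix
    rcases exists_first64 rl t with hall | ⟨t1, x, G', t2, e1, e2, hx⟩
    · obtain ⟨ρ, h1, h2⟩ := gap_jok (c := 2 * m + 2) (w := w) hφ hW σ a [] ha h0 G t D
        (by rw [hD]; simp [fl]) hl (by
          intro D1 D2 _ h2
          refine ⟨[], [], rfl, ?_⟩
          have : (fl θ ([] : List Y)).length = 0 := rfl
          rw [this] at h2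
          exact List.eq_nil_of_length_eq_zero (by omega)) hG htG (hnodup t hall hu) hlong hΛ1
        (fun B hB => dd_lt K hΛ1 W B (hin.subset hB)) hdΛ haΛ
        (by simp [fl]) hM (fun D' hD' => hC.sparse_dd hΛ1 hwΛ (W := W) (hD'.trans hin))
      refine ⟨ρ, ?_, fun r hr _ => h2 r hr⟩
      rw [h1, evg_congr64 (f := sN K pre mid suf θ' Λ φ rl aL bL ρ) (g := ρ) G
        (fun r hr => if_neg (hall r hr))]
      simp [fl]
    · subst e1
      have hWeq : W = (D0.flatten ++ (fl θ a ++ evg σ G t1)) ++ (σ x ++ evg σ G' t2) := by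
        have h1 : (dd K Λ W).flatten = W := flatten_dd K Λ W
        rw [hdd, List.flatten_append, hD, evg_split64] at h1
        rw [← h1]
        simp only [List.append_assoc]
      obtain ⟨E1, E2, k1, k2, k3, k4, k5⟩ := hC.occ hw (l := Λ) hx
        (D0.flatten ++ (fl θ a ++ evg σ G t1)) (evg σ G' t2)
      rw [← hWeq] at k1
      have hPx := (hC.preL x hx)
      have hSx := (hC.sufL x hx)
      obtain ⟨T, k6, k7⟩ : ∃ T, E1 = D0 ++ T ∧ D = T ++ (MM K Λ pre mid suf x ++ E2) := by
        have h := hdd.symm.trans k1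
        rcases List.append_eq_append_iff.1 h with ⟨C, h5, h6⟩ | ⟨C, h5, h6⟩
        · exact ⟨C, h5, h6⟩
        · exfalso
          have h7 := congrArg (fun l => l.flatten.length) h5
          simp only [List.flatten_append, List.length_append] at h7
          rw [k2] at h7
          simp only [List.length_append] at h7
          omega
      have hTf : T.flatten = fl θ a ++ evg σ G t1 ++ pre x := by
        rw [k6, List.flatten_append] at k2
        simp only [List.append_assoc] at k2
        have := List.append_cancel_left k2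
        rw [this]
        simp only [List.append_assoc]
      obtain ⟨l1, l2, l3, l4⟩ := hL x hx
      have hbf : fl θ (bL x) = pre x := by rw [fl_map64 l2]; exact (hC.bs_flat x hx).1
      have haf : fl θ (aL x) = suf x := by rw [fl_map64 l1]; exact (hC.as_flat x hx).1
      have hTin : T <:+: dd K Λ W := by
        rw [hdd, k7]
        exact ⟨D0, MM K Λ pre mid suf x ++ E2, by simp only [List.append_assoc]⟩
      have hlT : BPL θ a T := by
        intro D1 D2 h1 h2
        exact hl D1 (D2 ++ (MM K Λ pre mid suf x ++ E2))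
          (by rw [k7, h1]; simp only [List.append_assoc]) h2
      have hrT : BPR θ (bL x) T := by
        intro D1 D2 h1 h2
        rw [hbf] at h2
        obtain ⟨b1, b2, g1, g2⟩ := hC.bpr hw hΛ hx (D0.flatten ++ (fl θ a ++ evg σ G t1))
          (evg σ G' t2) (E1 := E1) (E3 := MM K Λ pre mid suf x ++ E2) (by rw [← hWeq]; exact k1)
          k2 (D0 ++ D1) D2 (by rw [k6, h1]; simp only [List.append_assoc]) h2
        obtain ⟨c1, c2, g3, g4, g5⟩ := fl_prefix64 l2 g1
        exact ⟨c1, c2, g3, by rw [g5, g2]⟩
      obtain ⟨ρ1, m1, m2⟩ := gap_jok (c := 2 * m + 2) (w := w) hφ hW σ a (bL x) ha l4 G t1 T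
        (by rw [hTf, hbf]) hlT hrT hG (fun r hr => htG r (List.mem_append_left _ hr))
        (hnodup t1 e2 (by
          intro y hy t3 t4 G1 he
          have := hu y hy t3 (t4 ++ (x, G') :: t2) G1 (by rw [he]; simp)
          refine ⟨this.1, fun h => this.2 ?_⟩
          rw [List.map_append]
          exact List.mem_append_left _ h))
        (fun r hr => hlong r (List.mem_append_left _ hr)) hΛ1
        (fun B hB => dd_lt K hΛ1 W B (hTin.subset hB)) hdΛ haΛ (by rw [hbf]; omega) hM
        (fun D' hD' => hC.sparse_dd hΛ1 hwΛ (W := W) (hD'.trans hTin))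
      have hE2l : BPL θ (aL x) E2 := by
        intro D1 D2 h1 h2
        rw [haf] at h2
        obtain ⟨b1, b2, g1, g2⟩ := hC.bpl hw hΛ hx (D0.flatten ++ (fl θ a ++ evg σ G t1))
          (evg σ G' t2) (E0 := E1 ++ MM K Λ pre mid suf x) (E2 := E2)
          (by rw [← hWeq, k1]; simp only [List.append_assoc]) k3 D1 D2 h1 h2
        obtain ⟨c1, c2, g3, g4, g5⟩ := fl_prefix64 l1 g1
        exact ⟨c1, c2, g3, by rw [g4, g2]⟩
      obtain ⟨ρ2, n1, n2⟩ := ih t2 (by
          rw [List.length_append, List.length_cons] at ht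
          omega) (E1 ++ MM K Λ pre mid suf x) E2 (aL x) G' l3 (by rw [haf]; omega)
        (by rw [k1]; simp only [List.append_assoc]) (by rw [haf]; exact k3) hE2l
        (htG (x, G') (by simp)) (fun r hr => htG r (by simp [hr]))
        (by
          intro y hy t3 t4 G1 he
          have := hu y hy (t1 ++ (x, G') :: t3) t4 G1 (by rw [he]; simp)
          refine ⟨fun h => this.1 ?_, this.2⟩
          rw [List.map_append, List.map_cons]
          exact List.mem_append_right _ (List.mem_cons_of_mem _ h))
        (fun r hr => hlong r (by simp [hr]))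
      have hdis : ∀ r ∈ t2, ¬ rl r.1 → r.1 ∉ t1.map Prod.fst := by
        intro r hr hnr h
        obtain ⟨t3, t4, he⟩ := List.append_of_mem hr
        have := hu r.1 hnr (t1 ++ (x, G') :: t3) t4 r.2 (by rw [he]; simp)
        apply this.1
        rw [List.map_append]
        exact List.mem_append_left _ h
      refine ⟨fun y => if y ∈ t1.map Prod.fst then ρ1 y else ρ2 y, ?_, ?_⟩
      · rw [k7]
        simp only [List.map_append, List.flatten_append]
        rw [m1, n1, evg_split64]
        rw [evg_congr64 (f := sN K pre mid suf θ' Λ φ rl aL bL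
          (fun y => if y ∈ t1.map Prod.fst then ρ1 y else ρ2 y)) (g := ρ1) (t := t1) G (by
            intro r hr
            rw [sN, if_neg (e2 r hr), if_pos (List.mem_map_of_mem hr)])]
        rw [evg_congr64 (f := sN K pre mid suf θ' Λ φ rl aL bL
          (fun y => if y ∈ t1.map Prod.fst then ρ1 y else ρ2 y))
          (g := sN K pre mid suf θ' Λ φ rl aL bL ρ2) (t := t2) G' (by
            intro r hr
            by_cases hr1 : rl r.1
            · rw [sN, sN, if_pos hr1, if_pos hr1]
            · rw [sN, sN, if_neg hr1, if_neg hr1, if_neg (hdis r hr hr1)])]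
        have e5 : sN K pre mid suf θ' Λ φ rl aL bL
          (fun y => if y ∈ t1.map Prod.fst then ρ1 y else ρ2 y) x =
            fl θ' (bL x) ++ (((MM K Λ pre mid suf x).map φ).flatten ++ fl θ' (aL x)) := by
          rw [sN, if_pos hx]
        rw [e5]
        simp only [List.append_assoc]
      · intro r hr hnr
        rcases List.mem_append.1 hr with h | h
        · simp only [if_pos (List.mem_map_of_mem h)]
          exact m2 r h
        · rcases List.mem_cons.1 h with h | h
          · rw [h] at hnr
            exact absurd hx hnr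
          · simp only [if_neg (hdis r h hnr)]
            exact n2 r h hnr

end Side

end WJ
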