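import Pool.Agent.WK64.Parse

/-! Word equations with boundedly many repeated variables (MP_fc7ad9_lc). Helper module:
tagged words (a tag marks a cut after the letter), blocks, chopping of long blocks. -/

namespace WJ

open WE45 WK64

variable {A X : Type*}

section Tg

variable (K : List A → List A → Prop) [∀ h f, Decidable (K h f)]

/-- the word `u` between the contexts `h` and `f`, with the cuts of the two sided rule `K` -/
def tg : List A → List A → List A → List (A × Bool)
  | _, [], _ => []
  | h, a :: u, f => (a, decide (K (h ++ [a]) (u ++ f))) :: tg (h ++ [a]) u f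

theorem tg_nil (h f : List A) : tg K h [] f = [] := rfl

theorem tg_append : ∀ (u h v f : List A),
    tg K h (u ++ v) f = tg K h u (v ++ f) ++ tg K (h ++ u) v f
  | [], h, v, f => by simp [tg]
  | a :: u, h, v, f => by
      rw [List.cons_append]
      simp only [tg]
      rw [tg_append u, List.cons_append, List.append_assoc, List.append_assoc,
        List.singleton_append]

theorem map_fst_tg : ∀ (u h f : List A), (tg K h u f).map Prod.fst = u
  | [], h, f => rfl
  | a :: u, h, f => by simp only [tg, List.map_cons, map_fst_tg u]

theorem length_tg (u h f : List A) : (tg K h u f).length = u.length := by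
  rw [← List.length_map (f := Prod.fst), map_fst_tg]

/-- the rule looks at the last `w` letters on the left only -/
def LocL (w : ℕ) : Prop := ∀ h t f : List A, w ≤ t.length → (K (h ++ t) f ↔ K t f)

/-- the rule looks at the first `w` letters on the right only -/
def LocR (w : ℕ) : Prop := ∀ h f g : List A, w ≤ f.length → (K h (f ++ g) ↔ K h f)

theorem tg_locL {w : ℕ} (hK : LocL K w) : ∀ (u h t f : List A), w ≤ t.length →
    tg K (h ++ t) u f = tg K t u f
  | [], h, t, f, _ => rfl
  | a :: u, h, t, f, ht => by
      have h1 : w ≤ (t ++ [a]).length := by rw [List.length_append]; omega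
      have h2 := hK h (t ++ [a]) (u ++ f) h1
      simp only [tg, List.append_assoc h t [a], tg_locL hK u h (t ++ [a]) f h1]
      congr 2
      exact decide_eq_decide.2 h2

theorem tg_locR {w : ℕ} (hK : LocR K w) : ∀ (u h f g : List A), w ≤ f.length →
    tg K h u (f ++ g) = tg K h u f
  | [], h, f, g, _ => rfl
  | a :: u, h, f, g, hf => by
      have h1 : w ≤ (u ++ f).length := by rw [List.length_append]; omega
      have h2 := hK (h ++ [a]) (u ++ f) g h1
      rw [List.append_assoc] at h2
      simp only [tg, tg_locR hK u (h ++ [a]) f g hf]
      congr 2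
      exact decide_eq_decide.2 h2

/-- the last tag -/
theorem tg_concat (u h f : List A) (a : A) :
    tg K h (u ++ [a]) f = tg K h u ([a] ++ f) ++ [(a, decide (K (h ++ u ++ [a]) f))] := by
  rw [tg_append]
  simp [tg]

end Tg

section Blocks

/-- completed blocks of a tagged word with pending block `p` -/
def outT : List A → List (A × Bool) → List (List A)
  | _, [] => []
  | p, (a, true) :: u => (p ++ [a]) :: outT [] u
  | p, (a, false) :: u => outT (p ++ [a]) u

/-- the pending block -/
def pendT : List A → List (A × Bool) → List A
  | p, [] => p
  | _, (_, true) :: u => pendT [] u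
  | p, (a, false) :: u => pendT (p ++ [a]) u

theorem outT_nil (p : List A) : outT p [] = [] := rfl

theorem pendT_nil (p : List A) : pendT p [] = p := rfl

theorem outT_append : ∀ (u : List (A × Bool)) (p : List A) (v : List (A × Bool)),
    outT p (u ++ v) = outT p u ++ outT (pendT p u) v
  | [], p, v => by simp [outT, pendT]
  | (a, true) :: u, p, v => by
      rw [List.cons_append]
      simp only [outT, pendT]
      rw [outT_append u, List.cons_append]
  | (a, false) :: u, p, v => by
      rw [List.cons_append]
      simp only [outT, pendT]
      rw [outT_append u]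

theorem pendT_append : ∀ (u : List (A × Bool)) (p : List A) (v : List (A × Bool)),
    pendT p (u ++ v) = pendT (pendT p u) v
  | [], p, v => by simp [pendT]
  | (a, true) :: u, p, v => by
      rw [List.cons_append]
      simp only [pendT]
      rw [pendT_append u]
  | (a, false) :: u, p, v => by
      rw [List.cons_append]
      simp only [pendT]
      rw [pendT_append u]

theorem flatten_outT : ∀ (u : List (A × Bool)) (p : List A),
    (outT p u).flatten ++ pendT p u = p ++ u.map Prod.fst
  | [], p => by simp [outT, pendT]
  | (a, true) :: u, p => by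
      simp only [outT, pendT]
      rw [List.flatten_cons, List.append_assoc, flatten_outT u]
      simp
  | (a, false) :: u, p => by
      simp only [outT, pendT]
      rw [flatten_outT u]
      simp

/-- the tagged word is empty or ends with a cut -/
def Closed (u : List (A × Bool)) : Prop := ∀ v a, u = v ++ [a] → a.2 = true

theorem closed_nil : Closed ([] : List (A × Bool)) := by
  intro v a h
  exact absurd h (by simp)

theorem closed_concat (u : List (A × Bool)) (a : A) : Closed (u ++ [(a, true)]) := by
  intro v b h
  have := (List.append_inj' h (by simp)).2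
  simp only [List.cons.injEq, and_true] at this
  rw [← this]

theorem Closed.pendT {u : List (A × Bool)} (h : Closed u) (hu : u ≠ []) (p : List A) :
    pendT p u = [] := by
  obtain ⟨v, a, rfl⟩ : ∃ v a, u = v ++ [a] :=
    ⟨u.dropLast, u.getLast hu, (List.dropLast_append_getLast hu).symm⟩
  have h1 := h v a rfl
  obtain ⟨b, c⟩ := a
  simp only at h1
  subst h1
  rw [pendT_append]
  rfl

theorem Closed.pendT_nil {u : List (A × Bool)} (h : Closed u) : WJ.pendT [] u = [] := by
  rcases eq_or_ne u [] with rfl | hu
  · rfl
  · exact h.pendT hu []

/-- all blocks, the pending one included -/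
def blT (u : List (A × Bool)) : List (List A) := outT [] u ++ [pendT [] u]

theorem flatten_blT (u : List (A × Bool)) : (blT u).flatten = u.map Prod.fst := by
  rw [blT, List.flatten_append, List.flatten_singleton, flatten_outT]
  rfl

theorem outT_ne_nil : ∀ (u : List (A × Bool)) (p : List A), ∀ B ∈ outT p u, B ≠ []
  | [], p, B, h => by simp [outT] at h
  | (a, true) :: u, p, B, h => by
      simp only [outT, List.mem_cons] at h
      rcases h with h | h
      · rw [h]; simp
      · exact outT_ne_nil u [] B h
  | (a, false) :: u, p, B, h => by
      simp only [outT] at h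
      exact outT_ne_nil u _ B h

end Blocks

section Chop

/-- additional cuts after every `l` letters since the last cut (`c` letters are pending) -/
def chop (l : ℕ) : ℕ → List (A × Bool) → List (A × Bool)
  | _, [] => []
  | c, (a, b) :: u => if b = true ∨ l ≤ c + 1 then (a, true) :: chop l 0 u
      else (a, false) :: chop l (c + 1) u

/-- number of pending letters after reading -/
def cnt (l : ℕ) : ℕ → List (A × Bool) → ℕ
  | c, [] => c
  | c, (_, b) :: u => if b = true ∨ l ≤ c + 1 then cnt l 0 u else cnt l (c + 1) u

theorem chop_append (l : ℕ) : ∀ (u : List (A × Bool)) (c : ℕ) (v : List (A × Bool)),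
    chop l c (u ++ v) = chop l c u ++ chop l (cnt l c u) v
  | [], c, v => by simp [chop, cnt]
  | (a, b) :: u, c, v => by
      rw [List.cons_append]
      simp only [chop, cnt]
      split_ifs
      · rw [chop_append l u, List.cons_append]
      · rw [chop_append l u, List.cons_append]

theorem cnt_append (l : ℕ) : ∀ (u : List (A × Bool)) (c : ℕ) (v : List (A × Bool)),
    cnt l c (u ++ v) = cnt l (cnt l c u) v
  | [], c, v => by simp [cnt]
  | (a, b) :: u, c, v => by
      rw [List.cons_append]
      simp only [cnt]
      split_ifs
      · rw [cnt_append l u]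
      · rw [cnt_append l u]

theorem map_fst_chop (l : ℕ) : ∀ (u : List (A × Bool)) (c : ℕ),
    (chop l c u).map Prod.fst = u.map Prod.fst
  | [], c => rfl
  | (a, b) :: u, c => by
      simp only [chop]
      split_ifs
      · rw [List.map_cons, map_fst_chop l u, List.map_cons]
      · rw [List.map_cons, map_fst_chop l u, List.map_cons]

theorem length_chop (l : ℕ) (u : List (A × Bool)) (c : ℕ) :
    (chop l c u).length = u.length := by
  rw [← List.length_map (f := Prod.fst), map_fst_chop, List.length_map]

theorem cnt_closed (l : ℕ) {u : List (A × Bool)} (h : Closed u) (c : ℕ) (hu : u ≠ [] ∨ c = 0) :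
    cnt l c u = 0 := by
  rcases eq_or_ne u [] with rfl | hne
  · rcases hu with hu | hu
    · exact absurd rfl hu
    · rw [hu]; rfl
  obtain ⟨v, a, rfl⟩ : ∃ v a, u = v ++ [a] :=
    ⟨u.dropLast, u.getLast hne, (List.dropLast_append_getLast hne).symm⟩
  have h1 := h v a rfl
  obtain ⟨b, d⟩ := a
  simp only at h1
  subst h1
  rw [cnt_append]
  simp [cnt]

theorem Closed.chop (l : ℕ) {u : List (A × Bool)} (h : Closed u) (c : ℕ) :
    Closed (chop l c u) := by
  rcases eq_or_ne u [] with rfl | hne
  · exact closed_nil
  obtain ⟨v, a, rfl⟩ : ∃ v a, u = v ++ [a] :=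
    ⟨u.dropLast, u.getLast hne, (List.dropLast_append_getLast hne).symm⟩
  have h1 := h v a rfl
  obtain ⟨b, d⟩ := a
  simp only at h1
  subst h1
  rw [chop_append]
  have : WJ.chop l (cnt l c v) [(b, true)] = [(b, true)] := by simp [WJ.chop]
  rw [this]
  exact closed_concat _ _

/-- all blocks of a chopped word are short -/
theorem chop_out_le {l : ℕ} (hl : 1 ≤ l) : ∀ (u : List (A × Bool)) (c : ℕ) (p : List A),
    p.length = c → c < l → (∀ B ∈ outT p (chop l c u), B.length ≤ l) ∧
      (pendT p (chop l c u)).length < l
  | [], c, p, hp, hc => by
      simp only [chop, outT, pendT]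
      exact ⟨by simp, by omega⟩
  | (a, b) :: u, c, p, hp, hc => by
      simp only [chop]
      split_ifs with h
      · obtain ⟨h1, h2⟩ := chop_out_le hl u 0 [] rfl (by omega)
        simp only [outT, pendT]
        refine ⟨?_, h2⟩
        intro B hB
        rcases List.mem_cons.1 hB with hB | hB
        · rw [hB, List.length_append, List.length_singleton]; omega
        · exact h1 B hB
      · have h3 : c + 1 < l := by
          by_contra h4
          exact h (Or.inr (by omega))
        simp only [outT, pendT]
        exact chop_out_le hl u (c + 1) (p ++ [a]) (by simp [hp]) h3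

theorem chop_blT_le {l : ℕ} (hl : 1 ≤ l) (u : List (A × Bool)) : ∀ B ∈ blT (chop l 0 u),
    B.length ≤ l := by
  intro B hB
  obtain ⟨h1, h2⟩ := chop_out_le hl u 0 [] rfl (by omega)
  rcases List.mem_append.1 hB with hB | hB
  · exact h1 B hB
  · rw [List.mem_singleton.1 hB]
    exact h2.le

end Chop

section Transfer

/-- a tagged gap form: the gaps are tagged words, the middle parts come from `M` -/
def evT (M : X → List (A × Bool)) : List (A × Bool) → List (X × List (A × Bool)) →
    List (A × Bool)
  | T, [] => T
  | T, r :: t => T ++ (M r.1 ++ evT M r.2 t)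

/-- the tagged gap form `(T, t')` fits to the gap form `(G, t)` under `φ` -/
def Fits (φ : List A → List A) (M : X → List (A × Bool)) (s' p' : X → List A) :
    Option X → List A → List (X × List A) → List (A × Bool) → List (X × List (A × Bool)) → Prop
  | o, G, [], T, [] => ((blT T).map φ).flatten = ox s' o ++ G
  | o, G, r :: t, T, r' :: t' => r.1 = r'.1 ∧ Closed T ∧
      ((outT [] T).map φ).flatten = ox s' o ++ G ++ p' r.1 ∧
      Fits φ M s' p' (some r.1) r.2 t r'.2 t'
  | _, _, _, _, _ => False

theorem transferT {φ : List A → List A} {M : X → List (A × Bool)} {s' p' : X → List A}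
    (hM : ∀ x, Closed (M x)) : ∀ (t : List (X × List A)) (o : Option X) (G : List A)
    (T : List (A × Bool)) (t' : List (X × List (A × Bool))), Fits φ M s' p' o G t T t' →
    ((blT (evT M T t')).map φ).flatten =
      ox s' o ++ evg (fun x => p' x ++ ((outT [] (M x)).map φ).flatten ++ s' x) G t
  | [], o, G, T, [], h => by
      simp only [Fits] at h
      simp only [evT, evg, List.flatMap_nil, List.append_nil]
      exact h
  | [], o, G, T, r' :: t', h => by simp [Fits] at h
  | r :: t, o, G, T, [], h => by simp [Fits] at h
  | r :: t, o, G, T, r' :: t', h => by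
      simp only [Fits] at h
      obtain ⟨h1, h2, h3, h4⟩ := h
      have ih := transferT hM t (some r.1) r.2 r'.2 t' h4
      have e1 : blT (evT M T (r' :: t')) = outT [] T ++ (outT [] (M r'.1) ++ blT (evT M r'.2 t')) := by
        simp only [evT, blT]
        rw [outT_append, pendT_append, h2.pendT_nil, outT_append, pendT_append,
          (hM r'.1).pendT_nil]
        simp only [List.append_assoc]
      rw [e1]
      simp only [List.map_append, List.flatten_append]
      rw [h3, ih, ← h1]
      simp only [evg, List.flatMap_cons, ox, List.append_assoc]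

/-- transfer of solutions through tagged words -/
theorem transfer_sides {φ : List A → List A} {M : X → List (A × Bool)} {s' p' : X → List A}
    (hM : ∀ x, Closed (M x)) (lg : X → Prop) [DecidablePred lg] (σ : X → List A)
    (L R : List (A ⊕ X)) (TL TR : List (A × Bool)) (tL tR : List (X × List (A × Bool)))
    (hL : Fits φ M s' p' none (gf lg σ L).1 (gf lg σ L).2 TL tL)
    (hR : Fits φ M s' p' none (gf lg σ R).1 (gf lg σ R).2 TR tR)
    (hT : evT M TL tL = evT M TR tR) :
    sb (fun x => if lg x then p' x ++ ((outT [] (M x)).map φ).flatten ++ s' x else σ x) L =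
    sb (fun x => if lg x then p' x ++ ((outT [] (M x)).map φ).flatten ++ s' x else σ x) R := by
  have key : ∀ (l : List (A ⊕ X)) (T : List (A × Bool)) (t' : List (X × List (A × Bool))),
      Fits φ M s' p' none (gf lg σ l).1 (gf lg σ l).2 T t' →
      sb (fun x => if lg x then p' x ++ ((outT [] (M x)).map φ).flatten ++ s' x else σ x) l =
        ((blT (evT M T t')).map φ).flatten := by
    intro l T t' hl
    have h1 := transferT hM (gf lg σ l).2 none (gf lg σ l).1 T t' hl
    rw [h1]
    have h6 : ox s' (none : Option X) = [] := rfl
    rw [h6, List.nil_append]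
    rw [← evg_gf lg σ (fun x => if lg x then p' x ++ ((outT [] (M x)).map φ).flatten ++ s' x
      else σ x) (fun x hx => if_neg hx) l]
    have h7 : ∀ r ∈ (gf lg σ l).2, lg r.1 := lg_of_mem lg σ l
    simp only [evg]
    congr 1
    generalize (gf lg σ l).2 = t at h7
    induction t with
    | nil => rfl
    | cons r t ih =>
      rw [List.flatMap_cons, List.flatMap_cons, ih (fun r' h' => h7 r' (List.mem_cons_of_mem _ h')),
        if_pos (h7 r (by simp))]
  rw [key L TL tL hL, key R TR tR hR, hT]

end Transfer

end WJ
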